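import Mathlib

/-! The parts of this file: HS.Chart, HS.Defs. -/

section

set_option maxSynthPendingDepth 3

/-!
# The coordinate expression of a Riemannian metric on a manifold (project HS, MP_55c470)

`chartMetric g p` is the metric `g` read in the preferred chart `extChartAt I p`: a function on the
model space with values in the continuous bilinear forms.
-/

open Bundle Manifold Set Filter ContinuousLinearMap
open scoped Manifold ContDiff Topology

noncomputable section

namespace Pool.Agent.HS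

variable {E : Type*} [NormedAddCommGroup E] [NormedSpace ℝ E]
  {H : Type*} [TopologicalSpace H] {I : ModelWithCorners ℝ E H}
  {M : Type*} [TopologicalSpace M] [ChartedSpace H M]

/-- The metric `g` read in the preferred chart at `p`. -/
def chartMetric (g : (x : M) → TangentSpace I x →L[ℝ] TangentSpace I x →L[ℝ] ℝ) (p : M) (u : E) :
    E →L[ℝ] E →L[ℝ] ℝ :=
  (show E →L[ℝ] E →L[ℝ] ℝ from g ((extChartAt I p).symm u)).bilinearComp
    (show E →L[ℝ] E from mfderiv 𝓘(ℝ, E) I (extChartAt I p).symm u)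
    (show E →L[ℝ] E from mfderiv 𝓘(ℝ, E) I (extChartAt I p).symm u)

theorem chartMetric_apply (g : (x : M) → TangentSpace I x →L[ℝ] TangentSpace I x →L[ℝ] ℝ)
    (p : M) (u a b : E) :
    chartMetric g p u a b = g ((extChartAt I p).symm u)
      (mfderiv 𝓘(ℝ, E) I (extChartAt I p).symm u a)
      (mfderiv 𝓘(ℝ, E) I (extChartAt I p).symm u b) := rfl

set_option backward.isDefEq.respectTransparency false in
/-- The coordinate expression of a smooth metric is smooth near the center of the chart. -/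
theorem contDiffAt_chartMetric [IsManifold I ∞ M] [I.Boundaryless]
    {g : (x : M) → TangentSpace I x →L[ℝ] TangentSpace I x →L[ℝ] ℝ}
    (hg : ContMDiff I (I.prod 𝓘(ℝ, E →L[ℝ] E →L[ℝ] ℝ)) ∞
      (fun b ↦ TotalSpace.mk' (E →L[ℝ] E →L[ℝ] ℝ) (E := fun x : M ↦
        TangentSpace I x →L[ℝ] TangentSpace I x →L[ℝ] ℝ) b (g b))) (p : M) :
    ContDiffAt ℝ ∞ (chartMetric g p) (extChartAt I p p) := by
  have h1 := hg p
  rw [contMDiffAt_hom_bundle] at h1
  have h2 := h1.2
  have h3 : ContMDiffAt 𝓘(ℝ, E) I ∞ (extChartAt I p).symm (extChartAt I p p) :=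
    (contMDiffOn_extChartAt_symm p).contMDiffAt (extChartAt_target_mem_nhds p)
  have h4 : ContMDiffAt 𝓘(ℝ, E) 𝓘(ℝ, E →L[ℝ] E →L[ℝ] ℝ) ∞
      (fun u : E ↦ inCoordinates E (TangentSpace I) (E →L[ℝ] ℝ)
        (fun x : M ↦ TangentSpace I x →L[ℝ] ℝ) p ((extChartAt I p).symm u) p
        ((extChartAt I p).symm u) (g ((extChartAt I p).symm u))) (extChartAt I p p) := by
    refine ContMDiffAt.comp (I' := I) (extChartAt I p p)
      (g := fun x : M ↦ inCoordinates E (TangentSpace I) (E →L[ℝ] ℝ)
        (fun x : M ↦ TangentSpace I x →L[ℝ] ℝ) p x p x (g x)) ?_ h3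
    rw [extChartAt_to_inv]
    exact h2
  refine h4.contDiffAt.congr_of_eventuallyEq ?_
  filter_upwards [extChartAt_target_mem_nhds (I := I) p] with u hu
  have hx : (extChartAt I p).symm u ∈ (chartAt H p).source := by
    rw [← extChartAt_source I p]
    exact (extChartAt I p).map_target hu
  ext a b
  have hxb : (extChartAt I p).symm u ∈ (trivializationAt E (TangentSpace I) p).baseSet := by
    simpa using hx
  rw [inCoordinates_apply_eq₂ hxb hxb (Set.mem_univ _)]
  have hsym := TangentBundle.symmL_trivializationAt (I := I) hx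
  rw [(extChartAt I p).right_inv hu] at hsym
  have hr : mfderivWithin 𝓘(ℝ, E) I (extChartAt I p).symm (range I) u
      = mfderiv 𝓘(ℝ, E) I (extChartAt I p).symm u := by
    rw [I.range_eq_univ, mfderivWithin_univ]
  rw [hr] at hsym
  have ha : (trivializationAt E (TangentSpace I) p).symm ((extChartAt I p).symm u) a =
      mfderiv 𝓘(ℝ, E) I (extChartAt I p).symm u a := by
    rw [← hsym]
    exact (Trivialization.symmL_apply (R := ℝ) _ hxb a).symm
  have hb : (trivializationAt E (TangentSpace I) p).symm ((extChartAt I p).symm u) b =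
      mfderiv 𝓘(ℝ, E) I (extChartAt I p).symm u b := by
    rw [← hsym]
    exact (Trivialization.symmL_apply (R := ℝ) _ hxb b).symm
  rw [ha, hb, chartMetric_apply]
  simp only [Trivial.fiberBundle_trivializationAt', Trivial.linearMapAt_trivialization,
    LinearMap.id_coe, id_eq]

end Pool.Agent.HS

end
end

section

/-!
# Coordinate curvature of a Riemannian metric (project HS, MP_55c470)

A metric in coordinates is a function `G : E → E →L[ℝ] E →L[ℝ] ℝ` on a real normed space.

* `D1 G p x u v = ∂_x (G(u,v))` and `D2 G p x y u v = ∂_x ∂_y (G(u,v))` at `p`;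
* `Gam G p x y` is the Christoffel covector `z ↦ (∂_x G(y,z) + ∂_y G(x,z) - ∂_z G(x,y)) / 2`;
* `sharp g α` is the vector dual to the covector `α` (`g (sharp g α) = α` if `g` is nondegenerate),
  `cov g α β = α (sharp g β)` the inner product of covectors;
* `Rm G p x y = -(D2 x x y y + D2 y y x x - 2 D2 x y x y) / 2 + |Γ(x,y)|² - ⟨Γ(x,x), Γ(y,y)⟩`
  is the numerator `g(R(x,y)y,x)` of the sectional curvature of the plane spanned by `x, y`.
-/

namespace Pool.Agent.HS

variable {E : Type*} [NormedAddCommGroup E] [NormedSpace ℝ E]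

/-- First derivatives of the coefficients of a metric in coordinates:
`D1 G p x u v = ∂_x (G(u,v))` at `p`. -/
noncomputable def D1 (G : E → E →L[ℝ] E →L[ℝ] ℝ) (p x u v : E) : ℝ :=
  fderiv ℝ (fun q => G q u v) p x

/-- Second derivatives of the coefficients of a metric in coordinates:
`D2 G p x y u v = ∂_x ∂_y (G(u,v))` at `p`. -/
noncomputable def D2 (G : E → E →L[ℝ] E →L[ℝ] ℝ) (p x y u v : E) : ℝ :=
  fderiv ℝ (fun q => fderiv ℝ (fun r => G r u v) q y) p x

/-- The Christoffel covector (of the first kind) of the metric `G` at `p`: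
`z ↦ (∂_x G(y,z) + ∂_y G(x,z) - ∂_z G(x,y)) / 2`. -/
noncomputable def Gam (G : E → E →L[ℝ] E →L[ℝ] ℝ) (p x y : E) : E →L[ℝ] ℝ :=
  (1 / 2 : ℝ) • (fderiv ℝ (fun q => G q y) p x + fderiv ℝ (fun q => G q x) p y
    - fderiv ℝ (fun q => G q x y) p)

/-- The vector dual to a covector `α` with respect to the bilinear form `g`
(`0` if `g` is degenerate). -/
noncomputable def sharp (g : E →L[ℝ] E →L[ℝ] ℝ) (α : E →L[ℝ] ℝ) : E :=
  ContinuousLinearMap.inverse g α

/-- The inner product of two covectors. -/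
noncomputable def cov (g : E →L[ℝ] E →L[ℝ] ℝ) (α β : E →L[ℝ] ℝ) : ℝ :=
  α (sharp g β)

/-- The curvature form `g(R(x,y)y,x)` of the metric `G` at `p`: the numerator of the
sectional curvature of the plane spanned by `x` and `y`. -/
noncomputable def Rm (G : E → E →L[ℝ] E →L[ℝ] ℝ) (p x y : E) : ℝ :=
  -(1 / 2) * (D2 G p x x y y + D2 G p y y x x - 2 * D2 G p x y x y)
    + cov (G p) (Gam G p x y) (Gam G p x y) - cov (G p) (Gam G p x x) (Gam G p y y)

/-- Sectional curvatures at `p` are positive. -/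
def PosAt (G : E → E →L[ℝ] E →L[ℝ] ℝ) (p : E) : Prop :=
  ∀ x y : E, LinearIndependent ℝ ![x, y] → 0 < Rm G p x y

/-- Sectional curvatures at `p` are nonnegative. -/
def NonnegAt (G : E → E →L[ℝ] E →L[ℝ] ℝ) (p : E) : Prop :=
  ∀ x y : E, 0 ≤ Rm G p x y

/-- The pull-back of a metric `G` in coordinates by a map `f`. -/
noncomputable def pull {F : Type*} [NormedAddCommGroup F] [NormedSpace ℝ F]
    (G : F → F →L[ℝ] F →L[ℝ] ℝ) (f : E → F) (p : E) : E →L[ℝ] E →L[ℝ] ℝ :=
  (G (f p)).bilinearComp (fderiv ℝ f p) (fderiv ℝ f p)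

theorem pull_apply {F : Type*} [NormedAddCommGroup F] [NormedSpace ℝ F]
    (G : F → F →L[ℝ] F →L[ℝ] ℝ) (f : E → F) (p x y : E) :
    pull G f p x y = G (f p) (fderiv ℝ f p x) (fderiv ℝ f p y) := rfl

/-- Symmetric and positive definite. -/
structure IsInner (g : E →L[ℝ] E →L[ℝ] ℝ) : Prop where
  symm : ∀ x y, g x y = g y x
  pos : ∀ x, x ≠ 0 → 0 < g x x

end Pool.Agent.HS

end
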