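import Mathlib

/-! The parts of this file: HS.Cpt, HS.M3Def. -/

section

/-!
# Abstract compactness lemma (block M3)

`Phi r z y` is continuous in `(r, z, y)` for `0 <= r <= r0`, `z` in a finite
dimensional space, `y` in a compact set `K`, homogeneous of degree two in `z`;
`C` is a closed relation in `(r, z, y)` which is a cone in `z`.  If `Phi 0 > 0`
on the nonzero vectors allowed at `r = 0`, then for all small `r >= 0` the
function `Phi r` is positive (even at least `c |z|^2`) on the allowed vectors.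
-/

namespace Pool.Agent.HS

open Set Topology Filter

/-- The compactness lemma, quantitative form. -/
theorem compact_pos_quant {Z Y : Type*} [NormedAddCommGroup Z] [NormedSpace ℝ Z]
    [FiniteDimensional ℝ Z] [TopologicalSpace Y] {K : Set Y} (hK : IsCompact K)
    {r0 : ℝ} (hr0 : 0 < r0) (Phi : ℝ → Z → Y → ℝ) (C : Set (ℝ × Z × Y))
    (hC : IsClosed C)
    (hPhi : ContinuousOn (fun p : ℝ × Z × Y => Phi p.1 p.2.1 p.2.2)
      (Icc 0 r0 ×ˢ (univ : Set Z) ×ˢ K))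
    (hom : ∀ r ∈ Icc (0 : ℝ) r0, ∀ y ∈ K, ∀ (t : ℝ) (z : Z),
      Phi r (t • z) y = t ^ 2 * Phi r z y)
    (homC : ∀ r ∈ Icc (0 : ℝ) r0, ∀ y ∈ K, ∀ (t : ℝ) (z : Z),
      (r, z, y) ∈ C → (r, t • z, y) ∈ C)
    (h0 : ∀ y ∈ K, ∀ z : Z, (0, z, y) ∈ C → z ≠ 0 → 0 < Phi 0 z y) :
    ∃ r1 : ℝ, 0 < r1 ∧ r1 ≤ r0 ∧ ∃ c : ℝ, 0 < c ∧ ∀ r ∈ Icc (0 : ℝ) r1, ∀ y ∈ K, ∀ z : Z,
      (r, z, y) ∈ C → c * ‖z‖ ^ 2 ≤ Phi r z y := by
  classical
  -- the compact set of unit allowed vectors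
  set S : Set (ℝ × Z × Y) :=
    (Icc 0 r0 ×ˢ Metric.sphere (0 : Z) 1 ×ˢ K) ∩ C with hS
  have hcpt : IsCompact S := by
    refine IsCompact.inter_right ?_ hC
    exact (isCompact_Icc).prod ((isCompact_sphere (0 : Z) 1).prod hK)
  have hcont : ContinuousOn (fun p : ℝ × Z × Y => Phi p.1 p.2.1 p.2.2) S := by
    refine hPhi.mono ?_
    rintro ⟨r, z, y⟩ ⟨⟨hr, _, hy⟩, _⟩
    exact ⟨hr, mem_univ _, hy⟩
  -- claim: there are r1 > 0 and c > 0 with Phi >= c on the part of S with r <= r1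
  have key : ∃ r1 : ℝ, 0 < r1 ∧ r1 ≤ r0 ∧ ∃ c : ℝ, 0 < c ∧
      ∀ p ∈ S, p.1 ≤ r1 → c ≤ Phi p.1 p.2.1 p.2.2 := by
    -- bad set
    set N : Set (ℝ × Z × Y) := S ∩ (fun p : ℝ × Z × Y => Phi p.1 p.2.1 p.2.2) ⁻¹' Iic 0 with hN
    have hNc : IsCompact N := by
      have hcl : ∃ u : Set (ℝ × Z × Y), IsClosed u ∧
          S ∩ (fun p : ℝ × Z × Y => Phi p.1 p.2.1 p.2.2) ⁻¹' Iic 0 = u ∩ S := by
        obtain ⟨u, hu, hu2⟩ := (continuousOn_iff_isClosed.1 hcont) (Iic 0) isClosed_Iic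
        refine ⟨u, hu, ?_⟩
        rw [inter_comm]
        exact hu2
      obtain ⟨u, hu, hu2⟩ := hcl
      rw [hN, hu2, inter_comm]
      exact hcpt.inter_right hu
    have hproj : IsCompact (Prod.fst '' N) := hNc.image continuous_fst
    have h0N : (0 : ℝ) ∉ Prod.fst '' N := by
      rintro ⟨⟨r, z, y⟩, ⟨⟨⟨hr, hz, hy⟩, hcm⟩, hle⟩, h00⟩
      simp only at h00
      subst h00
      have hz1 : ‖z‖ = 1 := by simpa using hz
      have hz0 : z ≠ 0 := by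
        intro h
        rw [h, norm_zero] at hz1
        exact zero_ne_one hz1
      have := h0 y hy z hcm hz0
      simp only [mem_preimage, mem_Iic] at hle
      linarith
    have hopen : ∃ r2 : ℝ, 0 < r2 ∧ ∀ p ∈ N, r2 < p.1 := by
      have hcl : IsClosed (Prod.fst '' N) := hproj.isClosed
      have hmem : (Prod.fst '' N)ᶜ ∈ 𝓝 (0 : ℝ) := hcl.isOpen_compl.mem_nhds h0N
      obtain ⟨e, he, hball⟩ := Metric.mem_nhds_iff.1 hmem
      refine ⟨e / 2, by positivity, ?_⟩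
      rintro p hp
      by_contra hcon
      push Not at hcon
      have hp0 : 0 ≤ p.1 := hp.1.1.1.1
      have : p.1 ∈ Metric.ball (0 : ℝ) e := by
        rw [Metric.mem_ball, Real.dist_eq, sub_zero, abs_of_nonneg hp0]
        linarith
      exact hball this ⟨p, hp, rfl⟩
    obtain ⟨r2, hr2, hr2N⟩ := hopen
    set r1 := min r2 r0 with hr1
    have hr1pos : 0 < r1 := lt_min hr2 hr0
    set S1 : Set (ℝ × Z × Y) := S ∩ Prod.fst ⁻¹' Iic r1 with hS1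
    have hS1c : IsCompact S1 :=
      hcpt.inter_right (isClosed_Iic.preimage continuous_fst)
    have hpos : ∀ p ∈ S1, 0 < Phi p.1 p.2.1 p.2.2 := by
      intro p hp
      by_contra hcon
      push Not at hcon
      have hpN : p ∈ N := ⟨hp.1, hcon⟩
      have h1 := hr2N p hpN
      have h2 : p.1 ≤ r1 := hp.2
      have h3 : r1 ≤ r2 := min_le_left _ _
      linarith
    rcases S1.eq_empty_or_nonempty with hE | hne
    · refine ⟨r1, hr1pos, min_le_right _ _, 1, one_pos, ?_⟩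
      intro p hp hle
      have : p ∈ S1 := ⟨hp, hle⟩
      rw [hE] at this
      exact absurd this (notMem_empty _)
    · obtain ⟨q, hq, hmin⟩ := hS1c.exists_isMinOn hne (hcont.mono inter_subset_left)
      refine ⟨r1, hr1pos, min_le_right _ _, Phi q.1 q.2.1 q.2.2, hpos q hq, ?_⟩
      intro p hp hle
      exact hmin ⟨hp, hle⟩
  obtain ⟨r1, hr1, hr10, c, hc, hkey⟩ := key
  refine ⟨r1, hr1, hr10, c, hc, ?_⟩
  intro r hr y hy z hz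
  have hr' : r ∈ Icc (0 : ℝ) r0 := ⟨hr.1, hr.2.trans hr10⟩
  rcases eq_or_ne z 0 with h | h
  · subst h
    have := hom r hr' y hy 0 0
    simp only [smul_zero] at this
    rw [this]
    simp
  · have hn : 0 < ‖z‖ := norm_pos_iff.2 h
    have hu : ‖(‖z‖⁻¹ • z)‖ = 1 := by
      rw [norm_smul, norm_inv, norm_norm, inv_mul_cancel₀ hn.ne']
    have hmem : (r, ‖z‖⁻¹ • z, y) ∈ S := by
      refine ⟨⟨hr', ?_, hy⟩, homC r hr' y hy _ _ hz⟩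
      simpa using hu
    have h1 := hkey _ hmem hr.2
    simp only at h1
    have h2 : Phi r z y = ‖z‖ ^ 2 * Phi r (‖z‖⁻¹ • z) y := by
      rw [← hom r hr' y hy ‖z‖ (‖z‖⁻¹ • z), smul_smul, mul_inv_cancel₀ hn.ne', one_smul]
    rw [h2, mul_comm c]
    exact mul_le_mul_of_nonneg_left h1 (by positivity)

/-- The compactness lemma of block M3. -/
theorem compact_pos {Z Y : Type*} [NormedAddCommGroup Z] [NormedSpace ℝ Z]
    [FiniteDimensional ℝ Z] [TopologicalSpace Y] {K : Set Y} (hK : IsCompact K)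
    {r0 : ℝ} (hr0 : 0 < r0) (Phi : ℝ → Z → Y → ℝ) (C : Set (ℝ × Z × Y))
    (hC : IsClosed C)
    (hPhi : ContinuousOn (fun p : ℝ × Z × Y => Phi p.1 p.2.1 p.2.2)
      (Icc 0 r0 ×ˢ (univ : Set Z) ×ˢ K))
    (hom : ∀ r ∈ Icc (0 : ℝ) r0, ∀ y ∈ K, ∀ (t : ℝ) (z : Z),
      Phi r (t • z) y = t ^ 2 * Phi r z y)
    (homC : ∀ r ∈ Icc (0 : ℝ) r0, ∀ y ∈ K, ∀ (t : ℝ) (z : Z),
      (r, z, y) ∈ C → (r, t • z, y) ∈ C)
    (h0 : ∀ y ∈ K, ∀ z : Z, (0, z, y) ∈ C → z ≠ 0 → 0 < Phi 0 z y) :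
    ∃ r1 : ℝ, 0 < r1 ∧ r1 ≤ r0 ∧ ∀ r ∈ Icc (0 : ℝ) r1, ∀ y ∈ K, ∀ z : Z,
      (r, z, y) ∈ C → z ≠ 0 → 0 < Phi r z y := by
  obtain ⟨r1, hr1, hr10, c, hc, h⟩ :=
    compact_pos_quant hK hr0 Phi C hC hPhi hom homC h0
  refine ⟨r1, hr1, hr10, fun r hr y hy z hz hz0 => ?_⟩
  have h1 := h r hr y hy z hz
  have h2 : 0 < c * ‖z‖ ^ 2 := by
    have : 0 < ‖z‖ := norm_pos_iff.2 hz0
    positivity
  linarith

/-- A version for the infinitesimal part: a family `F d p` of functions, jointly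
continuous for `0 <= d <= d0` and `p` in a compact set, positive at `d = 0`, is
positive for small `d`. -/
theorem compact_pos_family {P : Type*} [TopologicalSpace P] {K : Set P} (hK : IsCompact K)
    {d0 : ℝ} (hd0 : 0 < d0) (F : ℝ → P → ℝ)
    (hF : ContinuousOn (fun q : ℝ × P => F q.1 q.2) (Icc 0 d0 ×ˢ K))
    (h0 : ∀ p ∈ K, 0 < F 0 p) :
    ∃ d1 : ℝ, 0 < d1 ∧ d1 ≤ d0 ∧ ∃ c : ℝ, 0 < c ∧ ∀ d ∈ Icc (0 : ℝ) d1, ∀ p ∈ K, c ≤ F d p := by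
  classical
  have hcpt : IsCompact (Icc 0 d0 ×ˢ K) := isCompact_Icc.prod hK
  set N : Set (ℝ × P) := (Icc 0 d0 ×ˢ K) ∩ (fun q : ℝ × P => F q.1 q.2) ⁻¹' Iic 0 with hN
  have hNc : IsCompact N := by
    obtain ⟨u, hu, hu2⟩ := (continuousOn_iff_isClosed.1 hF) (Iic 0) isClosed_Iic
    rw [hN, inter_comm, hu2, inter_comm]
    exact hcpt.inter_right hu
  have hcl : IsClosed (Prod.fst '' N) := (hNc.image continuous_fst).isClosed
  have h0N : (0 : ℝ) ∉ Prod.fst '' N := by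
    rintro ⟨⟨d, p⟩, ⟨⟨_, hp⟩, hle⟩, h00⟩
    simp only at h00
    subst h00
    have := h0 p hp
    simp only [mem_preimage, mem_Iic] at hle
    linarith
  obtain ⟨e, he, hball⟩ := Metric.mem_nhds_iff.1 (hcl.isOpen_compl.mem_nhds h0N)
  set d1 := min (e / 2) d0 with hd1
  have hd1pos : 0 < d1 := lt_min (by positivity) hd0
  have hd10 : d1 ≤ d0 := min_le_right _ _
  set S1 : Set (ℝ × P) := Icc 0 d1 ×ˢ K with hS1
  have hS1c : IsCompact S1 := isCompact_Icc.prod hK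
  have hsub : S1 ⊆ Icc 0 d0 ×ˢ K := by
    rintro ⟨d, p⟩ ⟨hd, hp⟩
    exact ⟨⟨hd.1, hd.2.trans hd10⟩, hp⟩
  have hpos : ∀ q ∈ S1, 0 < F q.1 q.2 := by
    rintro ⟨d, p⟩ hq
    by_contra hcon
    push Not at hcon
    have hqN : (d, p) ∈ N := ⟨hsub hq, hcon⟩
    have hd0' : 0 ≤ d := hq.1.1
    have hd1' : d ≤ d1 := hq.1.2
    have : d ∈ Metric.ball (0 : ℝ) e := by
      rw [Metric.mem_ball, Real.dist_eq, sub_zero, abs_of_nonneg hd0']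
      have : d1 ≤ e / 2 := min_le_left _ _
      linarith
    exact hball this ⟨(d, p), hqN, rfl⟩
  rcases S1.eq_empty_or_nonempty with hE | hne
  · refine ⟨d1, hd1pos, hd10, 1, one_pos, fun d hd p hp => ?_⟩
    have : (d, p) ∈ S1 := ⟨hd, hp⟩
    rw [hE] at this
    exact absurd this (notMem_empty _)
  · obtain ⟨q, hq, hmin⟩ := hS1c.exists_isMinOn hne (hF.mono hsub)
    exact ⟨d1, hd1pos, hd10, F q.1 q.2, hpos q hq, fun d hd p hp => hmin (⟨hd, hp⟩ : (d, p) ∈ S1)⟩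

end Pool.Agent.HS

end

section

/-!
# Block M3, definitions: the curvature form of `P = S² × SO(3)` at a point

`PD` is the pointwise data `(K, ρ, Dρ, κ, Dκ, D²κ)` in an adapted frame; `RP r D S` is the
curvature form (numerator of the sectional curvature) of the metric `h + Q(ξ,ξ)`,
`Q = r² (1 - (r²/3) κ)`, where `S` stands for the inverse of `1 - (r²/3) κ`.
-/

namespace Pool.Agent.HS

open Matrix

abbrev V2 := Fin 2 → ℝ
abbrev V3 := Fin 3 → ℝ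
abbrev M33 := Matrix (Fin 3) (Fin 3) ℝ

/-- Pointwise data: `K, ρ, D_e ρ, κ, D_e κ, D²_{ef} κ` (`e, f` in an orthonormal frame). -/
abbrev PD := ℝ × V3 × (Fin 2 → V3) × M33 × (Fin 2 → M33) × (Fin 2 → Fin 2 → M33)

namespace PD
def K (D : PD) : ℝ := D.1
def ρ (D : PD) : V3 := D.2.1
def Dρ (D : PD) : Fin 2 → V3 := D.2.2.1
def κ (D : PD) : M33 := D.2.2.2.1
def κ1 (D : PD) : Fin 2 → M33 := D.2.2.2.2.1
def κ2 (D : PD) : Fin 2 → Fin 2 → M33 := D.2.2.2.2.2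
end PD

/-- `u · A v`. -/
def bf (A : M33) (u v : V3) : ℝ := u ⬝ᵥ (A *ᵥ v)

/-- area form of the plane -/
def al (x y : V2) : ℝ := x 0 * y 1 - x 1 * y 0

/-- `m_e = x_e η - y_e ξ` -/
def mm (x : V2) (ξ : V3) (y : V2) (η : V3) : Fin 2 → V3 := fun e => x e • η - y e • ξ

/-- `κ_x = Σ x_e κ_e` -/
def kx (D : PD) (x : V2) : M33 := x 0 • D.κ1 0 + x 1 • D.κ1 1

/-- The visible part of the curvature form as a function of `(α, m, z)`. -/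
noncomputable def RV (r : ℝ) (D : PD) (α : ℝ) (m : Fin 2 → V3) (z : V3) : ℝ :=
  D.K * α ^ 2 - r ^ 2 * α * (∑ e, D.Dρ e ⬝ᵥ m e)
  + r ^ 4 / 4 * ((∑ e, (D.ρ ⬝ᵥ m e) ^ 2) + 2 / 3 * ∑ e, ∑ f, bf (D.κ2 e f) (m e) (m f))
  + r ^ 2 / 4 * (z ⬝ᵥ z)
  - 3 / 2 * r ^ 2 * α * (D.ρ ⬝ᵥ z) - 3 / 4 * r ^ 2 * α ^ 2 * (D.ρ ⬝ᵥ D.ρ)
  + r ^ 4 * (1 / 4 * α ^ 2 * bf D.κ D.ρ D.ρ + 1 / 3 * α * (∑ e, bf D.κ (D.Dρ e) (m e))
      + 1 / 2 * α * (∑ e, bf (D.κ1 e) D.ρ (m e)) + 1 / 2 * α * bf D.κ D.ρ z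
      + 1 / 2 * (∑ e, bf (D.κ1 e) (m e) z) + 5 / 12 * bf D.κ z z - 1 / 6 * D.κ.trace * (z ⬝ᵥ z))
  + r ^ 4 / 4 * (∑ e, ((D.ρ ⬝ᵥ m e - r ^ 2 / 3 * bf D.κ D.ρ (m e)) ^ 2 - (D.ρ ⬝ᵥ m e) ^ 2))
  - r ^ 6 / 6 * (bf (D.κ1 0) (-(m 1)) (z ⨯₃ (D.ρ - (r ^ 2 / 3) • (D.κ *ᵥ D.ρ)))
      + bf (D.κ1 1) (m 0) (z ⨯₃ (D.ρ - (r ^ 2 / 3) • (D.κ *ᵥ D.ρ))))
  - r ^ 8 / 36 * (∑ e, bf (D.κ1 e).adjugate z z)

/-- the symmetric bilinear map `Γ(X,Y) = (κ_x η + κ_y ξ + κη × ξ + κξ × η)/2` -/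
noncomputable def gt (D : PD) (x : V2) (ξ : V3) (y : V2) (η : V3) : V3 :=
  (1 / 2 : ℝ) • (kx D x *ᵥ η + kx D y *ᵥ ξ + (D.κ *ᵥ η) ⨯₃ ξ + (D.κ *ᵥ ξ) ⨯₃ η)

/-- The curvature form of the metric `h + r² (1 - (r²/3) κ)` on `P` (`S` = inverse of
`1 - (r²/3) κ`). -/
noncomputable def RP (r : ℝ) (D : PD) (S : M33) (x : V2) (ξ : V3) (y : V2) (η : V3) : ℝ :=
  RV r D (al x y) (mm x ξ y η) (ξ ⨯₃ η)
  + r ^ 6 / 9 * (bf S (gt D x ξ y η) (gt D x ξ y η) - bf S (gt D x ξ x ξ) (gt D y η y η))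

/-- The infinitesimal condition `G > 0` at a point. -/
def GPos (D : PD) : Prop :=
  0 < D.K ∧ ∀ v : V2, ∀ n : V3, v ⬝ᵥ v = 1 → n ⬝ᵥ n = 1 →
    ((∑ e, v e * (D.Dρ e ⬝ᵥ n)) ^ 2 <
      D.K * ((D.ρ ⬝ᵥ n) ^ 2 + 2 / 3 * ∑ e, ∑ f, v e * v f * bf (D.κ2 e f) n n))

end Pool.Agent.HS

end
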