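import Pool.Agent.H94.PT.HS.Cay
import Pool.Agent.H94.PT.M02
import Pool.Agent.H94.PT.M03

/-! The parts of this file: HS.Cov, HS.Loc. -/

section

/-!
# The inner product of covectors (project HS)
-/

namespace Pool.Agent.HS

open Module

variable {E : Type*} [NormedAddCommGroup E] [NormedSpace ℝ E]

theorem IsInner.injective {g : E →L[ℝ] E →L[ℝ] ℝ} (h : IsInner g) : Function.Injective g := by
  intro x y hxy
  by_contra hne
  have h1 := h.pos (x - y) (sub_ne_zero.mpr hne)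
  have h2 : g (x - y) = 0 := by rw [map_sub, hxy, sub_self]
  rw [h2] at h1
  simp at h1

theorem IsInner.invertible [FiniteDimensional ℝ E] {g : E →L[ℝ] E →L[ℝ] ℝ} (h : IsInner g) :
    g.IsInvertible := by
  haveI : FiniteDimensional ℝ (E →L[ℝ] ℝ) :=
    LinearEquiv.finiteDimensional (LinearMap.toContinuousLinearMap (𝕜 := ℝ) (E := E) (F' := ℝ))
  have hdim : finrank ℝ E = finrank ℝ (E →L[ℝ] ℝ) := by
    rw [← (LinearMap.toContinuousLinearMap (𝕜 := ℝ) (E := E) (F' := ℝ)).finrank_eq]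
    exact (Subspace.dual_finrank_eq (K := ℝ) (V := E)).symm
  let e : E ≃ₗ[ℝ] (E →L[ℝ] ℝ) :=
    (g : E →ₗ[ℝ] (E →L[ℝ] ℝ)).linearEquivOfInjective h.injective hdim
  refine ⟨e.toContinuousLinearEquiv, ?_⟩
  ext x y
  rfl

theorem sharp_spec [FiniteDimensional ℝ E] {g : E →L[ℝ] E →L[ℝ] ℝ} (h : IsInner g)
    (α : E →L[ℝ] ℝ) : g (sharp g α) = α :=
  h.invertible.self_apply_inverse α

theorem sharp_apply [FiniteDimensional ℝ E] {g : E →L[ℝ] E →L[ℝ] ℝ} (h : IsInner g)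
    (α : E →L[ℝ] ℝ) (z : E) : g (sharp g α) z = α z := by
  rw [sharp_spec h]

theorem sharp_eq [FiniteDimensional ℝ E] {g : E →L[ℝ] E →L[ℝ] ℝ} (h : IsInner g)
    {α : E →L[ℝ] ℝ} {a : E} (ha : g a = α) : sharp g α = a := by
  apply h.injective
  rw [sharp_spec h, ha]

theorem sharp_eq_of [FiniteDimensional ℝ E] {g : E →L[ℝ] E →L[ℝ] ℝ} (h : IsInner g)
    {α : E →L[ℝ] ℝ} {a : E} (ha : ∀ z, g a z = α z) : sharp g α = a :=
  sharp_eq h (by ext z; exact ha z)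

theorem sharp_add (g : E →L[ℝ] E →L[ℝ] ℝ) (α β : E →L[ℝ] ℝ) :
    sharp g (α + β) = sharp g α + sharp g β := map_add _ _ _

theorem sharp_smul (g : E →L[ℝ] E →L[ℝ] ℝ) (c : ℝ) (α : E →L[ℝ] ℝ) :
    sharp g (c • α) = c • sharp g α := map_smul _ _ _

@[simp] theorem sharp_zero (g : E →L[ℝ] E →L[ℝ] ℝ) : sharp g 0 = 0 := map_zero _

theorem cov_add_left (g : E →L[ℝ] E →L[ℝ] ℝ) (α β γ : E →L[ℝ] ℝ) :
    cov g (α + β) γ = cov g α γ + cov g β γ := rfl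

theorem cov_add_right (g : E →L[ℝ] E →L[ℝ] ℝ) (α β γ : E →L[ℝ] ℝ) :
    cov g α (β + γ) = cov g α β + cov g α γ := by
  unfold cov; rw [sharp_add, map_add]

theorem cov_smul_left (g : E →L[ℝ] E →L[ℝ] ℝ) (c : ℝ) (α β : E →L[ℝ] ℝ) :
    cov g (c • α) β = c * cov g α β := rfl

theorem cov_smul_right (g : E →L[ℝ] E →L[ℝ] ℝ) (c : ℝ) (α β : E →L[ℝ] ℝ) :
    cov g α (c • β) = c * cov g α β := by
  unfold cov; rw [sharp_smul, map_smul, smul_eq_mul]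

@[simp] theorem cov_zero_left (g : E →L[ℝ] E →L[ℝ] ℝ) (α : E →L[ℝ] ℝ) : cov g 0 α = 0 := rfl

@[simp] theorem cov_zero_right (g : E →L[ℝ] E →L[ℝ] ℝ) (α : E →L[ℝ] ℝ) : cov g α 0 = 0 := by
  unfold cov; rw [sharp_zero, map_zero]

/-- The inner product of `g a` and `g b` is `g a b`. -/
theorem cov_eq [FiniteDimensional ℝ E] {g : E →L[ℝ] E →L[ℝ] ℝ} (h : IsInner g)
    {α β : E →L[ℝ] ℝ} {a b : E} (ha : g a = α) (hb : g b = β) : cov g α β = g a b := by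
  unfold cov; rw [sharp_eq h hb, ← ha]

theorem cov_eq_of [FiniteDimensional ℝ E] {g : E →L[ℝ] E →L[ℝ] ℝ} (h : IsInner g)
    {α β : E →L[ℝ] ℝ} {a b : E} (ha : ∀ z, g a z = α z) (hb : ∀ z, g b z = β z) :
    cov g α β = g a b :=
  cov_eq h (by ext z; exact ha z) (by ext z; exact hb z)

theorem cov_eq_sharp [FiniteDimensional ℝ E] {g : E →L[ℝ] E →L[ℝ] ℝ} (h : IsInner g)
    (α β : E →L[ℝ] ℝ) : cov g α β = g (sharp g α) (sharp g β) :=
  cov_eq h (sharp_spec h α) (sharp_spec h β)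

theorem cov_comm [FiniteDimensional ℝ E] {g : E →L[ℝ] E →L[ℝ] ℝ} (h : IsInner g)
    (α β : E →L[ℝ] ℝ) : cov g α β = cov g β α := by
  rw [cov_eq_sharp h, cov_eq_sharp h, h.symm]

end Pool.Agent.HS

end

section

/-!
# Local metrics of project HS

`B` is the base (`V2` in coordinates, or the ambient `V3`), data `h : B → (B →L B →L ℝ)` (metric), `A : B → (B →L V3)` (connection, `D = d + A ×`),
`q : B → (V3 →L V3)` (symmetric positive operator, `Q(ξ,η) = ξ · q η`).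

* `GP h A q` on `B × V3 ∋ (u, a)`: `h(x,x) + U · q U`, `U = cayE a ȧ + A_u x` (metric of the principal bundle, `a` = Cayley coordinate of `SO(3)`);
* `GE h A q` on `B × V3 ∋ (u, w)`: `h(x,x) + Dw · S Dw`, `Dw = ẇ + A_u x × w`, `S = (1 + C q⁻¹ Cᵀ)⁻¹`, `C U = U × w` (metric of the vector bundle);
* `GT h A q` on `(B × V3) × V3 ∋ ((u, w), a)`: `h(x,x) + U · q U + |Dw - U × w|²` (principal bundle times flat `ℝ³` in the coordinates `w = cayR a z`).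
-/

set_option maxSynthPendingDepth 3

namespace Pool.Agent.HS

open Matrix Topology Filter

variable {B B' : Type*} [NormedAddCommGroup B] [NormedSpace ℝ B] [NormedAddCommGroup B'] [NormedSpace ℝ B']

/-- the dot product of `ℝ³` -/
noncomputable def dotL : V3 →L[ℝ] V3 →L[ℝ] ℝ :=
  LinearMap.toContinuousLinearMap
    ((LinearMap.toContinuousLinearMap : (V3 →ₗ[ℝ] ℝ) ≃ₗ[ℝ] (V3 →L[ℝ] ℝ)).toLinearMap ∘ₗ
      LinearMap.mk₂ ℝ (fun x y : V3 => x ⬝ᵥ y) add_dotProduct smul_dotProduct dotProduct_add dotProduct_smul)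

theorem dotL_apply (x y : V3) : dotL x y = x ⬝ᵥ y := rfl

/-- the operator `U ↦ U × w` -/
noncomputable def Cw (w : V3) : V3 →L[ℝ] V3 := crossL.flip w

theorem Cw_apply (w U : V3) : Cw w U = U ⨯₃ w := rfl

/-- `S = (1 + C q⁻¹ Cᵀ)⁻¹`, `C U = U × w`, `Cᵀ z = w × z` -/
noncomputable def Sw (q : V3 →L[ℝ] V3) (w : V3) : V3 →L[ℝ] V3 :=
  ContinuousLinearMap.inverse (ContinuousLinearMap.id ℝ V3 + (Cw w).comp ((ContinuousLinearMap.inverse q).comp (crossL w)))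

/-- `U = cayE a ȧ + A_u x` as a function of `(x, ȧ)` -/
noncomputable def UP (A : B → B →L[ℝ] V3) (p : B × V3) : B × V3 →L[ℝ] V3 :=
  (A p.1).comp (ContinuousLinearMap.fst ℝ B V3) + (cayE p.2).comp (ContinuousLinearMap.snd ℝ B V3)

/-- `Dw = ẇ + A_u x × w` as a function of `(x, ẇ)` -/
noncomputable def DW (A : B → B →L[ℝ] V3) (p : B × V3) : B × V3 →L[ℝ] V3 :=
  ((Cw p.2).comp (A p.1)).comp (ContinuousLinearMap.fst ℝ B V3) + ContinuousLinearMap.snd ℝ B V3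

/-- the metric of the principal bundle -/
noncomputable def GP (h : B → B →L[ℝ] B →L[ℝ] ℝ) (A : B → B →L[ℝ] V3) (q : B → V3 →L[ℝ] V3) (p : B × V3) :
    B × V3 →L[ℝ] B × V3 →L[ℝ] ℝ :=
  (h p.1).bilinearComp (ContinuousLinearMap.fst ℝ B V3) (ContinuousLinearMap.fst ℝ B V3) +
    dotL.bilinearComp (UP A p) ((q p.1).comp (UP A p))

/-- the metric of the vector bundle -/
noncomputable def GE (h : B → B →L[ℝ] B →L[ℝ] ℝ) (A : B → B →L[ℝ] V3) (q : B → V3 →L[ℝ] V3) (p : B × V3) :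
    B × V3 →L[ℝ] B × V3 →L[ℝ] ℝ :=
  (h p.1).bilinearComp (ContinuousLinearMap.fst ℝ B V3) (ContinuousLinearMap.fst ℝ B V3) +
    dotL.bilinearComp (DW A p) ((Sw (q p.1) p.2).comp (DW A p))

/-- the product of two metrics -/
noncomputable def prodG (G : B → B →L[ℝ] B →L[ℝ] ℝ) (G' : B' → B' →L[ℝ] B' →L[ℝ] ℝ) (p : B × B') :
    B × B' →L[ℝ] B × B' →L[ℝ] ℝ :=
  (G p.1).bilinearComp (ContinuousLinearMap.fst ℝ B B') (ContinuousLinearMap.fst ℝ B B') +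
    (G' p.2).bilinearComp (ContinuousLinearMap.snd ℝ B B') (ContinuousLinearMap.snd ℝ B B')

/-- the connection form in the gauge `cayR ∘ b`, pulled back by `Y` -/
noncomputable def gA (A : B → B →L[ℝ] V3) (Y : B' → B) (b : B' → V3) (u : B') : B' →L[ℝ] V3 :=
  (cayR (-b u)).comp ((A (Y u)).comp (fderiv ℝ Y u) + (cayE (b u)).comp (fderiv ℝ b u))

/-- the operator `q` in the gauge `cayR ∘ b`, pulled back by `Y` -/
noncomputable def gq (q : B → V3 →L[ℝ] V3) (Y : B' → B) (b : B' → V3) (u : B') : V3 →L[ℝ] V3 :=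
  (cayR (-b u)).comp ((q (Y u)).comp (cayR (b u)))

/-- the curvature of the connection `A`: `F(x,y) = ∂_x A(y) - ∂_y A(x) + A(x) × A(y)` -/
noncomputable def FA (A : B → B →L[ℝ] V3) (u x y : B) : V3 :=
  fderiv ℝ A u x y - fderiv ℝ A u y x + A u x ⨯₃ A u y

/-- the basis vectors of the plane -/
def e0 : V2 := ![1, 0]
/-- the basis vectors of the plane -/
def e1 : V2 := ![0, 1]
/-- the basis vectors of the plane -/
def ev (i : Fin 2) : V2 := Pi.single i 1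

/-- the operator `r² (1 - (r²/3) κ)` -/
noncomputable def qk (r : ℝ) (κ : B → M33) (u : B) : V3 →L[ℝ] V3 :=
  LinearMap.toContinuousLinearMap (Matrix.toLin' ((r ^ 2) • ((1 : M33) - (r ^ 2 / 3) • κ u)))

/-- the data `h, A, κ` on the plane are adapted at `0`, with the jets `D` -/
structure Adapted (h : V2 → V2 →L[ℝ] V2 →L[ℝ] ℝ) (A : V2 → V2 →L[ℝ] V3) (κ : V2 → M33) (D : PD) : Prop where
  h_smooth : ∀ᶠ u in 𝓝 (0 : V2), ContDiffAt ℝ (⊤ : ℕ∞) h u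
  A_smooth : ∀ᶠ u in 𝓝 (0 : V2), ContDiffAt ℝ (⊤ : ℕ∞) A u
  κ_smooth : ∀ a b, ∀ᶠ u in 𝓝 (0 : V2), ContDiffAt ℝ (⊤ : ℕ∞) (fun u => κ u a b) u
  h_inner : ∀ᶠ u in 𝓝 (0 : V2), IsInner (h u)
  κ_symm : ∀ᶠ u in 𝓝 (0 : V2), (κ u).IsSymm
  h0 : ∀ x y, h 0 x y = x ⬝ᵥ y
  dh : fderiv ℝ h 0 = 0
  A0 : A 0 = 0
  dA : ∀ x, fderiv ℝ A 0 x x = 0
  K : Rm h 0 e0 e1 = D.K
  ρ : FA A 0 e0 e1 = D.ρ
  Dρ : ∀ i, fderiv ℝ (fun u => FA A u e0 e1) 0 (ev i) = D.Dρ i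
  κ0 : κ 0 = D.κ
  κ1 : ∀ i a b, fderiv ℝ (fun u => κ u a b) 0 (ev i) = D.κ1 i a b
  κ2 : ∀ i j a b, fderiv ℝ (fun u => fderiv ℝ (fun v => κ v a b) u (ev j)) 0 (ev i) = D.κ2 i j a b

end Pool.Agent.HS

end
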