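import Pool.Agent.H94.PT.M02

/-! The parts of this file: HS.Mfd, HS.Imm. -/

section

set_option autoImplicit false
set_option maxSynthPendingDepth 3

/-!
# Sectional curvature of a Riemannian metric on a manifold (project HS)
-/

namespace Pool.Agent.HS

open Bundle Manifold Set Filter
open scoped ContDiff Manifold Topology

noncomputable section

lemma three_le_infty : (3 : WithTop ℕ∞) ≤ ∞ := WithTop.coe_le_coe.2 (le_top : (3 : ℕ∞) ≤ ⊤)

lemma two_le_infty : (2 : WithTop ℕ∞) ≤ ∞ := WithTop.coe_le_coe.2 (le_top : (2 : ℕ∞) ≤ ⊤)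

section Analysis

variable {E : Type*} [NormedAddCommGroup E] [NormedSpace ℝ E] [CompleteSpace E]

/-- Two local diffeomorphisms with the same value differ by a local diffeomorphism. -/
lemma exists_transition {φ ψ : E → E} {x y : E} (hφ : ContDiffAt ℝ ∞ φ x)
    (hψ : ContDiffAt ℝ ∞ ψ y) (h : φ x = ψ y) (hφ' : (fderiv ℝ φ x).IsInvertible)
    (hψ' : (fderiv ℝ ψ y).IsInvertible) :
    ∃ τ : E → E, ContDiffAt ℝ ∞ τ y ∧ τ y = x ∧ (∀ᶠ z in 𝓝 y, φ (τ z) = ψ z) ∧
      (fderiv ℝ τ y).IsInvertible := by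
  obtain ⟨e, he⟩ := hφ'
  have hn : (∞ : WithTop ℕ∞) ≠ 0 := by simp
  have hd : HasFDerivAt φ (e : E →L[ℝ] E) x := by
    rw [he]
    exact (hφ.differentiableAt (by simp)).hasFDerivAt
  have hs : HasStrictFDerivAt φ (e : E →L[ℝ] E) x := hφ.hasStrictFDerivAt' hd hn
  have hinv : HasStrictFDerivAt (hs.localInverse φ e x) (e.symm : E →L[ℝ] E) (φ x) :=
    hs.to_localInverse
  have hsm : ContDiffAt ℝ ∞ (hs.localInverse φ e x) (φ x) := hφ.to_localInverse hd hn
  have hψd : DifferentiableAt ℝ ψ y := hψ.differentiableAt (by simp)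
  refine ⟨fun z => hs.localInverse φ e x (ψ z), ?_, ?_, ?_, ?_⟩
  · rw [h] at hsm
    exact hsm.comp y hψ
  · change hs.localInverse φ e x (ψ y) = x
    rw [← h]
    exact hs.localInverse_apply_image
  · have h1 : ∀ᶠ w in 𝓝 (φ x), φ (hs.localInverse φ e x w) = w :=
      hs.eventually_right_inverse
    rw [h] at h1
    exact hψ.continuousAt.eventually h1
  · have h2 : HasFDerivAt (fun z => hs.localInverse φ e x (ψ z))
        ((e.symm : E →L[ℝ] E).comp (fderiv ℝ ψ y)) y := by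
      rw [h] at hinv
      exact hinv.hasFDerivAt.comp y hψd.hasFDerivAt
    rw [h2.fderiv]
    obtain ⟨e', he'⟩ := hψ'
    exact ⟨e'.trans e.symm, by rw [← he']; rfl⟩

end Analysis

section Congr

variable {E : Type*} [NormedAddCommGroup E] [NormedSpace ℝ E]

lemma Gam_congr_nhds {G G' : E → E →L[ℝ] E →L[ℝ] ℝ} {p : E} (h : G =ᶠ[𝓝 p] G') (x y : E) :
    Gam G p x y = Gam G' p x y := by
  have h1 : ∀ u : E, (fun q => G q u) =ᶠ[𝓝 p] fun q => G' q u := fun u => by
    filter_upwards [h] with q hq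
    rw [hq]
  have h2 : ∀ u v : E, (fun q => G q u v) =ᶠ[𝓝 p] fun q => G' q u v := fun u v => by
    filter_upwards [h] with q hq
    rw [hq]
  unfold Gam
  rw [(h1 y).fderiv_eq, (h1 x).fderiv_eq, (h2 x y).fderiv_eq]

lemma D2_congr_nhds {G G' : E → E →L[ℝ] E →L[ℝ] ℝ} {p : E} (h : G =ᶠ[𝓝 p] G') (x y u v : E) :
    D2 G p x y u v = D2 G' p x y u v := by
  have h2 : (fun q => fderiv ℝ (fun r => G r u v) q y) =ᶠ[𝓝 p]
      fun q => fderiv ℝ (fun r => G' r u v) q y := by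
    filter_upwards [h.eventually_nhds] with q hq
    have : (fun r => G r u v) =ᶠ[𝓝 q] fun r => G' r u v := by
      filter_upwards [hq] with r hr
      rw [hr]
    rw [this.fderiv_eq]
  unfold D2
  rw [h2.fderiv_eq]

lemma Rm_congr_nhds {G G' : E → E →L[ℝ] E →L[ℝ] ℝ} {p : E} (h : G =ᶠ[𝓝 p] G') (x y : E) :
    Rm G p x y = Rm G' p x y := by
  unfold Rm
  rw [D2_congr_nhds h, D2_congr_nhds h, D2_congr_nhds h, Gam_congr_nhds h, Gam_congr_nhds h,
    Gam_congr_nhds h, h.self_of_nhds]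

end Congr

section Manifold

variable {E : Type*} [NormedAddCommGroup E] [NormedSpace ℝ E]
  {H : Type*} [TopologicalSpace H] {I : ModelWithCorners ℝ E H}
  {M : Type*} [TopologicalSpace M] [ChartedSpace H M]

variable (I) in
/-- `φ` is a local parametrisation of the manifold `M` near `φ x`: it is smooth near `x`, and its
differential at `x` is invertible. -/
def IsParam (φ : E → M) (x : E) : Prop :=
  ContMDiffAt 𝓘(ℝ, E) I ∞ φ x ∧ (mfderiv 𝓘(ℝ, E) I φ x).IsInvertible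

/-- The coordinate expression of a field of bilinear forms on the tangent spaces in a local
parametrisation `φ`. -/
def coordF (g : (x : M) → TangentSpace I x →L[ℝ] TangentSpace I x →L[ℝ] ℝ) (φ : E → M) (x : E) :
    E →L[ℝ] E →L[ℝ] ℝ :=
  (show E →L[ℝ] E →L[ℝ] ℝ from g (φ x)).bilinearComp
    (show E →L[ℝ] E from mfderiv 𝓘(ℝ, E) I φ x) (show E →L[ℝ] E from mfderiv 𝓘(ℝ, E) I φ x)

lemma coordF_apply (g : (x : M) → TangentSpace I x →L[ℝ] TangentSpace I x →L[ℝ] ℝ)
    (φ : E → M) (x u v : E) : coordF g φ x u v =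
      g (φ x) (mfderiv 𝓘(ℝ, E) I φ x u) (mfderiv 𝓘(ℝ, E) I φ x v) := rfl

section Field

variable (g : (x : M) → TangentSpace I x →L[ℝ] TangentSpace I x →L[ℝ] ℝ)

lemma coordF_symm (hs : ∀ (x : M) (u v : TangentSpace I x), g x u v = g x v u)
    (φ : E → M) (x u v : E) : coordF g φ x u v = coordF g φ x v u := by
  rw [coordF_apply, coordF_apply]
  exact hs _ _ _

lemma coordF_isInner (hs : ∀ (x : M) (u v : TangentSpace I x), g x u v = g x v u)
    (hp : ∀ (x : M) (v : TangentSpace I x), v ≠ 0 → 0 < g x v v) {φ : E → M} {x : E}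
    (h : (mfderiv 𝓘(ℝ, E) I φ x).IsInvertible) : IsInner (coordF g φ x) where
  symm := coordF_symm g hs φ x
  pos := by
    intro u hu
    rw [coordF_apply]
    refine hp _ _ ?_
    intro h0
    have h1 : mfderiv 𝓘(ℝ, E) I φ x u = mfderiv 𝓘(ℝ, E) I φ x 0 := by
      rw [h0, map_zero]
    exact hu (h.injective h1)

lemma coordF_congr {φ ψ : E → M} {x : E} (h : φ =ᶠ[𝓝 x] ψ) : coordF g φ x = coordF g ψ x := by
  have h1 : (mfderiv 𝓘(ℝ, E) I φ x : E →L[ℝ] E) = (mfderiv 𝓘(ℝ, E) I ψ x : E →L[ℝ] E) :=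
    h.mfderiv_eq
  have h2 : ∀ a b : M, a = b →
      (g a : E →L[ℝ] E →L[ℝ] ℝ) = (g b : E →L[ℝ] E →L[ℝ] ℝ) := by
    rintro a _ rfl
    rfl
  have h3 := h2 _ _ h.self_of_nhds
  unfold coordF
  rw [h1, h3]

lemma coordF_comp {φ : E → M} {τ : E → E} {z : E} (hφ : MDifferentiableAt 𝓘(ℝ, E) I φ (τ z))
    (hτ : DifferentiableAt ℝ τ z) : coordF g (φ ∘ τ) z = pull (coordF g φ) τ z := by
  have h1 : (mfderiv 𝓘(ℝ, E) I (φ ∘ τ) z : E →L[ℝ] E) =
      (mfderiv 𝓘(ℝ, E) I φ (τ z) : E →L[ℝ] E).comp (fderiv ℝ τ z) := by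
    have h2 := mfderiv_comp z hφ hτ.mdifferentiableAt
    rw [mfderiv_eq_fderiv] at h2
    exact h2
  unfold coordF pull
  rw [h1]
  rfl

end Field

variable [IsManifold I ∞ M]

/-- The smoothness needed for `exists_transition`: the coordinate expression of a local
parametrisation in the chart at `p`. -/
lemma isParam_chart {φ : E → M} {x : E} (h : IsParam I φ x) :
    ContDiffAt ℝ ∞ (extChartAt I (φ x) ∘ φ) x ∧
      (fderiv ℝ (extChartAt I (φ x) ∘ φ) x).IsInvertible := by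
  have hc : ContMDiffAt I 𝓘(ℝ, E) ∞ (extChartAt I (φ x)) (φ x) :=
    contMDiffAt_extChartAt' (mem_chart_source H (φ x))
  refine ⟨(hc.comp x h.1).contDiffAt, ?_⟩
  have h1 := mfderiv_comp x (hc.mdifferentiableAt (by simp)) (h.1.mdifferentiableAt (by simp))
  have h2 : (mfderiv I 𝓘(ℝ, E) (extChartAt I (φ x)) (φ x)).IsInvertible :=
    isInvertible_mfderiv_extChartAt (mem_extChartAt_source (φ x))
  rw [← mfderiv_eq_fderiv]
  rw [h1]
  exact h2.comp h.2

/-- Any two local parametrisations of `M` near the same point differ by a local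
diffeomorphism. -/
lemma exists_reparam [CompleteSpace E] {φ ψ : E → M} {x y : E} (hφ : IsParam I φ x)
    (hψ : IsParam I ψ y) (h : φ x = ψ y) :
    ∃ τ : E → E, ContDiffAt ℝ ∞ τ y ∧ τ y = x ∧ ψ =ᶠ[𝓝 y] φ ∘ τ ∧
      (fderiv ℝ τ y).IsInvertible := by
  obtain ⟨h1, h2⟩ := isParam_chart hφ
  obtain ⟨h3, h4⟩ := isParam_chart hψ
  rw [← h] at h3 h4
  obtain ⟨τ, t1, t2, t3, t4⟩ := exists_transition h1 h3 (by simp [h]) h2 h4
  refine ⟨τ, t1, t2, ?_, t4⟩
  have hsrc : (extChartAt I (φ x)).source ∈ 𝓝 (φ x) := extChartAt_source_mem_nhds (φ x)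
  have c1 : ∀ᶠ z in 𝓝 y, ψ z ∈ (extChartAt I (φ x)).source := by
    have hc := hψ.1.continuousAt
    unfold ContinuousAt at hc
    rw [← h] at hc
    exact hc hsrc
  have c2 : ∀ᶠ z in 𝓝 y, φ (τ z) ∈ (extChartAt I (φ x)).source := by
    have hc : ContinuousAt (fun z => φ (τ z)) y :=
      ContinuousAt.comp (by rw [t2]; exact hφ.1.continuousAt) t1.continuousAt
    have hc' : Tendsto (fun z => φ (τ z)) (𝓝 y) (𝓝 (φ x)) := by
      have e : (fun z => φ (τ z)) y = φ x := by simp [t2]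
      rw [← e]
      exact hc
    exact hc' hsrc
  filter_upwards [c1, c2, t3] with z hz1 hz2 hz3
  exact ((extChartAt I (φ x)).injOn hz2 hz1 hz3).symm

variable (g : ContMDiffRiemannianMetric I ∞ E (fun x : M => TangentSpace I x))

end Manifold

end

end Pool.Agent.HS

end

section

set_option autoImplicit false
set_option maxSynthPendingDepth 3

/-!
# Riemannian metrics induced by an immersion (project HS)

`ι : M → V` is a smooth immersion of a manifold into a normed space, `B : M → V →L[ℝ] V →L[ℝ] ℝ`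
a smooth family of bilinear forms which is symmetric and positive on the image of `dι`.
-/

namespace Pool.Agent.HS

open Bundle Manifold Set Filter
open scoped ContDiff Manifold Topology

noncomputable section

variable {E : Type*} [NormedAddCommGroup E] [NormedSpace ℝ E]
  {H : Type*} [TopologicalSpace H] {I : ModelWithCorners ℝ E H}
  {M : Type*} [TopologicalSpace M] [ChartedSpace H M]
  {V : Type*} [NormedAddCommGroup V] [NormedSpace ℝ V]

/-- The bilinear form `(u, v) ↦ B (A u) (A v)`. -/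
def bilPull (B : V →L[ℝ] V →L[ℝ] ℝ) (A : E →L[ℝ] V) : E →L[ℝ] E →L[ℝ] ℝ :=
  (ContinuousLinearMap.precomp ℝ A) ∘L B ∘L A

lemma bilPull_apply (B : V →L[ℝ] V →L[ℝ] ℝ) (A : E →L[ℝ] V) (u v : E) :
    bilPull B A u v = B (A u) (A v) := rfl

/-- The differential of `ι`, in the trivialization at `x₀`. -/
def dTriv [IsManifold I ∞ M] (ι : M → V) (x₀ x : M) : E →L[ℝ] V :=
  (mfderiv I 𝓘(ℝ, V) ι x : E →L[ℝ] V) ∘L
    (trivializationAt E (fun x : M => TangentSpace I x) x₀).symmL ℝ x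

set_option backward.isDefEq.respectTransparency false in
lemma contMDiffAt_dTriv [IsManifold I ∞ M] {ι : M → V} {x₀ : M}
    (hι : ContMDiffAt I 𝓘(ℝ, V) ∞ ι x₀) :
    ContMDiffAt I 𝓘(ℝ, E →L[ℝ] V) ∞ (dTriv (I := I) ι x₀) x₀ := by
  have h := ContMDiffAt.mfderiv_const (m := ∞) (n := ∞) hι (by simp)
  refine h.congr_of_eventuallyEq (Filter.Eventually.of_forall fun x => ?_)
  simp only [inTangentCoordinates, ContinuousLinearMap.inCoordinates,
    TangentBundle.continuousLinearMapAt_model_space]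
  rfl

lemma contMDiffAt_bilPull {B : M → V →L[ℝ] V →L[ℝ] ℝ} {A : M → E →L[ℝ] V} {x₀ : M}
    (hB : ContMDiffAt I 𝓘(ℝ, V →L[ℝ] V →L[ℝ] ℝ) ∞ B x₀)
    (hA : ContMDiffAt I 𝓘(ℝ, E →L[ℝ] V) ∞ A x₀) :
    ContMDiffAt I 𝓘(ℝ, E →L[ℝ] E →L[ℝ] ℝ) ∞ (fun x => bilPull (B x) (A x)) x₀ :=
  ContMDiffAt.clm_comp (hA.clm_precomp (F₃ := ℝ)) (ContMDiffAt.clm_comp hB hA)

/-- The form induced by `ι` on the tangent space. -/
def indForm (ι : M → V) (B : M → V →L[ℝ] V →L[ℝ] ℝ) (x : M) :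
    TangentSpace I x →L[ℝ] TangentSpace I x →L[ℝ] ℝ :=
  bilPull (E := E) (B x) (mfderiv I 𝓘(ℝ, V) ι x)

set_option backward.isDefEq.respectTransparency false in
lemma contMDiff_indForm [IsManifold I ∞ M] {ι : M → V} {B : M → V →L[ℝ] V →L[ℝ] ℝ}
    (hι : ContMDiff I 𝓘(ℝ, V) ∞ ι) (hB : ContMDiff I 𝓘(ℝ, V →L[ℝ] V →L[ℝ] ℝ) ∞ B) :
    ContMDiff I (I.prod 𝓘(ℝ, E →L[ℝ] E →L[ℝ] ℝ)) ∞
      (fun b : M => TotalSpace.mk' (E →L[ℝ] E →L[ℝ] ℝ)
        (E := fun b : M => TangentSpace I b →L[ℝ] TangentSpace I b →L[ℝ] ℝ) b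
          (indForm ι B b)) := by
  intro x₀
  rw [contMDiffAt_section]
  have h1 : ContMDiffAt I 𝓘(ℝ, E →L[ℝ] E →L[ℝ] ℝ) ∞
      (fun x => bilPull (B x) (dTriv (I := I) ι x₀ x)) x₀ :=
    contMDiffAt_bilPull (hB x₀) (contMDiffAt_dTriv (hι x₀))
  refine h1.congr_of_eventuallyEq ?_
  have hb : ∀ᶠ x in 𝓝 x₀, x ∈ (trivializationAt E (fun x : M => TangentSpace I x) x₀).baseSet :=
    (trivializationAt E (fun x : M => TangentSpace I x) x₀).open_baseSet.mem_nhds
      (mem_baseSet_trivializationAt _ _ _)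
  filter_upwards [hb] with x hx
  ext u v
  simp only [hom_trivializationAt_apply, ContinuousLinearMap.inCoordinates]
  rw [bilPull_apply]
  simp only [ContinuousLinearMap.comp_apply]
  have hx' : x ∈ (trivializationAt (E →L[ℝ] ℝ)
      (fun x : M => TangentSpace I x →L[ℝ] ℝ) x₀).baseSet := ⟨hx, trivial⟩
  rw [Trivialization.continuousLinearMapAt_apply_of_mem ℝ _ hx']
  simp only [hom_trivializationAt_apply, ContinuousLinearMap.inCoordinates]
  have ht : ∀ r : ℝ, (Trivialization.continuousLinearMapAt ℝ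
      (trivializationAt ℝ (Bundle.Trivial M ℝ) x₀) x) r = r := by
    intro r
    simp
  exact ht _

/-- A positive definite form on a finite-dimensional space has bounded unit ball. -/
lemma isVonNBounded_of_pos [FiniteDimensional ℝ E] {B : E →L[ℝ] E →L[ℝ] ℝ}
    (h : ∀ v : E, v ≠ 0 → 0 < B v v) :
    Bornology.IsVonNBounded ℝ {v : E | B v v < 1} := by
  have : ProperSpace E := FiniteDimensional.proper ℝ E
  rcases subsingleton_or_nontrivial E with hE | hE
  · have : {v : E | B v v < 1} ⊆ Metric.ball (0 : E) 1 := by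
      intro v _
      rw [Subsingleton.elim v 0]
      simp
    exact (NormedSpace.isVonNBounded_ball ℝ E _).subset this
  · have hc : Continuous fun v : E => B v v := by fun_prop
    obtain ⟨v₀, hv₀, hmin⟩ := (isCompact_sphere (0 : E) 1).exists_isMinOn
      (NormedSpace.sphere_nonempty.2 zero_le_one) hc.continuousOn
    have hne : v₀ ≠ 0 := by
      intro h0
      rw [h0] at hv₀
      simp at hv₀
    have hpos : 0 < B v₀ v₀ := h v₀ hne
    have key : ∀ v : E, B v₀ v₀ * ‖v‖ ^ 2 ≤ B v v := by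
      intro v
      rcases eq_or_ne v 0 with rfl | hv
      · simp
      have hn : 0 < ‖v‖ := norm_pos_iff.2 hv
      have h1 : B v₀ v₀ ≤ B ((‖v‖)⁻¹ • v) ((‖v‖)⁻¹ • v) := by
        refine hmin ?_
        rw [mem_sphere_zero_iff_norm, norm_smul, norm_inv, norm_norm]
        exact inv_mul_cancel₀ hn.ne'
      have h2 : B ((‖v‖)⁻¹ • v) ((‖v‖)⁻¹ • v) = (‖v‖)⁻¹ ^ 2 * B v v := by
        simp [pow_two, mul_assoc]
      rw [h2] at h1
      have h3 : B v₀ v₀ * ‖v‖ ^ 2 ≤ ((‖v‖)⁻¹ ^ 2 * B v v) * ‖v‖ ^ 2 :=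
        mul_le_mul_of_nonneg_right h1 (by positivity)
      have h4 : ((‖v‖)⁻¹ ^ 2 * B v v) * ‖v‖ ^ 2 = B v v := by
        field_simp
      linarith
    have hsub : {v : E | B v v < 1} ⊆ Metric.ball (0 : E) (1 / B v₀ v₀ + 1) := by
      intro v hv
      have h1 : B v v < 1 := hv
      have h2 := key v
      rw [mem_ball_zero_iff]
      have h3 : ‖v‖ ^ 2 < 1 / B v₀ v₀ := by
        rw [lt_div_iff₀ hpos]
        linarith
      nlinarith [norm_nonneg v]
    exact (NormedSpace.isVonNBounded_ball ℝ E _).subset hsub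

/-- The Riemannian metric on `M` induced by `ι : M → V` and the bilinear forms `B` on `V`. -/
def indMetric [FiniteDimensional ℝ E] [IsManifold I ∞ M] (ι : M → V)
    (B : M → V →L[ℝ] V →L[ℝ] ℝ)
    (hι : ContMDiff I 𝓘(ℝ, V) ∞ ι) (hB : ContMDiff I 𝓘(ℝ, V →L[ℝ] V →L[ℝ] ℝ) ∞ B)
    (hsymm : ∀ (x : M) (a b : V), B x a b = B x b a)
    (hpos : ∀ (x : M) (v : TangentSpace I x), v ≠ 0 →
      0 < B x (mfderiv I 𝓘(ℝ, V) ι x v : V) (mfderiv I 𝓘(ℝ, V) ι x v : V)) :
    ContMDiffRiemannianMetric I ∞ E (fun x : M => TangentSpace I x) where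
  inner x := indForm ι B x
  symm x _ _ := hsymm x _ _
  pos x v hv := hpos x v hv
  isVonNBounded x := isVonNBounded_of_pos (E := E) (B := indForm ι B x)
    fun v hv => hpos x v hv
  contMDiff := contMDiff_indForm hι hB

/-! ### The metric induced by a metric `G` on the ambient space -/

section Ambient

variable [FiniteDimensional ℝ E] [IsManifold I ∞ M] (ι : M → V) (G : V → V →L[ℝ] V →L[ℝ] ℝ)
  (hι : ContMDiff I 𝓘(ℝ, V) ∞ ι) (hG : ∀ x : M, ContDiffAt ℝ ∞ G (ι x))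
  (hsymm : ∀ (x : M) (a b : V), G (ι x) a b = G (ι x) b a)
  (hpos : ∀ (x : M) (v : TangentSpace I x), v ≠ 0 →
    0 < G (ι x) (mfderiv I 𝓘(ℝ, V) ι x v : V) (mfderiv I 𝓘(ℝ, V) ι x v : V))

include hι hG in
omit [FiniteDimensional ℝ E] [IsManifold I ∞ M] in
lemma contMDiff_ambient : ContMDiff I 𝓘(ℝ, V →L[ℝ] V →L[ℝ] ℝ) ∞ (fun x => G (ι x)) :=
  fun x => (hG x).contMDiffAt.comp x (hι x)

/-- The Riemannian metric on `M` induced by an immersion `ι : M → V` and a metric `G` on the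
ambient space. -/
def ambMetric : ContMDiffRiemannianMetric I ∞ E (fun x : M => TangentSpace I x) :=
  indMetric ι (fun x => G (ι x)) hι (contMDiff_ambient ι G hι hG) hsymm hpos

include hι in
omit [IsManifold I ∞ M] in
/-- A smooth map whose composition with the immersion has injective differential is a local
parametrisation. -/
lemma isParam_of_injective {φ : E → M} {x : E} (hφ : ContMDiffAt 𝓘(ℝ, E) I ∞ φ x)
    (h : Function.Injective (fderiv ℝ (ι ∘ φ) x)) : IsParam I φ x := by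
  refine ⟨hφ, ?_⟩
  have h1 : (fderiv ℝ (ι ∘ φ) x : E →L[ℝ] V) =
      (mfderiv I 𝓘(ℝ, V) ι (φ x) : E →L[ℝ] V).comp (mfderiv 𝓘(ℝ, E) I φ x : E →L[ℝ] E) := by
    have h2 := mfderiv_comp x ((hι (φ x)).mdifferentiableAt (by simp))
      (hφ.mdifferentiableAt (by simp))
    rw [mfderiv_eq_fderiv] at h2
    exact h2
  rw [h1] at h
  let L : E →L[ℝ] E := mfderiv 𝓘(ℝ, E) I φ x
  have hL : Function.Injective L := Function.Injective.of_comp h
  let e : E ≃ₗ[ℝ] E := LinearEquiv.ofInjectiveEndo (L : E →ₗ[ℝ] E) hL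
  exact ⟨e.toContinuousLinearEquiv, by ext v; rfl⟩

end Ambient

end

end Pool.Agent.HS

end
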