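import Mathlib

/-! The parts of this file: HS.GDefs, HS.GScale, HS.GFrame. -/

section

/-!
# Block G (project HS): explicit data and the infinitesimal form

Data (`d` small): `B = 1 + d Φ` with `Φ = diag(1,0,-1)`, `b = adj B`, `Δ = ⟨b y, y⟩`,
`λ = 1/2`, `ε = d²`, `s = 15/16`, `β = 33/8`, `w = (1,2,1)`, `q = (1,1,1)`:

* base metric `h_y(v,v) = ⟨B v, v⟩ / Δ` on the sphere,
* connection `A_y(v) = λ Δ L - B L + ε ⟨w,L⟩ y` with `L = y × B v / Δ` (then `v = B L × y`),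
* `κ_y(n,n) = s ⟨y,n⟩² + 2 ε β ⟨y,n⟩⟨w,n⟩ + (d²/2) ⟨q,n⟩²`,
* curvature of `A`: `F(v₁,v₂) = F0(y) ⟨y, v₁ × v₂⟩`.

For a point `y` of the sphere and `L ⟂ y` the curve through `y` with `y' = B L × y`,
`L' = B L × L` is a geodesic of `h`; a section `n` along it is parallel for `D = d + A ×` if
`n' = - a × n`, `a = A_y(y')`.  The jets of `y, L, a, n` along this curve are given
explicitly below.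
-/

open Matrix

namespace Pool.Agent.HS

noncomputable section

/-- `B = 1 + d Φ`, `Φ = diag (1, 0, -1)`. -/
def Bv (d : ℝ) (x : Fin 3 → ℝ) : Fin 3 → ℝ := ![(1 + d) * x 0, x 1, (1 - d) * x 2]

/-- `b = adj B`. -/
def bv (d : ℝ) (x : Fin 3 → ℝ) : Fin 3 → ℝ :=
  ![(1 - d) * x 0, (1 - d ^ 2) * x 1, (1 + d) * x 2]

/-- the vector `w`. -/
def wv : Fin 3 → ℝ := ![1, 2, 1]

/-- the vector `q` (`M = q qᵀ`). -/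
def qv : Fin 3 → ℝ := ![1, 1, 1]

/-- `Δ = ⟨b y, y⟩`. -/
def Dl (d : ℝ) (y : Fin 3 → ℝ) : ℝ := bv d y ⬝ᵥ y

/-- The base metric `h_y(u,v) = ⟨B u, v⟩ / Δ`. -/
def hB (d : ℝ) (y u v : Fin 3 → ℝ) : ℝ := (Bv d u ⬝ᵥ v) / Dl d y

/-- `L_y(v) = y × B v / Δ`. -/
def Lm (d : ℝ) (y v : Fin 3 → ℝ) : Fin 3 → ℝ := (Dl d y)⁻¹ • (y ⨯₃ Bv d v)

/-- The connection form `A_y(v) = λ Δ L - B L + ε ⟨w,L⟩ y`, `L = L_y(v)`. -/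
def cA (d : ℝ) (y v : Fin 3 → ℝ) : Fin 3 → ℝ :=
  (1 / 2 * Dl d y) • Lm d y v - Bv d (Lm d y v) + (d ^ 2 * (wv ⬝ᵥ Lm d y v)) • y

/-- The form `κ_y(n,m)`. -/
def kap (d : ℝ) (y n m : Fin 3 → ℝ) : ℝ :=
  15 / 16 * ((y ⬝ᵥ n) * (y ⬝ᵥ m))
    + 33 / 8 * d ^ 2 * ((y ⬝ᵥ n) * (wv ⬝ᵥ m) + (y ⬝ᵥ m) * (wv ⬝ᵥ n))
    + d ^ 2 / 2 * ((qv ⬝ᵥ n) * (qv ⬝ᵥ m))

/-- `τ = |b y|²`. -/
def tau (d : ℝ) (y : Fin 3 → ℝ) : ℝ := bv d y ⬝ᵥ bv d y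

/-- The coefficient of `y` in `F0 - (tangential part)`:
`f0 + ε a1`, `f0 = 2 τ/Δ² - tr b/Δ + λ² Δ`,
`a1 = [(Δ tr b - 2 τ) ⟨b w,y⟩ + Δ ⟨b² w, y⟩] / (det B Δ²)`. -/
def Fy (d : ℝ) (y : Fin 3 → ℝ) : ℝ :=
  2 * tau d y * ((Dl d y)⁻¹) ^ 2 - (3 - d ^ 2) * (Dl d y)⁻¹ + 1 / 4 * Dl d y
    + d ^ 2 * (((3 - d ^ 2) * Dl d y - 2 * tau d y) * (bv d wv ⬝ᵥ y)
        + Dl d y * (bv d (bv d wv) ⬝ᵥ y)) * ((Dl d y)⁻¹) ^ 2 * (1 - d ^ 2)⁻¹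

/-- The curvature of `A` is `F(v₁,v₂) = F0(y) ⟨y, v₁ × v₂⟩`. -/
def F0 (d : ℝ) (y : Fin 3 → ℝ) : Fin 3 → ℝ :=
  Fy d y • y - (d ^ 2 / 2) • (wv - (wv ⬝ᵥ y) • y)

/-- Gauss curvature of `h`. -/
def KG (d : ℝ) (y : Fin 3 → ℝ) : ℝ :=
  (1 - d ^ 2)⁻¹ * ((3 - d ^ 2) - tau d y * (Dl d y)⁻¹) * ((3 - d ^ 2) - 3 * tau d y * (Dl d y)⁻¹)
    + 3 - 2 * (1 - d ^ 2) * (Dl d y)⁻¹

/-! ### jets along the flow `y' = B L × y`, `L' = B L × L` -/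

/-- `y'`. -/
def y1 (d : ℝ) (y L : Fin 3 → ℝ) : Fin 3 → ℝ := Bv d L ⨯₃ y
/-- `L'`. -/
def L1 (d : ℝ) (L : Fin 3 → ℝ) : Fin 3 → ℝ := Bv d L ⨯₃ L
/-- `y''`. -/
def y2 (d : ℝ) (y L : Fin 3 → ℝ) : Fin 3 → ℝ := Bv d (L1 d L) ⨯₃ y + Bv d L ⨯₃ y1 d y L
/-- `Δ'`. -/
def Dl1 (d : ℝ) (y L : Fin 3 → ℝ) : ℝ := 2 * (bv d y ⬝ᵥ y1 d y L)
/-- `τ'`. -/
def tau1 (d : ℝ) (y L : Fin 3 → ℝ) : ℝ := 2 * (bv d y ⬝ᵥ bv d (y1 d y L))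

/-- the derivative of `Fy` along the flow. -/
def Fy1 (d : ℝ) (y L : Fin 3 → ℝ) : ℝ :=
  2 * tau1 d y L * ((Dl d y)⁻¹) ^ 2 - 4 * tau d y * Dl1 d y L * ((Dl d y)⁻¹) ^ 3
    + (3 - d ^ 2) * Dl1 d y L * ((Dl d y)⁻¹) ^ 2 + 1 / 4 * Dl1 d y L
    + d ^ 2 * (((3 - d ^ 2) * Dl1 d y L - 2 * tau1 d y L) * (bv d wv ⬝ᵥ y)
        + ((3 - d ^ 2) * Dl d y - 2 * tau d y) * (bv d wv ⬝ᵥ y1 d y L)
        + Dl1 d y L * (bv d (bv d wv) ⬝ᵥ y) + Dl d y * (bv d (bv d wv) ⬝ᵥ y1 d y L))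
        * ((Dl d y)⁻¹) ^ 2 * (1 - d ^ 2)⁻¹
    - 2 * d ^ 2 * (((3 - d ^ 2) * Dl d y - 2 * tau d y) * (bv d wv ⬝ᵥ y)
        + Dl d y * (bv d (bv d wv) ⬝ᵥ y)) * Dl1 d y L * ((Dl d y)⁻¹) ^ 3 * (1 - d ^ 2)⁻¹

/-- `a = A_y(y')`, in terms of `L`. -/
def aa (d : ℝ) (y L : Fin 3 → ℝ) : Fin 3 → ℝ :=
  (1 / 2 * Dl d y) • L - Bv d L + (d ^ 2 * (wv ⬝ᵥ L)) • y

/-- `a'`. -/
def aa1 (d : ℝ) (y L : Fin 3 → ℝ) : Fin 3 → ℝ :=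
  (1 / 2 * Dl1 d y L) • L + (1 / 2 * Dl d y) • L1 d L - Bv d (L1 d L)
    + (d ^ 2 * (wv ⬝ᵥ L1 d L)) • y + (d ^ 2 * (wv ⬝ᵥ L)) • y1 d y L

/-- `n' = - a × n`. -/
def n1 (d : ℝ) (y L n : Fin 3 → ℝ) : Fin 3 → ℝ := -(aa d y L ⨯₃ n)

/-- `n'' = - a' × n - a × n'`. -/
def n2 (d : ℝ) (y L n : Fin 3 → ℝ) : Fin 3 → ℝ :=
  -(aa1 d y L ⨯₃ n) - aa d y L ⨯₃ n1 d y L n

/-- `(κ_y(n,n))''` for jets `(y,y',y'')`, `(n,n',n'')`. -/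
def kapJ (d : ℝ) (y y' y'' n n' n'' : Fin 3 → ℝ) : ℝ :=
  15 / 8 * ((y' ⬝ᵥ n + y ⬝ᵥ n') ^ 2
      + (y ⬝ᵥ n) * (y'' ⬝ᵥ n + 2 * (y' ⬝ᵥ n') + y ⬝ᵥ n''))
    + 33 / 4 * d ^ 2 * ((y'' ⬝ᵥ n + 2 * (y' ⬝ᵥ n') + y ⬝ᵥ n'') * (wv ⬝ᵥ n)
      + 2 * (y' ⬝ᵥ n + y ⬝ᵥ n') * (wv ⬝ᵥ n') + (y ⬝ᵥ n) * (wv ⬝ᵥ n''))
    + d ^ 2 * ((qv ⬝ᵥ n') ^ 2 + (qv ⬝ᵥ n) * (qv ⬝ᵥ n''))

/-- `f = ⟨F0, n⟩`. -/
def ff (d : ℝ) (y n : Fin 3 → ℝ) : ℝ :=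
  Fy d y * (y ⬝ᵥ n) - d ^ 2 / 2 * (wv ⬝ᵥ n - (wv ⬝ᵥ y) * (y ⬝ᵥ n))

/-- `f'` along the flow, `n` parallel. -/
def ff1 (d : ℝ) (y L n : Fin 3 → ℝ) : ℝ :=
  Fy1 d y L * (y ⬝ᵥ n) + Fy d y * (y1 d y L ⬝ᵥ n + y ⬝ᵥ n1 d y L n)
    - d ^ 2 / 2 * (wv ⬝ᵥ n1 d y L n - (wv ⬝ᵥ y1 d y L) * (y ⬝ᵥ n)
      - (wv ⬝ᵥ y) * (y1 d y L ⬝ᵥ n + y ⬝ᵥ n1 d y L n))

end

end Pool.Agent.HS

end

section

/-!
# Block G: the scaled form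

For an orthonormal pair `y, L` and `T = L × y`, `n = d² (x y + z T) + t L`, the infinitesimal
form is `GG d y L n = d⁴ HH d y L x z t` with an explicit `HH` which is continuous at `d = 0`.
-/

open Matrix

namespace Pool.Agent.HS

noncomputable section

/-- `Φ L`. -/
def Ph (x : Fin 3 → ℝ) : Fin 3 → ℝ := ![x 0, 0, -x 2]

/-- `L' = d l1`. -/
def l1 (L : Fin 3 → ℝ) : Fin 3 → ℝ := Ph L ⨯₃ L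

/-- `L'' = d² l2`. -/
def l2 (L : Fin 3 → ℝ) : Fin 3 → ℝ := Ph (l1 L) ⨯₃ L + Ph L ⨯₃ l1 L

/-- `T = L × y`. -/
def TT (y L : Fin 3 → ℝ) : Fin 3 → ℝ := L ⨯₃ y

/-- `T'`. -/
def T1 (d : ℝ) (y L : Fin 3 → ℝ) : Fin 3 → ℝ := Bv d L ⨯₃ TT y L

/-- `T''`. -/
def T2 (d : ℝ) (y L : Fin 3 → ℝ) : Fin 3 → ℝ :=
  Bv d (L1 d L) ⨯₃ TT y L + Bv d L ⨯₃ T1 d y L

/-- `L''`. -/
def L2 (d : ℝ) (L : Fin 3 → ℝ) : Fin 3 → ℝ := Bv d (L1 d L) ⨯₃ L + Bv d L ⨯₃ L1 d L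

theorem Bv_eq (d : ℝ) (x : Fin 3 → ℝ) : Bv d x = x + d • Ph x := by
  ext i; fin_cases i <;> simp [Bv, Ph] <;> ring

theorem Ph_smul (c : ℝ) (x : Fin 3 → ℝ) : Ph (c • x) = c • Ph x := by
  ext i; fin_cases i <;> simp [Ph]

theorem L1_eq (d : ℝ) (L : Fin 3 → ℝ) : L1 d L = d • l1 L := by
  simp only [L1, l1, Bv_eq, map_add, map_smul, LinearMap.add_apply, LinearMap.smul_apply,
    cross_self, zero_add]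

theorem L2_eq (d : ℝ) (L : Fin 3 → ℝ) : L2 d L = d ^ 2 • l2 L := by
  simp only [L2, L1_eq, l2, Bv_eq, map_add, map_smul, LinearMap.add_apply,
    LinearMap.smul_apply, Ph_smul]
  have h : (l1 L) ⨯₃ L + L ⨯₃ (l1 L) = 0 := cross_anticomm' _ _
  have h2 : L ⨯₃ (l1 L) = -((l1 L) ⨯₃ L) := by rw [cross_anticomm]
  rw [h2]
  module

/-! cross products of the frame -/

theorem T_cross_L {y L : Fin 3 → ℝ} (hL : L ⬝ᵥ L = 1) (hyL : y ⬝ᵥ L = 0) :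
    TT y L ⨯₃ L = y := by
  rw [TT, cross_cross_eq_smul_sub_smul, hL, hyL]; simp

theorem y_cross_T {y L : Fin 3 → ℝ} (hy : y ⬝ᵥ y = 1) (hyL : y ⬝ᵥ L = 0) :
    y ⨯₃ TT y L = L := by
  rw [TT, cross_cross_eq_smul_sub_smul', hy]
  rw [dotProduct_comm] at hyL
  simp [hyL]

theorem L_cross_T {y L : Fin 3 → ℝ} (hL : L ⬝ᵥ L = 1) (hyL : y ⬝ᵥ L = 0) :
    L ⨯₃ TT y L = -y := by
  rw [← cross_anticomm, T_cross_L hL hyL]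

theorem y_cross_L (y L : Fin 3 → ℝ) : y ⨯₃ L = -TT y L := by
  rw [TT, cross_anticomm]

end

end Pool.Agent.HS

end

section

/-!
# Block G: parallel sections in the frame `(y, T, L)`
-/

open Matrix

namespace Pool.Agent.HS

noncomputable section

/-! the derivatives of the frame coefficients of a parallel section
`n = α y + β T + γ L`: `α' = ψ β`, `β' = - ψ α + η γ`, `γ' = - η β`, with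
`ψ = Δ/2`, `η = d² ⟨w,L⟩`. -/

theorem n1_frame (d : ℝ) {y L : Fin 3 → ℝ} (hy : y ⬝ᵥ y = 1) (hL : L ⬝ᵥ L = 1)
    (hyL : y ⬝ᵥ L = 0) (α β γ : ℝ) :
    n1 d y L (α • y + β • TT y L + γ • L) =
      (1 / 2 * Dl d y * β) • y + α • y1 d y L
      + (-(1 / 2 * Dl d y * α) + d ^ 2 * (wv ⬝ᵥ L) * γ) • TT y L + β • T1 d y L
      + (-(d ^ 2 * (wv ⬝ᵥ L) * β)) • L + γ • L1 d L := by
  have e1 : L ⨯₃ y = TT y L := rfl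
  have e2 := L_cross_T hL hyL
  have e3 := y_cross_T hy hyL
  have e4 := y_cross_L y L
  simp only [n1, aa, y1, T1, L1, map_add, map_sub, map_smul, LinearMap.add_apply,
    LinearMap.sub_apply, LinearMap.smul_apply, cross_self, e1, e2, e3, e4, smul_zero]
  module

theorem n2_frame (d : ℝ) {y L : Fin 3 → ℝ} (hy : y ⬝ᵥ y = 1) (hL : L ⬝ᵥ L = 1)
    (hyL : y ⬝ᵥ L = 0) (α β γ : ℝ) :
    n2 d y L (α • y + β • TT y L + γ • L) =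
      (1 / 2 * Dl1 d y L * β + 1 / 2 * Dl d y * (-(1 / 2 * Dl d y * α) + d ^ 2 * (wv ⬝ᵥ L) * γ)) • y
      + (2 * (1 / 2 * Dl d y * β)) • y1 d y L + α • y2 d y L
      + (-(1 / 2 * Dl1 d y L * α) - 1 / 2 * Dl d y * (1 / 2 * Dl d y * β)
          + d ^ 2 * (wv ⬝ᵥ L1 d L) * γ
          + d ^ 2 * (wv ⬝ᵥ L) * (-(d ^ 2 * (wv ⬝ᵥ L) * β))) • TT y L
      + (2 * (-(1 / 2 * Dl d y * α) + d ^ 2 * (wv ⬝ᵥ L) * γ)) • T1 d y L + β • T2 d y L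
      + (-(d ^ 2 * (wv ⬝ᵥ L1 d L) * β)
          - d ^ 2 * (wv ⬝ᵥ L) * (-(1 / 2 * Dl d y * α) + d ^ 2 * (wv ⬝ᵥ L) * γ)) • L
      + (2 * (-(d ^ 2 * (wv ⬝ᵥ L) * β))) • L1 d L + γ • L2 d L := by
  have e1 : L ⨯₃ y = TT y L := rfl
  have e2 := L_cross_T hL hyL
  have e3 := y_cross_T hy hyL
  have e4 := y_cross_L y L
  -- derivatives of the frame relations
  have f1 : ∀ a b : Fin 3 → ℝ, Bv d L ⨯₃ (a ⨯₃ b)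
      = (Bv d L ⨯₃ a) ⨯₃ b + a ⨯₃ (Bv d L ⨯₃ b) := fun a b => leibniz_cross _ _ _
  have g1 : L1 d L ⨯₃ y + L ⨯₃ y1 d y L = T1 d y L := by
    rw [L1, y1, T1, TT, f1]
  have g2 : L1 d L ⨯₃ TT y L + L ⨯₃ T1 d y L = -y1 d y L := by
    rw [L1, T1, y1, ← f1, e2, map_neg]
  have g3 : y1 d y L ⨯₃ TT y L + y ⨯₃ T1 d y L = L1 d L := by
    rw [y1, T1, L1, ← f1, e3]
  have g4 : y1 d y L ⨯₃ L + y ⨯₃ L1 d L = -T1 d y L := by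
    rw [y1, L1, T1, ← f1, e4, map_neg]
  have g5 : L1 d L ⨯₃ L + L ⨯₃ L1 d L = 0 := cross_anticomm' _ _
  have g6 : y1 d y L ⨯₃ y + y ⨯₃ y1 d y L = 0 := cross_anticomm' _ _
  have k1 : L ⨯₃ y1 d y L = T1 d y L - L1 d L ⨯₃ y := by rw [← g1]; abel
  have k2 : L ⨯₃ T1 d y L = -y1 d y L - L1 d L ⨯₃ TT y L := by rw [← g2]; abel
  have k3 : y ⨯₃ T1 d y L = L1 d L - y1 d y L ⨯₃ TT y L := by rw [← g3]; abel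
  have k4 : y ⨯₃ L1 d L = -T1 d y L - y1 d y L ⨯₃ L := by rw [← g4]; abel
  have k5 : L ⨯₃ L1 d L = -(L1 d L ⨯₃ L) := by rw [cross_anticomm]
  have k6 : y ⨯₃ y1 d y L = -(y1 d y L ⨯₃ y) := by rw [cross_anticomm]
  have r1 : Bv d L ⨯₃ y = y1 d y L := rfl
  have r2 : Bv d L ⨯₃ L = L1 d L := rfl
  have r3 : Bv d L ⨯₃ TT y L = T1 d y L := rfl
  rw [n2, n1_frame d hy hL hyL]
  simp only [aa, aa1, y2, T2, L2, map_add, map_sub, map_smul, LinearMap.add_apply,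
    LinearMap.sub_apply, LinearMap.smul_apply, cross_self, e1, e2, e3, e4,
    smul_zero, k1, k2, k3, k4, k5, k6, r1, r2, r3]
  module

end

end Pool.Agent.HS

end
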