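import Pool.Agent.H94.PT.HS.Pull
import Pool.Agent.H94.PT.M01
import Pool.Agent.H94.PT.M02

/-! The parts of this file: HS.Dist, HS.GCont, HS.ProdChart, HS.Pull_3. -/

section

open Set MeasureTheory Manifold Bundle Filter
open scoped Manifold ENNReal ContDiff Topology NNReal Bundle

namespace Pool.Agent.HS

variable
  {E : Type*} [NormedAddCommGroup E] [NormedSpace ℝ E]
  {H : Type*} [TopologicalSpace H] (I : ModelWithCorners ℝ E H)
  {M : Type*} [TopologicalSpace M] [ChartedSpace H M]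

/-- The differential of a real function, with values in the reals. -/
noncomputable def dReal (f : M → ℝ) (x : M) (v : TangentSpace I x) : ℝ :=
  mfderiv I 𝓘(ℝ, ℝ) f x v

variable {I} in
theorem dReal_comp {f : M → ℝ} {x : M} (hf : MDifferentiableAt I 𝓘(ℝ, ℝ) f x) {φ : ℝ → ℝ} {c : ℝ}
    (hφ : HasDerivAt φ c (f x)) (v : TangentSpace I x) :
    dReal I (fun z => φ (f z)) x v = c * dReal I f x v := by
  have h1 : mfderiv I 𝓘(ℝ, ℝ) (φ ∘ f) x
      = (mfderiv 𝓘(ℝ, ℝ) 𝓘(ℝ, ℝ) φ (f x)).comp (mfderiv I 𝓘(ℝ, ℝ) f x) :=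
    mfderiv_comp x hφ.differentiableAt.mdifferentiableAt hf
  have h2 : dReal I (fun z => φ (f z)) x v = fderiv ℝ φ (f x) (dReal I f x v) := by
    have := congrArg (fun L => L v) h1
    rw [mfderiv_eq_fderiv] at this
    exact this
  rw [h2]
  have h3 : fderiv ℝ φ (f x) (dReal I f x v) = (dReal I f x v) * fderiv ℝ φ (f x) 1 := by
    have := (fderiv ℝ φ (f x)).map_smul (dReal I f x v) (1:ℝ)
    rw [smul_eq_mul, mul_one, smul_eq_mul] at this
    exact this
  rw [h3, fderiv_apply_one_eq_deriv, hφ.deriv, mul_comm]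

variable [RiemannianBundle (fun (x : M) ↦ TangentSpace I x)]

variable {I} in
/-- A function of class C^1 with derivative of norm at most 1 is 1-Lipschitz for the Riemannian
distance. -/
theorem enorm_sub_le_riemannianEDist {f : M → ℝ} (hf : ContMDiff I 𝓘(ℝ, ℝ) 1 f)
    (h : ∀ (x : M) (v : TangentSpace I x), |dReal I f x v| ≤ ‖v‖) (x y : M) :
    ‖f y - f x‖ₑ ≤ riemannianEDist I x y := by
  apply le_of_forall_gt (fun r hr ↦ ?_)
  rcases exists_lt_locally_constant_of_riemannianEDist_lt hr zero_lt_one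
    with ⟨γ, γ0, γ1, γ_smooth, hγ, -⟩
  refine lt_of_le_of_lt ?_ hγ
  have hg : ContDiff ℝ 1 (f ∘ γ) := by
    rw [← contMDiff_iff_contDiff]
    exact hf.comp γ_smooth
  have h1 := enorm_sub_le_lintegral_derivWithin_Icc_of_contDiffOn_Icc
    (hg.contDiffOn (s := Icc (0:ℝ) 1)) zero_le_one
  simp only [Function.comp_apply, γ0, γ1] at h1
  refine h1.trans ?_
  rw [pathELength_eq_lintegral_mfderivWithin_Icc]
  apply setLIntegral_mono' measurableSet_Icc (fun t ht ↦ ?_)
  have hd : mfderivWithin 𝓘(ℝ, ℝ) 𝓘(ℝ, ℝ) (f ∘ γ) (Icc 0 1) t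
      = (mfderiv I 𝓘(ℝ, ℝ) f (γ t)) ∘L (mfderivWithin 𝓘(ℝ, ℝ) I γ (Icc 0 1) t) := by
    apply mfderiv_comp_mfderivWithin
    · exact (hf.mdifferentiable one_ne_zero) _
    · exact ((γ_smooth.mdifferentiable one_ne_zero).mdifferentiableOn) _ ht
    · rw [uniqueMDiffWithinAt_iff_uniqueDiffWithinAt]
      exact uniqueDiffOn_Icc zero_lt_one _ ht
  have hd1 : derivWithin (f ∘ γ) (Icc 0 1) t
      = dReal I f (γ t) (mfderivWithin 𝓘(ℝ, ℝ) I γ (Icc 0 1) t 1) := by
    rw [← fderivWithin_derivWithin, ← mfderivWithin_eq_fderivWithin, hd]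
    rfl
  have h2 := h (γ t) (mfderivWithin 𝓘(ℝ, ℝ) I γ (Icc 0 1) t 1)
  rw [← hd1] at h2
  rw [← ofReal_norm, ← ofReal_norm]
  exact ENNReal.ofReal_le_ofReal h2

variable {I} in
/-- The same for the square root of a nonnegative function F of class C^1 with
|dF(v)|^2 <= 4 F |v|^2. -/
theorem enorm_sqrt_sub_le_riemannianEDist {F : M → ℝ} (hF : ContMDiff I 𝓘(ℝ, ℝ) 1 F)
    (h0 : ∀ x, 0 ≤ F x)
    (h : ∀ (x : M) (v : TangentSpace I x), (dReal I F x v) ^ 2 ≤ 4 * F x * ‖v‖ ^ 2) (x y : M) :
    ‖√(F y) - √(F x)‖ₑ ≤ riemannianEDist I x y := by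
  have key : ∀ e : ℝ, 0 < e → ‖√(F y + e) - √(F x + e)‖ₑ ≤ riemannianEDist I x y := by
    intro e he
    apply enorm_sub_le_riemannianEDist (f := fun z => √(F z + e)) _ _ x y
    · intro z
      have hz : F z + e ≠ 0 := by have := h0 z; positivity
      have h1 : ContMDiffAt I 𝓘(ℝ, ℝ) 1 (fun z => F z + e) z := (hF z).add contMDiffAt_const
      have h2 : ContMDiffAt 𝓘(ℝ, ℝ) 𝓘(ℝ, ℝ) 1 Real.sqrt (F z + e) :=
        (Real.contDiffAt_sqrt hz).contMDiffAt
      exact h2.comp z h1
    · intro z v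
      have hz : 0 < F z + e := by have := h0 z; positivity
      have hd : HasDerivAt (fun s : ℝ => √(s + e)) (1 / (2 * √(F z + e))) (F z) := by
        have h3 : HasDerivAt (fun s : ℝ => s + e) 1 (F z) := (hasDerivAt_id _).add_const e
        exact h3.sqrt hz.ne'
      rw [dReal_comp ((hF.mdifferentiable one_ne_zero) z) hd v]
      have hs : 0 < √(F z + e) := Real.sqrt_pos.mpr hz
      have h4 : (1 / (2 * √(F z + e)) * dReal I F z v) ^ 2 ≤ ‖v‖ ^ 2 := by
        rw [mul_pow, div_pow, mul_pow, Real.sq_sqrt hz.le, one_pow]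
        rw [div_mul_eq_mul_div, div_le_iff₀ (by positivity)]
        have h5 := h z v
        nlinarith [sq_nonneg ‖v‖]
      exact abs_le_of_sq_le_sq h4 (norm_nonneg v)
  have hlim : Tendsto (fun e : ℝ => ‖√(F y + e) - √(F x + e)‖ₑ) (𝓝[>] 0)
      (𝓝 ‖√(F y) - √(F x)‖ₑ) := by
    have hc : Continuous (fun e : ℝ => ‖√(F y + e) - √(F x + e)‖ₑ) := by fun_prop
    have := hc.tendsto 0
    simp only [add_zero] at this
    exact this.mono_left nhdsWithin_le_nhds
  exact le_of_tendsto hlim (by filter_upwards [self_mem_nhdsWithin] with e he using key e he)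

/-- Completeness of an extended metric space with a 1-Lipschitz function which has compact
sublevel sets. -/
theorem completeSpace_of_compact_sublevel {α : Type*} [PseudoEMetricSpace α] (f : α → ℝ)
    (hf : ∀ x y, ‖f y - f x‖ₑ ≤ edist x y) (hc : ∀ c : ℝ, IsCompact {x | f x ≤ c}) :
    CompleteSpace α := by
  refine UniformSpace.complete_of_cauchySeq_tendsto fun u hu => ?_
  obtain ⟨N, hN⟩ := EMetric.cauchySeq_iff.mp hu 1 zero_lt_one
  have hb : ∀ n ≥ N, f (u n) ≤ f (u N) + 1 := by
    intro n hn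
    have h1 := (hf (u N) (u n)).trans (hN N le_rfl n hn).le
    rw [← ofReal_norm, Real.norm_eq_abs] at h1
    have h2 : |f (u n) - f (u N)| ≤ 1 := by
      by_contra h3
      push Not at h3
      have h4 : (1 : ℝ≥0∞) < ENNReal.ofReal |f (u n) - f (u N)| := by
        rw [← ENNReal.ofReal_one]
        exact (ENNReal.ofReal_lt_ofReal_iff (by linarith)).mpr h3
      exact absurd h1 (not_le.mpr h4)
    have := (abs_le.mp h2).2
    linarith
  have hu' : CauchySeq (fun n => u (n + N)) := hu.comp_tendsto (tendsto_add_atTop_nat N)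
  have hmem : ∀ n, u (n + N) ∈ {x | f x ≤ f (u N) + 1} := fun n => hb _ (by omega)
  obtain ⟨a, -, ha⟩ := cauchySeq_tendsto_of_isComplete (hc _).isComplete hmem hu'
  exact ⟨a, (tendsto_add_atTop_iff_nat N).mp ha⟩

variable {I} in
/-- A Riemannian manifold with a nonnegative function F of class C^1 with compact sublevel sets
and |dF(v)|^2 <= 4 F |v|^2 is complete. -/
theorem completeSpace_ofRiemannianMetric [IsManifold I 1 M]
    [IsContinuousRiemannianBundle E (fun (x : M) ↦ TangentSpace I x)] [T3Space M]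
    {F : M → ℝ} (hF : ContMDiff I 𝓘(ℝ, ℝ) 1 F) (h0 : ∀ x, 0 ≤ F x)
    (h : ∀ (x : M) (v : TangentSpace I x), (dReal I F x v) ^ 2 ≤ 4 * F x * ‖v‖ ^ 2)
    (hc : ∀ c : ℝ, IsCompact {x | F x ≤ c}) :
    @CompleteSpace M (EMetricSpace.ofRiemannianMetric I M).toUniformSpace := by
  let : EMetricSpace M := EMetricSpace.ofRiemannianMetric I M
  apply completeSpace_of_compact_sublevel (fun x => √(F x))
  · intro x y
    exact enorm_sqrt_sub_le_riemannianEDist hF h0 h x y
  · intro c
    rcases lt_or_ge c 0 with hc0 | hc0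
    · have : {x | √(F x) ≤ c} = (∅ : Set M) := by
        ext x
        simp only [mem_ofPred_eq, mem_empty_iff_false, iff_false, not_le]
        exact lt_of_lt_of_le hc0 (Real.sqrt_nonneg _)
      rw [this]
      exact isCompact_empty
    · have : {x | √(F x) ≤ c} = {x | F x ≤ c ^ 2} := by
        ext x
        simp only [mem_ofPred_eq]
        exact Real.sqrt_le_left hc0
      rw [this]
      exact hc _

variable {I} in
/-- A curve of speed at most c on the unit interval has length at most c. -/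
theorem riemannianEDist_le_of_speed {γ : ℝ → M} (hγ : ContMDiffOn 𝓘(ℝ, ℝ) I 1 γ (Icc 0 1))
    {c : ℝ≥0∞}
    (h : ∀ t ∈ Icc (0:ℝ) 1, ‖mfderivWithin 𝓘(ℝ, ℝ) I γ (Icc 0 1) t 1‖ₑ ≤ c) :
    riemannianEDist I (γ 0) (γ 1) ≤ c := by
  refine (riemannianEDist_le_pathELength hγ rfl rfl zero_le_one).trans ?_
  rw [pathELength_eq_lintegral_mfderivWithin_Icc]
  calc ∫⁻ t in Icc (0:ℝ) 1, ‖mfderivWithin 𝓘(ℝ, ℝ) I γ (Icc 0 1) t 1‖ₑ
      ≤ ∫⁻ _ in Icc (0:ℝ) 1, c := setLIntegral_mono' measurableSet_Icc h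
    _ = c := by simp

variable {I} in
/-- Distance to the zero set of F, when it is realised. -/
theorem iInf_riemannianEDist_zero_eq
    {F : M → ℝ} (hF : ContMDiff I 𝓘(ℝ, ℝ) 1 F) (h0 : ∀ x, 0 ≤ F x)
    (h : ∀ (x : M) (v : TangentSpace I x), (dReal I F x v) ^ 2 ≤ 4 * F x * ‖v‖ ^ 2)
    (x : M) (hr : ∃ s, F s = 0 ∧ riemannianEDist I x s ≤ ENNReal.ofReal √(F x)) :
    ⨅ s ∈ {s | F s = 0}, riemannianEDist I x s = ENNReal.ofReal √(F x) := by
  apply le_antisymm
  · obtain ⟨s, hs, hd⟩ := hr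
    exact (iInf₂_le s hs).trans hd
  · refine le_iInf₂ fun s hs => ?_
    have h1 := enorm_sqrt_sub_le_riemannianEDist hF h0 h x s
    have hs' : F s = 0 := hs
    rw [hs', Real.sqrt_zero, zero_sub, enorm_neg, ← ofReal_norm, Real.norm_eq_abs,
      abs_of_nonneg (Real.sqrt_nonneg _)] at h1
    exact h1

end Pool.Agent.HS

end

section

/-!
# Block G: continuity of the scaled form at `d = 0`
-/

open Matrix Topology

namespace Pool.Agent.HS

noncomputable section

variable {X : Type*} [TopologicalSpace X] {a : X} {d x z t : X → ℝ}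
  {y L f g : X → Fin 3 → ℝ}

theorem ca_coord (hf : ContinuousAt f a) (i : Fin 3) : ContinuousAt (fun p => f p i) a :=
  continuousAt_pi.1 hf i

theorem ca_cross (hf : ContinuousAt f a) (hg : ContinuousAt g a) :
    ContinuousAt (fun p => f p ⨯₃ g p) a := by
  have f0 := ca_coord hf 0
  have f1 := ca_coord hf 1
  have f2 := ca_coord hf 2
  have g0 := ca_coord hg 0
  have g1 := ca_coord hg 1
  have g2 := ca_coord hg 2
  refine continuousAt_pi.2 fun i => ?_
  fin_cases i
  · have h : ContinuousAt (fun p => f p 1 * g p 2 - f p 2 * g p 1) a :=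
      (f1.mul g2).sub (f2.mul g1)
    simpa [cross_apply] using h
  · have h : ContinuousAt (fun p => f p 2 * g p 0 - f p 0 * g p 2) a :=
      (f2.mul g0).sub (f0.mul g2)
    simpa [cross_apply] using h
  · have h : ContinuousAt (fun p => f p 0 * g p 1 - f p 1 * g p 0) a :=
      (f0.mul g1).sub (f1.mul g0)
    simpa [cross_apply] using h

theorem ca_dot (hf : ContinuousAt f a) (hg : ContinuousAt g a) :
    ContinuousAt (fun p => f p ⬝ᵥ g p) a := by
  have h : ContinuousAt (fun p => f p 0 * g p 0 + f p 1 * g p 1 + f p 2 * g p 2) a :=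
    (((ca_coord hf 0).mul (ca_coord hg 0)).add ((ca_coord hf 1).mul (ca_coord hg 1))).add
      ((ca_coord hf 2).mul (ca_coord hg 2))
  simpa [dotProduct, Fin.sum_univ_three] using h

theorem ca_dotc (c : Fin 3 → ℝ) (hg : ContinuousAt g a) :
    ContinuousAt (fun p => c ⬝ᵥ g p) a := ca_dot continuousAt_const hg

theorem ca_Bv (hd : ContinuousAt d a) (hf : ContinuousAt f a) :
    ContinuousAt (fun p => Bv (d p) (f p)) a := by
  refine continuousAt_pi.2 fun i => ?_
  fin_cases i
  · have h : ContinuousAt (fun p => (1 + d p) * f p 0) a :=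
      (continuousAt_const.add hd).mul (ca_coord hf 0)
    simpa [Bv] using h
  · simpa [Bv] using ca_coord hf 1
  · have h : ContinuousAt (fun p => (1 - d p) * f p 2) a :=
      (continuousAt_const.sub hd).mul (ca_coord hf 2)
    simpa [Bv] using h

theorem ca_bv (hd : ContinuousAt d a) (hf : ContinuousAt f a) :
    ContinuousAt (fun p => bv (d p) (f p)) a := by
  refine continuousAt_pi.2 fun i => ?_
  fin_cases i
  · have h : ContinuousAt (fun p => (1 - d p) * f p 0) a :=
      (continuousAt_const.sub hd).mul (ca_coord hf 0)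
    simpa [bv] using h
  · have h : ContinuousAt (fun p => (1 - d p ^ 2) * f p 1) a :=
      (continuousAt_const.sub (hd.pow 2)).mul (ca_coord hf 1)
    simpa [bv] using h
  · have h : ContinuousAt (fun p => (1 + d p) * f p 2) a :=
      (continuousAt_const.add hd).mul (ca_coord hf 2)
    simpa [bv] using h

theorem ca_Ph (hf : ContinuousAt f a) : ContinuousAt (fun p => Ph (f p)) a := by
  refine continuousAt_pi.2 fun i => ?_
  fin_cases i
  · simpa [Ph] using ca_coord hf 0
  · simpa [Ph] using (continuousAt_const : ContinuousAt (fun _ : X => (0 : ℝ)) a)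
  · have h : ContinuousAt (fun p => -(f p 2)) a := (ca_coord hf 2).neg
    simpa [Ph] using h

variable (hd : ContinuousAt d a) (hy : ContinuousAt y a) (hL : ContinuousAt L a)
  (hx : ContinuousAt x a) (hz : ContinuousAt z a) (ht : ContinuousAt t a)

include hd hy in
theorem ca_Dl : ContinuousAt (fun p => Dl (d p) (y p)) a := ca_dot (ca_bv hd hy) hy

include hd hy in
theorem ca_tau : ContinuousAt (fun p => tau (d p) (y p)) a :=
  ca_dot (ca_bv hd hy) (ca_bv hd hy)

include hd hy hL in
theorem ca_y1 : ContinuousAt (fun p => y1 (d p) (y p) (L p)) a := ca_cross (ca_Bv hd hL) hy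

include hd hL in
theorem ca_L1 : ContinuousAt (fun p => L1 (d p) (L p)) a := ca_cross (ca_Bv hd hL) hL

include hd hy hL in
theorem ca_y2 : ContinuousAt (fun p => y2 (d p) (y p) (L p)) a :=
  (ca_cross (ca_Bv hd (ca_L1 hd hL)) hy).add (ca_cross (ca_Bv hd hL) (ca_y1 hd hy hL))

include hd hy hL in
theorem ca_Dl1 : ContinuousAt (fun p => Dl1 (d p) (y p) (L p)) a :=
  continuousAt_const.mul (ca_dot (ca_bv hd hy) (ca_y1 hd hy hL))

include hd hy hL in
theorem ca_tau1 : ContinuousAt (fun p => tau1 (d p) (y p) (L p)) a :=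
  continuousAt_const.mul (ca_dot (ca_bv hd hy) (ca_bv hd (ca_y1 hd hy hL)))

include hL in
theorem ca_l1 : ContinuousAt (fun p => l1 (L p)) a := ca_cross (ca_Ph hL) hL

include hL in
theorem ca_l2 : ContinuousAt (fun p => l2 (L p)) a :=
  (ca_cross (ca_Ph (ca_l1 hL)) hL).add (ca_cross (ca_Ph hL) (ca_l1 hL))

include hy hL in
theorem ca_TT : ContinuousAt (fun p => TT (y p) (L p)) a := ca_cross hL hy

include hd hy hL in
theorem ca_T1 : ContinuousAt (fun p => T1 (d p) (y p) (L p)) a :=
  ca_cross (ca_Bv hd hL) (ca_TT hy hL)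

include hd hy hL in
theorem ca_T2 : ContinuousAt (fun p => T2 (d p) (y p) (L p)) a :=
  (ca_cross (ca_Bv hd (ca_L1 hd hL)) (ca_TT hy hL)).add
    (ca_cross (ca_Bv hd hL) (ca_T1 hd hy hL))

include hd hy in
theorem ca_Fy (h1 : Dl (d a) (y a) ≠ 0) (h2 : 1 - d a ^ 2 ≠ 0) :
    ContinuousAt (fun p => Fy (d p) (y p)) a := by
  have k1 := ca_Dl hd hy
  have k2 := ca_tau hd hy
  have k3 : ContinuousAt (fun p => (Dl (d p) (y p))⁻¹) a := k1.inv₀ h1
  have k4 : ContinuousAt (fun p => (1 - d p ^ 2)⁻¹) a :=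
    (continuousAt_const.sub (hd.pow 2)).inv₀ h2
  have k5 : ContinuousAt (fun p => bv (d p) wv ⬝ᵥ y p) a :=
    ca_dot (ca_bv hd continuousAt_const) hy
  have k6 : ContinuousAt (fun p => bv (d p) (bv (d p) wv) ⬝ᵥ y p) a :=
    ca_dot (ca_bv hd (ca_bv hd continuousAt_const)) hy
  unfold Fy
  (repeat' (first
    | with_reducible_and_instances assumption | with_reducible_and_instances exact continuousAt_const | with_reducible_and_instances apply ContinuousAt.add | with_reducible_and_instances apply ContinuousAt.sub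
    | with_reducible_and_instances apply ContinuousAt.mul | with_reducible_and_instances apply ContinuousAt.neg | with_reducible_and_instances apply ContinuousAt.pow))

include hd hy hL in
theorem ca_Fy1 (h1 : Dl (d a) (y a) ≠ 0) (h2 : 1 - d a ^ 2 ≠ 0) :
    ContinuousAt (fun p => Fy1 (d p) (y p) (L p)) a := by
  have k1 := ca_Dl hd hy
  have k2 := ca_tau hd hy
  have k3 : ContinuousAt (fun p => (Dl (d p) (y p))⁻¹) a := k1.inv₀ h1
  have k4 : ContinuousAt (fun p => (1 - d p ^ 2)⁻¹) a :=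
    (continuousAt_const.sub (hd.pow 2)).inv₀ h2
  have k5 : ContinuousAt (fun p => bv (d p) wv ⬝ᵥ y p) a :=
    ca_dot (ca_bv hd continuousAt_const) hy
  have k6 : ContinuousAt (fun p => bv (d p) (bv (d p) wv) ⬝ᵥ y p) a :=
    ca_dot (ca_bv hd (ca_bv hd continuousAt_const)) hy
  have k7 := ca_Dl1 hd hy hL
  have k8 := ca_tau1 hd hy hL
  have k9 : ContinuousAt (fun p => bv (d p) wv ⬝ᵥ y1 (d p) (y p) (L p)) a :=
    ca_dot (ca_bv hd continuousAt_const) (ca_y1 hd hy hL)
  have k10 : ContinuousAt (fun p => bv (d p) (bv (d p) wv) ⬝ᵥ y1 (d p) (y p) (L p)) a :=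
    ca_dot (ca_bv hd (ca_bv hd continuousAt_const)) (ca_y1 hd hy hL)
  unfold Fy1
  (repeat' (first
    | with_reducible_and_instances assumption | with_reducible_and_instances exact continuousAt_const | with_reducible_and_instances apply ContinuousAt.add | with_reducible_and_instances apply ContinuousAt.sub
    | with_reducible_and_instances apply ContinuousAt.mul | with_reducible_and_instances apply ContinuousAt.neg | with_reducible_and_instances apply ContinuousAt.pow))

end

end Pool.Agent.HS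

end

section

set_option maxSynthPendingDepth 3

/-!
# The chart metric of a product `N × V` with a vector space (project HS, MP_55c470)
-/

open Bundle Manifold Set Filter ContinuousLinearMap
open scoped Manifold ContDiff Topology

noncomputable section

namespace Pool.Agent.HS

variable {E' : Type*} [NormedAddCommGroup E'] [NormedSpace ℝ E']
  {H' : Type*} [TopologicalSpace H'] {I' : ModelWithCorners ℝ E' H'}
  {N : Type*} [TopologicalSpace N] [ChartedSpace H' N]
  {V : Type*} [NormedAddCommGroup V] [NormedSpace ℝ V]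

variable (I') in
/-- The tangent vector `(a, b)` of `N × V` at `p`. -/
def tv (p : N × V) (a : TangentSpace I' p.1) (b : V) : TangentSpace (I'.prod 𝓘(ℝ, V)) p :=
  (show E' × V from (a, b))

theorem extChartAt_prod_symm_apply (p u : _) :
    (extChartAt (I'.prod 𝓘(ℝ, V)) (p : N × V)).symm u = ((extChartAt I' p.1).symm u.1, u.2) := by
  rw [extChartAt_prod]
  simp

theorem extChartAt_prod_apply (p q : N × V) :
    extChartAt (I'.prod 𝓘(ℝ, V)) p q = (extChartAt I' p.1 q.1, q.2) := by
  rw [extChartAt_prod]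
  simp

theorem mfderiv_extChartAt_prod_symm (p : N × V) (u : E' × V)
    (hu : MDifferentiableAt 𝓘(ℝ, E') I' (extChartAt I' p.1).symm u.1) (v : E' × V) :
    mfderiv 𝓘(ℝ, E' × V) (I'.prod 𝓘(ℝ, V)) (extChartAt (I'.prod 𝓘(ℝ, V)) p).symm u v =
      tv I' ((extChartAt (I'.prod 𝓘(ℝ, V)) p).symm u)
        (mfderiv 𝓘(ℝ, E') I' (extChartAt I' p.1).symm u.1 v.1) v.2 := by
  have key : ∀ f : E' × V → N × V, f = (fun u => ((extChartAt I' p.1).symm u.1, u.2)) →
      (show E' × V →L[ℝ] E' × V from mfderiv 𝓘(ℝ, E' × V) (I'.prod 𝓘(ℝ, V)) f u) v =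
      ((show E' from mfderiv 𝓘(ℝ, E') I' (extChartAt I' p.1).symm u.1 v.1), v.2) := by
    rintro _ rfl
    have hfst : MDifferentiableAt 𝓘(ℝ, E' × V) 𝓘(ℝ, E') (Prod.fst : E' × V → E') u :=
      differentiableAt_fst.mdifferentiableAt
    have hsnd : MDifferentiableAt 𝓘(ℝ, E' × V) 𝓘(ℝ, V) (Prod.snd : E' × V → V) u :=
      differentiableAt_snd.mdifferentiableAt
    have h1 : MDifferentiableAt 𝓘(ℝ, E' × V) I'
        (fun u : E' × V => (extChartAt I' p.1).symm u.1) u := hu.comp u hfst
    have h2 := mfderiv_prodMk h1 hsnd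
    have h3 : mfderiv 𝓘(ℝ, E' × V) I' (fun u : E' × V => (extChartAt I' p.1).symm u.1) u =
        (mfderiv 𝓘(ℝ, E') I' (extChartAt I' p.1).symm u.1) ∘L
          (mfderiv 𝓘(ℝ, E' × V) 𝓘(ℝ, E') (Prod.fst : E' × V → E') u) :=
      mfderiv_comp u hu hfst
    rw [h2, h3, mfderiv_eq_fderiv, mfderiv_eq_fderiv, fderiv_fst, fderiv_snd]
    rfl
  exact key _ (funext fun u => extChartAt_prod_symm_apply p u)

theorem mdifferentiableAt_extChartAt_symm_of_mem [IsManifold I' 1 N] [I'.Boundaryless] {y : N}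
    {u : E'} (hu : u ∈ (extChartAt I' y).target) :
    MDifferentiableAt 𝓘(ℝ, E') I' (extChartAt I' y).symm u :=
  ((contMDiffOn_extChartAt_symm (n := 1) y).contMDiffAt
    ((isOpen_extChartAt_target y).mem_nhds hu)).mdifferentiableAt one_ne_zero

/-- The coordinate expression of a metric on `N × V`. -/
theorem chartMetric_prod [IsManifold I' 1 N] [I'.Boundaryless]
    (g : (x : N × V) → TangentSpace (I'.prod 𝓘(ℝ, V)) x →L[ℝ]
      TangentSpace (I'.prod 𝓘(ℝ, V)) x →L[ℝ] ℝ) (p : N × V) {u : E' × V}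
    (hu : u.1 ∈ (extChartAt I' p.1).target) (v v' : E' × V) :
    chartMetric g p u v v' = g ((extChartAt I' p.1).symm u.1, u.2)
      (tv I' ((extChartAt I' p.1).symm u.1, u.2)
        (mfderiv 𝓘(ℝ, E') I' (extChartAt I' p.1).symm u.1 v.1) v.2)
      (tv I' ((extChartAt I' p.1).symm u.1, u.2)
        (mfderiv 𝓘(ℝ, E') I' (extChartAt I' p.1).symm u.1 v'.1) v'.2) := by
  rw [chartMetric_apply, mfderiv_extChartAt_prod_symm p u
    (mdifferentiableAt_extChartAt_symm_of_mem hu) v, mfderiv_extChartAt_prod_symm p u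
    (mdifferentiableAt_extChartAt_symm_of_mem hu) v']
  have key : ∀ q : N × V, q = ((extChartAt I' p.1).symm u.1, u.2) → ∀ a a' : E',
      g q (show E' × V from (a, v.2)) (show E' × V from (a', v'.2)) =
      g ((extChartAt I' p.1).symm u.1, u.2) (show E' × V from (a, v.2))
        (show E' × V from (a', v'.2)) := by
    rintro _ rfl a a'
    rfl
  exact key _ (extChartAt_prod_symm_apply p u) _ _

end Pool.Agent.HS

end
end

section

set_option autoImplicit false
set_option maxSynthPendingDepth 3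

/-!
# Transformation law of the coordinate curvature under local diffeomorphisms (project HS)

Main results: `D1_eq`, `D2_eq` (the derivatives of the coefficients of a metric as iterated
`fderiv`), `Rm_pull` (the curvature form is a tensor), `PosAt_pull`, `NonnegAt_pull`.
-/

namespace Pool.Agent.HS

open Set Filter
open scoped ContDiff Topology

noncomputable section

variable {E : Type*} [NormedAddCommGroup E] [NormedSpace ℝ E]
  {F : Type*} [NormedAddCommGroup F] [NormedSpace ℝ F]

/-! ### Comparison with the definitions of `Pool.Agent.HS.Defs` -/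

theorem D2_eq {G : E → E →L[ℝ] E →L[ℝ] ℝ} {p : E} (hG : ContDiffAt ℝ 2 G p) (x y u v : E) :
    D2 G p x y u v = fderiv ℝ (fderiv ℝ G) p x y u v := by
  have hG' : ContDiffAt ℝ 1 (fderiv ℝ G) p := hG.fderiv_right (by norm_num)
  have hd : DifferentiableAt ℝ (fderiv ℝ G) p := hG'.differentiableAt (by norm_num)
  have h : (fun q => fderiv ℝ (fun r => G r u v) q y) =ᶠ[𝓝 p] fun q => fderiv ℝ G q y u v := by
    have e1 : ∀ᶠ q in 𝓝 p, ContDiffAt ℝ 2 G q := hG.eventually (by decide)
    filter_upwards [e1] with q hq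
    exact (fderiv_eval₂ (hq.differentiableAt (by norm_num)) u v y).symm
  unfold D2
  rw [h.fderiv_eq, ← fderiv_eval₂ (hd.clm_apply (differentiableAt_const y)),
    fderiv_clm_apply hd (differentiableAt_const y)]
  simp

theorem Gam_eq {G : E → E →L[ℝ] E →L[ℝ] ℝ} {p : E} (hG : DifferentiableAt ℝ G p) (x y z : E) :
    Gam G p x y z = kos G p x y z := by
  have h : ∀ a b : E, fderiv ℝ (fun q => G q a) p b = fderiv ℝ G p b a := by
    intro a b
    rw [fderiv_clm_apply hG (differentiableAt_const a)]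
    simp
  have h2 : fderiv ℝ (fun q => G q x y) p z = fderiv ℝ G p z x y := (fderiv_eval₂ hG x y z).symm
  unfold Gam kos
  rw [h, h]
  simp only [_root_.smul_apply, _root_.add_apply, _root_.sub_apply, smul_eq_mul, h2]
  ring

lemma sharp_of_isInvertible {g : E →L[ℝ] E →L[ℝ] ℝ} (h : g.IsInvertible) (α : E →L[ℝ] ℝ) :
    g (sharp g α) = α :=
  h.self_apply_inverse α

theorem isCurv_Rm {G : E → E →L[ℝ] E →L[ℝ] ℝ} {p : E} (hG : ContDiffAt ℝ 2 G p)
    (hinv : (G p).IsInvertible) (x y : E) : IsCurv G p x y (Rm G p x y) := by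
  have hd : DifferentiableAt ℝ G p := hG.differentiableAt (by norm_num)
  have hs : ∀ u v z : E, G p (sharp (G p) (Gam G p u v)) z = Gam G p u v z := by
    intro u v z
    rw [sharp_of_isInvertible hinv]
  refine ⟨sharp (G p) (Gam G p x y), sharp (G p) (Gam G p x x), sharp (G p) (Gam G p y y),
    fun z => ?_, fun z => ?_, fun z => ?_, ?_⟩
  · rw [hs, Gam_eq hd]
  · rw [hs, Gam_eq hd]
  · rw [hs, Gam_eq hd]
  · rw [hs, hs]
    unfold Rm sec2 cov
    rw [D2_eq hG, D2_eq hG, D2_eq hG]
    ring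

end

end Pool.Agent.HS

end
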