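import Pool.Agent.H94.PT.HS.Cay
import Pool.Agent.H94.PT.M03

/-! The parts of this file: HS.Cay_1, HS.Cay2, HS.LkGauge. -/

section

/-!
# The Cayley (Rodrigues) chart of `SO(3)` (project HS, MP_55c470_gt)

`cayR a` is the rotation with Rodrigues vector `a` (axis `a`, angle `θ` with `tan (θ/2) = |a|/2`),
`cayE a b` is its angular velocity: `∂_b (cayR a v) = cayE a b × cayR a v`.
All identities are rational.
-/

namespace Pool.Agent.HS

open Matrix

theorem crossL_apply (a b : Fin 3 → ℝ) : crossL a b = a ⨯₃ b := rfl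

theorem cayR_apply (a v : Fin 3 → ℝ) :
    cayR a v = v + (cayN a)⁻¹ • (a ⨯₃ v + (1 / 2 : ℝ) • (a ⨯₃ (a ⨯₃ v))) := rfl

@[simp] theorem cayN_zero : cayN 0 = 1 := by simp [cayN]

@[simp] theorem cayR_zero (v : Fin 3 → ℝ) : cayR 0 v = v := by
  rw [cayR_apply]; simp

@[simp] theorem cayE_zero (b : Fin 3 → ℝ) : cayE 0 b = b := by
  rw [cayE_apply]; simp

theorem cayN_neg (a : Fin 3 → ℝ) : cayN (-a) = cayN a := by
  rw [cayN_eq, cayN_eq]; simp only [Pi.neg_apply]; ring

/-- components of `cayR` -/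
theorem cayR_comp (a v : Fin 3 → ℝ) : cayR a v =
    ![v 0 + (cayN a)⁻¹ * ((a 1 * v 2 - a 2 * v 1) + 1 / 2 * (a 1 * (a 0 * v 1 - a 1 * v 0)
        - a 2 * (a 2 * v 0 - a 0 * v 2))),
      v 1 + (cayN a)⁻¹ * ((a 2 * v 0 - a 0 * v 2) + 1 / 2 * (a 2 * (a 1 * v 2 - a 2 * v 1)
        - a 0 * (a 0 * v 1 - a 1 * v 0))),
      v 2 + (cayN a)⁻¹ * ((a 0 * v 1 - a 1 * v 0) + 1 / 2 * (a 0 * (a 2 * v 0 - a 0 * v 2)
        - a 1 * (a 1 * v 2 - a 2 * v 1)))] := by
  rw [cayR_apply, cross_apply, cross_apply]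
  ext i
  fin_cases i <;> simp [smul_eq_mul]

theorem cayR_dot (a v w : Fin 3 → ℝ) : cayR a v ⬝ᵥ cayR a w = v ⬝ᵥ w := by
  have hN := cayN_ne a
  rw [cayR_comp, cayR_comp, dotProduct, dotProduct, Fin.sum_univ_three, Fin.sum_univ_three]
  simp only [Matrix.cons_val_zero, Matrix.cons_val_one, Matrix.cons_val]
  field_simp
  rw [cayN_eq]
  ring

theorem cayR_cross (a v w : Fin 3 → ℝ) : cayR a (v ⨯₃ w) = cayR a v ⨯₃ cayR a w := by
  have hN := cayN_ne a
  rw [cross_apply (cayR a v), cayR_comp a v, cayR_comp a w, cayR_comp a (v ⨯₃ w), cross_apply]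
  ext i
  fin_cases i <;> simp only [Matrix.cons_val_zero, Matrix.cons_val_one, Matrix.cons_val,
    Fin.zero_eta, Fin.mk_one, Fin.reduceFinMk] <;>
  · field_simp
    rw [cayN_eq]
    ring

theorem cayR_neg (a v : Fin 3 → ℝ) : cayR (-a) (cayR a v) = v := by
  have hN := cayN_ne a
  rw [cayR_comp (-a), cayN_neg, cayR_comp a v]
  ext i
  fin_cases i <;> simp only [Matrix.cons_val_zero, Matrix.cons_val_one, Matrix.cons_val,
    Fin.zero_eta, Fin.mk_one, Fin.reduceFinMk, Pi.neg_apply] <;>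
  · field_simp
    rw [cayN_eq]
    ring

theorem cayE_cayF (a b : Fin 3 → ℝ) : cayE a (cayF a b) = b := by
  have hN := cayN_ne a
  rw [cayE_comp, cayF, cross_apply, dotProduct, Fin.sum_univ_three]
  ext i
  fin_cases i <;> simp only [Matrix.cons_val_zero, Matrix.cons_val_one, Matrix.cons_val,
    Fin.zero_eta, Fin.mk_one, Fin.reduceFinMk, Pi.add_apply, Pi.sub_apply, Pi.smul_apply,
    smul_eq_mul] <;>
  · field_simp
    rw [cayN_eq]
    ring

/-! ### Derivatives -/

theorem cayR_contDiff {n : WithTop ℕ∞} : ContDiff ℝ n cayR := by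
  unfold cayR
  refine contDiff_const.add (cayN_inv_contDiff.smul (crossL_contDiff.add ?_))
  exact (crossL_contDiff.clm_comp crossL_contDiff).const_smul (1 / 2 : ℝ)

theorem cayN_hasFDerivAt (a : Fin 3 → ℝ) :
    HasFDerivAt cayN ((1 / 2 : ℝ) • (a 0 • ContinuousLinearMap.proj (R := ℝ) (φ := fun _ : Fin 3 => ℝ) 0
      + a 1 • ContinuousLinearMap.proj (R := ℝ) (φ := fun _ : Fin 3 => ℝ) 1
      + a 2 • ContinuousLinearMap.proj (R := ℝ) (φ := fun _ : Fin 3 => ℝ) 2)) a := by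
  have h : cayN = fun a : Fin 3 → ℝ => 1 + (a 0 * a 0 + a 1 * a 1 + a 2 * a 2) / 4 :=
    funext cayN_eq
  rw [h]
  have hp : ∀ i : Fin 3, HasFDerivAt (fun a : Fin 3 → ℝ => a i)
      (ContinuousLinearMap.proj (R := ℝ) (φ := fun _ : Fin 3 => ℝ) i) a := fun i =>
    hasFDerivAt_apply i a
  have h2 := ((((hp 0).mul (hp 0)).add ((hp 1).mul (hp 1))).add
    ((hp 2).mul (hp 2))).mul_const (1 / 4 : ℝ)
  have h3 := h2.const_add (1 : ℝ)
  refine (h3.congr_fderiv ?_).congr_of_eventuallyEq ?_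
  · ext b
    simp [smul_eq_mul]
    ring
  · refine Filter.Eventually.of_forall fun b => ?_
    simp only [Pi.add_apply, Pi.mul_apply]
    ring

theorem cayN_fderiv (a b : Fin 3 → ℝ) : fderiv ℝ cayN a b = (a ⬝ᵥ b) / 2 := by
  rw [(cayN_hasFDerivAt a).fderiv, dotProduct, Fin.sum_univ_three]
  simp [smul_eq_mul]
  ring

theorem cayN_inv_fderiv (a b : Fin 3 → ℝ) :
    fderiv ℝ (fun a => (cayN a)⁻¹) a b = -((cayN a)⁻¹ * (cayN a)⁻¹ * ((a ⬝ᵥ b) / 2)) := by
  have h : HasFDerivAt (fun a => (cayN a)⁻¹) (-((cayN a) ^ 2)⁻¹ • fderiv ℝ cayN a) a := by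
    have h1 := (hasDerivAt_inv (cayN_ne a)).comp_hasFDerivAt a
      ((cayN_contDiff (n := 1)).differentiable (by norm_num) a).hasFDerivAt
    exact h1
  rw [h.fderiv, _root_.smul_apply, cayN_fderiv, smul_eq_mul]
  have hN := cayN_ne a
  field_simp

theorem cayN_inv_hasFDerivAt (a : Fin 3 → ℝ) :
    HasFDerivAt (fun a => (cayN a)⁻¹) (fderiv ℝ (fun a => (cayN a)⁻¹) a) a :=
  ((cayN_inv_contDiff (n := 1)).differentiable (by norm_num) a).hasFDerivAt

/-- The derivative of the rotation is given by the angular velocity. -/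
theorem cayR_hasFDerivAt (a v : Fin 3 → ℝ) :
    HasFDerivAt (fun a => cayR a v) ((crossL.flip (cayR a v)).comp (cayE a)) a := by
  have h2 : HasFDerivAt (fun a => crossL a v + (1 / 2 : ℝ) • crossL a (crossL a v))
      (crossL.flip v + (1 / 2 : ℝ) •
        ((crossL a).comp (crossL.flip v) + crossL.flip (crossL a v))) a := by
    refine HasFDerivAt.add ?_ (HasFDerivAt.const_smul ?_ (1 / 2 : ℝ))
    · exact (crossL.flip v).hasFDerivAt
    · exact (crossL.hasFDerivAt (x := a)).clm_apply ((crossL.flip v).hasFDerivAt (x := a))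
  have h3 := ((cayN_inv_hasFDerivAt a).smul h2).const_add v
  refine (h3.congr_fderiv ?_)
  ext b : 1
  have hN := cayN_ne a
  simp only [_root_.add_apply, _root_.smul_apply, ContinuousLinearMap.smulRight_apply,
    ContinuousLinearMap.comp_apply, ContinuousLinearMap.flip_apply, cayN_inv_fderiv, crossL_apply]
  rw [cayR_comp, cayE_comp, dotProduct, Fin.sum_univ_three]
  simp only [cross_apply]
  ext i
  fin_cases i <;> simp only [Matrix.cons_val_zero, Matrix.cons_val_one, Matrix.cons_val,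
    Fin.zero_eta, Fin.mk_one, Fin.reduceFinMk, Pi.add_apply, Pi.smul_apply, smul_eq_mul] <;>
  · field_simp
    rw [cayN_eq]
    ring

theorem cayR_fderiv (a b v : Fin 3 → ℝ) :
    fderiv ℝ (fun a => cayR a v) a b = cayE a b ⨯₃ cayR a v := by
  rw [(cayR_hasFDerivAt a v).fderiv]; rfl

/-- The derivative of the angular velocity map. -/
theorem cayE_hasFDerivAt (a c : Fin 3 → ℝ) :
    HasFDerivAt (fun a => cayE a c)
      ((cayN a)⁻¹ • ((1 / 2 : ℝ) • crossL.flip c)
        + (fderiv ℝ (fun a => (cayN a)⁻¹) a).smulRight (c + (1 / 2 : ℝ) • (a ⨯₃ c))) a := by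
  have h2 : HasFDerivAt (fun a => c + (1 / 2 : ℝ) • crossL a c) ((1 / 2 : ℝ) • crossL.flip c) a := by
    refine HasFDerivAt.const_add c (HasFDerivAt.const_smul ?_ (1 / 2 : ℝ))
    exact (crossL.flip c).hasFDerivAt
  exact (cayN_inv_hasFDerivAt a).smul h2

/-- The structure equation of `SO(3)`. -/
theorem cayE_structure (a b c : Fin 3 → ℝ) :
    fderiv ℝ (fun a => cayE a c) a b - fderiv ℝ (fun a => cayE a b) a c
      = cayE a b ⨯₃ cayE a c := by
  rw [(cayE_hasFDerivAt a c).fderiv, (cayE_hasFDerivAt a b).fderiv]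
  have hN := cayN_ne a
  simp only [_root_.add_apply, _root_.smul_apply, ContinuousLinearMap.smulRight_apply,
    ContinuousLinearMap.flip_apply, cayN_inv_fderiv, crossL_apply]
  rw [cayE_comp, cayE_comp, dotProduct, Fin.sum_univ_three, dotProduct, Fin.sum_univ_three]
  simp only [cross_apply]
  ext i
  fin_cases i <;> simp only [Matrix.cons_val_zero, Matrix.cons_val_one, Matrix.cons_val,
    Fin.zero_eta, Fin.mk_one, Fin.reduceFinMk, Pi.add_apply, Pi.sub_apply, Pi.smul_apply,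
    smul_eq_mul] <;>
  · field_simp
    rw [cayN_eq]
    ring

/-- The first derivative of `cayE` at `0`. -/
theorem cayE_fderiv_zero (b c : Fin 3 → ℝ) :
    fderiv ℝ (fun a => cayE a c) 0 b = (1 / 2 : ℝ) • (b ⨯₃ c) := by
  rw [(cayE_hasFDerivAt 0 c).fderiv]
  simp only [_root_.add_apply, _root_.smul_apply, ContinuousLinearMap.smulRight_apply,
    ContinuousLinearMap.flip_apply, cayN_inv_fderiv, crossL_apply, cayN_zero]
  simp

end Pool.Agent.HS

end

section

/-!
# Composition in the Cayley chart of `SO(3)` (project HS, MP_55c470_gt)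

`cayC c a` is the Rodrigues vector of the product `cayR c ∘ cayR a` (defined if `c · a ≠ 4`).
-/

namespace Pool.Agent.HS

open Matrix

theorem cayR_neg' (a v : Fin 3 → ℝ) : cayR a (cayR (-a) v) = v := by
  have := cayR_neg (-a) v
  rwa [neg_neg] at this

/-- Angular velocity in the body frame. -/
theorem cayR_neg_cayE (a b : Fin 3 → ℝ) : cayR (-a) (cayE a b) = cayE (-a) b := by
  have hN := cayN_ne a
  rw [cayR_comp (-a), cayN_neg, cayE_comp (-a), cayN_neg, cayE_comp a]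
  ext i
  fin_cases i <;> simp only [Matrix.cons_val_zero, Matrix.cons_val_one, Matrix.cons_val,
    Fin.zero_eta, Fin.mk_one, Fin.reduceFinMk, Pi.neg_apply] <;>
  · field_simp
    rw [cayN_eq]
    ring

theorem cayR_cayE_neg (a b : Fin 3 → ℝ) : cayR a (cayE (-a) b) = cayE a b := by
  have := cayR_neg_cayE (-a) b
  rwa [neg_neg] at this

theorem fderiv_cayR_apply (c b v : Fin 3 → ℝ) :
    (fderiv ℝ cayR c) b v = cayE c b ⨯₃ cayR c v := by
  rw [← cayR_fderiv c b v]
  have h4 : HasFDerivAt (fun a => cayR a v) ((fderiv ℝ cayR c).flip v) c := by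
    have h5 := (((cayR_contDiff (n := 1)).differentiable (by norm_num)) c).hasFDerivAt.clm_apply
      (hasFDerivAt_const v c)
    refine h5.congr_fderiv ?_
    ext1 b
    simp
  rw [h4.fderiv]
  rfl

/-- The second derivative of `cayE` at `0`. -/
theorem cayE_fderiv2_zero (b b' c : Fin 3 → ℝ) :
    fderiv ℝ (fun a => fderiv ℝ (fun a => cayE a c) a b) 0 b' = (-((b ⬝ᵥ b') / 2)) • c := by
  have h : (fun a => fderiv ℝ (fun a => cayE a c) a b) = fun a =>
      (cayN a)⁻¹ • ((1 / 2 : ℝ) • (b ⨯₃ c)) +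
        (-((cayN a)⁻¹ * (cayN a)⁻¹ * ((a ⬝ᵥ b) / 2))) • (c + (1 / 2 : ℝ) • (a ⨯₃ c)) := by
    funext a
    rw [(cayE_hasFDerivAt a c).fderiv]
    simp only [_root_.add_apply, _root_.smul_apply, ContinuousLinearMap.smulRight_apply,
      ContinuousLinearMap.flip_apply, cayN_inv_fderiv, crossL_apply]
  rw [h]
  have hI : HasFDerivAt (fun a => (cayN a)⁻¹) (0 : (Fin 3 → ℝ) →L[ℝ] ℝ) 0 := by
    have h0 := cayN_inv_hasFDerivAt 0
    refine h0.congr_fderiv ?_
    ext1 x
    rw [cayN_inv_fderiv]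
    simp
  have hdot : HasFDerivAt (fun a : Fin 3 → ℝ => a ⬝ᵥ b)
      (b 0 • ContinuousLinearMap.proj (R := ℝ) (φ := fun _ : Fin 3 => ℝ) 0
      + b 1 • ContinuousLinearMap.proj (R := ℝ) (φ := fun _ : Fin 3 => ℝ) 1
      + b 2 • ContinuousLinearMap.proj (R := ℝ) (φ := fun _ : Fin 3 => ℝ) 2) 0 := by
    have hf : (fun a : Fin 3 → ℝ => a ⬝ᵥ b) = fun a =>
        (b 0 • ContinuousLinearMap.proj (R := ℝ) (φ := fun _ : Fin 3 => ℝ) 0
        + b 1 • ContinuousLinearMap.proj (R := ℝ) (φ := fun _ : Fin 3 => ℝ) 1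
        + b 2 • ContinuousLinearMap.proj (R := ℝ) (φ := fun _ : Fin 3 => ℝ) 2) a := by
      funext a
      rw [dotProduct, Fin.sum_univ_three]
      simp [smul_eq_mul]
      ring
    rw [hf]
    exact ContinuousLinearMap.hasFDerivAt _
  have h1 := (hI.smul (hasFDerivAt_const ((1 / 2 : ℝ) • (b ⨯₃ c)) (0 : Fin 3 → ℝ)))
  have h2 := ((hI.mul hI).mul (hdot.mul_const (1 / 2 : ℝ))).neg
  have h3 : HasFDerivAt (fun a : Fin 3 → ℝ => c + (1 / 2 : ℝ) • (a ⨯₃ c))
      ((1 / 2 : ℝ) • crossL.flip c) 0 :=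
    HasFDerivAt.const_add c (HasFDerivAt.const_smul (crossL.flip c).hasFDerivAt (1 / 2 : ℝ))
  have h4 := h1.add (h2.smul h3)
  have h5 : HasFDerivAt (fun a => (cayN a)⁻¹ • ((1 / 2 : ℝ) • (b ⨯₃ c)) +
        (-((cayN a)⁻¹ * (cayN a)⁻¹ * ((a ⬝ᵥ b) / 2))) • (c + (1 / 2 : ℝ) • (a ⨯₃ c)))
      (((-(1 / 2 : ℝ)) • (b 0 • ContinuousLinearMap.proj (R := ℝ) (φ := fun _ : Fin 3 => ℝ) 0
      + b 1 • ContinuousLinearMap.proj (R := ℝ) (φ := fun _ : Fin 3 => ℝ) 1
      + b 2 • ContinuousLinearMap.proj (R := ℝ) (φ := fun _ : Fin 3 => ℝ) 2)).smulRight c) 0 := by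
    refine (h4.congr_fderiv ?_).congr_of_eventuallyEq ?_
    · ext1 x
      simp [smul_eq_mul]
      congr 1
      ring
    · refine Filter.Eventually.of_forall fun a => ?_
      simp only [Pi.add_apply, Pi.mul_apply, Pi.neg_apply, Pi.smul_apply']
      ring_nf
  rw [h5.fderiv]
  simp only [ContinuousLinearMap.smulRight_apply]
  congr 1
  rw [dotProduct, Fin.sum_univ_three]
  simp [smul_eq_mul]
  ring

end Pool.Agent.HS

end

section

set_option maxSynthPendingDepth 3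

/-!
# LINK: the gauge identity

`FA (gA A Y b) u x z = cayR (-b u) (FA A (Y u) (dY x) (dY z))`.
-/

namespace Pool.Agent.HS

open Matrix Filter
open scoped Topology ContDiff

noncomputable section

theorem cayR_clm_hasFDerivAt (a : V3) : HasFDerivAt cayR (fderiv ℝ cayR a) a :=
  ((cayR_contDiff (n := 1)).differentiable (by norm_num) a).hasFDerivAt

theorem cayE_clm_hasFDerivAt (a : V3) : HasFDerivAt cayE (fderiv ℝ cayE a) a :=
  ((cayE_contDiff (n := 1)).differentiable (by norm_num) a).hasFDerivAt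

theorem fderiv_cayR (a b v : V3) : fderiv ℝ cayR a b v = cayE a b ⨯₃ cayR a v := by
  have h : HasFDerivAt (fun a => cayR a v)
      ((ContinuousLinearMap.apply ℝ V3 v).comp (fderiv ℝ cayR a)) a :=
    (ContinuousLinearMap.apply ℝ V3 v).hasFDerivAt.comp a (cayR_clm_hasFDerivAt a)
  have h2 := h.unique (cayR_hasFDerivAt a v)
  have h3 := congrArg (fun L : V3 →L[ℝ] V3 => L b) h2
  exact h3

theorem fderiv_cayE (a b c : V3) :
    fderiv ℝ cayE a b c = fderiv ℝ (fun a => cayE a c) a b := by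
  have h : HasFDerivAt (fun a => cayE a c)
      ((ContinuousLinearMap.apply ℝ V3 c).comp (fderiv ℝ cayE a)) a :=
    (ContinuousLinearMap.apply ℝ V3 c).hasFDerivAt.comp a (cayE_clm_hasFDerivAt a)
  rw [h.fderiv]
  rfl

end

end Pool.Agent.HS

end
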