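import Pool.Agent.H94.PT.M04
import Pool.Agent.H94.PT.M07

/-! The parts of this file: HS.CoordSk, HS.PolCore, HS.Prod, HS.Sw. -/

section

/-!
# Block COORD, skeleton: combination of the local blocks

The blocks M2, REG, LOCE, PULLE, POLAR, LINK enter as hypotheses (`...Stmt`).
-/

set_option maxSynthPendingDepth 3

namespace Pool.Agent.HS

open Matrix Topology Filter Set

/-! ### statements of the blocks -/

/-- block M2 -/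
def M2Stmt : Prop :=
  ∀ (h : V2 → V2 →L[ℝ] V2 →L[ℝ] ℝ) (A : V2 → V2 →L[ℝ] V3) (κ : V2 → M33) (D : PD) (r : ℝ)
    (S : M33), Adapted h A κ D → 0 < r →
    (∀ u : V3, u ≠ 0 → 0 < bf (1 - (r ^ 2 / 3) • D.κ) u u) →
    (1 - (r ^ 2 / 3) • D.κ) * S = 1 →
    ∀ (x : V2) (ξ : V3) (y : V2) (η : V3),
      Rm (GP h A (qk r κ)) (0, 0) (x, ξ) (y, η) = RP r D S x ξ y η

/-- symmetric positive operators -/
structure IsPosOp (q : V3 →L[ℝ] V3) : Prop where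
  symm : ∀ u v, u ⬝ᵥ q v = v ⬝ᵥ q u
  pos : ∀ u, u ≠ 0 → 0 < u ⬝ᵥ q u

/-- smooth data near `0` -/
structure GoodData (h : V2 → V2 →L[ℝ] V2 →L[ℝ] ℝ) (A : V2 → V2 →L[ℝ] V3)
    (q : V2 → V3 →L[ℝ] V3) : Prop where
  h_smooth : ∀ᶠ u in 𝓝 (0 : V2), ContDiffAt ℝ (⊤ : ℕ∞) h u
  A_smooth : ∀ᶠ u in 𝓝 (0 : V2), ContDiffAt ℝ (⊤ : ℕ∞) A u
  q_smooth : ∀ᶠ u in 𝓝 (0 : V2), ContDiffAt ℝ (⊤ : ℕ∞) q u
  h_inner : ∀ᶠ u in 𝓝 (0 : V2), IsInner (h u)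
  q_pos : ∀ᶠ u in 𝓝 (0 : V2), IsPosOp (q u)

/-- block REG for `GP` -/
def RegGPStmt : Prop :=
  ∀ (h : V2 → V2 →L[ℝ] V2 →L[ℝ] ℝ) (A : V2 → V2 →L[ℝ] V3) (q : V2 → V3 →L[ℝ] V3),
    GoodData h A q → ContDiffAt ℝ 2 (GP h A q) (0, 0) ∧ SymmNear (GP h A q) (0, 0) ∧
      IsInner (GP h A q (0, 0))

/-- block LOCE (first part) -/
def LoceStmt : Prop :=
  ∀ (h : V2 → V2 →L[ℝ] V2 →L[ℝ] ℝ) (A : V2 → V2 →L[ℝ] V3) (q : V2 → V3 →L[ℝ] V3),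
    GoodData h A q → PosAt (GP h A q) (0, 0) → ∀ w : V3, NonnegAt (GE h A q) (0, w)

/-- block POLAR -/
def PolarStmt : Prop :=
  ∀ (h : V2 → V2 →L[ℝ] V2 →L[ℝ] ℝ) (A : V2 → V2 →L[ℝ] V3) (q : V2 → V3 →L[ℝ] V3),
    GoodData h A q → PosAt (GP h A q) (0, 0) →
    ∀ ζ : V2 → V3, (∀ᶠ v in 𝓝 (0 : V2), ContDiffAt ℝ (⊤ : ℕ∞) ζ v) →
      (∀ᶠ v in 𝓝 (0 : V2), ζ v ⬝ᵥ ζ v = 1) → Function.Injective (fderiv ℝ ζ 0) →
      ∀ t : ℝ, 0 < t → PosAt (pull (GE h A q) (fun p : V2 × V2 => (p.1, t • ζ p.2))) (0, 0)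

/-- block PULLE, near a point -/
def PulleStmt : Prop :=
  ∀ (h : V3 → V3 →L[ℝ] V3 →L[ℝ] ℝ) (A : V3 → V3 →L[ℝ] V3) (q : V3 → V3 →L[ℝ] V3)
    (Y : V2 → V3) (b : V2 → V3) (p : V2 × V3),
    DifferentiableAt ℝ Y p.1 → DifferentiableAt ℝ b p.1 → IsPosOp (q (Y p.1)) →
    pull (GE h A q) (fun p => (Y p.1, cayR (b p.1) p.2)) p = GE (pull h Y) (gA A Y b) (gq q Y b) p

/-- what LINK provides at one point of the sphere -/
structure LinkAt (hB' : V3 → V3 →L[ℝ] V3 →L[ℝ] ℝ) (cA' : V3 → V3 →L[ℝ] V3) (kM : V3 → M33)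
    (𝒦 : Set PD) (y0 : V3) (Y b : V2 → V3) (κ : V2 → M33) (D : PD) : Prop where
  Y_smooth : ∀ᶠ u in 𝓝 (0 : V2), ContDiffAt ℝ (⊤ : ℕ∞) Y u
  b_smooth : ∀ᶠ u in 𝓝 (0 : V2), ContDiffAt ℝ (⊤ : ℕ∞) b u
  Y_zero : Y 0 = y0
  Y_unit : ∀ᶠ u in 𝓝 (0 : V2), Y u ⬝ᵥ Y u = 1
  Y_inj : Function.Injective (fderiv ℝ Y 0)
  b_zero : b 0 = 0
  mem : D ∈ 𝒦
  adapted : Adapted (pull hB' Y) (gA cA' Y b) κ D
  kappa : ∀ r : ℝ, ∀ᶠ u in 𝓝 (0 : V2), qk r κ u = gq (qk r kM) Y b u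

/-- block LINK (for one value of `d`) -/
def LinkStmt (hB' : V3 → V3 →L[ℝ] V3 →L[ℝ] ℝ) (cA' : V3 → V3 →L[ℝ] V3) (kM : V3 → M33) : Prop :=
  ∃ 𝒦 : Set PD, IsCompact 𝒦 ∧ (∀ D ∈ 𝒦, GPos D) ∧
    ∀ y0 : V3, y0 ⬝ᵥ y0 = 1 → ∃ (Y b : V2 → V3) (κ : V2 → M33) (D : PD),
      LinkAt hB' cA' kM 𝒦 y0 Y b κ D

/-- The conclusion of COORD for the ambient metric `GE h A (qk r κ)`. -/
structure CoordMain (Gh : V3 × V3 → V3 × V3 →L[ℝ] V3 × V3 →L[ℝ] ℝ) : Prop where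
  nonneg : ∀ y0 w0 : V3, y0 ⬝ᵥ y0 = 1 → ∃ φ : V2 × V3 → V3 × V3,
    (∀ᶠ p in 𝓝 ((0 : V2), w0), ContDiffAt ℝ (⊤ : ℕ∞) φ p) ∧ φ (0, w0) = (y0, w0) ∧
    (∀ᶠ p in 𝓝 ((0 : V2), w0), (φ p).1 ⬝ᵥ (φ p).1 = 1) ∧
    Function.Injective (fderiv ℝ φ (0, w0)) ∧ NonnegAt (pull Gh φ) (0, w0)
  pos : ∀ y0 z0 : V3, y0 ⬝ᵥ y0 = 1 → z0 ⬝ᵥ z0 = 1 → ∀ t : ℝ, 0 < t →
    ∃ ψ : V2 × V2 → V3 × V3,
    (∀ᶠ p in 𝓝 ((0 : V2), (0 : V2)), ContDiffAt ℝ (⊤ : ℕ∞) ψ p) ∧ ψ (0, 0) = (y0, z0) ∧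
    (∀ᶠ p in 𝓝 ((0 : V2), (0 : V2)), (ψ p).1 ⬝ᵥ (ψ p).1 = 1 ∧ (ψ p).2 ⬝ᵥ (ψ p).2 = 1) ∧
    Function.Injective (fderiv ℝ ψ (0, 0)) ∧
    PosAt (pull Gh (fun p => ((ψ p).1, t • (ψ p).2))) (0, 0)

end Pool.Agent.HS

end

section

/-!
# Block POLAR of project HS: the curvature of the sphere bundles
-/

set_option maxSynthPendingDepth 3

namespace Pool.Agent.HS

open Matrix Topology Filter
open scoped ContDiff

/-- the sphere bundle of radius `t` in the coordinates `(u, v)` -/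
noncomputable def PsiS (ζ : V2 → V3) (t : ℝ) (p : V2 × V2) : V2 × V3 := (p.1, t • ζ p.2)

/-- polar coordinates `((u, v), t) ↦ (u, t ζ(v))` -/
noncomputable def PiS (ζ : V2 → V3) (p : (V2 × V2) × ℝ) : V2 × V3 := (p.1.1, p.2 • ζ p.1.2)

theorem hasFDerivAt_PiS {ζ : V2 → V3} {p : (V2 × V2) × ℝ} (hζ : DifferentiableAt ℝ ζ p.1.2) :
    HasFDerivAt (PiS ζ)
      (((ContinuousLinearMap.fst ℝ V2 V2).comp (ContinuousLinearMap.fst ℝ (V2 × V2) ℝ)).prod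
        (p.2 • ((fderiv ℝ ζ p.1.2).comp ((ContinuousLinearMap.snd ℝ V2 V2).comp
            (ContinuousLinearMap.fst ℝ (V2 × V2) ℝ))) +
          (ContinuousLinearMap.snd ℝ (V2 × V2) ℝ).smulRight (ζ p.1.2))) p := by
  have h1 : HasFDerivAt (fun p : (V2 × V2) × ℝ => p.1.1)
      ((ContinuousLinearMap.fst ℝ V2 V2).comp (ContinuousLinearMap.fst ℝ (V2 × V2) ℝ)) p :=
    ((ContinuousLinearMap.fst ℝ V2 V2).comp (ContinuousLinearMap.fst ℝ (V2 × V2) ℝ)).hasFDerivAt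
  have h2 : HasFDerivAt (fun p : (V2 × V2) × ℝ => p.1.2)
      ((ContinuousLinearMap.snd ℝ V2 V2).comp (ContinuousLinearMap.fst ℝ (V2 × V2) ℝ)) p :=
    ((ContinuousLinearMap.snd ℝ V2 V2).comp (ContinuousLinearMap.fst ℝ (V2 × V2) ℝ)).hasFDerivAt
  have h3 : HasFDerivAt (fun p : (V2 × V2) × ℝ => ζ p.1.2)
      ((fderiv ℝ ζ p.1.2).comp ((ContinuousLinearMap.snd ℝ V2 V2).comp
            (ContinuousLinearMap.fst ℝ (V2 × V2) ℝ))) p :=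
    hζ.hasFDerivAt.comp p h2
  have h4 : HasFDerivAt (fun p : (V2 × V2) × ℝ => p.2) (ContinuousLinearMap.snd ℝ (V2 × V2) ℝ) p :=
    (ContinuousLinearMap.snd ℝ (V2 × V2) ℝ).hasFDerivAt
  exact h1.prodMk (h4.smul h3)

theorem fderiv_PiS {ζ : V2 → V3} {p : (V2 × V2) × ℝ} (hζ : DifferentiableAt ℝ ζ p.1.2)
    (a : V2 × V2) (s : ℝ) :
    fderiv ℝ (PiS ζ) p (a, s) = (a.1, p.2 • fderiv ℝ ζ p.1.2 a.2 + s • ζ p.1.2) := by
  rw [(hasFDerivAt_PiS hζ).fderiv]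
  simp

theorem contDiffAt_PiS {n : WithTop ℕ∞} {ζ : V2 → V3} {p : (V2 × V2) × ℝ} (hζ : ContDiffAt ℝ n ζ p.1.2) :
    ContDiffAt ℝ n (PiS ζ) p := by
  have h2 : ContDiffAt ℝ n (fun p : (V2 × V2) × ℝ => p.1.2) p := contDiffAt_snd.comp p contDiffAt_fst
  have h3 : ContDiffAt ℝ n (fun p : (V2 × V2) × ℝ => ζ p.1.2) p := hζ.comp p h2
  have h4 : ContDiffAt ℝ n (fun p : (V2 × V2) × ℝ => p.2) p := contDiffAt_snd
  exact (contDiffAt_fst.comp p contDiffAt_fst).prodMk (h4.smul h3)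

/-- the radial vector is orthogonal to the sphere -/
theorem dot_fderiv_unit {ζ : V2 → V3} {v : V2} (hζ : DifferentiableAt ℝ ζ v)
    (h1 : ∀ᶠ v' in 𝓝 v, ζ v' ⬝ᵥ ζ v' = 1) (b : V2) : ζ v ⬝ᵥ fderiv ℝ ζ v b = 0 := by
  have h2 : HasFDerivAt (fun v' => dotL (ζ v') (ζ v')) _ v :=
    (dotL.hasFDerivAt.comp v hζ.hasFDerivAt).clm_apply hζ.hasFDerivAt
  have h3 : (fun v' => dotL (ζ v') (ζ v')) =ᶠ[𝓝 v] fun _ => (1 : ℝ) := by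
    filter_upwards [h1] with v' hv'
    rw [dotL_apply, hv']
  have h4 := h2.fderiv
  rw [h3.fderiv_eq, fderiv_const_apply] at h4
  have h5 := congrArg (fun L : V2 →L[ℝ] ℝ => L b) h4
  have h6 : (0 : ℝ) = ζ v ⬝ᵥ fderiv ℝ ζ v b + fderiv ℝ ζ v b ⬝ᵥ ζ v := h5
  rw [dotProduct_comm (fderiv ℝ ζ v b)] at h6
  linarith

theorem injective_fderiv_PiS {ζ : V2 → V3} {p : (V2 × V2) × ℝ} (hζ : DifferentiableAt ℝ ζ p.1.2)
    (h1 : ∀ᶠ v' in 𝓝 p.1.2, ζ v' ⬝ᵥ ζ v' = 1) (hi : Function.Injective (fderiv ℝ ζ p.1.2))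
    (ht : p.2 ≠ 0) : Function.Injective (fderiv ℝ (PiS ζ) p) := by
  rw [injective_iff_map_eq_zero]
  rintro ⟨a, s⟩ h
  rw [fderiv_PiS hζ] at h
  obtain ⟨ha1, h⟩ := Prod.mk.inj h
  have h2 := dot_fderiv_unit hζ h1 a.2
  have h3 : ζ p.1.2 ⬝ᵥ (p.2 • fderiv ℝ ζ p.1.2 a.2 + s • ζ p.1.2) = 0 := by
    rw [h, dotProduct_zero]
  rw [dotProduct_add, dotProduct_smul, dotProduct_smul, h2, h1.self_of_nhds] at h3
  have hs : s = 0 := by simpa using h3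
  rw [hs, zero_smul, add_zero] at h
  have h4 : fderiv ℝ ζ p.1.2 a.2 = 0 := by
    rcases smul_eq_zero.1 h with h5 | h5
    · exact absurd h5 ht
    · exact h5
  have h6 : a.2 = 0 := hi (by rw [h4, map_zero])
  exact Prod.ext (Prod.ext ha1 h6) hs

theorem isInvertible_fderiv_PiS {ζ : V2 → V3} {p : (V2 × V2) × ℝ} (hζ : DifferentiableAt ℝ ζ p.1.2)
    (h1 : ∀ᶠ v' in 𝓝 p.1.2, ζ v' ⬝ᵥ ζ v' = 1) (hi : Function.Injective (fderiv ℝ ζ p.1.2))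
    (ht : p.2 ≠ 0) : (fderiv ℝ (PiS ζ) p).IsInvertible := by
  have hfr : Module.finrank ℝ ((V2 × V2) × ℝ) = Module.finrank ℝ (V2 × V3) := by
    simp [Module.finrank_prod]
  let e : ((V2 × V2) × ℝ) ≃ₗ[ℝ] (V2 × V3) :=
    LinearEquiv.ofInjectiveOfFinrankEq (fderiv ℝ (PiS ζ) p : (V2 × V2) × ℝ →ₗ[ℝ] V2 × V3)
      (injective_fderiv_PiS hζ h1 hi ht) hfr
  refine ⟨e.toContinuousLinearEquiv, ?_⟩
  ext x <;> rfl

theorem fderiv_PsiS {ζ : V2 → V3} {t : ℝ} {x : V2 × V2} (hζ : DifferentiableAt ℝ ζ x.2) (a : V2 × V2) :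
    fderiv ℝ (PsiS ζ t) x a = (a.1, t • fderiv ℝ ζ x.2 a.2) := by
  have h1 : HasFDerivAt (fun x : V2 × V2 => t • ζ x.2)
      (t • (fderiv ℝ ζ x.2).comp (ContinuousLinearMap.snd ℝ V2 V2)) x :=
    (hζ.hasFDerivAt.comp x (ContinuousLinearMap.snd ℝ V2 V2).hasFDerivAt).const_smul t
  have h2 : HasFDerivAt (PsiS ζ t) _ x := (ContinuousLinearMap.fst ℝ V2 V2).hasFDerivAt.prodMk h1
  rw [h2.fderiv]
  rfl

end Pool.Agent.HS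

end

section

/-!
# Curvature of products and of constant metrics (project HS)

* `Rm_prodG`: the curvature form of a product metric is the sum of the curvature forms;
* `Rm_const`: constant metrics are flat (`Rm_of_eventually_const`: also if constant near the point).
-/

set_option maxSynthPendingDepth 3

namespace Pool.Agent.HS

open Filter
open scoped Topology

variable {B B' : Type*} [NormedAddCommGroup B] [NormedSpace ℝ B] [NormedAddCommGroup B'] [NormedSpace ℝ B']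
variable {G : B → B →L[ℝ] B →L[ℝ] ℝ} {G' : B' → B' →L[ℝ] B' →L[ℝ] ℝ}

theorem prodG_apply (G : B → B →L[ℝ] B →L[ℝ] ℝ) (G' : B' → B' →L[ℝ] B' →L[ℝ] ℝ) (p x y : B × B') :
    prodG G G' p x y = G p.1 x.1 y.1 + G' p.2 x.2 y.2 := rfl

theorem IsInner.prodG {p : B × B'} (h : IsInner (G p.1)) (h' : IsInner (G' p.2)) :
    IsInner (prodG G G' p) where
  symm x y := by
    rw [prodG_apply, prodG_apply, h.symm, h'.symm]
  pos x hx := by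
    rw [prodG_apply]
    by_cases h1 : x.1 = 0
    · have h2 : x.2 ≠ 0 := fun h2 => hx (Prod.ext h1 h2)
      rw [h1]
      simpa using h'.pos _ h2
    · by_cases h2 : x.2 = 0
      · rw [h2]
        simpa using h.pos _ h1
      · exact add_pos (h.pos _ h1) (h'.pos _ h2)

/-- The product of two smooth metrics is smooth. -/
theorem contDiffAt_prodG {n : WithTop ℕ∞} {p : B × B'} (hG : ContDiffAt ℝ n G p.1)
    (hG' : ContDiffAt ℝ n G' p.2) : ContDiffAt ℝ n (prodG G G') p := by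
  have h1 : ContDiffAt ℝ n (fun q : B × B' => G q.1) p :=
    hG.comp p contDiff_fst.contDiffAt
  have h2 : ContDiffAt ℝ n (fun q : B × B' => G' q.2) p :=
    hG'.comp p contDiff_snd.contDiffAt
  have e1 : ContDiffAt ℝ n (fun q : B × B' => (G q.1).bilinearComp
      (ContinuousLinearMap.fst ℝ B B') (ContinuousLinearMap.fst ℝ B B')) p := by
    have a1 : ContDiffAt ℝ n (fun q : B × B' => (G q.1).comp (ContinuousLinearMap.fst ℝ B B')) p :=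
      h1.clm_comp contDiffAt_const
    have a2 : ContDiffAt ℝ n (fun q : B × B' => ((G q.1).comp (ContinuousLinearMap.fst ℝ B B')).flip) p :=
      (ContinuousLinearMap.flipₗᵢ ℝ (B × B') B ℝ).contDiff.contDiffAt.comp p a1
    have a3 : ContDiffAt ℝ n (fun q : B × B' => (((G q.1).comp (ContinuousLinearMap.fst ℝ B B')).flip).comp
        (ContinuousLinearMap.fst ℝ B B')) p := a2.clm_comp contDiffAt_const
    exact (ContinuousLinearMap.flipₗᵢ ℝ (B × B') (B × B') ℝ).contDiff.contDiffAt.comp p a3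
  have e2 : ContDiffAt ℝ n (fun q : B × B' => (G' q.2).bilinearComp
      (ContinuousLinearMap.snd ℝ B B') (ContinuousLinearMap.snd ℝ B B')) p := by
    have a1 : ContDiffAt ℝ n (fun q : B × B' => (G' q.2).comp (ContinuousLinearMap.snd ℝ B B')) p :=
      h2.clm_comp contDiffAt_const
    have a2 : ContDiffAt ℝ n (fun q : B × B' => ((G' q.2).comp (ContinuousLinearMap.snd ℝ B B')).flip) p :=
      (ContinuousLinearMap.flipₗᵢ ℝ (B × B') B' ℝ).contDiff.contDiffAt.comp p a1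
    have a3 : ContDiffAt ℝ n (fun q : B × B' => (((G' q.2).comp (ContinuousLinearMap.snd ℝ B B')).flip).comp
        (ContinuousLinearMap.snd ℝ B B')) p := a2.clm_comp contDiffAt_const
    exact (ContinuousLinearMap.flipₗᵢ ℝ (B × B') (B × B') ℝ).contDiff.contDiffAt.comp p a3
  exact e1.add e2

theorem cov_prodG [FiniteDimensional ℝ B] [FiniteDimensional ℝ B'] {p : B × B'}
    (h : IsInner (G p.1)) (h' : IsInner (G' p.2)) (α β : B →L[ℝ] ℝ) (α' β' : B' →L[ℝ] ℝ) :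
    cov (prodG G G' p)
      (α.comp (ContinuousLinearMap.fst ℝ B B') + α'.comp (ContinuousLinearMap.snd ℝ B B'))
      (β.comp (ContinuousLinearMap.fst ℝ B B') + β'.comp (ContinuousLinearMap.snd ℝ B B'))
      = cov (G p.1) α β + cov (G' p.2) α' β' := by
  rw [cov_eq_of (IsInner.prodG h h') (a := (sharp (G p.1) α, sharp (G' p.2) α'))
    (b := (sharp (G p.1) β, sharp (G' p.2) β')), prodG_apply, cov_eq_sharp h, cov_eq_sharp h']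
  · intro z
    rw [prodG_apply]
    change G p.1 (sharp (G p.1) α) z.1 + G' p.2 (sharp (G' p.2) α') z.2 = α z.1 + α' z.2
    rw [sharp_apply h, sharp_apply h']
  · intro z
    rw [prodG_apply]
    change G p.1 (sharp (G p.1) β) z.1 + G' p.2 (sharp (G' p.2) β') z.2 = β z.1 + β' z.2
    rw [sharp_apply h, sharp_apply h']

theorem isInner_dotL : IsInner dotL where
  symm x y := by
    rw [dotL_apply, dotL_apply, dotProduct_comm]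
  pos x hx := by
    rw [dotL_apply]
    have h1 : 0 ≤ x ⬝ᵥ x := by
      unfold dotProduct
      exact Finset.sum_nonneg fun i _ => mul_self_nonneg (x i)
    have h2 : x ⬝ᵥ x ≠ 0 := by
      intro h
      exact hx (dotProduct_self_eq_zero.mp h)
    exact lt_of_le_of_ne h1 (Ne.symm h2)

end Pool.Agent.HS

end

section

/-!
# The fibre form `Sw q w` of the metric of `E = S² × R³` (project HS, MP_55c470_gt)

`q : V3 →L[ℝ] V3` is symmetric (`hqs`) and positive (`hqp`), `Sw q w = (1 + C q⁻¹ Cᵀ)⁻¹` with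
`C U = U × w` (file `Loc`).  `c · Sw q w c` is the minimum over `U` of `U · q U + |c - U × w|²`,
attained at `U = Ust q w c = q⁻¹ (w × Sw q w c)` (`sq_Sw₂`, `Sw_min`, `Sw_min_le`).
-/

set_option maxSynthPendingDepth 3

namespace Pool.Agent.HS

open Matrix Topology Filter

theorem dot_self_nonneg_sw (u : V3) : 0 ≤ u ⬝ᵥ u := by
  rw [dotProduct]
  exact Finset.sum_nonneg fun i _ => mul_self_nonneg _

theorem eq_zero_of_dot_self_sw {u : V3} (h : u ⬝ᵥ u = 0) : u = 0 := dotProduct_self_eq_zero.1 h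

/-- `x · (u × v) = u · (v × x)` -/
theorem triple_sw (x u v : V3) : x ⬝ᵥ (u ⨯₃ v) = u ⬝ᵥ (v ⨯₃ x) := triple_product_permutation x u v

/-- A positive operator is invertible. -/
theorem isInvertible_of_pos {T : V3 →L[ℝ] V3} (hT : ∀ x : V3, x ≠ 0 → 0 < x ⬝ᵥ T x) :
    T.IsInvertible := by
  have hinj : Function.Injective T.toLinearMap := by
    rw [← LinearMap.ker_eq_bot, LinearMap.ker_eq_bot']
    intro u hu
    by_contra hne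
    have h := hT u hne
    have hu' : T u = 0 := hu
    rw [hu', dotProduct_zero] at h
    exact lt_irrefl _ h
  refine ⟨(LinearEquiv.ofInjectiveEndo T.toLinearMap hinj).toContinuousLinearEquiv, ?_⟩
  ext x
  rfl

section

variable {q : V3 →L[ℝ] V3}

theorem q_inv (hqp : ∀ x : V3, x ≠ 0 → 0 < x ⬝ᵥ q x) (x : V3) :
    q (ContinuousLinearMap.inverse q x) = x :=
  DFunLike.congr_fun (ContinuousLinearMap.IsInvertible.self_comp_inverse (isInvertible_of_pos hqp)) x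

theorem inv_q (hqp : ∀ x : V3, x ≠ 0 → 0 < x ⬝ᵥ q x) (x : V3) :
    ContinuousLinearMap.inverse q (q x) = x :=
  DFunLike.congr_fun (ContinuousLinearMap.IsInvertible.inverse_comp_self (isInvertible_of_pos hqp)) x

theorem inv_pos_sw (hqs : ∀ x y : V3, x ⬝ᵥ q y = q x ⬝ᵥ y)
    (hqp : ∀ x : V3, x ≠ 0 → 0 < x ⬝ᵥ q x) (x : V3) (hx : x ≠ 0) :
    0 < x ⬝ᵥ ContinuousLinearMap.inverse q x := by
  have h0 : ContinuousLinearMap.inverse q x ≠ 0 := by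
    intro h
    apply hx
    have h1 := q_inv hqp x
    rw [h, map_zero] at h1
    exact h1.symm
  have h := hqp _ h0
  rw [hqs, q_inv hqp] at h
  exact h

theorem q_nonneg_sw (hqp : ∀ x : V3, x ≠ 0 → 0 < x ⬝ᵥ q x) (x : V3) : 0 ≤ x ⬝ᵥ q x := by
  rcases eq_or_ne x 0 with rfl | hx
  · rw [zero_dotProduct]
  · exact (hqp x hx).le

theorem inv_nonneg_sw (hqs : ∀ x y : V3, x ⬝ᵥ q y = q x ⬝ᵥ y)
    (hqp : ∀ x : V3, x ≠ 0 → 0 < x ⬝ᵥ q x) (x : V3) :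
    0 ≤ x ⬝ᵥ ContinuousLinearMap.inverse q x := by
  rcases eq_or_ne x 0 with rfl | hx
  · rw [zero_dotProduct]
  · exact (inv_pos_sw hqs hqp x hx).le

/-- `M = 1 + C q⁻¹ Cᵀ`, the inverse of `Sw q w`. -/
noncomputable def Mw (q : V3 →L[ℝ] V3) (w : V3) : V3 →L[ℝ] V3 :=
  ContinuousLinearMap.id ℝ V3 + (Cw w).comp ((ContinuousLinearMap.inverse q).comp (crossL w))

theorem Mw_apply (q : V3 →L[ℝ] V3) (w c : V3) :
    Mw q w c = c + (ContinuousLinearMap.inverse q (w ⨯₃ c)) ⨯₃ w := rfl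

theorem dot_Mw (q : V3 →L[ℝ] V3) (w c d : V3) :
    d ⬝ᵥ Mw q w c = d ⬝ᵥ c + (w ⨯₃ d) ⬝ᵥ ContinuousLinearMap.inverse q (w ⨯₃ c) := by
  rw [Mw_apply, dotProduct_add, triple_sw, dotProduct_comm (w ⨯₃ d)]

theorem Mw_pos (hqs : ∀ x y : V3, x ⬝ᵥ q y = q x ⬝ᵥ y) (hqp : ∀ x : V3, x ≠ 0 → 0 < x ⬝ᵥ q x)
    (w c : V3) (hc : c ≠ 0) : 0 < c ⬝ᵥ Mw q w c := by
  rw [dot_Mw]
  have h1 := inv_nonneg_sw hqs hqp (w ⨯₃ c)
  have h2 : 0 < c ⬝ᵥ c :=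
    lt_of_le_of_ne (dot_self_nonneg_sw c) fun h => hc (eq_zero_of_dot_self_sw h.symm)
  linarith

theorem Mw_Sw (hqs : ∀ x y : V3, x ⬝ᵥ q y = q x ⬝ᵥ y) (hqp : ∀ x : V3, x ≠ 0 → 0 < x ⬝ᵥ q x)
    (w c : V3) : Mw q w (Sw q w c) = c := q_inv (Mw_pos hqs hqp w) c

theorem Sw_Mw (hqs : ∀ x y : V3, x ⬝ᵥ q y = q x ⬝ᵥ y) (hqp : ∀ x : V3, x ≠ 0 → 0 < x ⬝ᵥ q x)
    (w c : V3) : Sw q w (Mw q w c) = c := inv_q (Mw_pos hqs hqp w) c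

/-- `S c + q⁻¹ (w × S c) × w = c`. -/
theorem Sw_eqn (hqs : ∀ x y : V3, x ⬝ᵥ q y = q x ⬝ᵥ y) (hqp : ∀ x : V3, x ≠ 0 → 0 < x ⬝ᵥ q x)
    (w c : V3) :
    Sw q w c + (ContinuousLinearMap.inverse q (w ⨯₃ Sw q w c)) ⨯₃ w = c :=
  Mw_Sw hqs hqp w c

/-- If `S' + q⁻¹ (w × S') × w = c` then `S' = Sw q w c`. -/
theorem Sw_unique (hqs : ∀ x y : V3, x ⬝ᵥ q y = q x ⬝ᵥ y) (hqp : ∀ x : V3, x ≠ 0 → 0 < x ⬝ᵥ q x)
    {w c s : V3} (h : s + (ContinuousLinearMap.inverse q (w ⨯₃ s)) ⨯₃ w = c) : Sw q w c = s := by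
  rw [← h]
  exact Sw_Mw hqs hqp w s

theorem Sw_ne_zero (hqs : ∀ x y : V3, x ⬝ᵥ q y = q x ⬝ᵥ y)
    (hqp : ∀ x : V3, x ≠ 0 → 0 < x ⬝ᵥ q x) (w : V3) {c : V3} (hc : c ≠ 0) : Sw q w c ≠ 0 := by
  intro h
  apply hc
  rw [← Mw_Sw hqs hqp w c, h, map_zero]

/-- `S > 0`. -/
theorem Sw_pos (hqs : ∀ x y : V3, x ⬝ᵥ q y = q x ⬝ᵥ y) (hqp : ∀ x : V3, x ≠ 0 → 0 < x ⬝ᵥ q x)
    (w c : V3) (hc : c ≠ 0) : 0 < c ⬝ᵥ Sw q w c := by
  have h := Mw_pos hqs hqp w _ (Sw_ne_zero hqs hqp w hc)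
  rw [Mw_Sw hqs hqp, dotProduct_comm] at h
  exact h

theorem Sw_nonneg (hqs : ∀ x y : V3, x ⬝ᵥ q y = q x ⬝ᵥ y)
    (hqp : ∀ x : V3, x ≠ 0 → 0 < x ⬝ᵥ q x) (w c : V3) : 0 ≤ c ⬝ᵥ Sw q w c :=
  q_nonneg_sw (Sw_pos hqs hqp w) c

/-- `S_w w = w`. -/
theorem Sw_self (hqs : ∀ x y : V3, x ⬝ᵥ q y = q x ⬝ᵥ y) (hqp : ∀ x : V3, x ≠ 0 → 0 < x ⬝ᵥ q x)
    (w : V3) : Sw q w w = w := by
  refine Sw_unique hqs hqp ?_
  rw [cross_self, map_zero, map_zero, LinearMap.zero_apply, add_zero]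

/-- The minimiser of `U ↦ U · q U + |c - U × w|²`. -/
noncomputable def Ust (q : V3 →L[ℝ] V3) (w c : V3) : V3 :=
  ContinuousLinearMap.inverse q (w ⨯₃ Sw q w c)

theorem q_Ust (hqp : ∀ x : V3, x ≠ 0 → 0 < x ⬝ᵥ q x) (w c : V3) :
    q (Ust q w c) = w ⨯₃ Sw q w c := q_inv hqp _

/-- `S c = c - U* × w`. -/
theorem Sw_eq_sub (hqs : ∀ x y : V3, x ⬝ᵥ q y = q x ⬝ᵥ y)
    (hqp : ∀ x : V3, x ≠ 0 → 0 < x ⬝ᵥ q x) (w c : V3) :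
    Sw q w c = c - Ust q w c ⨯₃ w := eq_sub_of_add_eq (Sw_eqn hqs hqp w c)

/-- **Completing the square**, bilinear form. -/
theorem sq_Sw₂ (hqs : ∀ x y : V3, x ⬝ᵥ q y = q x ⬝ᵥ y) (hqp : ∀ x : V3, x ≠ 0 → 0 < x ⬝ᵥ q x)
    (w c d U V : V3) :
    U ⬝ᵥ q V + (c - U ⨯₃ w) ⬝ᵥ (d - V ⨯₃ w)
      = c ⬝ᵥ Sw q w d + (U - Ust q w c) ⬝ᵥ q (V - Ust q w d)
        + ((U - Ust q w c) ⨯₃ w) ⬝ᵥ ((V - Ust q w d) ⨯₃ w) := by
  obtain ⟨a, ha⟩ : ∃ a, a = U - Ust q w c := ⟨_, rfl⟩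
  obtain ⟨b, hb⟩ : ∃ b, b = V - Ust q w d := ⟨_, rfl⟩
  obtain ⟨s, hs⟩ : ∃ s, s = Sw q w c := ⟨_, rfl⟩
  obtain ⟨t, ht⟩ : ∃ t, t = Sw q w d := ⟨_, rfl⟩
  have hU : U = Ust q w c + a := by rw [ha]; abel
  have hV : V = Ust q w d + b := by rw [hb]; abel
  have h1 : c - U ⨯₃ w = s - a ⨯₃ w := by
    rw [hU, map_add, LinearMap.add_apply, hs, Sw_eq_sub hqs hqp w c]; abel
  have h2 : d - V ⨯₃ w = t - b ⨯₃ w := by
    rw [hV, map_add, LinearMap.add_apply, ht, Sw_eq_sub hqs hqp w d]; abel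
  have hc : c = s + Ust q w c ⨯₃ w := by rw [hs, Sw_eq_sub hqs hqp w c]; abel
  have hqc : q (Ust q w c) = w ⨯₃ s := by rw [q_Ust hqp, hs]
  have hqd : q (Ust q w d) = w ⨯₃ t := by rw [q_Ust hqp, ht]
  have e1 : U ⬝ᵥ q V = Ust q w c ⬝ᵥ (w ⨯₃ t) + (w ⨯₃ s) ⬝ᵥ b + a ⬝ᵥ (w ⨯₃ t) + a ⬝ᵥ q b := by
    rw [hU, hV, map_add, add_dotProduct, dotProduct_add, dotProduct_add, hqd,
      hqs (Ust q w c) b, hqc]
    ring
  have e2 : (s - a ⨯₃ w) ⬝ᵥ (t - b ⨯₃ w)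
      = s ⬝ᵥ t - (w ⨯₃ s) ⬝ᵥ b - a ⬝ᵥ (w ⨯₃ t) + (a ⨯₃ w) ⬝ᵥ (b ⨯₃ w) := by
    rw [sub_dotProduct, dotProduct_sub, dotProduct_sub, triple_sw s b w, dotProduct_comm b,
      dotProduct_comm (a ⨯₃ w) t, triple_sw t a w]
    ring
  have e3 : c ⬝ᵥ Sw q w d = s ⬝ᵥ t + Ust q w c ⬝ᵥ (w ⨯₃ t) := by
    rw [← ht]
    nth_rewrite 1 [hc]
    rw [add_dotProduct, dotProduct_comm (Ust q w c ⨯₃ w) t, triple_sw t (Ust q w c) w]
  rw [h1, h2, e1, e2, e3, ← ha, ← hb]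
  ring

/-- The value at the minimiser. -/
theorem Sw_min (hqs : ∀ x y : V3, x ⬝ᵥ q y = q x ⬝ᵥ y) (hqp : ∀ x : V3, x ≠ 0 → 0 < x ⬝ᵥ q x)
    (w c : V3) :
    c ⬝ᵥ Sw q w c = Ust q w c ⬝ᵥ q (Ust q w c)
      + (c - Ust q w c ⨯₃ w) ⬝ᵥ (c - Ust q w c ⨯₃ w) := by
  rw [sq_Sw₂ hqs hqp, sub_self, zero_dotProduct, map_zero, LinearMap.zero_apply, zero_dotProduct,
    add_zero, add_zero]

/-- `c · S c` is the minimum. -/
theorem Sw_min_le (hqs : ∀ x y : V3, x ⬝ᵥ q y = q x ⬝ᵥ y)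
    (hqp : ∀ x : V3, x ≠ 0 → 0 < x ⬝ᵥ q x) (w c U : V3) :
    c ⬝ᵥ Sw q w c ≤ U ⬝ᵥ q U + (c - U ⨯₃ w) ⬝ᵥ (c - U ⨯₃ w) := by
  rw [sq_Sw₂ hqs hqp]
  have h1 := q_nonneg_sw hqp (U - Ust q w c)
  have h2 := dot_self_nonneg_sw ((U - Ust q w c) ⨯₃ w)
  linarith

/-- `S ≤ 1`. -/
theorem Sw_le (hqs : ∀ x y : V3, x ⬝ᵥ q y = q x ⬝ᵥ y) (hqp : ∀ x : V3, x ≠ 0 → 0 < x ⬝ᵥ q x)
    (w c : V3) : c ⬝ᵥ Sw q w c ≤ c ⬝ᵥ c := by
  have h := Sw_min_le hqs hqp w c 0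
  rw [zero_dotProduct, zero_add, map_zero, LinearMap.zero_apply, sub_zero] at h
  exact h

/-- Monotonicity along the radial flow. -/
theorem Sw_mono (hqs : ∀ x y : V3, x ⬝ᵥ q y = q x ⬝ᵥ y) (hqp : ∀ x : V3, x ≠ 0 → 0 < x ⬝ᵥ q x)
    (w c : V3) {l : ℝ} (hl : 1 ≤ l) :
    c ⬝ᵥ Sw q w c ≤ (l • c) ⬝ᵥ Sw q (l • w) (l • c) := by
  obtain ⟨U, hU⟩ : ∃ U, U = Ust q (l • w) (l • c) := ⟨_, rfl⟩
  have h1 := Sw_min hqs hqp (l • w) (l • c)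
  rw [← hU] at h1
  have h2 : l • c - U ⨯₃ (l • w) = l • (c - U ⨯₃ w) := by
    rw [smul_sub, map_smul]
  have h2' : (l • (c - U ⨯₃ w)) ⬝ᵥ (l • (c - U ⨯₃ w)) =
      l * (l * ((c - U ⨯₃ w) ⬝ᵥ (c - U ⨯₃ w))) := by
    rw [smul_dotProduct, dotProduct_smul, smul_eq_mul, smul_eq_mul]
  rw [h2, h2'] at h1
  have h3 := Sw_min_le hqs hqp w c U
  have h4 := dot_self_nonneg_sw (c - U ⨯₃ w)
  have h5 : (c - U ⨯₃ w) ⬝ᵥ (c - U ⨯₃ w) ≤ l * (l * ((c - U ⨯₃ w) ⬝ᵥ (c - U ⨯₃ w))) := by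
    have h6 : 1 ≤ l * l := one_le_mul_of_one_le_of_one_le hl hl
    have h7 := mul_le_mul_of_nonneg_right h6 h4
    rw [one_mul, mul_assoc] at h7
    exact h7
  rw [h1]
  linarith

/-! ### Rotations -/

end

/-! ### Smoothness -/

section smooth

variable {X : Type*} [NormedAddCommGroup X] [NormedSpace ℝ X] {n : WithTop ℕ∞} {x₀ : X}

end smooth

end Pool.Agent.HS

end
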