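import Pool.Agent.H94.PT.M03

/-! The parts of this file: HS.M3, HS.M2b. -/

section

/-!
# Block M3: positive curvature of `P = S² × SO(3)` for small `r`

`RP_pos`: if the infinitesimal condition `GPos` holds on a compact set of pointwise data, then for
all small `r > 0` the curvature form `RP` is positive on every pair of vectors in normal form.
-/

namespace Pool.Agent.HS

open Matrix Set

/-! ### continuity helpers -/

theorem continuous_cross {X : Type*} [TopologicalSpace X] {u v : X → V3} (hu : Continuous u)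
    (hv : Continuous v) : Continuous (fun x => u x ⨯₃ v x) := by
  have h : ∀ i, Continuous (fun x => u x i) := fun i => (continuous_apply i).comp hu
  have k : ∀ i, Continuous (fun x => v x i) := fun i => (continuous_apply i).comp hv
  refine continuous_pi (fun i => ?_)
  fin_cases i <;> simp only [cross_apply] <;> simp
  · exact ((h 1).mul (k 2)).sub ((h 2).mul (k 1))
  · exact ((h 2).mul (k 0)).sub ((h 0).mul (k 2))
  · exact ((h 0).mul (k 1)).sub ((h 1).mul (k 0))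

theorem continuous_bf {X : Type*} [TopologicalSpace X] {A : X → M33} {u v : X → V3}
    (hA : Continuous A) (hu : Continuous u) (hv : Continuous v) :
    Continuous (fun x => bf (A x) (u x) (v x)) := by
  unfold bf
  exact hu.dotProduct (hA.matrix_mulVec hv)

/-! ### the scaled form -/

/-- The scaled visible part: `m = m'/r²`, `z = b/r`. -/
noncomputable def RVs (r : ℝ) (D : PD) (α : ℝ) (m : Fin 2 → V3) (b : V3) : ℝ :=
  D.K * α ^ 2 - α * (D.Dρ 0 ⬝ᵥ m 0 + D.Dρ 1 ⬝ᵥ m 1)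
  + 1 / 4 * (((D.ρ ⬝ᵥ m 0) ^ 2 + (D.ρ ⬝ᵥ m 1) ^ 2) + 2 / 3 * ((bf (D.κ2 0 0) (m 0) (m 0)
      + bf (D.κ2 0 1) (m 0) (m 1)) + (bf (D.κ2 1 0) (m 1) (m 0) + bf (D.κ2 1 1) (m 1) (m 1))))
  + 1 / 4 * (b ⬝ᵥ b)
  - 3 / 2 * r * α * (D.ρ ⬝ᵥ b) - 3 / 4 * r ^ 2 * α ^ 2 * (D.ρ ⬝ᵥ D.ρ)
  + (r ^ 4 * (1 / 4) * α ^ 2 * bf D.κ D.ρ D.ρ
      + r ^ 2 * (1 / 3) * α * (bf D.κ (D.Dρ 0) (m 0) + bf D.κ (D.Dρ 1) (m 1))
      + r ^ 2 * (1 / 2) * α * (bf (D.κ1 0) D.ρ (m 0) + bf (D.κ1 1) D.ρ (m 1))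
      + r ^ 3 * (1 / 2) * α * bf D.κ D.ρ b
      + r * (1 / 2) * (bf (D.κ1 0) (m 0) b + bf (D.κ1 1) (m 1) b)
      + r ^ 2 * (5 / 12) * bf D.κ b b - r ^ 2 * (1 / 6) * D.κ.trace * (b ⬝ᵥ b))
  + 1 / 4 * (((D.ρ ⬝ᵥ m 0 - r ^ 2 / 3 * bf D.κ D.ρ (m 0)) ^ 2 - (D.ρ ⬝ᵥ m 0) ^ 2)
      + ((D.ρ ⬝ᵥ m 1 - r ^ 2 / 3 * bf D.κ D.ρ (m 1)) ^ 2 - (D.ρ ⬝ᵥ m 1) ^ 2))
  - r ^ 3 / 6 * (bf (D.κ1 0) (-(m 1)) (b ⨯₃ (D.ρ - (r ^ 2 / 3) • (D.κ *ᵥ D.ρ)))
      + bf (D.κ1 1) (m 0) (b ⨯₃ (D.ρ - (r ^ 2 / 3) • (D.κ *ᵥ D.ρ))))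
  - r ^ 6 / 36 * (bf (D.κ1 0).adjugate b b + bf (D.κ1 1).adjugate b b)

theorem bf_smul_left (A : M33) (c : ℝ) (u v : V3) : bf A (c • u) v = c * bf A u v := by
  simp [bf, smul_dotProduct]

theorem bf_smul_right (A : M33) (c : ℝ) (u v : V3) : bf A u (c • v) = c * bf A u v := by
  simp [bf, mulVec_smul, dotProduct_smul]

theorem bf_neg_left (A : M33) (u v : V3) : bf A (-u) v = - bf A u v := by
  simp [bf]

theorem RV_eq (r : ℝ) (D : PD) (α : ℝ) (m : Fin 2 → V3) (z : V3) :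
    RV r D α m z = RVs r D α (fun e => r ^ 2 • m e) (r • z) := by
  have h1 : ∀ (w : V3), (r • z) ⨯₃ w = r • (z ⨯₃ w) := fun w => by simp
  unfold RV RVs
  simp only [Fin.sum_univ_two, h1, bf_smul_left, bf_smul_right, bf_neg_left, smul_dotProduct,
    dotProduct_smul, smul_eq_mul]
  ring

/-- Parameters: data, the matrix `S`, and the two frames. -/
abbrev Par := PD × M33 × V2 × V2 × V3 × V3

/-- the scaled `m'` in normal form -/
def ms (z : Fin 4 → ℝ) (p : Par) : Fin 2 → V3 := fun i =>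
  (z 1 * p.2.2.1 i) • p.2.2.2.2.2 - (z 2 * p.2.2.2.1 i) • p.2.2.2.2.1

/-- `r³ Γ(X,Y)` in normal form -/
noncomputable def gs (r : ℝ) (z : Fin 4 → ℝ) (p : Par) : V3 :=
  (1 / 2 : ℝ) • ((r * z 1) • (kx p.1 p.2.2.1 *ᵥ p.2.2.2.2.2)
    + (r * z 2) • (kx p.1 p.2.2.2.1 *ᵥ p.2.2.2.2.1)
    + (r ^ 2 * z 3) • ((p.1.κ *ᵥ p.2.2.2.2.2) ⨯₃ p.2.2.2.2.1
      + (p.1.κ *ᵥ p.2.2.2.2.1) ⨯₃ p.2.2.2.2.2))

/-- The scaled form: `z = (st, r² sq, r² tp, r pq)`. -/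
noncomputable def Phi (r : ℝ) (z : Fin 4 → ℝ) (p : Par) : ℝ :=
  RVs r p.1 (z 0 * al p.2.2.1 p.2.2.2.1) (ms z p) (z 3 • (p.2.2.2.2.1 ⨯₃ p.2.2.2.2.2))
  + 1 / 9 * (bf p.2.1 (gs r z p) (gs r z p)
    - (r ^ 5 * (z 0 * z 3) * bf p.2.1 (kx p.1 p.2.2.1 *ᵥ p.2.2.2.2.1)
          (kx p.1 p.2.2.2.1 *ᵥ p.2.2.2.2.2)
      + r ^ 3 * (z 1 * z 3) * bf p.2.1 (kx p.1 p.2.2.1 *ᵥ p.2.2.2.2.1)
          ((p.1.κ *ᵥ p.2.2.2.2.2) ⨯₃ p.2.2.2.2.2)
      + r ^ 3 * (z 2 * z 3) * bf p.2.1 ((p.1.κ *ᵥ p.2.2.2.2.1) ⨯₃ p.2.2.2.2.1)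
          (kx p.1 p.2.2.2.1 *ᵥ p.2.2.2.2.2)
      + r ^ 4 * (z 3 * z 3) * bf p.2.1 ((p.1.κ *ᵥ p.2.2.2.2.1) ⨯₃ p.2.2.2.2.1)
          ((p.1.κ *ᵥ p.2.2.2.2.2) ⨯₃ p.2.2.2.2.2)))

theorem kx_smul (D : PD) (c : ℝ) (x : V2) : kx D (c • x) = c • kx D x := by
  simp [kx, mul_smul, smul_add]

theorem bf_add_left (A : M33) (u u' v : V3) : bf A (u + u') v = bf A u v + bf A u' v := by
  simp [bf, add_dotProduct]

theorem bf_add_right (A : M33) (u v v' : V3) : bf A u (v + v') = bf A u v + bf A u v' := by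
  simp [bf, mulVec_add, dotProduct_add]

theorem gt_self (D : PD) (x : V2) (ξ : V3) :
    gt D x ξ x ξ = kx D x *ᵥ ξ + (D.κ *ᵥ ξ) ⨯₃ ξ := by
  unfold gt
  rw [show kx D x *ᵥ ξ + kx D x *ᵥ ξ + (D.κ *ᵥ ξ) ⨯₃ ξ + (D.κ *ᵥ ξ) ⨯₃ ξ
    = (2 : ℝ) • (kx D x *ᵥ ξ + (D.κ *ᵥ ξ) ⨯₃ ξ) by module, smul_smul]
  norm_num

theorem RP_normal (r : ℝ) (D : PD) (S : M33) (e e' : V2) (f f' : V3) (s t p q : ℝ) :
    RP r D S (s • e) (p • f) (t • e') (q • f')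
      = Phi r ![s * t, r ^ 2 * (s * q), r ^ 2 * (t * p), r * (p * q)] (D, S, e, e', f, f') := by
  have hal : al (s • e) (t • e') = s * t * al e e' := by
    simp only [al, Pi.smul_apply, smul_eq_mul]; ring
  have hm : (fun i => r ^ 2 • mm (s • e) (p • f) (t • e') (q • f') i)
      = ms ![s * t, r ^ 2 * (s * q), r ^ 2 * (t * p), r * (p * q)] (D, S, e, e', f, f') := by
    funext i
    simp only [mm, ms, Pi.smul_apply, smul_eq_mul, smul_sub, smul_smul]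
    simp
    congr 2 <;> ring
  have hz : r • ((p • f) ⨯₃ (q • f')) = (r * (p * q)) • (f ⨯₃ f') := by
    simp [smul_smul]; congr 1; ring
  have hg : r ^ 3 • gt D (s • e) (p • f) (t • e') (q • f')
      = gs r ![s * t, r ^ 2 * (s * q), r ^ 2 * (t * p), r * (p * q)] (D, S, e, e', f, f') := by
    simp only [gt, gs, kx_smul, smul_mulVec, mulVec_smul, smul_smul]
    simp only [map_smul, LinearMap.smul_apply, smul_smul]
    simp
    module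
  have h2 : r ^ 6 / 9 * bf S (gt D (s • e) (p • f) (t • e') (q • f'))
      (gt D (s • e) (p • f) (t • e') (q • f'))
      = 1 / 9 * bf S (r ^ 3 • gt D (s • e) (p • f) (t • e') (q • f'))
        (r ^ 3 • gt D (s • e) (p • f) (t • e') (q • f')) := by
    rw [bf_smul_left, bf_smul_right]; ring
  unfold RP
  rw [RV_eq, hal, hm, hz, mul_sub, h2, hg, gt_self, gt_self]
  unfold Phi
  simp only [kx_smul, smul_mulVec, mulVec_smul, smul_smul]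
  simp only [map_smul, LinearMap.smul_apply, smul_smul, bf_add_left, bf_add_right, bf_smul_left,
    bf_smul_right]
  simp
  ring

/-! ### homogeneity -/

theorem ms_smul (c : ℝ) (z : Fin 4 → ℝ) (p : Par) : ms (c • z) p = c • ms z p := by
  funext i
  simp only [ms, Pi.smul_apply, smul_eq_mul, smul_sub, smul_smul, mul_assoc]

theorem gs_smul (r c : ℝ) (z : Fin 4 → ℝ) (p : Par) : gs r (c • z) p = c • gs r z p := by
  simp only [gs, Pi.smul_apply, smul_eq_mul]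
  module

theorem Phi_smul (r c : ℝ) (z : Fin 4 → ℝ) (p : Par) : Phi r (c • z) p = c ^ 2 * Phi r z p := by
  unfold Phi
  rw [gs_smul, ms_smul]
  unfold RVs
  have h1 : ∀ (u w : V3), (c • u) ⨯₃ w = c • (u ⨯₃ w) := fun u w => by simp
  have h2 : ∀ (a b : ℝ) (u : V3), (a * b) • u = a • b • u := fun a b u => mul_smul a b u
  have h3 : ∀ (u : V3), -(c • u) = c • (-u) := fun u => by simp
  simp only [Pi.smul_apply, smul_eq_mul, h2 c, h1, h3, bf_smul_left, bf_smul_right,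
    smul_dotProduct, dotProduct_smul]
  ring

/-! ### continuity -/

theorem continuous_Phi : Continuous (fun q : ℝ × (Fin 4 → ℝ) × Par => Phi q.1 q.2.1 q.2.2) := by
  have hr : Continuous (fun q : ℝ × (Fin 4 → ℝ) × Par => q.1) := continuous_fst
  have hz : ∀ i, Continuous (fun q : ℝ × (Fin 4 → ℝ) × Par => q.2.1 i) := fun i =>
    (continuous_apply i).comp (continuous_fst.comp continuous_snd)
  have hD : Continuous (fun q : ℝ × (Fin 4 → ℝ) × Par => q.2.2.1) := by fun_prop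
  have hK : Continuous (fun q : ℝ × (Fin 4 → ℝ) × Par => q.2.2.1.K) := by
    unfold PD.K; fun_prop
  have hρ : Continuous (fun q : ℝ × (Fin 4 → ℝ) × Par => q.2.2.1.ρ) := by
    unfold PD.ρ; fun_prop
  have hDρ : ∀ i, Continuous (fun q : ℝ × (Fin 4 → ℝ) × Par => q.2.2.1.Dρ i) := by
    intro i; unfold PD.Dρ; fun_prop
  have hκ : Continuous (fun q : ℝ × (Fin 4 → ℝ) × Par => q.2.2.1.κ) := by
    unfold PD.κ; fun_prop
  have hκ1 : ∀ i, Continuous (fun q : ℝ × (Fin 4 → ℝ) × Par => q.2.2.1.κ1 i) := by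
    intro i; unfold PD.κ1; fun_prop
  have hκ2 : ∀ i j, Continuous (fun q : ℝ × (Fin 4 → ℝ) × Par => q.2.2.1.κ2 i j) := by
    intro i j; unfold PD.κ2; fun_prop
  have hS : Continuous (fun q : ℝ × (Fin 4 → ℝ) × Par => q.2.2.2.1) := by fun_prop
  have he : ∀ i, Continuous (fun q : ℝ × (Fin 4 → ℝ) × Par => q.2.2.2.2.1 i) := by
    intro i; fun_prop
  have he' : ∀ i, Continuous (fun q : ℝ × (Fin 4 → ℝ) × Par => q.2.2.2.2.2.1 i) := by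
    intro i; fun_prop
  have hf : Continuous (fun q : ℝ × (Fin 4 → ℝ) × Par => q.2.2.2.2.2.2.1) := by fun_prop
  have hf' : Continuous (fun q : ℝ × (Fin 4 → ℝ) × Par => q.2.2.2.2.2.2.2) := by fun_prop
  have hkx : Continuous (fun q : ℝ × (Fin 4 → ℝ) × Par => kx q.2.2.1 q.2.2.2.2.1) := by
    unfold kx
    exact ((he 0).smul (hκ1 0)).add ((he 1).smul (hκ1 1))
  have hkx' : Continuous (fun q : ℝ × (Fin 4 → ℝ) × Par => kx q.2.2.1 q.2.2.2.2.2.1) := by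
    unfold kx
    exact ((he' 0).smul (hκ1 0)).add ((he' 1).smul (hκ1 1))
  have hkf : Continuous (fun q : ℝ × (Fin 4 → ℝ) × Par => q.2.2.1.κ *ᵥ q.2.2.2.2.2.2.1) :=
    hκ.matrix_mulVec hf
  have hkf' : Continuous (fun q : ℝ × (Fin 4 → ℝ) × Par => q.2.2.1.κ *ᵥ q.2.2.2.2.2.2.2) :=
    hκ.matrix_mulVec hf'
  have hm : ∀ i, Continuous (fun q : ℝ × (Fin 4 → ℝ) × Par => ms q.2.1 q.2.2 i) := by
    intro i
    unfold ms
    exact (((hz 1).mul (he i)).smul hf').sub (((hz 2).mul (he' i)).smul hf)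
  have hb : Continuous (fun q : ℝ × (Fin 4 → ℝ) × Par =>
      q.2.1 3 • (q.2.2.2.2.2.2.1 ⨯₃ q.2.2.2.2.2.2.2)) :=
    (hz 3).smul (continuous_cross hf hf')
  have hal : Continuous (fun q : ℝ × (Fin 4 → ℝ) × Par =>
      q.2.1 0 * al q.2.2.2.2.1 q.2.2.2.2.2.1) := by
    unfold al
    exact (hz 0).mul (((he 0).mul (he' 1)).sub ((he 1).mul (he' 0)))
  have hg : Continuous (fun q : ℝ × (Fin 4 → ℝ) × Par => gs q.1 q.2.1 q.2.2) := by
    unfold gs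
    have c1 := hkx.matrix_mulVec hf'
    have c2 := hkx'.matrix_mulVec hf
    have c3 := (continuous_cross hkf' hf).add (continuous_cross hkf hf')
    exact ((((hr.mul (hz 1)).smul c1).add ((hr.mul (hz 2)).smul c2)).add
      (((hr.pow 2).mul (hz 3)).smul c3)).const_smul (1 / 2 : ℝ)
  have hRV : Continuous (fun q : ℝ × (Fin 4 → ℝ) × Par =>
      RVs q.1 q.2.2.1 (q.2.1 0 * al q.2.2.2.2.1 q.2.2.2.2.2.1) (ms q.2.1 q.2.2)
        (q.2.1 3 • (q.2.2.2.2.2.2.1 ⨯₃ q.2.2.2.2.2.2.2))) := by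
    have hkρ : Continuous (fun q : ℝ × (Fin 4 → ℝ) × Par => q.2.2.1.κ *ᵥ q.2.2.1.ρ) :=
      hκ.matrix_mulVec hρ
    have hw := continuous_cross hb (hρ.sub (((hr.pow 2).div_const 3).smul hkρ))
    have tr : Continuous (fun q : ℝ × (Fin 4 → ℝ) × Par => q.2.2.1.κ.trace) :=
      hκ.matrix_trace
    have ha : ∀ i, Continuous (fun q : ℝ × (Fin 4 → ℝ) × Par => (q.2.2.1.κ1 i).adjugate) :=
      fun i => (hκ1 i).matrix_adjugate
    unfold RVs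
    have d1 := (hDρ 0).dotProduct (hm 0)
    have d2 := (hDρ 1).dotProduct (hm 1)
    have d3 := hρ.dotProduct (hm 0)
    have d4 := hρ.dotProduct (hm 1)
    have d5 := continuous_bf (hκ2 0 0) (hm 0) (hm 0)
    have d6 := continuous_bf (hκ2 0 1) (hm 0) (hm 1)
    have d7 := continuous_bf (hκ2 1 0) (hm 1) (hm 0)
    have d8 := continuous_bf (hκ2 1 1) (hm 1) (hm 1)
    have d9 := hb.dotProduct hb
    have d10 := hρ.dotProduct hb
    have d11 := hρ.dotProduct hρ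
    have d12 := continuous_bf hκ hρ hρ
    have d13 := continuous_bf hκ (hDρ 0) (hm 0)
    have d14 := continuous_bf hκ (hDρ 1) (hm 1)
    have d15 := continuous_bf (hκ1 0) hρ (hm 0)
    have d16 := continuous_bf (hκ1 1) hρ (hm 1)
    have d17 := continuous_bf hκ hρ hb
    have d18 := continuous_bf (hκ1 0) (hm 0) hb
    have d19 := continuous_bf (hκ1 1) (hm 1) hb
    have d20 := continuous_bf hκ hb hb
    have d21 := continuous_bf hκ hρ (hm 0)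
    have d22 := continuous_bf hκ hρ (hm 1)
    have d23 := continuous_bf (hκ1 0) ((hm 1).neg) hw
    have d24 := continuous_bf (hκ1 1) (hm 0) hw
    have d25 := continuous_bf (ha 0) hb hb
    have d26 := continuous_bf (ha 1) hb hb
    fun_prop
  unfold Phi
  have e1 := continuous_bf hS hg hg
  have a1 := hkx.matrix_mulVec hf
  have a2 := hkx'.matrix_mulVec hf'
  have a3 := continuous_cross hkf' hf'
  have a4 := continuous_cross hkf hf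
  have e2 := continuous_bf hS a1 a2
  have e3 := continuous_bf hS a1 a3
  have e4 := continuous_bf hS a4 a2
  have e5 := continuous_bf hS a4 a3
  have z0 := hz 0
  have z1 := hz 1
  have z2 := hz 2
  have z3 := hz 3
  fun_prop

/-! ### frames -/

/-- Pairs of orthonormal frames. -/
def Frames : Set (V2 × V2 × V3 × V3) :=
  {q | q.1 ⬝ᵥ q.1 = 1 ∧ q.2.1 ⬝ᵥ q.2.1 = 1 ∧ q.1 ⬝ᵥ q.2.1 = 0 ∧
    q.2.2.1 ⬝ᵥ q.2.2.1 = 1 ∧ q.2.2.2 ⬝ᵥ q.2.2.2 = 1 ∧ q.2.2.1 ⬝ᵥ q.2.2.2 = 0}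

theorem norm_le_one_of_dot {n : ℕ} {u : Fin n → ℝ} (h : u ⬝ᵥ u = 1) : ‖u‖ ≤ 1 := by
  refine (pi_norm_le_iff_of_nonneg zero_le_one).2 (fun i => ?_)
  rw [Real.norm_eq_abs]
  have h1 : u i * u i ≤ u ⬝ᵥ u :=
    Finset.single_le_sum (f := fun i => u i * u i) (fun j _ => mul_self_nonneg _)
      (Finset.mem_univ i)
  rw [h] at h1
  exact abs_le_one_iff_mul_self_le_one.2 h1

theorem isCompact_Frames : IsCompact Frames := by
  refine Metric.isCompact_of_isClosed_isBounded ?_ ?_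
  · have c1 : Continuous (fun q : V2 × V2 × V3 × V3 => q.1) := by fun_prop
    have c2 : Continuous (fun q : V2 × V2 × V3 × V3 => q.2.1) := by fun_prop
    have c3 : Continuous (fun q : V2 × V2 × V3 × V3 => q.2.2.1) := by fun_prop
    have c4 : Continuous (fun q : V2 × V2 × V3 × V3 => q.2.2.2) := by fun_prop
    refine (isClosed_eq (c1.dotProduct c1) continuous_const).inter ?_
    refine (isClosed_eq (c2.dotProduct c2) continuous_const).inter ?_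
    refine (isClosed_eq (c1.dotProduct c2) continuous_const).inter ?_
    refine (isClosed_eq (c3.dotProduct c3) continuous_const).inter ?_
    refine (isClosed_eq (c4.dotProduct c4) continuous_const).inter ?_
    exact isClosed_eq (c3.dotProduct c4) continuous_const
  · refine (Metric.isBounded_closedBall (x := (0 : V2 × V2 × V3 × V3)) (r := 1)).subset ?_
    rintro ⟨e, e', f, f'⟩ ⟨h1, h2, _, h3, h4, _⟩
    simp only at h1 h2 h3 h4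
    rw [mem_closedBall_zero_iff]
    simp only [Prod.norm_mk, sup_le_iff]
    exact ⟨norm_le_one_of_dot h1, norm_le_one_of_dot h2, norm_le_one_of_dot h3,
      norm_le_one_of_dot h4⟩

/-- The constraint `z₁ z₂ = r³ z₀ z₃`. -/
def Cst : Set (ℝ × (Fin 4 → ℝ) × Par) := {q | q.2.1 1 * q.2.1 2 = q.1 ^ 3 * (q.2.1 0 * q.2.1 3)}

theorem isClosed_Cst : IsClosed Cst := by
  refine isClosed_eq ?_ ?_ <;> fun_prop

theorem al_sq {e e' : V2} (h1 : e ⬝ᵥ e = 1) (h2 : e' ⬝ᵥ e' = 1) (h3 : e ⬝ᵥ e' = 0) :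
    al e e' ^ 2 = 1 := by
  simp only [dotProduct, Fin.sum_univ_two] at h1 h2 h3
  have : al e e' ^ 2 = (e 0 * e 0 + e 1 * e 1) * (e' 0 * e' 0 + e' 1 * e' 1)
      - (e 0 * e' 0 + e 1 * e' 1) ^ 2 := by unfold al; ring
  rw [this, h1, h2, h3]; norm_num

theorem cross_sq {f f' : V3} (h1 : f ⬝ᵥ f = 1) (h2 : f' ⬝ᵥ f' = 1) (h3 : f ⬝ᵥ f' = 0) :
    (f ⨯₃ f') ⬝ᵥ (f ⨯₃ f') = 1 := by
  rw [cross_dot_cross, h1, h2, h3, dotProduct_comm f' f, h3]; norm_num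

/-- positivity of a `2 × 2` form with negative discriminant -/
theorem quad_pos {K b c x y : ℝ} (hK : 0 < K) (hd : b ^ 2 < K * c) (h : x ≠ 0 ∨ y ≠ 0) :
    0 < K * x ^ 2 - x * y * b + 1 / 4 * (y ^ 2 * c) := by
  have h1 : K * (K * x ^ 2 - x * y * b + 1 / 4 * (y ^ 2 * c))
      = (K * x - 1 / 2 * y * b) ^ 2 + 1 / 4 * y ^ 2 * (K * c - b ^ 2) := by ring
  have h2 : 0 < (K * x - 1 / 2 * y * b) ^ 2 + 1 / 4 * y ^ 2 * (K * c - b ^ 2) := by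
    rcases eq_or_ne y 0 with hy | hy
    · subst hy
      have hx : x ≠ 0 := by simpa using h
      have : 0 < (K * x) ^ 2 := by positivity
      simpa using this
    · have h3 : 0 < 1 / 4 * y ^ 2 * (K * c - b ^ 2) := by
        have : 0 < y ^ 2 := by positivity
        have : 0 < K * c - b ^ 2 := by linarith
        positivity
      have h4 : 0 ≤ (K * x - 1 / 2 * y * b) ^ 2 := sq_nonneg _
      linarith
  rw [← h1] at h2
  exact (mul_pos_iff_of_pos_left hK).1 h2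

theorem bf_smul_smul (A : M33) (a b : ℝ) (n : V3) :
    bf A (a • n) (b • n) = a * b * bf A n n := by
  rw [bf_smul_left, bf_smul_right]; ring

/-- the form at `r = 0` on a rank one `m` -/
theorem lim_pos (D : PD) (hD : GPos D) {v : V2} {n b : V3} {x y w : ℝ} {ε : ℝ} (hε : ε ^ 2 = 1)
    (hv : v ⬝ᵥ v = 1) (hn : n ⬝ᵥ n = 1) (hb : b ⬝ᵥ b = 1) (h : x ≠ 0 ∨ y ≠ 0 ∨ w ≠ 0) :
    0 < RVs 0 D (x * ε) (fun i => (y * v i) • n) (w • b) := by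
  obtain ⟨hK, hG⟩ := hD
  have hG' := hG v n hv hn
  simp only [Fin.sum_univ_two] at hG'
  have key : RVs 0 D (x * ε) (fun i => (y * v i) • n) (w • b)
      = D.K * (x * ε) ^ 2 - (x * ε) * y * (v 0 * (D.Dρ 0 ⬝ᵥ n) + v 1 * (D.Dρ 1 ⬝ᵥ n))
        + 1 / 4 * (y ^ 2 * ((D.ρ ⬝ᵥ n) ^ 2 + 2 / 3 *
          (v 0 * v 0 * bf (D.κ2 0 0) n n + v 0 * v 1 * bf (D.κ2 0 1) n n
            + (v 1 * v 0 * bf (D.κ2 1 0) n n + v 1 * v 1 * bf (D.κ2 1 1) n n))))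
        + 1 / 4 * w ^ 2 := by
    have hvv : v 0 * v 0 + v 1 * v 1 = 1 := by
      simpa [dotProduct, Fin.sum_univ_two] using hv
    unfold RVs
    simp only [bf_smul_smul, dotProduct_smul, smul_dotProduct, hb, smul_eq_mul]
    have : (D.ρ ⬝ᵥ n) ^ 2 = (v 0 * v 0 + v 1 * v 1) * (D.ρ ⬝ᵥ n) ^ 2 := by rw [hvv]; ring
    linear_combination (1 / 4) * y ^ 2 * (D.ρ ⬝ᵥ n) ^ 2 * hvv
  rw [key]
  by_cases hxy : x * ε ≠ 0 ∨ y ≠ 0
  · have h1 := quad_pos (x := x * ε) (y := y) hK hG' hxy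
    have h2 : 0 ≤ 1 / 4 * w ^ 2 := by positivity
    linarith
  · push Not at hxy
    have hε0 : ε ≠ 0 := by
      rintro rfl
      norm_num at hε
    have hx : x = 0 := by
      rcases mul_eq_zero.1 hxy.1 with h1 | h1
      · exact h1
      · exact absurd h1 hε0
    have hw : w ≠ 0 := by
      rcases h with h1 | h1 | h1
      · exact absurd hx h1
      · exact absurd hxy.2 h1
      · exact h1
    rw [hxy.1, hxy.2]
    have : 0 < w ^ 2 := by positivity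
    linarith

/-- **Block M3.**  If `G > 0` on a compact set of data then for all small `r` the scaled form is
positive on the constraint set, for all frames and all matrices `S` in a compact set. -/
theorem Phi_pos {𝒦 : Set PD} (h𝒦 : IsCompact 𝒦) {𝒮 : Set M33} (h𝒮 : IsCompact 𝒮)
    (hG : ∀ D ∈ 𝒦, GPos D) {r0 : ℝ} (hr0 : 0 < r0) :
    ∃ r1 : ℝ, 0 < r1 ∧ r1 ≤ r0 ∧ ∀ r ∈ Icc (0 : ℝ) r1, ∀ p ∈ 𝒦 ×ˢ 𝒮 ×ˢ Frames,
      ∀ z : Fin 4 → ℝ, (r, z, p) ∈ Cst → z ≠ 0 → 0 < Phi r z p := by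
  have hK : IsCompact (𝒦 ×ˢ 𝒮 ×ˢ Frames) := h𝒦.prod (h𝒮.prod isCompact_Frames)
  refine compact_pos hK hr0 Phi Cst isClosed_Cst continuous_Phi.continuousOn
    (fun r _ p _ t z => Phi_smul r t z p) ?_ ?_
  · intro r _ p _ t z h
    simp only [Cst, mem_ofPred_eq, Pi.smul_apply, smul_eq_mul] at h ⊢
    linear_combination t ^ 2 * h
  · rintro ⟨D, S, e, e', f, f'⟩ ⟨hD, _, he, he', hee', hf, hf', hff'⟩ z hz hz0
    simp only at hD he he' hee' hf hf' hff'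
    have hal := al_sq he he' hee'
    have hcr := cross_sq hf hf' hff'
    have hzz : z 1 * z 2 = 0 := by
      have : z 1 * z 2 = (0 : ℝ) ^ 3 * (z 0 * z 3) := hz
      simpa using this
    have hPhi : Phi 0 z (D, S, e, e', f, f') = RVs 0 D (z 0 * al e e')
        (ms z (D, S, e, e', f, f')) (z 3 • (f ⨯₃ f')) := by
      unfold Phi
      have : gs 0 z (D, S, e, e', f, f') = 0 := by simp [gs]
      rw [this]
      simp [bf]
    rw [hPhi]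
    rcases mul_eq_zero.1 hzz with h1 | h1
    · have hms : ms z (D, S, e, e', f, f') = fun i => (-z 2 * e' i) • f := by
        funext i
        simp [ms, h1]
      rw [hms]
      refine lim_pos D (hG D hD) hal he' hf hcr ?_
      by_contra hcon
      push Not at hcon
      apply hz0
      funext i
      fin_cases i
      · exact hcon.1
      · exact h1
      · simpa using hcon.2.1
      · exact hcon.2.2
    · have hms : ms z (D, S, e, e', f, f') = fun i => (z 1 * e i) • f' := by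
        funext i
        simp [ms, h1]
      rw [hms]
      refine lim_pos D (hG D hD) hal he hf' hcr ?_
      by_contra hcon
      push Not at hcon
      apply hz0
      funext i
      fin_cases i
      · exact hcon.1
      · exact hcon.2.1
      · exact h1
      · exact hcon.2.2

/-- **Block M3**, final form: for all small `r > 0` the matrix `1 - (r²/3) κ` is invertible and
positive definite and the curvature form `RP` is positive on all normal form pairs. -/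
theorem RP_pos_aux {𝒦 : Set PD} (h𝒦 : IsCompact 𝒦) {𝒮 : Set M33} (h𝒮 : IsCompact 𝒮)
    (hG : ∀ D ∈ 𝒦, GPos D) {r0 : ℝ} (hr0 : 0 < r0) :
    ∃ r1 : ℝ, 0 < r1 ∧ r1 ≤ r0 ∧ ∀ r : ℝ, 0 < r → r ≤ r1 → ∀ D ∈ 𝒦, ∀ S ∈ 𝒮,
      ∀ (e e' : V2) (f f' : V3), (e, e', f, f') ∈ Frames → ∀ s t p q : ℝ,
      (s * t ≠ 0 ∨ s * q ≠ 0 ∨ t * p ≠ 0 ∨ p * q ≠ 0) →
      0 < RP r D S (s • e) (p • f) (t • e') (q • f') := by
  obtain ⟨r1, hr1, hr10, h⟩ := Phi_pos h𝒦 h𝒮 hG hr0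
  refine ⟨r1, hr1, hr10, fun r hr hrr D hD S hS e e' f f' hF s t p q hne => ?_⟩
  rw [RP_normal]
  refine h r ⟨hr.le, hrr⟩ (D, S, e, e', f, f') ⟨hD, hS, hF⟩ _ ?_ ?_
  · simp only [Cst, mem_ofPred_eq]
    simp
    ring
  · intro h0
    have k0 := congrFun h0 0
    have k1 := congrFun h0 1
    have k2 := congrFun h0 2
    have k3 := congrFun h0 3
    simp [hr.ne'] at k0 k1 k2 k3
    rcases hne with h1 | h1 | h1 | h1
    · exact h1 (by rcases k0 with h | h <;> simp [h])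
    · exact h1 (by rcases k1 with h | h <;> simp [h])
    · exact h1 (by rcases k2 with h | h <;> simp [h])
    · exact h1 (by rcases k3 with h | h <;> simp [h])

/-- invertibility and positivity of `1 - (r²/3) κ` for small `r`, uniformly on compact sets -/
theorem exists_inv_compact {𝒦 : Set PD} (h𝒦 : IsCompact 𝒦) :
    ∃ r0 : ℝ, 0 < r0 ∧ ∃ 𝒮 : Set M33, IsCompact 𝒮 ∧ ∀ r : ℝ, 0 ≤ r → r ≤ r0 → ∀ D ∈ 𝒦,
      ∃ S ∈ 𝒮, (1 - (r ^ 2 / 3) • D.κ) * S = 1 ∧ S * (1 - (r ^ 2 / 3) • D.κ) = 1 := by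
  have hκ : Continuous (fun q : ℝ × PD => (1 : M33) - (q.1 ^ 2 / 3) • q.2.κ) := by
    unfold PD.κ; fun_prop
  have hdet : Continuous (fun q : ℝ × PD => ((1 : M33) - (q.1 ^ 2 / 3) • q.2.κ).det) :=
    hκ.matrix_det
  obtain ⟨r0, hr0, _, c, hc, h⟩ := compact_pos_family (P := PD) h𝒦 (d0 := 1) one_pos
    (fun r D => ((1 : M33) - (r ^ 2 / 3) • D.κ).det) hdet.continuousOn
    (fun D _ => by simp)
  refine ⟨r0, hr0, (fun q : ℝ × PD => (((1 : M33) - (q.1 ^ 2 / 3) • q.2.κ).det)⁻¹ •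
    ((1 : M33) - (q.1 ^ 2 / 3) • q.2.κ).adjugate) '' (Icc 0 r0 ×ˢ 𝒦), ?_, ?_⟩
  · refine (isCompact_Icc.prod h𝒦).image_of_continuousOn ?_
    refine ContinuousOn.smul (hdet.continuousOn.inv₀ ?_) hκ.matrix_adjugate.continuousOn
    rintro ⟨r, D⟩ ⟨hr, hD⟩
    have := h r hr D hD
    simp only
    exact (hc.trans_le this).ne'
  · intro r hr hrr D hD
    have hpos := h r ⟨hr, hrr⟩ D hD
    have hne : ((1 : M33) - (r ^ 2 / 3) • D.κ).det ≠ 0 := (hc.trans_le hpos).ne'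
    refine ⟨_, ⟨(r, D), ⟨⟨hr, hrr⟩, hD⟩, rfl⟩, ?_, ?_⟩
    · simp only
      rw [Matrix.mul_smul, Matrix.mul_adjugate, smul_smul, inv_mul_cancel₀ hne, one_smul]
    · simp only
      rw [Matrix.smul_mul, Matrix.adjugate_mul, smul_smul, inv_mul_cancel₀ hne, one_smul]

/-- positivity of `1 - (r²/3) κ` for small `r`, uniformly on compact sets -/
theorem exists_posdef {𝒦 : Set PD} (h𝒦 : IsCompact 𝒦) :
    ∃ r0 : ℝ, 0 < r0 ∧ ∀ r : ℝ, 0 ≤ r → r ≤ r0 → ∀ D ∈ 𝒦, ∀ u : V3, u ≠ 0 →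
      0 < bf (1 - (r ^ 2 / 3) • D.κ) u u := by
  have hκ : Continuous (fun q : ℝ × V3 × PD => (1 : M33) - (q.1 ^ 2 / 3) • q.2.2.κ) := by
    unfold PD.κ; fun_prop
  have hu : Continuous (fun q : ℝ × V3 × PD => q.2.1) := by fun_prop
  obtain ⟨r1, hr1, _, h⟩ := compact_pos (Z := V3) h𝒦 (r0 := 1) one_pos
    (fun r u D => bf (1 - (r ^ 2 / 3) • D.κ) u u) univ isClosed_univ
    (continuous_bf hκ hu hu).continuousOn
    (fun r _ D _ t z => by rw [bf_smul_left, bf_smul_right]; ring)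
    (fun _ _ _ _ _ _ _ => mem_univ _)
    (fun D _ z _ hz => by
      simp only [bf]
      simp only [ne_eq, OfNat.ofNat_ne_zero, not_false_eq_true, zero_pow, zero_div, zero_smul,
        sub_zero, one_mulVec]
      have h1 : 0 ≤ z ⬝ᵥ z := Finset.sum_nonneg (fun i _ => mul_self_nonneg _)
      rcases h1.lt_or_eq with h2 | h2
      · exact h2
      · exact absurd (dotProduct_self_eq_zero.1 h2.symm) hz)
  exact ⟨r1, hr1, fun r hr hrr D hD u hu => h r ⟨hr, hrr⟩ D hD u (mem_univ _) hu⟩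

/-- **Block M3**, all in one. -/
theorem RP_pos {𝒦 : Set PD} (h𝒦 : IsCompact 𝒦) (hG : ∀ D ∈ 𝒦, GPos D) :
    ∃ r1 : ℝ, 0 < r1 ∧ ∀ r : ℝ, 0 < r → r ≤ r1 → ∀ D ∈ 𝒦,
      (∀ u : V3, u ≠ 0 → 0 < bf (1 - (r ^ 2 / 3) • D.κ) u u) ∧
      ∀ S : M33, (1 - (r ^ 2 / 3) • D.κ) * S = 1 →
      ∀ (e e' : V2) (f f' : V3), (e, e', f, f') ∈ Frames → ∀ s t p q : ℝ,
      (s * t ≠ 0 ∨ s * q ≠ 0 ∨ t * p ≠ 0 ∨ p * q ≠ 0) →
      0 < RP r D S (s • e) (p • f) (t • e') (q • f') := by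
  obtain ⟨r0, hr0, 𝒮, h𝒮, hS⟩ := exists_inv_compact h𝒦
  obtain ⟨r2, hr2, hpd⟩ := exists_posdef h𝒦
  obtain ⟨r1, hr1, hr10, h⟩ := RP_pos_aux h𝒦 h𝒮 hG hr0
  refine ⟨min r1 r2, lt_min hr1 hr2, fun r hr hrr D hD => ⟨?_, ?_⟩⟩
  · exact hpd r hr.le (hrr.trans (min_le_right _ _)) D hD
  · intro S hS1 e e' f f' hF s t p q hne
    have hrr1 : r ≤ r1 := hrr.trans (min_le_left _ _)
    obtain ⟨S', hS', h1, h2⟩ := hS r hr.le (hrr1.trans hr10) D hD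
    have : S = S' := by
      calc S = (S' * (1 - (r ^ 2 / 3) • D.κ)) * S := by rw [h2, Matrix.one_mul]
        _ = S' * ((1 - (r ^ 2 / 3) • D.κ) * S) := by rw [Matrix.mul_assoc]
        _ = S' := by rw [hS1, Matrix.mul_one]
    rw [this]
    exact h r hr hrr1 D hD S' hS' e e' f f' hF s t p q hne

end Pool.Agent.HS

end

section

/-!
# Block M2, algebra: from the jets of the metric to `RP`

`DD` is the value of `D2 G (0,0)` for `G = GP h A (qk r κ)` in an adapted chart, `gE` and `gF` are the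
components of the Christoffel covector.
-/

namespace Pool.Agent.HS.M2b

open Matrix Pool.Agent.HS

/-- `Σ_e x_e M_e` -/
def m1 (M : Fin 2 → M33) (x : V2) : M33 := x 0 • M 0 + x 1 • M 1

/-- `Σ_{e,f} x_e y_f M_ef` -/
def m2 (M : Fin 2 → Fin 2 → M33) (x y : V2) : M33 :=
  (x 0 * y 0) • M 0 0 + (x 0 * y 1) • M 0 1 + (x 1 * y 0) • M 1 0 + (x 1 * y 1) • M 1 1

/-- the derivative of `U` at `0` -/
noncomputable def U1 (ρ : V3) (x : V2) (ξ : V3) (y : V2) (η : V3) : V3 :=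
  (1 / 2 : ℝ) • (ξ ⨯₃ η + al x y • ρ)

/-- the second derivative of `U` at `0` -/
noncomputable def U2 (B : V2 → V2 → V2 → V3) (x : V2) (ξ : V3) (x' : V2) (ξ' : V3) (y : V2) (η : V3) :
    V3 := -(1 / 2 * (ξ ⬝ᵥ ξ')) • η + B x x' y

/-- the value of `D2 G (0,0) (x,ξ) (x',ξ') (y,η) (y',η')` -/
noncomputable def DD (h2 : V2 → V2 → V2 → V2 → ℝ) (ρ : V3) (B : V2 → V2 → V2 → V3) (Q : M33)
    (Q1 : Fin 2 → M33) (Q2 : Fin 2 → Fin 2 → M33) (x : V2) (ξ : V3) (x' : V2) (ξ' : V3) (y : V2)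
    (η : V3) (y' : V2) (η' : V3) : ℝ :=
  h2 x x' y y' + bf (m2 Q2 x x') η η'
    + bf (m1 Q1 x) (U1 ρ x' ξ' y η) η' + bf (m1 Q1 x) η (U1 ρ x' ξ' y' η')
    + bf (m1 Q1 x') (U1 ρ x ξ y η) η' + bf (m1 Q1 x') η (U1 ρ x ξ y' η')
    + bf Q (U1 ρ x ξ y η) (U1 ρ x' ξ' y' η') + bf Q (U1 ρ x' ξ' y η) (U1 ρ x ξ y' η')
    + bf Q (U2 B x ξ x' ξ' y η) η' + bf Q η (U2 B x ξ x' ξ' y' η')

/-- the horizontal components of the Christoffel covector -/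
noncomputable def gE (ρ : V3) (Q : M33) (Q1 : Fin 2 → M33) (x : V2) (ξ : V3) (y : V2) (η : V3)
    (e : Fin 2) : ℝ :=
  1 / 2 * (bf Q (al x (Pi.single e 1) • ρ) η + bf Q (al y (Pi.single e 1) • ρ) ξ - bf (Q1 e) ξ η)

/-- the vertical component of the Christoffel covector -/
noncomputable def gF (Q : M33) (Q1 : Fin 2 → M33) (x : V2) (ξ : V3) (y : V2) (η : V3) : V3 :=
  (1 / 2 : ℝ) • (m1 Q1 x *ᵥ η + m1 Q1 y *ᵥ ξ + (Q *ᵥ η) ⨯₃ ξ + (Q *ᵥ ξ) ⨯₃ η)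

/-- the curvature form in terms of the jets -/
noncomputable def RJ (h2 : V2 → V2 → V2 → V2 → ℝ) (ρ : V3) (B : V2 → V2 → V2 → V3) (Q : M33)
    (Q1 : Fin 2 → M33) (Q2 : Fin 2 → Fin 2 → M33) (Qi : M33) (x : V2) (ξ : V3) (y : V2) (η : V3) : ℝ :=
  -(1 / 2) * (DD h2 ρ B Q Q1 Q2 x ξ x ξ y η y η + DD h2 ρ B Q Q1 Q2 y η y η x ξ x ξ
      - 2 * DD h2 ρ B Q Q1 Q2 x ξ y η x ξ y η)
    + ((gE ρ Q Q1 x ξ y η 0 * gE ρ Q Q1 x ξ y η 0 + gE ρ Q Q1 x ξ y η 1 * gE ρ Q Q1 x ξ y η 1)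
      + bf Qi (gF Q Q1 x ξ y η) (gF Q Q1 x ξ y η))
    - ((gE ρ Q Q1 x ξ x ξ 0 * gE ρ Q Q1 y η y η 0 + gE ρ Q Q1 x ξ x ξ 1 * gE ρ Q Q1 y η y η 1)
      + bf Qi (gF Q Q1 x ξ x ξ) (gF Q Q1 y η y η))

/-! ### bilinear algebra -/

theorem bf_add_mat (A A' : M33) (u v : V3) : bf (A + A') u v = bf A u v + bf A' u v := by
  rw [bf, add_mulVec, dotProduct_add]; rfl

theorem bf_smul_mat (c : ℝ) (A : M33) (u v : V3) : bf (c • A) u v = c * bf A u v := by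
  rw [bf, smul_mulVec, dotProduct_smul]; rfl

theorem bf_neg_right (A : M33) (u v : V3) : bf A u (-v) = - bf A u v := by
  rw [bf, mulVec_neg, dotProduct_neg]; rfl

theorem bf_zero_left (A : M33) (v : V3) : bf A 0 v = 0 := by
  rw [bf, zero_dotProduct]

theorem bf_zero_right (A : M33) (v : V3) : bf A v 0 = 0 := by
  rw [bf, mulVec_zero, dotProduct_zero]

theorem bf_comm_of_symm {A : M33} (h : A.IsSymm) (u v : V3) : bf A u v = bf A v u := by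
  unfold bf
  rw [dotProduct_mulVec, ← mulVec_transpose, h, dotProduct_comm]

theorem m1_symm {M : Fin 2 → M33} (h : ∀ e, (M e).IsSymm) (x : V2) : (m1 M x).IsSymm := by
  unfold m1
  exact ((h 0).smul _).add ((h 1).smul _)

theorem U1_self (ρ : V3) (x : V2) (ξ : V3) : U1 ρ x ξ x ξ = 0 := by
  have h1 : ξ ⨯₃ ξ = 0 := cross_self ξ
  have h2 : al x x = 0 := by unfold al; ring
  rw [U1, h1, h2, zero_smul, add_zero, smul_zero]

theorem U1_swap (ρ : V3) (x : V2) (ξ : V3) (y : V2) (η : V3) : U1 ρ y η x ξ = - U1 ρ x ξ y η := by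
  have h1 : η ⨯₃ ξ = - (ξ ⨯₃ η) := (cross_anticomm ξ η).symm
  have h2 : al y x = - al x y := by unfold al; ring
  rw [U1, U1, h1, h2, neg_smul, ← neg_add, smul_neg]

/-- the second derivative part -/
theorem DD_part {h2 : V2 → V2 → V2 → V2 → ℝ} {D : PD} {B : V2 → V2 → V2 → V3} {Q : M33}
    {Q1 : Fin 2 → M33} {Q2 : Fin 2 → Fin 2 → M33} (hQ : Q.IsSymm) (hQ1 : ∀ e, (Q1 e).IsSymm)
    (hK : ∀ x y, -(1 / 2) * (h2 x x y y + h2 y y x x - 2 * h2 x y x y) = D.K * al x y ^ 2)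
    (hB : ∀ x y, B x y = B y x)
    (hBD : ∀ w x y, B w x y - B w y x = al x y • (w 0 • D.Dρ 0 + w 1 • D.Dρ 1))
    (x : V2) (ξ : V3) (y : V2) (η : V3) :
    -(1 / 2) * (DD h2 D.ρ B Q Q1 Q2 x ξ x ξ y η y η + DD h2 D.ρ B Q Q1 Q2 y η y η x ξ x ξ
      - 2 * DD h2 D.ρ B Q Q1 Q2 x ξ y η x ξ y η) =
    D.K * al x y ^ 2 - 1 / 2 * (bf (m2 Q2 x x) η η + bf (m2 Q2 y y) ξ ξ - 2 * bf (m2 Q2 x y) ξ η)
      - 3 * bf (m1 Q1 x) (U1 D.ρ x ξ y η) η + 3 * bf (m1 Q1 y) (U1 D.ρ x ξ y η) ξ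
      - 3 * bf Q (U1 D.ρ x ξ y η) (U1 D.ρ x ξ y η)
      + 1 / 2 * ((ξ ⬝ᵥ ξ) * bf Q η η + (η ⬝ᵥ η) * bf Q ξ ξ - 2 * (ξ ⬝ᵥ η) * bf Q ξ η)
      - al x y * (x 0 * bf Q (D.Dρ 0) η + x 1 * bf Q (D.Dρ 1) η
        - y 0 * bf Q (D.Dρ 0) ξ - y 1 * bf Q (D.Dρ 1) ξ) := by
  have e1 : B x x y = B x y x + al x y • (x 0 • D.Dρ 0 + x 1 • D.Dρ 1) := by
    rw [← hBD x x y]; abel
  have e2 : B y y x = B x y y - al x y • (y 0 • D.Dρ 0 + y 1 • D.Dρ 1) := by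
    rw [← hBD y x y, hB x y]; abel
  have s := bf_comm_of_symm hQ
  have s1 := bf_comm_of_symm (m1_symm hQ1 x)
  have s2 := bf_comm_of_symm (m1_symm hQ1 y)
  obtain ⟨W, hW⟩ : ∃ W, W = U1 D.ρ x ξ y η := ⟨_, rfl⟩
  have hW' : U1 D.ρ y η x ξ = -W := by rw [U1_swap, hW]
  have hk := hK x y
  unfold DD U2
  rw [U1_self, U1_self, hW', ← hW, e1, e2]
  simp only [bf_zero_left, bf_zero_right, bf_neg_left, bf_neg_right, bf_add_left, bf_add_right,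
    bf_smul_left, bf_smul_right, sub_eq_add_neg]
  rw [s1 η W, s2 ξ W, s η (B x y x), s ξ (B x y y), s η (D.Dρ 0), s η (D.Dρ 1),
    s ξ (D.Dρ 0), s ξ (D.Dρ 1)]
  linear_combination hk

/-- `ρ' × (ξ × η) = (ρ' · η) ξ - (ρ' · ξ) η` -/
theorem bac_cab (a ξ η : V3) : a ⨯₃ (ξ ⨯₃ η) = (a ⬝ᵥ η) • ξ - (a ⬝ᵥ ξ) • η := by
  simp_rw [cross_apply, vec3_dotProduct]
  ext i
  fin_cases i <;> simp <;> ring

/-- the determinant of `M` on the plane of `ξ, η` -/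
theorem bf_adj {M : M33} (hM : M.IsSymm) (ξ η : V3) :
    bf M ξ ξ * bf M η η - bf M ξ η * bf M ξ η = bf M.adjugate (ξ ⨯₃ η) (ξ ⨯₃ η) := by
  have h1 : M 1 0 = M 0 1 := hM.apply 0 1
  have h2 : M 2 0 = M 0 2 := hM.apply 0 2
  have h3 : M 2 1 = M 1 2 := hM.apply 1 2
  rw [adjugate_fin_three]
  simp only [bf, dotProduct, mulVec, Fin.sum_univ_three, cross_apply, Matrix.of_apply,
    Matrix.cons_val', Matrix.cons_val_zero, Matrix.cons_val_one, Matrix.cons_val, h1, h2, h3]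
  ring

/-- the trace identity -/
theorem bf_trace {M : M33} (hM : M.IsSymm) (ξ η : V3) :
    (ξ ⬝ᵥ ξ) * bf M η η + (η ⬝ᵥ η) * bf M ξ ξ - 2 * (ξ ⬝ᵥ η) * bf M ξ η =
      M.trace * ((ξ ⨯₃ η) ⬝ᵥ (ξ ⨯₃ η)) - bf M (ξ ⨯₃ η) (ξ ⨯₃ η) := by
  have h1 : M 1 0 = M 0 1 := hM.apply 0 1
  have h2 : M 2 0 = M 0 2 := hM.apply 0 2
  have h3 : M 2 1 = M 1 2 := hM.apply 1 2
  simp only [bf, dotProduct, mulVec, Fin.sum_univ_three, cross_apply, Matrix.trace, Matrix.diag,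
    Matrix.cons_val_zero, Matrix.cons_val_one, Matrix.cons_val, h1, h2, h3]
  ring

theorem al_single_zero (x : V2) : al x (Pi.single 0 1) = - x 1 := by
  simp [al]

theorem al_single_one (x : V2) : al x (Pi.single 1 1) = x 0 := by
  simp [al]

/-- the cross terms of the Christoffel part: `Q_e(ρ' × z, η) = P q - R s` -/
theorem bf_cross_right (M : M33) (a ξ η v : V3) :
    bf M (a ⨯₃ (ξ ⨯₃ η)) v = (a ⬝ᵥ η) * bf M ξ v - (a ⬝ᵥ ξ) * bf M η v := by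
  rw [bac_cab, sub_eq_add_neg, bf_add_left, bf_neg_left, bf_smul_left, bf_smul_left]
  ring

/-- the horizontal Christoffel part -/
theorem gE_part {Q : M33} (hQ : Q.IsSymm) {Q1 : Fin 2 → M33} (hQ1 : ∀ e, (Q1 e).IsSymm) (ρ : V3)
    (x : V2) (ξ : V3) (y : V2) (η : V3) :
    (gE ρ Q Q1 x ξ y η 0 * gE ρ Q Q1 x ξ y η 0 + gE ρ Q Q1 x ξ y η 1 * gE ρ Q Q1 x ξ y η 1)
      - (gE ρ Q Q1 x ξ x ξ 0 * gE ρ Q Q1 y η y η 0 + gE ρ Q Q1 x ξ x ξ 1 * gE ρ Q Q1 y η y η 1) =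
    1 / 4 * ((bf Q ρ (mm x ξ y η 0)) ^ 2 + (bf Q ρ (mm x ξ y η 1)) ^ 2)
      + 1 / 2 * (bf (Q1 0) (-(mm x ξ y η 1)) ((ξ ⨯₃ η) ⨯₃ (Q *ᵥ ρ))
        + bf (Q1 1) (mm x ξ y η 0) ((ξ ⨯₃ η) ⨯₃ (Q *ᵥ ρ)))
      - 1 / 4 * (bf (Q1 0).adjugate (ξ ⨯₃ η) (ξ ⨯₃ η) + bf (Q1 1).adjugate (ξ ⨯₃ η) (ξ ⨯₃ η)) := by
  have hc : ∀ (e : Fin 2) (v : V3), bf (Q1 e) v ((ξ ⨯₃ η) ⨯₃ (Q *ᵥ ρ)) =
      (bf Q ρ ξ) * bf (Q1 e) η v - (bf Q ρ η) * bf (Q1 e) ξ v := by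
    intro e v
    rw [← cross_anticomm, bf_neg_right, bf_comm_of_symm (hQ1 e), bf_cross_right]
    have h1 : ∀ w, (Q *ᵥ ρ) ⬝ᵥ w = bf Q ρ w := fun w => by
      rw [bf_comm_of_symm hQ, bf, dotProduct_comm]
    rw [h1, h1]
    ring
  rw [← bf_adj (hQ1 0), ← bf_adj (hQ1 1), hc, hc]
  unfold gE mm
  rw [al_single_zero, al_single_zero, al_single_one, al_single_one]
  simp only [bf_neg_right, bf_add_right, bf_smul_left, bf_smul_right, sub_eq_add_neg]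
  rw [bf_comm_of_symm (hQ1 0) η ξ, bf_comm_of_symm (hQ1 1) η ξ]
  ring

/-- `Q = r² (1 - (r²/3) κ)` -/
noncomputable def Qr (r : ℝ) (D : PD) : M33 := (r ^ 2) • ((1 : M33) - (r ^ 2 / 3) • D.κ)

/-- `Q_e` -/
noncomputable def Qr1 (r : ℝ) (D : PD) (e : Fin 2) : M33 := (-(r ^ 4 / 3)) • D.κ1 e

/-- `Q_ef` -/
noncomputable def Qr2 (r : ℝ) (D : PD) (e f : Fin 2) : M33 := (-(r ^ 4 / 3)) • D.κ2 e f

theorem Qr_mulVec (r : ℝ) (D : PD) (v : V3) :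
    Qr r D *ᵥ v = (r ^ 2) • (v - (r ^ 2 / 3) • (D.κ *ᵥ v)) := by
  rw [Qr, smul_mulVec, sub_mulVec, one_mulVec, smul_mulVec]

theorem bf_Qr (r : ℝ) (D : PD) (u v : V3) :
    bf (Qr r D) u v = r ^ 2 * (u ⬝ᵥ v) - r ^ 4 / 3 * bf D.κ u v := by
  rw [bf, Qr_mulVec, dotProduct_smul, dotProduct_sub, dotProduct_smul, smul_eq_mul, smul_eq_mul]
  unfold bf
  ring

theorem m1_Qr1 (r : ℝ) (D : PD) (x : V2) : m1 (Qr1 r D) x = (-(r ^ 4 / 3)) • kx D x := by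
  unfold m1 Qr1 kx
  rw [smul_add, smul_comm (x 0), smul_comm (x 1)]

theorem gF_eq (r : ℝ) (D : PD) (x : V2) (ξ : V3) (y : V2) (η : V3) :
    gF (Qr r D) (Qr1 r D) x ξ y η = (-(r ^ 4 / 3)) • gt D x ξ y η := by
  have h1 : η ⨯₃ ξ = - (ξ ⨯₃ η) := (cross_anticomm ξ η).symm
  unfold gF gt
  rw [m1_Qr1, m1_Qr1, Qr_mulVec, Qr_mulVec, smul_mulVec, smul_mulVec]
  simp only [map_smul, map_sub, LinearMap.smul_apply, LinearMap.sub_apply, h1]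
  module

theorem Qr_symm (r : ℝ) {D : PD} (h : D.κ.IsSymm) : (Qr r D).IsSymm := by
  unfold Qr
  exact (isSymm_one.sub (h.smul _)).smul _

/-- **The algebra of block M2.** -/
theorem RJ_eq_RP {h2 : V2 → V2 → V2 → V2 → ℝ} {D : PD} {B : V2 → V2 → V2 → V3} {r : ℝ} (hr : r ≠ 0)
    (S : M33) (hκ : D.κ.IsSymm) (hκ1 : ∀ e, (D.κ1 e).IsSymm) (hκ2 : ∀ e f, (D.κ2 e f).IsSymm)
    (hκ2' : D.κ2 1 0 = D.κ2 0 1)
    (hK : ∀ x y, -(1 / 2) * (h2 x x y y + h2 y y x x - 2 * h2 x y x y) = D.K * al x y ^ 2)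
    (hB : ∀ x y, B x y = B y x)
    (hBD : ∀ w x y, B w x y - B w y x = al x y • (w 0 • D.Dρ 0 + w 1 • D.Dρ 1))
    (x : V2) (ξ : V3) (y : V2) (η : V3) :
    RJ h2 D.ρ B (Qr r D) (Qr1 r D) (Qr2 r D) ((r ^ 2)⁻¹ • S) x ξ y η = RP r D S x ξ y η := by
  have hQ := Qr_symm r hκ
  have hQ1 : ∀ e, (Qr1 r D e).IsSymm := fun e => (hκ1 e).smul _
  have p1 := DD_part (D := D) (Q2 := Qr2 r D) hQ hQ1 hK hB hBD x ξ y η
  have p2 := gE_part hQ hQ1 D.ρ x ξ y η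
  -- the `Q⁻¹` terms
  have p3 : ∀ u v : V3, bf ((r ^ 2)⁻¹ • S) ((-(r ^ 4 / 3)) • u) ((-(r ^ 4 / 3)) • v) =
      r ^ 6 / 9 * bf S u v := by
    intro u v
    rw [bf_smul_mat, bf_smul_left, bf_smul_right]
    field_simp
    ring
  have p4 : RJ h2 D.ρ B (Qr r D) (Qr1 r D) (Qr2 r D) ((r ^ 2)⁻¹ • S) x ξ y η =
      -(1 / 2) * (DD h2 D.ρ B (Qr r D) (Qr1 r D) (Qr2 r D) x ξ x ξ y η y η
        + DD h2 D.ρ B (Qr r D) (Qr1 r D) (Qr2 r D) y η y η x ξ x ξ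
        - 2 * DD h2 D.ρ B (Qr r D) (Qr1 r D) (Qr2 r D) x ξ y η x ξ y η)
      + ((gE D.ρ (Qr r D) (Qr1 r D) x ξ y η 0 * gE D.ρ (Qr r D) (Qr1 r D) x ξ y η 0
        + gE D.ρ (Qr r D) (Qr1 r D) x ξ y η 1 * gE D.ρ (Qr r D) (Qr1 r D) x ξ y η 1)
      - (gE D.ρ (Qr r D) (Qr1 r D) x ξ x ξ 0 * gE D.ρ (Qr r D) (Qr1 r D) y η y η 0
        + gE D.ρ (Qr r D) (Qr1 r D) x ξ x ξ 1 * gE D.ρ (Qr r D) (Qr1 r D) y η y η 1))
      + r ^ 6 / 9 * (bf S (gt D x ξ y η) (gt D x ξ y η) - bf S (gt D x ξ x ξ) (gt D y η y η)) := by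
    unfold RJ
    rw [gF_eq, gF_eq, gF_eq, p3, p3]
    ring
  rw [p4, p1, p2]
  unfold RP RV
  obtain ⟨z, hz⟩ : ∃ z, z = ξ ⨯₃ η := ⟨_, rfl⟩
  have p5 := bf_trace hκ ξ η
  have p6 : (ξ ⬝ᵥ ξ) * (η ⬝ᵥ η) - (ξ ⬝ᵥ η) * (ξ ⬝ᵥ η) = z ⬝ᵥ z := by
    rw [hz, cross_dot_cross, dotProduct_comm η ξ]
  rw [← hz] at p5
  have hU : U1 D.ρ x ξ y η = (1 / 2 : ℝ) • (z + al x y • D.ρ) := by rw [U1, hz]
  have a1 : ∀ e, (Qr1 r D e).adjugate = (r ^ 8 / 9) • (D.κ1 e).adjugate := by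
    intro e
    unfold Qr1
    rw [adjugate_smul, Fintype.card_fin]
    congr 1
    ring
  have a2 : Qr r D *ᵥ D.ρ = (r ^ 2) • (D.ρ - (r ^ 2 / 3) • (D.κ *ᵥ D.ρ)) := Qr_mulVec r D _
  have k1 := bf_comm_of_symm (hκ1 0)
  have k2 := bf_comm_of_symm (hκ1 1)
  rw [hU, ← hz, a1, a1, a2]
  obtain ⟨P, hP⟩ : ∃ P, P = D.ρ - (r ^ 2 / 3) • (D.κ *ᵥ D.ρ) := ⟨_, rfl⟩
  rw [← hP]
  have k3 : ∀ e f, bf (D.κ2 e f) η ξ = bf (D.κ2 e f) ξ η := fun e f => bf_comm_of_symm (hκ2 e f) η ξ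
  unfold mm m1 m2 Qr2 Qr1
  simp only [hκ2', bf_Qr, bf_add_mat, bf_smul_mat, bf_add_left, bf_add_right, bf_smul_left, bf_smul_right,
    bf_neg_left, bf_neg_right, sub_eq_add_neg, dotProduct_add, dotProduct_smul, dotProduct_neg,
    Fin.sum_univ_two, smul_eq_mul, map_smul]
  rw [k1 z η, k1 z ξ, k2 z η, k2 z ξ, k3 0 0, k3 0 1, k3 1 1, bf_comm_of_symm hκ z D.ρ, dotProduct_comm z D.ρ]
  linear_combination (r ^ 2) * p6 + (-(r ^ 4 / 6)) * p5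

end Pool.Agent.HS.M2b

end
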