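import Pool.Agent.H94.PT.HS.Pull
import Pool.Agent.H94.PT.M02

/-! The parts of this file: HS.Pull_1, HS.Pull_2. -/

section

set_option autoImplicit false
set_option maxSynthPendingDepth 3

/-!
# Transformation law of the coordinate curvature under local diffeomorphisms (project HS)

Main results: `D1_eq`, `D2_eq` (the derivatives of the coefficients of a metric as iterated
`fderiv`), `Rm_pull` (the curvature form is a tensor), `PosAt_pull`, `NonnegAt_pull`.
-/

namespace Pool.Agent.HS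

open Set Filter
open scoped ContDiff Topology

noncomputable section

variable {E : Type*} [NormedAddCommGroup E] [NormedSpace ℝ E]
  {F : Type*} [NormedAddCommGroup F] [NormedSpace ℝ F]

lemma fderiv_add3 {f1 f2 f3 : F → ℝ} {x : F} (h1 : DifferentiableAt ℝ f1 x)
    (h2 : DifferentiableAt ℝ f2 x) (h3 : DifferentiableAt ℝ f3 x) (d : F) :
    fderiv ℝ (fun y => f1 y + f2 y + f3 y) x d =
      fderiv ℝ f1 x d + fderiv ℝ f2 x d + fderiv ℝ f3 x d := by
  have h : HasFDerivAt (fun y => f1 y + f2 y + f3 y) (fderiv ℝ f1 x + fderiv ℝ f2 x + fderiv ℝ f3 x) x :=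
    (h1.hasFDerivAt.add h2.hasFDerivAt).add h3.hasFDerivAt
  rw [h.fderiv]
  rfl

/-! ### Comparison with the definitions of `Pool.Agent.HS.Defs` -/

/-- The pull-back of a nondegenerate form by an invertible map is nondegenerate. -/
lemma isInvertible_bilinearComp {g : F →L[ℝ] F →L[ℝ] ℝ} (hg : g.IsInvertible) (e : E ≃L[ℝ] F) :
    (g.bilinearComp (e : E →L[ℝ] F) (e : E →L[ℝ] F)).IsInvertible := by
  obtain ⟨M, hM⟩ := hg
  refine ⟨(e.trans M).trans (e.symm.arrowCongr (ContinuousLinearEquiv.refl ℝ ℝ)), ?_⟩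
  ext x y
  rw [← hM]
  simp [ContinuousLinearMap.bilinearComp_apply]

lemma linearIndependent_pair_map {L : E →L[ℝ] F} (hL : Function.Injective L) {x y : E}
    (h : LinearIndependent ℝ ![x, y]) : LinearIndependent ℝ ![L x, L y] := by
  have h1 := h.map' (L : E →ₗ[ℝ] F) (LinearMap.ker_eq_bot.2 hL)
  have h2 : (L : E →ₗ[ℝ] F) ∘ ![x, y] = ![L x, L y] := by
    funext i
    fin_cases i <;> rfl
  rwa [h2] at h1

/-- On a finite-dimensional space an inner product is nondegenerate. -/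
theorem IsInner.isInvertible [FiniteDimensional ℝ E] {g : E →L[ℝ] E →L[ℝ] ℝ} (h : IsInner g) :
    g.IsInvertible := by
  have hinj : Function.Injective (g : E →ₗ[ℝ] E →L[ℝ] ℝ) := by
    rw [← LinearMap.ker_eq_bot, LinearMap.ker_eq_bot']
    intro x hx
    by_contra hne
    have h1 := h.pos x hne
    have h2 : g x x = 0 := by
      have : g x = 0 := hx
      rw [this]
      rfl
    linarith
  have hfr : Module.finrank ℝ E = Module.finrank ℝ (E →L[ℝ] ℝ) := by
    have e : (E →L[ℝ] ℝ) ≃ₗ[ℝ] (E →ₗ[ℝ] ℝ) := LinearMap.toContinuousLinearMap.symm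
    rw [e.finrank_eq]
    exact (Subspace.dual_finrank_eq (K := ℝ) (V := E)).symm
  let e : E ≃ₗ[ℝ] (E →L[ℝ] ℝ) := LinearEquiv.ofInjectiveOfFinrankEq _ hinj hfr
  refine ⟨e.toContinuousLinearEquiv, ?_⟩
  ext x y
  rfl

end

end Pool.Agent.HS

end

section

set_option autoImplicit false
set_option maxSynthPendingDepth 3

/-!
# Transformation law of the coordinate curvature under local diffeomorphisms (project HS)

Main results: `D1_eq`, `D2_eq` (the derivatives of the coefficients of a metric as iterated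
`fderiv`), `Rm_pull` (the curvature form is a tensor), `PosAt_pull`, `NonnegAt_pull`.
-/

namespace Pool.Agent.HS

open Set Filter
open scoped ContDiff Topology

noncomputable section

variable {E : Type*} [NormedAddCommGroup E] [NormedSpace ℝ E]
  {F : Type*} [NormedAddCommGroup F] [NormedSpace ℝ F]

lemma contDiffAt_pull {τ : F → E} {g : E → E →L[ℝ] E →L[ℝ] ℝ} {x : F} {m n : ℕ∞ω}
    (hg : ContDiffAt ℝ m g (τ x)) (hτ : ContDiffAt ℝ n τ x) (hmn : m + 1 ≤ n) :
    ContDiffAt ℝ m (pull g τ) x := by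
  have h1 : ContDiffAt ℝ m τ x := hτ.of_le (le_trans le_self_add hmn)
  have h2 : ContDiffAt ℝ m (fderiv ℝ τ) x := hτ.fderiv_right hmn
  exact contDiffAt_bilinearComp (hg.comp x h1) h2 h2

lemma fderiv_pull {τ : F → E} {g : E → E →L[ℝ] E →L[ℝ] ℝ} {x : F}
    (hg : ContDiffAt ℝ 1 g (τ x)) (hτ : ContDiffAt ℝ 2 τ x) (c a b : F) :
    fderiv ℝ (pull g τ) x c a b =
      fderiv ℝ g (τ x) (fderiv ℝ τ x c) (fderiv ℝ τ x a) (fderiv ℝ τ x b) +
      g (τ x) (fderiv ℝ (fderiv ℝ τ) x c a) (fderiv ℝ τ x b) +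
      g (τ x) (fderiv ℝ τ x a) (fderiv ℝ (fderiv ℝ τ) x c b) := by
  have hτ1 : DifferentiableAt ℝ τ x := hτ.differentiableAt (by norm_num)
  have hg1 : DifferentiableAt ℝ g (τ x) := hg.differentiableAt (by norm_num)
  have hf : ContDiffAt ℝ 1 (fderiv ℝ τ) x := hτ.fderiv_right (by norm_num)
  have hf1 : DifferentiableAt ℝ (fderiv ℝ τ) x := hf.differentiableAt (by norm_num)
  have hpb : DifferentiableAt ℝ (pull g τ) x :=
    (contDiffAt_pull hg hτ (by norm_num)).differentiableAt (by norm_num)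
  rw [fderiv_eval₂ hpb]
  have h := fderiv_bil (B := fun y => g (τ y)) (p := fun y => fderiv ℝ τ y a)
    (q := fun y => fderiv ℝ τ y b) (x := x) (hg1.comp x hτ1)
    (hf1.clm_apply (differentiableAt_const a)) (hf1.clm_apply (differentiableAt_const b)) c
  have e1 : fderiv ℝ (fun y => g (τ y)) x = (fderiv ℝ g (τ x)).comp (fderiv ℝ τ x) :=
    fderiv_comp x hg1 hτ1
  have e2 : ∀ d : F, fderiv ℝ (fun y => fderiv ℝ τ y d) x c = fderiv ℝ (fderiv ℝ τ) x c d := by
    intro d
    rw [fderiv_clm_apply hf1 (differentiableAt_const d)]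
    simp
  rw [e1, e2, e2] at h
  exact h

lemma fderiv3_symm {τ : F → E} {x : F} (hτ : ContDiffAt ℝ 3 τ x) (d a b : F) :
    fderiv ℝ (fderiv ℝ (fderiv ℝ τ)) x d a b = fderiv ℝ (fderiv ℝ (fderiv ℝ τ)) x d b a := by
  have hτ' : ContDiffAt ℝ 2 (fderiv ℝ τ) x := hτ.fderiv_right (by norm_num)
  have hτ'' : ContDiffAt ℝ 1 (fderiv ℝ (fderiv ℝ τ)) x := hτ'.fderiv_right (by norm_num)
  have hd : DifferentiableAt ℝ (fderiv ℝ (fderiv ℝ τ)) x := hτ''.differentiableAt (by norm_num)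
  have key : ∀ e f : F, fderiv ℝ (fun y => fderiv ℝ (fderiv ℝ τ) y e f) x d =
      fderiv ℝ (fderiv ℝ (fderiv ℝ τ)) x d e f := by
    intro e f
    rw [fderiv_clm_apply (hd.clm_apply (differentiableAt_const e)) (differentiableAt_const f),
      fderiv_clm_apply hd (differentiableAt_const e)]
    simp
  rw [← key, ← key]
  have h : (fun y => fderiv ℝ (fderiv ℝ τ) y a b) =ᶠ[𝓝 x]
      fun y => fderiv ℝ (fderiv ℝ τ) y b a := by
    have e1 : ∀ᶠ y in 𝓝 x, ContDiffAt ℝ 3 τ y := hτ.eventually (by decide)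
    filter_upwards [e1] with y hy
    exact fderiv2_symm (hy.of_le (by norm_num)) a b
  rw [h.fderiv_eq]

lemma kos_pull {τ : F → E} {g : E → E →L[ℝ] E →L[ℝ] ℝ} {x : F}
    (hg : ContDiffAt ℝ 1 g (τ x)) (hτ : ContDiffAt ℝ 2 τ x)
    (hsymm : ∀ a b, g (τ x) a b = g (τ x) b a) (u v z : F) :
    kos (pull g τ) x u v z = kos g (τ x) (fderiv ℝ τ x u) (fderiv ℝ τ x v) (fderiv ℝ τ x z) +
      g (τ x) (fderiv ℝ (fderiv ℝ τ) x u v) (fderiv ℝ τ x z) := by
  unfold kos
  rw [fderiv_pull hg hτ, fderiv_pull hg hτ, fderiv_pull hg hτ, fderiv2_symm hτ v u,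
    fderiv2_symm hτ z u, fderiv2_symm hτ z v,
    hsymm (fderiv ℝ τ x v) (fderiv ℝ (fderiv ℝ τ) x u z)]
  ring

/-! ### Comparison with the definitions of `Pool.Agent.HS.Defs` -/

theorem D1_eq {G : E → E →L[ℝ] E →L[ℝ] ℝ} {p : E} (hG : DifferentiableAt ℝ G p) (x u v : E) :
    D1 G p x u v = fderiv ℝ G p x u v :=
  (fderiv_eval₂ hG u v x).symm

lemma IsCurv.unique {G : E → E →L[ℝ] E →L[ℝ] ℝ} {p x y : E} {k k' : ℝ}
    (hinj : Function.Injective (G p)) (h : IsCurv G p x y k) (h' : IsCurv G p x y k') :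
    k = k' := by
  obtain ⟨a, b, c, ha, hb, hc, hk⟩ := h
  obtain ⟨a', b', c', ha', hb', hc', hk'⟩ := h'
  have e1 : a = a' := hinj (ContinuousLinearMap.ext fun z => by rw [ha, ha'])
  have e2 : b = b' := hinj (ContinuousLinearMap.ext fun z => by rw [hb, hb'])
  have e3 : c = c' := hinj (ContinuousLinearMap.ext fun z => by rw [hc, hc'])
  subst e1 e2 e3
  rw [hk, hk']

end

end Pool.Agent.HS

end
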