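import Pool.Agent.H94.PT.M01
import Pool.Agent.H94.PT.M04

/-! The parts of this file: HS.GScal, HS.LkDefs. -/

section

/-!
# Block G: the scalar jets of a parallel section and the scaled form
-/

open Matrix

namespace Pool.Agent.HS

noncomputable section

theorem rot1 (Om a b : Fin 3 → ℝ) : (Om ⨯₃ a) ⬝ᵥ b + a ⬝ᵥ (Om ⨯₃ b) = 0 := by
  simp [cross_apply, dotProduct, Fin.sum_univ_three]; ring

theorem rot2 (Om Om1 a b : Fin 3 → ℝ) :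
    (Om1 ⨯₃ a + Om ⨯₃ (Om ⨯₃ a)) ⬝ᵥ b + 2 * ((Om ⨯₃ a) ⬝ᵥ (Om ⨯₃ b))
      + a ⬝ᵥ (Om1 ⨯₃ b + Om ⨯₃ (Om ⨯₃ b)) = 0 := by
  simp [cross_apply, dotProduct, Fin.sum_univ_three]; ring

theorem y_dot_T (y L : Fin 3 → ℝ) : y ⬝ᵥ TT y L = 0 := by
  rw [TT]; exact dot_cross_self _ _

/-- first derivative of `⟨y,n⟩`. -/
theorem p1_frame (d : ℝ) {y L : Fin 3 → ℝ} (hy : y ⬝ᵥ y = 1) (hL : L ⬝ᵥ L = 1)
    (hyL : y ⬝ᵥ L = 0) (α β γ : ℝ) :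
    y1 d y L ⬝ᵥ (α • y + β • TT y L + γ • L)
      + y ⬝ᵥ n1 d y L (α • y + β • TT y L + γ • L) = 1 / 2 * Dl d y * β := by
  rw [n1_frame d hy hL hyL]
  have h1 : y1 d y L ⬝ᵥ y + y ⬝ᵥ y1 d y L = 0 := rot1 _ _ _
  have h2 : y1 d y L ⬝ᵥ TT y L + y ⬝ᵥ T1 d y L = 0 := rot1 _ _ _
  have h3 : y1 d y L ⬝ᵥ L + y ⬝ᵥ L1 d L = 0 := rot1 _ _ _
  have h4 := y_dot_T y L
  simp only [dotProduct_add, dotProduct_smul, smul_eq_mul, hy, hyL, h4]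
  linear_combination α * h1 + β * h2 + γ * h3

/-- second derivative of `⟨y,n⟩`. -/
theorem p2_frame (d : ℝ) {y L : Fin 3 → ℝ} (hy : y ⬝ᵥ y = 1) (hL : L ⬝ᵥ L = 1)
    (hyL : y ⬝ᵥ L = 0) (α β γ : ℝ) :
    y2 d y L ⬝ᵥ (α • y + β • TT y L + γ • L)
      + 2 * (y1 d y L ⬝ᵥ n1 d y L (α • y + β • TT y L + γ • L))
      + y ⬝ᵥ n2 d y L (α • y + β • TT y L + γ • L)
      = 1 / 2 * Dl1 d y L * β
        + 1 / 2 * Dl d y * (-(1 / 2 * Dl d y * α) + d ^ 2 * (wv ⬝ᵥ L) * γ) := by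
  rw [n1_frame d hy hL hyL, n2_frame d hy hL hyL]
  have h1 : y1 d y L ⬝ᵥ y + y ⬝ᵥ y1 d y L = 0 := rot1 _ _ _
  have h2 : y1 d y L ⬝ᵥ TT y L + y ⬝ᵥ T1 d y L = 0 := rot1 _ _ _
  have h3 : y1 d y L ⬝ᵥ L + y ⬝ᵥ L1 d L = 0 := rot1 _ _ _
  have h4 := y_dot_T y L
  have k1 : y2 d y L ⬝ᵥ y + 2 * (y1 d y L ⬝ᵥ y1 d y L) + y ⬝ᵥ y2 d y L = 0 := rot2 _ _ _ _
  have k2 : y2 d y L ⬝ᵥ TT y L + 2 * (y1 d y L ⬝ᵥ T1 d y L) + y ⬝ᵥ T2 d y L = 0 :=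
    rot2 _ _ _ _
  have k3 : y2 d y L ⬝ᵥ L + 2 * (y1 d y L ⬝ᵥ L1 d L) + y ⬝ᵥ L2 d L = 0 := rot2 _ _ _ _
  simp only [dotProduct_add, dotProduct_smul, smul_eq_mul, hy, hyL, h4]
  linear_combination α * k1 + β * k2 + γ * k3
    + (2 * (1 / 2 * Dl d y * β)) * h1
    + (2 * (-(1 / 2 * Dl d y * α) + d ^ 2 * (wv ⬝ᵥ L) * γ)) * h2
    + (2 * (-(d ^ 2 * (wv ⬝ᵥ L) * β))) * h3

/-! ### scaled coefficients: `α = d² x`, `β = d² z`, `γ = t`. -/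

/-- `x'`. -/
def sx1 (d : ℝ) (y : Fin 3 → ℝ) (z : ℝ) : ℝ := 1 / 2 * Dl d y * z
/-- `z'`. -/
def sz1 (d : ℝ) (y L : Fin 3 → ℝ) (x t : ℝ) : ℝ := -(1 / 2 * Dl d y * x) + (wv ⬝ᵥ L) * t
/-- `x''`. -/
def sx2 (d : ℝ) (y L : Fin 3 → ℝ) (x z t : ℝ) : ℝ :=
  1 / 2 * Dl1 d y L * z + 1 / 2 * Dl d y * sz1 d y L x t
/-- `z''`. -/
def sz2 (d : ℝ) (y L : Fin 3 → ℝ) (x z t : ℝ) : ℝ :=
  -(1 / 2 * Dl1 d y L * x) - 1 / 2 * Dl d y * sx1 d y z + d * (wv ⬝ᵥ l1 L) * t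
    - d ^ 4 * (wv ⬝ᵥ L) ^ 2 * z

/-- `⟨c,n⟩`. -/
def c0 (d : ℝ) (y L c : Fin 3 → ℝ) (x z t : ℝ) : ℝ :=
  d ^ 2 * (x * (c ⬝ᵥ y) + z * (c ⬝ᵥ TT y L)) + t * (c ⬝ᵥ L)

/-- `⟨c,n⟩'`, divided by `d`. -/
def c1 (d : ℝ) (y L c : Fin 3 → ℝ) (x z t : ℝ) : ℝ :=
  d * (sx1 d y z * (c ⬝ᵥ y) + x * (c ⬝ᵥ y1 d y L) + sz1 d y L x t * (c ⬝ᵥ TT y L)
      + z * (c ⬝ᵥ T1 d y L))
    - d ^ 3 * (wv ⬝ᵥ L) * z * (c ⬝ᵥ L) + t * (c ⬝ᵥ l1 L)

/-- `⟨c,n⟩''`, divided by `d²`. -/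
def c2 (d : ℝ) (y L c : Fin 3 → ℝ) (x z t : ℝ) : ℝ :=
  (sx2 d y L x z t * (c ⬝ᵥ y) + 2 * sx1 d y z * (c ⬝ᵥ y1 d y L) + x * (c ⬝ᵥ y2 d y L)
      + sz2 d y L x z t * (c ⬝ᵥ TT y L) + 2 * sz1 d y L x t * (c ⬝ᵥ T1 d y L)
      + z * (c ⬝ᵥ T2 d y L))
    - d ^ 2 * (d * (wv ⬝ᵥ l1 L) * z + (wv ⬝ᵥ L) * sz1 d y L x t) * (c ⬝ᵥ L)
    - 2 * d ^ 3 * (wv ⬝ᵥ L) * z * (c ⬝ᵥ l1 L) + t * (c ⬝ᵥ l2 L)

/-- the section `n = d² (x y + z T) + t L`. -/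
def nn (d : ℝ) (y L : Fin 3 → ℝ) (x z t : ℝ) : Fin 3 → ℝ :=
  (d ^ 2 * x) • y + (d ^ 2 * z) • TT y L + t • L

theorem c0_eq (d : ℝ) (y L c : Fin 3 → ℝ) (x z t : ℝ) :
    c ⬝ᵥ nn d y L x z t = c0 d y L c x z t := by
  simp only [nn, c0, dotProduct_add, dotProduct_smul, smul_eq_mul]; ring

theorem c1_eq (d : ℝ) {y L : Fin 3 → ℝ} (hy : y ⬝ᵥ y = 1) (hL : L ⬝ᵥ L = 1)
    (hyL : y ⬝ᵥ L = 0) (c : Fin 3 → ℝ) (x z t : ℝ) :
    c ⬝ᵥ n1 d y L (nn d y L x z t) = d * c1 d y L c x z t := by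
  rw [nn, n1_frame d hy hL hyL]
  simp only [c1, sx1, sz1, L1_eq, dotProduct_add, dotProduct_smul, smul_eq_mul]; ring

theorem c2_eq (d : ℝ) {y L : Fin 3 → ℝ} (hy : y ⬝ᵥ y = 1) (hL : L ⬝ᵥ L = 1)
    (hyL : y ⬝ᵥ L = 0) (c : Fin 3 → ℝ) (x z t : ℝ) :
    c ⬝ᵥ n2 d y L (nn d y L x z t) = d ^ 2 * c2 d y L c x z t := by
  rw [nn, n2_frame d hy hL hyL]
  simp only [c2, sx1, sz1, sx2, sz2, L1_eq, L2_eq, dotProduct_add, dotProduct_smul,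
    smul_eq_mul]; ring

/-- `f / d²`. -/
def fh (d : ℝ) (y L : Fin 3 → ℝ) (x z t : ℝ) : ℝ :=
  Fy d y * x - 1 / 2 * (c0 d y L wv x z t - (wv ⬝ᵥ y) * (d ^ 2 * x))

/-- `f' / d²`. -/
def f1h (d : ℝ) (y L : Fin 3 → ℝ) (x z t : ℝ) : ℝ :=
  Fy1 d y L * x + Fy d y * sx1 d y z
    - 1 / 2 * (d * c1 d y L wv x z t - (wv ⬝ᵥ y1 d y L) * (d ^ 2 * x)
      - (wv ⬝ᵥ y) * (d ^ 2 * sx1 d y z))

/-- the scaled form. -/
def HH (d : ℝ) (y L : Fin 3 → ℝ) (x z t : ℝ) : ℝ :=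
  Dl d y * (Bv d L ⬝ᵥ L) * fh d y L x z t ^ 2
    + 2 / 3 * (15 / 8 * (sx1 d y z ^ 2 + x * sx2 d y L x z t)
      + 33 / 4 * (sx2 d y L x z t * c0 d y L wv x z t + 2 * sx1 d y z * (d * c1 d y L wv x z t)
        + x * (d ^ 2 * c2 d y L wv x z t))
      + (c1 d y L qv x z t ^ 2 + c0 d y L qv x z t * c2 d y L qv x z t))
    - Dl d y / KG d y * (f1h d y L x z t + Dl1 d y L / 2 * (Dl d y)⁻¹ * fh d y L x z t) ^ 2

end

end Pool.Agent.HS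

end

section

/-!
# LINK, definitions: adapted chart and gauge for the Euler-top data

For a point `y` of the sphere and a linear map `l : ℝ² → y^⊥` with `⟨B l x, l z⟩ = x · z`:

* `om u = B l(u) + (1/2) B (B l(u) × l(u))` and `Yc u = cayR (om u) y`: the rays `t ↦ Yc (t x)`
  have the 2-jets of the geodesics of `h`;
* `be u = a(u) + (1/2) a'(u)` (`aa`, `aa1` of `GDefs`), the gauge is `cayR (- be u)`, with
  inverse `cayR (be u)`: along rays it has the 2-jet of the parallel transport of `d + A ×`;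
* `hT`, `AT`, `kT`: base metric, connection form and matrix of `κ` in this chart and gauge
  (`nb = - be` is the angle vector of the gauge in the convention of `Loc.lean`).
-/

namespace Pool.Agent.HS

open Matrix

noncomputable section

/-- `Bv d` as a continuous linear map. -/
def BvL (d : ℝ) : V3 →L[ℝ] V3 :=
  LinearMap.toContinuousLinearMap
    { toFun := Bv d
      map_add' := by
        intro x y
        ext i
        fin_cases i <;> simp [Bv] <;> ring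
      map_smul' := by
        intro c x
        ext i
        fin_cases i <;> simp [Bv] <;> ring }

theorem BvL_apply (d : ℝ) (x : V3) : BvL d x = Bv d x := rfl

/-- `bv d` as a continuous linear map. -/
def bvL (d : ℝ) : V3 →L[ℝ] V3 :=
  LinearMap.toContinuousLinearMap
    { toFun := bv d
      map_add' := by
        intro x y
        ext i
        fin_cases i <;> simp [bv] <;> ring
      map_smul' := by
        intro c x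
        ext i
        fin_cases i <;> simp [bv] <;> ring }

/-- The base metric `hB d y` as a continuous bilinear form. -/
def hBL (d : ℝ) (y : V3) : V3 →L[ℝ] V3 →L[ℝ] ℝ := (Dl d y)⁻¹ • dotL.comp (BvL d)

theorem hBL_apply (d : ℝ) (y u v : V3) : hBL d y u v = hB d y u v := by
  unfold hBL hB
  rw [_root_.smul_apply, _root_.smul_apply, smul_eq_mul, ContinuousLinearMap.comp_apply,
    dotL_apply, BvL_apply, div_eq_mul_inv, mul_comm]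

/-- `Lm d y` as a continuous linear map. -/
def LmL (d : ℝ) (y : V3) : V3 →L[ℝ] V3 := (Dl d y)⁻¹ • (crossL y).comp (BvL d)

/-- The connection form `cA d y` as a continuous linear map. -/
def cAL (d : ℝ) (y : V3) : V3 →L[ℝ] V3 :=
  (1 / 2 * Dl d y) • LmL d y - (BvL d).comp (LmL d y)
    + ((d ^ 2) • (dotL wv).comp (LmL d y)).smulRight y

theorem cAL_apply (d : ℝ) (y v : V3) : cAL d y v = cA d y v := rfl

/-- The form `kap d y` as a continuous bilinear form. -/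
def kapL (d : ℝ) (y : V3) : V3 →L[ℝ] V3 →L[ℝ] ℝ :=
  (15 / 16 : ℝ) • (dotL y).smulRight (dotL y)
    + (33 / 8 * d ^ 2) • ((dotL y).smulRight (dotL wv) + (dotL wv).smulRight (dotL y))
    + (d ^ 2 / 2) • (dotL qv).smulRight (dotL qv)

theorem kapL_apply (d : ℝ) (y n m : V3) : kapL d y n m = kap d y n m := by
  unfold kapL kap
  simp only [_root_.add_apply, _root_.smul_apply, ContinuousLinearMap.smulRight_apply, smul_eq_mul,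
    dotL_apply]
  ring

/-- A frame at `y`: a linear map `l` onto the plane `y^⊥` with `⟨B l x, l z⟩ = x · z`. -/
structure Fr (d : ℝ) (y : V3) (l : V2 →L[ℝ] V3) : Prop where
  unit : y ⬝ᵥ y = 1
  perp : ∀ x, l x ⬝ᵥ y = 0
  orth : ∀ x z, Bv d (l x) ⬝ᵥ l z = x ⬝ᵥ z

/-- The angle vector of the chart. -/
def om (d : ℝ) (l : V2 →L[ℝ] V3) (u : V2) : V3 :=
  Bv d (l u) + (1 / 2 : ℝ) • Bv d (L1 d (l u))

/-- The chart of the sphere. -/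
def Yc (d : ℝ) (y : V3) (l : V2 →L[ℝ] V3) (u : V2) : V3 := cayR (om d l u) y

/-- The angle vector of the gauge. -/
def be (d : ℝ) (y : V3) (l : V2 →L[ℝ] V3) (u : V2) : V3 :=
  aa d y (l u) + (1 / 2 : ℝ) • aa1 d y (l u)

/-- The angle vector of the gauge in the convention of `Loc.lean`. -/
def nb (d : ℝ) (y : V3) (l : V2 →L[ℝ] V3) (u : V2) : V3 := -(be d y l u)

/-- The base metric in the chart. -/
def hT (d : ℝ) (y : V3) (l : V2 →L[ℝ] V3) : V2 → V2 →L[ℝ] V2 →L[ℝ] ℝ :=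
  pull (hBL d) (Yc d y l)

/-- The connection form in the chart and gauge. -/
def AT (d : ℝ) (y : V3) (l : V2 →L[ℝ] V3) : V2 → V2 →L[ℝ] V3 :=
  gA (cAL d) (Yc d y l) (nb d y l)

/-- The matrix of the form `kap d y`. -/
def kapM (d : ℝ) (y : V3) : M33 := fun i j => kap d y (Pi.single i 1) (Pi.single j 1)

/-- The matrix of `κ` in the chart and gauge. -/
def kT (d : ℝ) (y : V3) (l : V2 →L[ℝ] V3) (u : V2) : M33 := fun i j =>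
  kap d (Yc d y l u) (cayR (nb d y l u) (Pi.single i 1)) (cayR (nb d y l u) (Pi.single j 1))

theorem hT_apply (d : ℝ) (y : V3) (l : V2 →L[ℝ] V3) (u x z : V2) :
    hT d y l u x z = hB d (Yc d y l u) (fderiv ℝ (Yc d y l) u x) (fderiv ℝ (Yc d y l) u z) := by
  rw [← hBL_apply]; rfl

theorem kT_apply (d : ℝ) (y : V3) (l : V2 →L[ℝ] V3) (u : V2) (i j : Fin 3) :
    kT d y l u i j
      = kap d (Yc d y l u) (cayR (nb d y l u) (Pi.single i 1))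
        (cayR (nb d y l u) (Pi.single j 1)) := rfl

end

end Pool.Agent.HS

end
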