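import Pool.Agent.H94.PT.M01
import Pool.Agent.H94.PT.M03

/-! The parts of this file: HS.LkAlg, HS.LocEAlg, HS.NormalForm, HS.NormalFormFin. -/

section

/-!
# LINK: vector algebra of the Euler-top data
-/

namespace Pool.Agent.HS

open Matrix

noncomputable section

variable {d : ℝ} {y L : V3}

/-- `B (B L × y) = L × b y`. -/
theorem Bv_y1 (d : ℝ) (y L : V3) : Bv d (y1 d y L) = L ⨯₃ bv d y := by
  ext i
  fin_cases i <;> simp [Bv, bv, y1, cross_apply] <;> ring

/-- `y × B (B L × y) = Δ L - ⟨L, y⟩ b y`. -/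
theorem cross_Bv_y1 (d : ℝ) (y L : V3) :
    y ⨯₃ Bv d (y1 d y L) = Dl d y • L - (L ⬝ᵥ y) • bv d y := by
  rw [Bv_y1]
  ext i
  fin_cases i <;> simp [bv, Dl, cross_apply, dotProduct, Fin.sum_univ_three] <;> ring

/-- The derivative of `cross_Bv_y1` along the flow. -/
theorem cross_Bv_y2 (d : ℝ) (y L : V3) :
    y1 d y L ⨯₃ Bv d (y1 d y L) + y ⨯₃ Bv d (y2 d y L)
      = Dl1 d y L • L + Dl d y • L1 d L - (L ⬝ᵥ y) • bv d (y1 d y L) := by
  ext i
  fin_cases i <;>
    simp only [Fin.zero_eta, Fin.mk_one, Fin.reduceFinMk, Pi.add_apply, Pi.sub_apply,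
      Pi.smul_apply, smul_eq_mul, Bv, bv, y1, y2, L1, Dl, Dl1, cross_apply, dotProduct,
      Fin.sum_univ_three, Matrix.cons_val_zero, Matrix.cons_val_one, Matrix.cons_val] <;> ring

theorem Dl_pos (hd : |d| < 1) (hy : y ⬝ᵥ y = 1) : 0 < Dl d y := by
  have h1 := abs_lt.1 hd
  have h2 : Dl d y = (1 - d) * y 0 ^ 2 + (1 - d) * (1 + d) * y 1 ^ 2 + (1 + d) * y 2 ^ 2 := by
    simp [Dl, bv, dotProduct, Fin.sum_univ_three]; ring
  have h3 : y 0 ^ 2 + y 1 ^ 2 + y 2 ^ 2 = 1 := by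
    rw [← hy]; simp [dotProduct, Fin.sum_univ_three]; ring
  have ha : 0 < 1 - d := by linarith [h1.2]
  have hb : 0 < 1 + d := by linarith [h1.1]
  have hab : 0 < (1 - d) * (1 + d) := mul_pos ha hb
  rw [h2]
  rcases lt_or_ge 0 (y 0 ^ 2) with h | h
  · have := mul_pos ha h
    have := mul_nonneg hab.le (sq_nonneg (y 1))
    have := mul_nonneg hb.le (sq_nonneg (y 2))
    linarith
  · rcases lt_or_ge 0 (y 1 ^ 2) with h' | h'
    · have := mul_nonneg ha.le (sq_nonneg (y 0))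
      have := mul_pos hab h'
      have := mul_nonneg hb.le (sq_nonneg (y 2))
      linarith
    · have h4 : 0 < y 2 ^ 2 := by linarith
      have := mul_nonneg ha.le (sq_nonneg (y 0))
      have := mul_nonneg hab.le (sq_nonneg (y 1))
      have := mul_pos hb h4
      linarith

/-- `L_y(B L × y) = L` for `L ⟂ y`. -/
theorem Lm_y1 (hD : Dl d y ≠ 0) (hL : L ⬝ᵥ y = 0) : Lm d y (y1 d y L) = L := by
  unfold Lm
  rw [cross_Bv_y1, hL, zero_smul, sub_zero, smul_smul, inv_mul_cancel₀ hD, one_smul]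

/-- `A_y(y') = aa`. -/
theorem cA_y1 (hD : Dl d y ≠ 0) (hL : L ⬝ᵥ y = 0) : cA d y (y1 d y L) = aa d y L := by
  unfold cA aa
  rw [Lm_y1 hD hL]

/-- `⟨B v, v'⟩ = Δ ⟨B L, L'⟩`. -/
theorem Bv_y1_dot (d : ℝ) (y L L' : V3) (hL : L ⬝ᵥ y = 0) :
    Bv d (y1 d y L) ⬝ᵥ y1 d y L' = Dl d y * (Bv d L ⬝ᵥ L') := by
  have h : Bv d (y1 d y L) ⬝ᵥ y1 d y L' - Dl d y * (Bv d L ⬝ᵥ L')
      = -((L ⬝ᵥ y) * (Bv d L' ⬝ᵥ bv d y)) := by
    rw [Bv_y1]
    simp [Bv, bv, y1, Dl, cross_apply, dotProduct, Fin.sum_univ_three]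
    ring
  rw [hL] at h
  linarith

theorem hB_y1 (hD : Dl d y ≠ 0) (L' : V3) (hL : L ⬝ᵥ y = 0) :
    hB d y (y1 d y L) (y1 d y L') = Bv d L ⬝ᵥ L' := by
  unfold hB
  rw [Bv_y1_dot d y L L' hL]
  field_simp

end

end Pool.Agent.HS

end

section

/-!
# Linear algebra of the horizontal lift (block LOCE of project HS)

For `b = (x, c)` tangent to the vector bundle at `(u, w)` put `D = c + A_u x × w` and
`U = q⁻¹ (w × S D)`.  The horizontal lift of `b` to the principal bundle times `ℝ³` has angular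
velocity `U` and flat component `Z = D - U × w`.
-/

set_option maxSynthPendingDepth 3

namespace Pool.Agent.HS

open Matrix

variable {B : Type*} [NormedAddCommGroup B] [NormedSpace ℝ B]

/-- A vector with vanishing cross product with `w ≠ 0` is a multiple of `w`. -/
theorem parallel_of_cross_eq_zero {w D : V3} (hw : w ≠ 0) (h : w ⨯₃ D = 0) :
    ∃ t : ℝ, D = t • w := by
  rw [cross_apply] at h
  have h0 := congrFun h 0
  have h1 := congrFun h 1
  have h2 := congrFun h 2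
  simp only [Matrix.cons_val_zero, Matrix.cons_val_one, Matrix.cons_val, Pi.zero_apply] at h0 h1 h2
  have hpos : 0 < w 0 * w 0 + w 1 * w 1 + w 2 * w 2 := by
    by_contra hcon
    push Not at hcon
    apply hw
    have e0 : w 0 = 0 := by nlinarith [mul_self_nonneg (w 0), mul_self_nonneg (w 1), mul_self_nonneg (w 2)]
    have e1 : w 1 = 0 := by nlinarith [mul_self_nonneg (w 0), mul_self_nonneg (w 1), mul_self_nonneg (w 2)]
    have e2 : w 2 = 0 := by nlinarith [mul_self_nonneg (w 0), mul_self_nonneg (w 1), mul_self_nonneg (w 2)]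
    ext i
    fin_cases i
    · simpa using e0
    · simpa using e1
    · simpa using e2
  have hne := hpos.ne'
  refine ⟨(w 0 * D 0 + w 1 * D 1 + w 2 * D 2) / (w 0 * w 0 + w 1 * w 1 + w 2 * w 2), ?_⟩
  ext i
  fin_cases i
  · simp only [Fin.zero_eta, Pi.smul_apply, smul_eq_mul]
    rw [div_mul_eq_mul_div, eq_div_iff hne]
    linear_combination (-w 1) * h2 + w 2 * h1
  · simp only [Fin.mk_one, Pi.smul_apply, smul_eq_mul]
    rw [div_mul_eq_mul_div, eq_div_iff hne]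
    linear_combination (w 0) * h2 - w 2 * h0
  · simp only [Fin.reduceFinMk, Pi.smul_apply, smul_eq_mul]
    rw [div_mul_eq_mul_div, eq_div_iff hne]
    linear_combination (-w 0) * h1 + w 1 * h0

/-- `D = c + A x × w` for `b = (x, c)`. -/
noncomputable def liftD (A0 : B →L[ℝ] V3) (w : V3) (b : B × V3) : V3 := b.2 + A0 b.1 ⨯₃ w

/-- The angular velocity `U = q⁻¹ (w × S D)` of the horizontal lift. -/
noncomputable def liftU (qi S : V3 →L[ℝ] V3) (A0 : B →L[ℝ] V3) (w : V3) (b : B × V3) : V3 :=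
  qi (w ⨯₃ S (liftD A0 w b))

/-- The principal bundle component `(x, U - A x)` of the horizontal lift (at gauge `a = 0`). -/
noncomputable def liftP (qi S : V3 →L[ℝ] V3) (A0 : B →L[ℝ] V3) (w : V3) (b : B × V3) : B × V3 :=
  (b.1, liftU qi S A0 w b - A0 b.1)

theorem liftD_comb (A0 : B →L[ℝ] V3) (w : V3) (s t : ℝ) (b b' : B × V3) :
    liftD A0 w (s • b + t • b') = s • liftD A0 w b + t • liftD A0 w b' := by
  unfold liftD
  simp only [Prod.snd_add, Prod.smul_snd, Prod.fst_add, Prod.smul_fst, map_add, map_smul,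
    LinearMap.add_apply, LinearMap.smul_apply, smul_add]
  abel

theorem liftU_comb (qi S : V3 →L[ℝ] V3) (A0 : B →L[ℝ] V3) (w : V3) (s t : ℝ) (b b' : B × V3) :
    liftU qi S A0 w (s • b + t • b') = s • liftU qi S A0 w b + t • liftU qi S A0 w b' := by
  unfold liftU
  rw [liftD_comb]
  simp only [map_add, map_smul]

/-- **Independence of horizontal lifts.** If no combination of `b₁, b₂` except the trivial one is
a multiple of the radial vector `(0, w)`, then the principal bundle components of the horizontal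
lifts are linearly independent. -/
theorem liftP_indep {qi S : V3 →L[ℝ] V3} {A0 : B →L[ℝ] V3} {w : V3} (hw : w ≠ 0)
    (hqi : Function.Injective qi)
    (hS : ∀ D, S D + qi (w ⨯₃ S D) ⨯₃ w = D) {b1 b2 : B × V3}
    (hb : ∀ s t c : ℝ, s • b1 + t • b2 = c • ((0, w) : B × V3) → s = 0 ∧ t = 0) :
    LinearIndependent ℝ ![liftP qi S A0 w b1, liftP qi S A0 w b2] := by
  rw [LinearIndependent.pair_iff]
  intro s t hst
  have hx : s • b1.1 + t • b2.1 = 0 := congrArg Prod.fst hst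
  have hU : s • (liftU qi S A0 w b1 - A0 b1.1) + t • (liftU qi S A0 w b2 - A0 b2.1) = 0 :=
    congrArg Prod.snd hst
  have hA : s • A0 b1.1 + t • A0 b2.1 = 0 := by
    rw [← map_smul, ← map_smul, ← map_add, hx, map_zero]
  have hU0 : liftU qi S A0 w (s • b1 + t • b2) = 0 := by
    rw [liftU_comb]
    have : s • liftU qi S A0 w b1 + t • liftU qi S A0 w b2
        = (s • (liftU qi S A0 w b1 - A0 b1.1) + t • (liftU qi S A0 w b2 - A0 b2.1))
          + (s • A0 b1.1 + t • A0 b2.1) := by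
      simp only [smul_sub]; abel
    rw [this, hU, hA, add_zero]
  set D := liftD A0 w (s • b1 + t • b2) with hD
  have h1 : w ⨯₃ S D = 0 := by
    apply hqi
    rw [map_zero]
    exact hU0
  have h2 : S D = D := by
    have := hS D
    rw [h1, map_zero] at this
    simpa using this
  rw [h2] at h1
  obtain ⟨c, hc⟩ := parallel_of_cross_eq_zero hw h1
  refine hb s t c ?_
  have hfst : (s • b1 + t • b2).1 = 0 := by
    simpa using hx
  have hsnd : (s • b1 + t • b2).2 = c • w := by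
    have : D = (s • b1 + t • b2).2 + A0 (s • b1 + t • b2).1 ⨯₃ w := rfl
    rw [hfst, map_zero] at this
    rw [hc] at this
    simpa using this.symm
  exact Prod.ext (by simpa using hfst) (by simpa using hsnd)

end Pool.Agent.HS

end

section

/-!
# Normal form of a 2-plane in `V × W`

Every pair of linearly independent vectors of `V × W` can be replaced by a basis of the
same plane of the form `(s e, p f)`, `(t e', q f')` with `e, e'` orthonormal in `V` and
`f, f'` orthonormal in `W` (simultaneous diagonalisation of the two scalar products on the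
plane).
-/

namespace Pool.Agent.HS

open scoped RealInnerProductSpace
open Module

section Pair

variable {E : Type*} [NormedAddCommGroup E] [InnerProductSpace ℝ E]

/-- In dimension at least two there is a unit vector orthogonal to a given vector. -/
theorem exists_unit_orth (h2 : 2 ≤ finrank ℝ E) (w : E) : ∃ f : E, ‖f‖ = 1 ∧ ⟪f, w⟫ = 0 := by
  classical
  have hfd : FiniteDimensional ℝ E := FiniteDimensional.of_finrank_pos (by omega)
  set K : Submodule ℝ E := (ℝ ∙ w)ᗮ with hK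
  have hadd : finrank ℝ (ℝ ∙ w : Submodule ℝ E) + finrank ℝ K = finrank ℝ E :=
    Submodule.finrank_add_finrank_orthogonal (ℝ ∙ w)
  have h1 : finrank ℝ (ℝ ∙ w : Submodule ℝ E) ≤ 1 := by
    rcases eq_or_ne w 0 with hw | hw
    · rw [hw, Submodule.span_zero_singleton, finrank_bot]
      exact Nat.zero_le 1
    · rw [finrank_span_singleton hw]
  have hpos : 0 < finrank ℝ K := by omega
  have hne : K ≠ ⊥ := by
    intro hb
    rw [hb, finrank_bot] at hpos
    exact lt_irrefl _ hpos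
  obtain ⟨v, hv, hv0⟩ := Submodule.exists_mem_ne_zero_of_ne_bot hne
  have hn : 0 < ‖v‖ := norm_pos_iff.2 hv0
  refine ⟨‖v‖⁻¹ • v, ?_, ?_⟩
  · rw [norm_smul, norm_inv, norm_norm, inv_mul_cancel₀ hn.ne']
  · have : ⟪w, v⟫ = 0 := by
      rw [hK, Submodule.mem_orthogonal_singleton_iff_inner_right] at hv
      exact hv
    rw [inner_smul_left, real_inner_comm, this, mul_zero]

/-- Two orthogonal vectors are multiples of two orthonormal vectors. -/
theorem exists_orthonormal_pair (h2 : 2 ≤ finrank ℝ E) (u v : E) (h : ⟪u, v⟫ = 0) :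
    ∃ f f' : E, ‖f‖ = 1 ∧ ‖f'‖ = 1 ∧ ⟪f, f'⟫ = 0 ∧ ∃ p q : ℝ, u = p • f ∧ v = q • f' := by
  rcases eq_or_ne u 0 with hu | hu
  · rcases eq_or_ne v 0 with hv | hv
    · obtain ⟨f', hf', _⟩ := exists_unit_orth h2 (0 : E)
      obtain ⟨f, hf, hff⟩ := exists_unit_orth h2 f'
      exact ⟨f, f', hf, hf', hff, 0, 0, by rw [hu, zero_smul], by rw [hv, zero_smul]⟩
    · have hn : 0 < ‖v‖ := norm_pos_iff.2 hv
      obtain ⟨f, hf, hff⟩ := exists_unit_orth h2 v
      refine ⟨f, ‖v‖⁻¹ • v, hf, ?_, ?_, 0, ‖v‖, by rw [hu, zero_smul], ?_⟩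
      · rw [norm_smul, norm_inv, norm_norm, inv_mul_cancel₀ hn.ne']
      · rw [inner_smul_right, hff, mul_zero]
      · rw [smul_smul, mul_inv_cancel₀ hn.ne', one_smul]
  · have hn : 0 < ‖u‖ := norm_pos_iff.2 hu
    rcases eq_or_ne v 0 with hv | hv
    · obtain ⟨f, hf, hff⟩ := exists_unit_orth h2 u
      refine ⟨‖u‖⁻¹ • u, f, ?_, hf, ?_, ‖u‖, 0, ?_, by rw [hv, zero_smul]⟩
      · rw [norm_smul, norm_inv, norm_norm, inv_mul_cancel₀ hn.ne']
      · rw [inner_smul_left, real_inner_comm, hff, mul_zero]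
      · rw [smul_smul, mul_inv_cancel₀ hn.ne', one_smul]
    · have hm : 0 < ‖v‖ := norm_pos_iff.2 hv
      refine ⟨‖u‖⁻¹ • u, ‖v‖⁻¹ • v, ?_, ?_, ?_, ‖u‖, ‖v‖, ?_, ?_⟩
      · rw [norm_smul, norm_inv, norm_norm, inv_mul_cancel₀ hn.ne']
      · rw [norm_smul, norm_inv, norm_norm, inv_mul_cancel₀ hm.ne']
      · rw [inner_smul_left, inner_smul_right, h, mul_zero, mul_zero]
      · rw [smul_smul, mul_inv_cancel₀ hn.ne', one_smul]
      · rw [smul_smul, mul_inv_cancel₀ hm.ne', one_smul]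

end Pair

/-- There is an angle which kills the off-diagonal entry of a symmetric 2x2 matrix. -/
theorem exists_angle (u v w : ℝ) : ∃ θ : ℝ,
    (Real.cos θ ^ 2 - Real.sin θ ^ 2) * v + Real.cos θ * Real.sin θ * (w - u) = 0 := by
  set F : ℝ → ℝ := fun θ =>
    (Real.cos θ ^ 2 - Real.sin θ ^ 2) * v + Real.cos θ * Real.sin θ * (w - u) with hF
  have hc : Continuous F := by
    rw [hF]; fun_prop
  have h0 : F 0 = v := by simp [hF]
  have h1 : F (Real.pi / 2) = -v := by simp [hF]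
  have hpi : (0 : ℝ) ≤ Real.pi / 2 := by positivity
  rcases le_total v 0 with hv | hv
  · have hmem : (0 : ℝ) ∈ Set.Icc (F 0) (F (Real.pi / 2)) := by
      rw [h0, h1]; constructor <;> linarith
    obtain ⟨θ, _, hθ⟩ := intermediate_value_Icc hpi hc.continuousOn hmem
    exact ⟨θ, hθ⟩
  · have hmem : (0 : ℝ) ∈ Set.Icc (F (Real.pi / 2)) (F 0) := by
      rw [h0, h1]; constructor <;> linarith
    obtain ⟨θ, _, hθ⟩ := intermediate_value_Icc' hpi hc.continuousOn hmem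
    exact ⟨θ, hθ⟩

section Main

variable {V W : Type*} [NormedAddCommGroup V] [InnerProductSpace ℝ V]
  [NormedAddCommGroup W] [InnerProductSpace ℝ W]

/-- Change of basis which makes both components orthogonal. -/
theorem exists_diag (x y : V) (ξ η : W)
    (hind : ∀ a b : ℝ, a • x + b • y = 0 → a • ξ + b • η = 0 → a = 0 ∧ b = 0) :
    ∃ a b c d : ℝ, a * d - b * c ≠ 0 ∧ ⟪a • x + b • y, c • x + d • y⟫ = 0 ∧
      ⟪a • ξ + b • η, c • ξ + d • η⟫ = 0 := by
  -- total Gram matrix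
  set g11 : ℝ := ⟪x, x⟫ + ⟪ξ, ξ⟫ with hg11
  set g12 : ℝ := ⟪x, y⟫ + ⟪ξ, η⟫ with hg12
  set g22 : ℝ := ⟪y, y⟫ + ⟪η, η⟫ with hg22
  have hpos11 : 0 < g11 := by
    by_contra hcon
    push Not at hcon
    have hx : 0 ≤ (⟪x, x⟫ : ℝ) := real_inner_self_nonneg
    have hξ : 0 ≤ (⟪ξ, ξ⟫ : ℝ) := real_inner_self_nonneg
    have hx0 : x = 0 := inner_self_eq_zero.1 (by linarith : (⟪x, x⟫ : ℝ) = 0)
    have hξ0 : ξ = 0 := inner_self_eq_zero.1 (by linarith : (⟪ξ, ξ⟫ : ℝ) = 0)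
    have := hind 1 0 (by rw [hx0]; simp) (by rw [hξ0]; simp)
    exact one_ne_zero this.1
  -- the Gram-Schmidt vector
  set k : ℝ := g12 / g11 with hk
  set g0 : ℝ := ⟪y - k • x, y - k • x⟫ + ⟪η - k • ξ, η - k • ξ⟫ with hg0
  have hpos0 : 0 < g0 := by
    by_contra hcon
    push Not at hcon
    have hx : 0 ≤ (⟪y - k • x, y - k • x⟫ : ℝ) := real_inner_self_nonneg
    have hξ : 0 ≤ (⟪η - k • ξ, η - k • ξ⟫ : ℝ) := real_inner_self_nonneg
    have ex : (⟪y - k • x, y - k • x⟫ : ℝ) = 0 := by linarith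
    have eξ : (⟪η - k • ξ, η - k • ξ⟫ : ℝ) = 0 := by linarith
    have hx0 : y - k • x = 0 := inner_self_eq_zero.1 ex
    have hξ0 : η - k • ξ = 0 := inner_self_eq_zero.1 eξ
    have := hind (-k) 1 (by rw [neg_smul, one_smul, neg_add_eq_sub]; exact hx0)
      (by rw [neg_smul, one_smul, neg_add_eq_sub]; exact hξ0)
    exact one_ne_zero this.2
  have horth : ⟪x, y - k • x⟫ + ⟪ξ, η - k • ξ⟫ = (0 : ℝ) := by
    have e1 : ⟪x, y - k • x⟫ = ⟪x, y⟫ - k * ⟪x, x⟫ := by
      rw [inner_sub_right, inner_smul_right]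
    have e2 : ⟪ξ, η - k • ξ⟫ = ⟪ξ, η⟫ - k * ⟪ξ, ξ⟫ := by
      rw [inner_sub_right, inner_smul_right]
    rw [e1, e2]
    have : k * g11 = g12 := by rw [hk]; field_simp
    have h3 : k * ⟪x, x⟫ + k * ⟪ξ, ξ⟫ = ⟪x, y⟫ + ⟪ξ, η⟫ := by
      rw [← mul_add, ← hg11, this, hg12]
    linarith
  -- scalings
  set α : ℝ := (Real.sqrt g11)⁻¹ with hα
  set β : ℝ := (Real.sqrt g0)⁻¹ with hβ
  have hs11 : 0 < Real.sqrt g11 := Real.sqrt_pos.2 hpos11
  have hs0 : 0 < Real.sqrt g0 := Real.sqrt_pos.2 hpos0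
  have hαpos : 0 < α := inv_pos.2 hs11
  have hβpos : 0 < β := inv_pos.2 hs0
  have hα2 : α ^ 2 * g11 = 1 := by
    rw [hα, inv_pow, Real.sq_sqrt hpos11.le, inv_mul_cancel₀ hpos11.ne']
  have hβ2 : β ^ 2 * g0 = 1 := by
    rw [hβ, inv_pow, Real.sq_sqrt hpos0.le, inv_mul_cancel₀ hpos0.ne']
  -- orthonormal basis (x1, ξ1), (y1, η1)
  set x1 : V := α • x with hx1
  set ξ1 : W := α • ξ with hξ1
  set y1 : V := β • (y - k • x) with hy1
  set η1 : W := β • (η - k • ξ) with hη1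
  have o11 : ⟪x1, x1⟫ + ⟪ξ1, ξ1⟫ = (1 : ℝ) := by
    rw [hx1, hξ1]
    simp only [inner_smul_left, inner_smul_right, RCLike.conj_to_real]
    rw [← hα2, hg11]; ring
  have o22 : ⟪y1, y1⟫ + ⟪η1, η1⟫ = (1 : ℝ) := by
    rw [hy1, hη1]
    rw [real_inner_smul_left, real_inner_smul_right, real_inner_smul_left, real_inner_smul_right]
    rw [← hβ2, hg0]; ring
  have o12 : ⟪x1, y1⟫ + ⟪ξ1, η1⟫ = (0 : ℝ) := by
    rw [hx1, hξ1, hy1, hη1]
    rw [real_inner_smul_left, real_inner_smul_right, real_inner_smul_left, real_inner_smul_right]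
    have : α * (β * ⟪x, y - k • x⟫) + α * (β * ⟪ξ, η - k • ξ⟫)
      = α * β * (⟪x, y - k • x⟫ + ⟪ξ, η - k • ξ⟫) := by ring
    rw [this, horth, mul_zero]
  -- rotation
  obtain ⟨θ, hθ⟩ := exists_angle (⟪x1, x1⟫ : ℝ) ⟪x1, y1⟫ ⟪y1, y1⟫
  set cc := Real.cos θ with hcc
  set ss := Real.sin θ with hss
  have hcs : cc ^ 2 + ss ^ 2 = 1 := by rw [hcc, hss]; exact Real.cos_sq_add_sin_sq θ
  have offx : ⟪cc • x1 + ss • y1, (-ss) • x1 + cc • y1⟫ = (0 : ℝ) := by
    simp only [inner_add_left, inner_add_right, real_inner_smul_left, real_inner_smul_right]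
    rw [real_inner_comm x1 y1]
    linear_combination hθ
  have offξ : ⟪cc • ξ1 + ss • η1, (-ss) • ξ1 + cc • η1⟫ = (0 : ℝ) := by
    simp only [inner_add_left, inner_add_right, real_inner_smul_left, real_inner_smul_right]
    rw [real_inner_comm ξ1 η1]
    linear_combination (cc ^ 2 - ss ^ 2) * o12 + cc * ss * (o22 - o11) - hθ
  -- coefficients
  refine ⟨cc * α - ss * β * k, ss * β, -ss * α - cc * β * k, cc * β, ?_, ?_, ?_⟩
  · have : (cc * α - ss * β * k) * (cc * β) - ss * β * (-ss * α - cc * β * k)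
        = α * β * (cc ^ 2 + ss ^ 2) := by ring
    rw [this, hcs, mul_one]
    positivity
  · have e1 : (cc * α - ss * β * k) • x + (ss * β) • y = cc • x1 + ss • y1 := by
      rw [hx1, hy1]; module
    have e2 : (-ss * α - cc * β * k) • x + (cc * β) • y = (-ss) • x1 + cc • y1 := by
      rw [hx1, hy1]; module
    rw [e1, e2]; exact offx
  · have e1 : (cc * α - ss * β * k) • ξ + (ss * β) • η = cc • ξ1 + ss • η1 := by
      rw [hξ1, hη1]; module
    have e2 : (-ss * α - cc * β * k) • ξ + (cc * β) • η = (-ss) • ξ1 + cc • η1 := by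
      rw [hξ1, hη1]; module
    rw [e1, e2]; exact offξ

/-- Normal form of a 2-plane of `V × W`. -/
theorem normal_form (hV : 2 ≤ finrank ℝ V) (hW : 2 ≤ finrank ℝ W) (x y : V) (ξ η : W)
    (hind : ∀ a b : ℝ, a • x + b • y = 0 → a • ξ + b • η = 0 → a = 0 ∧ b = 0) :
    ∃ a b c d : ℝ, a * d - b * c ≠ 0 ∧
      ∃ e e' : V, ‖e‖ = 1 ∧ ‖e'‖ = 1 ∧ ⟪e, e'⟫ = 0 ∧
      ∃ f f' : W, ‖f‖ = 1 ∧ ‖f'‖ = 1 ∧ ⟪f, f'⟫ = 0 ∧
      ∃ s t p q : ℝ, 0 < s ^ 2 + p ^ 2 ∧ 0 < t ^ 2 + q ^ 2 ∧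
        a • x + b • y = s • e ∧ c • x + d • y = t • e' ∧
        a • ξ + b • η = p • f ∧ c • ξ + d • η = q • f' := by
  obtain ⟨a, b, c, d, hdet, h1, h2⟩ := exists_diag x y ξ η hind
  obtain ⟨e, e', he, he', hee, s, t, hs, ht⟩ := exists_orthonormal_pair hV _ _ h1
  obtain ⟨f, f', hf, hf', hff, p, q, hp, hq⟩ := exists_orthonormal_pair hW _ _ h2
  refine ⟨a, b, c, d, hdet, e, e', he, he', hee, f, f', hf, hf', hff, s, t, p, q,
    ?_, ?_, hs, ht, hp, hq⟩
  · by_contra hcon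
    push Not at hcon
    have hs0 : s = 0 := by nlinarith [sq_nonneg s, sq_nonneg p]
    have hp0 : p = 0 := by nlinarith [sq_nonneg s, sq_nonneg p]
    have hh := hind a b (by rw [hs, hs0, zero_smul]) (by rw [hp, hp0, zero_smul])
    apply hdet
    rw [hh.1, hh.2]; ring
  · by_contra hcon
    push Not at hcon
    have hs0 : t = 0 := by nlinarith [sq_nonneg t, sq_nonneg q]
    have hp0 : q = 0 := by nlinarith [sq_nonneg t, sq_nonneg q]
    have hh := hind c d (by rw [ht, hs0, zero_smul]) (by rw [hq, hp0, zero_smul])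
    apply hdet
    rw [hh.1, hh.2]; ring

end Main

end Pool.Agent.HS

end

section

/-!
# Normal form of a 2-plane of `R^2 × R^3`, coordinate version
-/

namespace Pool.Agent.HS

open scoped RealInnerProductSpace
open Matrix

/-- scalar product of `Fin n → ℝ` as the Euclidean inner product -/
theorem inner_toLp_eq_dot {n : ℕ} (x y : Fin n → ℝ) :
    (inner ℝ (WithLp.toLp 2 x : EuclideanSpace ℝ (Fin n)) (WithLp.toLp 2 y) : ℝ) = x ⬝ᵥ y := by
  rw [EuclideanSpace.inner_toLp_toLp, star_trivial, dotProduct_comm]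

theorem inner_eq_dot_ofLp {n : ℕ} (x y : EuclideanSpace ℝ (Fin n)) :
    (inner ℝ x y : ℝ) = x.ofLp ⬝ᵥ y.ofLp := by
  rw [← inner_toLp_eq_dot]

theorem dot_self_of_norm_one {n : ℕ} (x : EuclideanSpace ℝ (Fin n)) (h : ‖x‖ = 1) :
    x.ofLp ⬝ᵥ x.ofLp = 1 := by
  rw [← inner_eq_dot_ofLp, real_inner_self_eq_norm_sq, h, one_pow]

/-- Normal form of a 2-plane of `R^2 × R^3`: every independent pair `(x, ξ)`, `(y, η)` has a
`GL_2` combination of the form `(s e, p f)`, `(t e', q f')` with `(e, e')` a positively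
oriented orthonormal basis of `R^2` and `f, f'` orthonormal in `R^3`. -/
theorem normal_form_fin (x y : Fin 2 → ℝ) (ξ η : Fin 3 → ℝ)
    (hind : ∀ a b : ℝ, a • x + b • y = 0 → a • ξ + b • η = 0 → a = 0 ∧ b = 0) :
    ∃ a b c d : ℝ, a * d - b * c ≠ 0 ∧
      ∃ e e' : Fin 2 → ℝ, e ⬝ᵥ e = 1 ∧ e' ⬝ᵥ e' = 1 ∧ e ⬝ᵥ e' = 0 ∧
        e 0 * e' 1 - e 1 * e' 0 = 1 ∧
      ∃ f f' : Fin 3 → ℝ, f ⬝ᵥ f = 1 ∧ f' ⬝ᵥ f' = 1 ∧ f ⬝ᵥ f' = 0 ∧
      ∃ s t p q : ℝ, 0 < s ^ 2 + p ^ 2 ∧ 0 < t ^ 2 + q ^ 2 ∧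
        a • x + b • y = s • e ∧ c • x + d • y = t • e' ∧
        a • ξ + b • η = p • f ∧ c • ξ + d • η = q • f' := by
  have hV : 2 ≤ Module.finrank ℝ (EuclideanSpace ℝ (Fin 2)) := by
    rw [finrank_euclideanSpace_fin]
  have hW : 2 ≤ Module.finrank ℝ (EuclideanSpace ℝ (Fin 3)) := by
    rw [finrank_euclideanSpace_fin]; norm_num
  have hind' : ∀ a b : ℝ,
      a • (WithLp.toLp 2 x : EuclideanSpace ℝ (Fin 2)) + b • WithLp.toLp 2 y = 0 →
      a • (WithLp.toLp 2 ξ : EuclideanSpace ℝ (Fin 3)) + b • WithLp.toLp 2 η = 0 →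
      a = 0 ∧ b = 0 := by
    intro a b h1 h2
    refine hind a b ?_ ?_
    · have := congrArg WithLp.ofLp h1
      simpa using this
    · have := congrArg WithLp.ofLp h2
      simpa using this
  obtain ⟨a, b, c, d, hdet, e, e', he, he', hee, f, f', hf, hf', hff, s, t, p, q, hsp, htq,
    hs, ht, hp, hq⟩ := normal_form hV hW (WithLp.toLp 2 x : EuclideanSpace ℝ (Fin 2))
      (WithLp.toLp 2 y) (WithLp.toLp 2 ξ : EuclideanSpace ℝ (Fin 3)) (WithLp.toLp 2 η) hind'
  have hs' : a • x + b • y = s • e.ofLp := by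
    have := congrArg WithLp.ofLp hs; simpa using this
  have ht' : c • x + d • y = t • e'.ofLp := by
    have := congrArg WithLp.ofLp ht; simpa using this
  have hp' : a • ξ + b • η = p • f.ofLp := by
    have := congrArg WithLp.ofLp hp; simpa using this
  have hq' : c • ξ + d • η = q • f'.ofLp := by
    have := congrArg WithLp.ofLp hq; simpa using this
  have E1 : e.ofLp ⬝ᵥ e.ofLp = 1 := dot_self_of_norm_one e he
  have E2 : e'.ofLp ⬝ᵥ e'.ofLp = 1 := dot_self_of_norm_one e' he'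
  have E3 : e.ofLp ⬝ᵥ e'.ofLp = 0 := by rw [← inner_eq_dot_ofLp]; exact hee
  have F1 : f.ofLp ⬝ᵥ f.ofLp = 1 := dot_self_of_norm_one f hf
  have F2 : f'.ofLp ⬝ᵥ f'.ofLp = 1 := dot_self_of_norm_one f' hf'
  have F3 : f.ofLp ⬝ᵥ f'.ofLp = 0 := by rw [← inner_eq_dot_ofLp]; exact hff
  generalize e.ofLp = u at *
  generalize e'.ofLp = v at *
  generalize f.ofLp = g at *
  generalize f'.ofLp = g' at *
  -- orientation of (u, v)
  have hJ : (u 0 * v 1 - u 1 * v 0) ^ 2 = 1 := by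
    simp only [dotProduct, Fin.sum_univ_two] at E1 E2 E3
    have : (u 0 * v 1 - u 1 * v 0) ^ 2
        = (u 0 * u 0 + u 1 * u 1) * (v 0 * v 0 + v 1 * v 1) - (u 0 * v 0 + u 1 * v 1) ^ 2 := by
      ring
    rw [this, E1, E2, E3]; ring
  rcases (sq_eq_one_iff.1 hJ) with h1 | h1
  · exact ⟨a, b, c, d, hdet, u, v, E1, E2, E3, h1, g, g', F1, F2, F3, s, t, p, q, hsp, htq,
      hs', ht', hp', hq'⟩
  · refine ⟨a, b, c, d, hdet, u, -v, E1, ?_, ?_, ?_, g, g', F1, F2, F3, s, -t, p, q, hsp, ?_,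
      hs', ?_, hp', hq'⟩
    · rw [neg_dotProduct, dotProduct_neg, neg_neg]; exact E2
    · rw [dotProduct_neg, E3, neg_zero]
    · simp only [Pi.neg_apply]; linarith
    · rw [neg_sq]; exact htq
    · rw [ht', smul_neg, neg_smul, neg_neg]

end Pool.Agent.HS

end
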