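import Pool.Agent.H94.PT.HS.LkJets
import Pool.Agent.H94.PT.HS.Reg
import Pool.Agent.H94.PT.M08

/-! The parts of this file: HS.LkK0, HS.AmbReg, HS.AmbData. -/

section

set_option maxSynthPendingDepth 3

/-!
# LINK: the Gauss curvature of the round data `d = 0`

In the chart `Yc 0 y l` (inverse stereographic projection) the base metric is
`(x · z) / (1 + |u|²/4)²`; its curvature at `0` is `1`.
-/

namespace Pool.Agent.HS

open Matrix Filter
open scoped Topology ContDiff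

noncomputable section

theorem BvK_zero (x : V3) : Bv 0 x = x := by
  ext i
  fin_cases i <;> simp [Bv]

theorem bvK_zero (x : V3) : bv 0 x = x := by
  ext i
  fin_cases i <;> simp [bv]

theorem om_zero_d (l : V2 →L[ℝ] V3) (u : V2) : om 0 l u = l u := by
  unfold om L1
  simp only [BvK_zero, cross_self, smul_zero, add_zero]

/-- The dot product of the plane as a continuous bilinear form. -/
def dot2L : V2 →L[ℝ] V2 →L[ℝ] ℝ :=
  (ContinuousLinearMap.proj (R := ℝ) (φ := fun _ : Fin 2 => ℝ) 0).smulRight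
      (ContinuousLinearMap.proj (R := ℝ) (φ := fun _ : Fin 2 => ℝ) 0)
    + (ContinuousLinearMap.proj (R := ℝ) (φ := fun _ : Fin 2 => ℝ) 1).smulRight
      (ContinuousLinearMap.proj (R := ℝ) (φ := fun _ : Fin 2 => ℝ) 1)

theorem dot2L_apply (x z : V2) : dot2L x z = x ⬝ᵥ z := by
  rw [dotProduct, Fin.sum_univ_two]
  rfl

/-- `1 + |u|²/4`. -/
def nuK (u : V2) : ℝ := 1 + (u 0 * u 0 + u 1 * u 1) / 4

theorem nuK_pos (u : V2) : 0 < nuK u := by
  unfold nuK
  nlinarith [mul_self_nonneg (u 0), mul_self_nonneg (u 1)]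

theorem cross_perp {a b y : V3} (ha : a ⬝ᵥ y = 0) (hb : b ⬝ᵥ y = 0) :
    (a ⨯₃ b) ⨯₃ y = 0 := by
  rw [dotProduct, Fin.sum_univ_three] at ha hb
  simp only [cross_apply]
  ext i
  fin_cases i <;> simp only [Matrix.cons_val_zero, Matrix.cons_val_one, Matrix.cons_val,
    Fin.zero_eta, Fin.mk_one, Fin.reduceFinMk, Pi.zero_apply]
  · linear_combination b 0 * ha - a 0 * hb
  · linear_combination b 1 * ha - a 1 * hb
  · linear_combination b 2 * ha - a 2 * hb

/-- The base metric of the round data in the chart. -/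
theorem hT_zero_eq {y : V3} {l : V2 →L[ℝ] V3} (h : Fr 0 y l) (u : V2) :
    hT 0 y l u = (nuK u ^ 2)⁻¹ • dot2L := by
  have hN : cayN (l u) = nuK u := by
    have h1 := h.orth u u
    rw [BvK_zero] at h1
    unfold cayN nuK
    rw [h1, dotProduct, Fin.sum_univ_two]
  have hl : ∀ x z : V2, l x ⬝ᵥ l z = x ⬝ᵥ z := fun x z => by
    have := h.orth x z
    rwa [BvK_zero] at this
  have hY : ∀ x : V2, fderiv ℝ (Yc 0 y l) u x = cayE (l u) (l x) ⨯₃ cayR (l u) y := by
    intro x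
    have h1 : Yc 0 y l = (fun a : V3 => cayR a y) ∘ l := by
      funext v
      show cayR (om 0 l v) y = cayR (l v) y
      rw [om_zero_d]
    have h2 : HasFDerivAt (fun a : V3 => cayR a y) ((crossL.flip (cayR (l u) y)).comp (cayE (l u)))
        (l u) := cayR_hasFDerivAt (l u) y
    have h3 := h2.comp u l.hasFDerivAt
    rw [h1, h3.fderiv]
    rfl
  have hE : ∀ x : V2, cayE (l u) (l x) ⨯₃ cayR (l u) y =
      cayR (l u) ((nuK u)⁻¹ • (l x ⨯₃ y)) := by
    intro x
    rw [← cayR_cayE_neg, ← cayR_cross]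
    congr 1
    rw [cayE_apply, cayN_neg, hN]
    have h4 : (-(l u)) ⬝ᵥ y = 0 := by rw [neg_dotProduct, h.perp, neg_zero]
    have h5 := cross_perp h4 (h.perp x)
    simp only [map_smul, map_add, LinearMap.smul_apply, LinearMap.add_apply, h5, smul_zero,
      add_zero]
  ext x z
  rw [hT_apply, hY, hY, hE, hE]
  unfold hB Dl
  rw [BvK_zero, bvK_zero, Yc_unit h.unit, cayR_dot, div_one]
  show _ = (nuK u ^ 2)⁻¹ * dot2L x z
  rw [dot2L_apply, smul_dotProduct, dotProduct_smul, cross_dot_cross, h.unit, h.perp, hl]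
  simp only [smul_eq_mul]
  ring

theorem nuK_contDiff {n : WithTop ℕ∞} : ContDiff ℝ n nuK := by
  unfold nuK
  fun_prop

theorem nuK_hasFDerivAt (u : V2) : HasFDerivAt nuK ((1 / 2 : ℝ) • dot2L u) u := by
  have h0 : HasFDerivAt (fun u : V2 => u 0) (ContinuousLinearMap.proj (R := ℝ)
    (φ := fun _ : Fin 2 => ℝ) 0) u := hasFDerivAt_apply 0 u
  have h1 : HasFDerivAt (fun u : V2 => u 1) (ContinuousLinearMap.proj (R := ℝ)
    (φ := fun _ : Fin 2 => ℝ) 1) u := hasFDerivAt_apply 1 u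
  have h2 := (((h0.mul h0).add (h1.mul h1)).const_mul (1 / 4 : ℝ)).const_add 1
  have h3 : nuK = fun u : V2 => 1 + 1 / 4 * (u 0 * u 0 + u 1 * u 1) := by
    funext v
    unfold nuK
    ring
  rw [h3]
  refine h2.congr_fderiv ?_
  ext x
  simp [dot2L]
  ring

/-- `(1 + |u|²/4)⁻²`. -/
def phK (u : V2) : ℝ := (nuK u ^ 2)⁻¹

theorem phK_hasFDerivAt (u : V2) : HasFDerivAt phK (-((nuK u ^ 3)⁻¹) • dot2L u) u := by
  have h1 : HasFDerivAt (fun u => nuK u ^ 2) _ u := (nuK_hasFDerivAt u).pow 2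
  have h2 : nuK u ^ 2 ≠ 0 := (pow_pos (nuK_pos u) 2).ne'
  have h3 := (hasDerivAt_inv h2).comp_hasFDerivAt u h1
  have h4 : HasFDerivAt phK _ u := h3
  refine h4.congr_fderiv ?_
  have h5 : nuK u ≠ 0 := (nuK_pos u).ne'
  ext x
  simp
  field_simp

theorem phK_fderiv (u x : V2) : fderiv ℝ phK u x = -((nuK u ^ 3)⁻¹) * (u ⬝ᵥ x) := by
  rw [(phK_hasFDerivAt u).fderiv, _root_.smul_apply, dot2L_apply, smul_eq_mul]

theorem nuK_zero : nuK 0 = 1 := by simp [nuK]

theorem phK_fderiv_hasFDerivAt (z : V2) :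
    HasFDerivAt (fun q => fderiv ℝ phK q z) (-(dot2L.flip z)) 0 := by
  have h1 : (fun q => fderiv ℝ phK q z) = fun q => -((nuK q ^ 3)⁻¹) * (dot2L.flip z) q := by
    funext q
    rw [phK_fderiv, ContinuousLinearMap.flip_apply, dot2L_apply]
  rw [h1]
  have h2 : DifferentiableAt ℝ (fun q => -((nuK q ^ 3)⁻¹)) (0 : V2) := by
    have h3 : DifferentiableAt ℝ (fun q => nuK q ^ 3) (0 : V2) :=
      (((nuK_contDiff (n := 1)).differentiable (by norm_num)) 0).pow 3
    exact (h3.inv (pow_pos (nuK_pos 0) 3).ne').neg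
  have h4 : HasFDerivAt (fun q => -((nuK q ^ 3)⁻¹) * (dot2L.flip z) q) _ (0 : V2) :=
    h2.hasFDerivAt.mul ((dot2L.flip z).hasFDerivAt (x := (0 : V2)))
  refine h4.congr_fderiv ?_
  ext x
  simp [nuK_zero]

theorem phK_dd (x z : V2) : fderiv ℝ (fun q => fderiv ℝ phK q z) 0 x = -(x ⬝ᵥ z) := by
  rw [(phK_fderiv_hasFDerivAt z).fderiv, _root_.neg_apply, ContinuousLinearMap.flip_apply,
    dot2L_apply]

/-- The Gauss curvature of the round data is `1`. -/
theorem Rm_hT_zero {y : V3} {l : V2 →L[ℝ] V3} (h : Fr 0 y l) :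
    Rm (hT 0 y l) 0 e0 e1 = 1 := by
  have hG : hT 0 y l = fun u => phK u • dot2L := funext fun u => hT_zero_eq h u
  have hval : ∀ a b : V2, (fun r => hT 0 y l r a b) = fun r => (a ⬝ᵥ b) * phK r := by
    intro a b
    funext r
    rw [hG]
    show phK r * dot2L a b = _
    rw [dot2L_apply, mul_comm]
  have hphd : ∀ q, DifferentiableAt ℝ phK q := fun q => (phK_hasFDerivAt q).differentiableAt
  have hD2 : ∀ x z a b : V2, D2 (hT 0 y l) 0 x z a b = -((a ⬝ᵥ b) * (x ⬝ᵥ z)) := by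
    intro x z a b
    unfold D2
    rw [hval]
    have h1 : (fun q => fderiv ℝ (fun r => (a ⬝ᵥ b) * phK r) q z) =
        fun q => (a ⬝ᵥ b) * fderiv ℝ phK q z := by
      funext q
      rw [fderiv_const_mul (hphd q)]
      rfl
    have h2 : DifferentiableAt ℝ (fun q => fderiv ℝ phK q z) 0 :=
      (phK_fderiv_hasFDerivAt z).differentiableAt
    rw [h1, fderiv_const_mul h2]
    show (a ⬝ᵥ b) * fderiv ℝ (fun q => fderiv ℝ phK q z) 0 x = _
    rw [phK_dd]
    ring
  have hph0 : fderiv ℝ phK 0 = 0 := by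
    ext x
    rw [phK_fderiv]
    simp
  have hGam : ∀ x z : V2, Gam (hT 0 y l) 0 x z = 0 := by
    intro x z
    have h1 : ∀ a b : V2, fderiv ℝ (fun q => hT 0 y l q a) 0 b = 0 := by
      intro a b
      have h2 : (fun q => hT 0 y l q a) = fun q => phK q • dot2L a := by
        funext q
        rw [hG]
        rfl
      rw [h2]
      have h3 := (hphd 0).hasFDerivAt.smul_const (dot2L a)
      rw [h3.fderiv, hph0]
      simp
    have h4 : ∀ a b : V2, fderiv ℝ (fun q => hT 0 y l q a b) 0 = 0 := by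
      intro a b
      rw [hval, fderiv_const_mul (hphd 0), hph0, smul_zero]
    unfold Gam
    rw [h1, h1, h4]
    simp
  unfold Rm
  rw [hD2, hD2, hD2, hGam, hGam, hGam]
  have hcov : ∀ g : V2 →L[ℝ] V2 →L[ℝ] ℝ, cov g 0 0 = 0 := fun g => by
    unfold cov
    rfl
  rw [hcov]
  simp [e0, e1, dotProduct, Fin.sum_univ_two]
  norm_num

end

end Pool.Agent.HS

end

section

/-!
# The concrete ambient metric is smooth and positive definite near the sphere (project HS)

For `0 < d < 1`, `0 < r ≤ 1/20` and `y ⬝ᵥ y = 1` the metric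
`GE (hBL d) (cAL d) (qk r (kapM d))` is smooth and positive definite at `(y, w)`, all `w`.
-/

set_option maxSynthPendingDepth 3

namespace Pool.Agent.HS

open Matrix Topology Filter

variable {d : ℝ} {y : V3}

/-! ### Smoothness -/

theorem contDiff_Dl {n : WithTop ℕ∞} (d : ℝ) : ContDiff ℝ n (Dl d) := by
  have h : Dl d = fun y : V3 => (1 - d) * y 0 * y 0 + (1 - d ^ 2) * y 1 * y 1
      + (1 + d) * y 2 * y 2 := by
    funext y
    rw [Dl, bv, dotProduct, Fin.sum_univ_three]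
    simp only [Matrix.cons_val_zero, Matrix.cons_val_one, Matrix.cons_val]
  rw [h]
  fun_prop

theorem contDiffAt_Dl_inv {n : WithTop ℕ∞} (h : Dl d y ≠ 0) :
    ContDiffAt ℝ n (fun y => (Dl d y)⁻¹) y :=
  (contDiff_Dl d).contDiffAt.inv h

theorem contDiffAt_hBL {n : WithTop ℕ∞} (h : Dl d y ≠ 0) : ContDiffAt ℝ n (hBL d) y := by
  unfold hBL
  exact (contDiffAt_Dl_inv h).smul contDiffAt_const

theorem contDiffAt_LmL {n : WithTop ℕ∞} (h : Dl d y ≠ 0) : ContDiffAt ℝ n (LmL d) y := by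
  unfold LmL
  exact (contDiffAt_Dl_inv h).smul (crossL.contDiff.contDiffAt.clm_comp contDiffAt_const)

theorem contDiffAt_cAL {n : WithTop ℕ∞} (h : Dl d y ≠ 0) : ContDiffAt ℝ n (cAL d) y := by
  unfold cAL
  have h1 : ContDiffAt ℝ n (fun y => (d ^ 2) • (dotL wv).comp (LmL d y)) y :=
    ContDiffAt.const_smul (d ^ 2) (contDiffAt_const.clm_comp (contDiffAt_LmL h))
  refine ContDiffAt.add (ContDiffAt.sub ?_ ?_) ?_
  · exact (contDiffAt_const.mul (contDiff_Dl d).contDiffAt).smul (contDiffAt_LmL h)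
  · exact contDiffAt_const.clm_comp (contDiffAt_LmL h)
  · exact h1.smulRight contDiffAt_id

theorem kapM_apply (d : ℝ) (y : V3) (a b : Fin 3) :
    kapM d y a b = 15 / 16 * (y a * y b) + 33 / 8 * d ^ 2 * (y a * wv b + y b * wv a)
      + d ^ 2 / 2 * (qv a * qv b) := by
  have e : ∀ (v : V3) (i : Fin 3), v ⬝ᵥ (Pi.single i (1 : ℝ) : V3) = v i := by
    intro v i
    rw [dotProduct_single, mul_one]
  rw [kapM, kap, e, e, e, e, e, e]

theorem kapM_isSymm (d : ℝ) (y : V3) : (kapM d y).IsSymm := by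
  refine Matrix.IsSymm.ext fun a b => ?_
  rw [kapM_apply, kapM_apply]
  ring

/-! ### Positivity -/

theorem abs_coord_le_one (hy : y ⬝ᵥ y = 1) (a : Fin 3) : |y a| ≤ 1 := by
  rw [dotProduct] at hy
  have h1 : y a * y a ≤ 1 := by
    rw [← hy]
    exact Finset.single_le_sum (f := fun i => y i * y i) (fun i _ => mul_self_nonneg _)
      (Finset.mem_univ a)
  rw [abs_le]
  constructor <;> nlinarith

theorem abs_kapM_le (hd : 0 < d) (hd1 : d < 1) (hy : y ⬝ᵥ y = 1) (a b : Fin 3) :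
    |kapM d y a b| ≤ 20 := by
  rw [kapM_apply]
  have ha := abs_le.1 (abs_coord_le_one hy a)
  have hb := abs_le.1 (abs_coord_le_one hy b)
  have hw : ∀ i : Fin 3, 0 ≤ wv i ∧ wv i ≤ 2 := by
    intro i
    fin_cases i <;> simp [wv]
  have hq : ∀ i : Fin 3, qv i = 1 := by
    intro i
    fin_cases i <;> simp [qv]
  have h1 := hw a
  have h2 := hw b
  rw [hq a, hq b]
  have hdd : d ^ 2 ≤ 1 := by nlinarith
  have hdd0 : 0 ≤ d ^ 2 := sq_nonneg d
  have e1 : |y a * y b| ≤ 1 := by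
    rw [abs_mul]
    exact mul_le_one₀ (abs_coord_le_one hy a) (abs_nonneg _) (abs_coord_le_one hy b)
  have e2 : |y a * wv b| ≤ 2 := by
    rw [abs_mul, abs_of_nonneg h2.1]
    have := abs_coord_le_one hy a
    nlinarith [abs_nonneg (y a)]
  have e3 : |y b * wv a| ≤ 2 := by
    rw [abs_mul, abs_of_nonneg h1.1]
    have := abs_coord_le_one hy b
    nlinarith [abs_nonneg (y b)]
  have e4 : |33 / 8 * d ^ 2 * (y a * wv b + y b * wv a)| ≤ 33 / 8 * 1 * 4 := by
    rw [abs_mul, abs_of_nonneg (by positivity : (0 : ℝ) ≤ 33 / 8 * d ^ 2)]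
    have h3 : |y a * wv b + y b * wv a| ≤ 4 := (abs_add_le _ _).trans (by linarith)
    have h4 : 33 / 8 * d ^ 2 ≤ 33 / 8 * 1 := by linarith
    exact mul_le_mul h4 h3 (abs_nonneg _) (by norm_num)
  have e5 : |15 / 16 * (y a * y b)| ≤ 15 / 16 := by
    rw [abs_mul, abs_of_nonneg (by norm_num : (0 : ℝ) ≤ 15 / 16)]
    linarith
  have e6 : |d ^ 2 / 2 * (1 * 1)| ≤ 1 / 2 := by
    rw [abs_of_nonneg (by positivity)]
    linarith
  calc |15 / 16 * (y a * y b) + 33 / 8 * d ^ 2 * (y a * wv b + y b * wv a) + d ^ 2 / 2 * (1 * 1)|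
      ≤ |15 / 16 * (y a * y b)| + |33 / 8 * d ^ 2 * (y a * wv b + y b * wv a)|
        + |d ^ 2 / 2 * (1 * 1)| := (abs_add_le _ _).trans (by
          have := abs_add_le (15 / 16 * (y a * y b)) (33 / 8 * d ^ 2 * (y a * wv b + y b * wv a))
          linarith)
    _ ≤ 20 := by linarith

theorem qk_kapM_symm (r : ℝ) (d : ℝ) (y x z : V3) :
    x ⬝ᵥ qk r (kapM d) y z = qk r (kapM d) y x ⬝ᵥ z :=
  reg_qk_symm (kapM_isSymm d y) x z

theorem qk_kapM_pos {r : ℝ} (hr : 0 < r) (hr1 : r ≤ 1 / 20) (hd : 0 < d) (hd1 : d < 1)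
    (hy : y ⬝ᵥ y = 1) (x : V3) (hx : x ≠ 0) : 0 < x ⬝ᵥ qk r (kapM d) y x := by
  refine reg_qk_pos hr.ne' (fun v hv => ?_) x hx
  refine bf_one_sub_pos (C := 20) (abs_kapM_le hd hd1 hy) ?_ v hv
  nlinarith

end Pool.Agent.HS

end

section

set_option autoImplicit false
set_option maxSynthPendingDepth 3

/-!
# The Euler-top data on the ambient space (project HS, block AMB)
-/

open Matrix Topology Filter Set
open scoped ContDiff

namespace Pool.Agent.HS

noncomputable section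

variable {d : ℝ} {y : V3} {n : WithTop ℕ∞}

theorem contDiff_kapM (a b : Fin 3) : ContDiff ℝ n (fun y : V3 => kapM d y a b) := by
  have h : ∀ v : V3, ContDiff ℝ n (fun y : V3 => y ⬝ᵥ v) := by
    intro v
    have h1 : (fun y : V3 => y ⬝ᵥ v) = fun y => dotL y v := rfl
    rw [h1]
    exact dotL.contDiff.clm_apply contDiff_const
  unfold kapM kap
  have h1 := h (Pi.single a 1)
  have h2 := h (Pi.single b 1)
  fun_prop

theorem isInner_hBL (hd : |d| < 1) (hy : y ⬝ᵥ y = 1) : IsInner (hBL d y) where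
  symm u v := by
    rw [hBL_apply, hBL_apply, hB, hB]
    congr 1
    simp [Bv, dotProduct, Fin.sum_univ_three]
    ring
  pos u hu := by
    rw [hBL_apply, hB]
    refine div_pos ?_ (Dl_pos hd hy)
    have h1 := abs_lt.1 hd
    have h2 : Bv d u ⬝ᵥ u = (1 + d) * u 0 ^ 2 + u 1 ^ 2 + (1 - d) * u 2 ^ 2 := by
      simp [Bv, dotProduct, Fin.sum_univ_three]
      ring
    rw [h2]
    have ha : 0 < 1 - d := by linarith [h1.2]
    have hb : 0 < 1 + d := by linarith [h1.1]
    have h3 : u 0 ≠ 0 ∨ u 1 ≠ 0 ∨ u 2 ≠ 0 := by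
      by_contra h
      push Not at h
      apply hu
      ext i
      fin_cases i
      · exact h.1
      · exact h.2.1
      · exact h.2.2
    have e0 := mul_nonneg hb.le (sq_nonneg (u 0))
    have e1 := sq_nonneg (u 1)
    have e2 := mul_nonneg ha.le (sq_nonneg (u 2))
    rcases h3 with h | h | h
    · have := mul_pos hb (sq_pos_of_ne_zero h)
      linarith
    · have := sq_pos_of_ne_zero h
      linarith
    · have := mul_pos ha (sq_pos_of_ne_zero h)
      linarith

end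

end Pool.Agent.HS

end
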