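import Pool.Agent.H94.PT.HS.Cay
import Pool.Agent.H94.PT.M01

/-! The parts of this file: HS.GZero, HS.LkA, HS.LkB, HS.LkC. -/

section

/-!
# Block G: the limit form at `d = 0` is positive definite
-/

open Matrix

namespace Pool.Agent.HS

noncomputable section

theorem Bv_zero (x : Fin 3 → ℝ) : Bv 0 x = x := by
  ext i; fin_cases i <;> simp [Bv]

theorem bv_zero (x : Fin 3 → ℝ) : bv 0 x = x := by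
  ext i; fin_cases i <;> simp [bv]

theorem Dl_zero {y : Fin 3 → ℝ} (hy : y ⬝ᵥ y = 1) : Dl 0 y = 1 := by
  rw [Dl, bv_zero, hy]

theorem tau_zero {y : Fin 3 → ℝ} (hy : y ⬝ᵥ y = 1) : tau 0 y = 1 := by
  rw [tau, bv_zero, hy]

theorem KG_zero {y : Fin 3 → ℝ} (hy : y ⬝ᵥ y = 1) : KG 0 y = 1 := by
  rw [KG, Dl_zero hy, tau_zero hy]; norm_num

theorem L1_zero (L : Fin 3 → ℝ) : L1 0 L = 0 := by rw [L1_eq, zero_smul]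

theorem y1_zero (y L : Fin 3 → ℝ) : y1 0 y L = TT y L := by rw [y1, Bv_zero, TT]

theorem T1_zero {y L : Fin 3 → ℝ} (hL : L ⬝ᵥ L = 1) (hyL : y ⬝ᵥ L = 0) :
    T1 0 y L = -y := by rw [T1, Bv_zero, L_cross_T hL hyL]

theorem y2_zero {y L : Fin 3 → ℝ} (hL : L ⬝ᵥ L = 1) (hyL : y ⬝ᵥ L = 0) :
    y2 0 y L = -y := by
  rw [y2, L1_zero, Bv_zero, Bv_zero, y1_zero, L_cross_T hL hyL]; simp

theorem T2_zero {y L : Fin 3 → ℝ} (hL : L ⬝ᵥ L = 1) (hyL : y ⬝ᵥ L = 0) :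
    T2 0 y L = -TT y L := by
  rw [T2, L1_zero, Bv_zero, Bv_zero, T1_zero hL hyL, map_neg, TT]; simp

theorem Fy_zero {y : Fin 3 → ℝ} (hy : y ⬝ᵥ y = 1) : Fy 0 y = -3 / 4 := by
  rw [Fy, Dl_zero hy, tau_zero hy]; norm_num

/-- Pythagoras in the frame. -/
theorem frame_sq {y L : Fin 3 → ℝ} (hy : y ⬝ᵥ y = 1) (hL : L ⬝ᵥ L = 1) (hyL : y ⬝ᵥ L = 0)
    (c : Fin 3 → ℝ) :
    (c ⬝ᵥ y) ^ 2 + (c ⬝ᵥ TT y L) ^ 2 + (c ⬝ᵥ L) ^ 2 = c ⬝ᵥ c := by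
  have h : (c ⬝ᵥ TT y L) ^ 2 = (c ⬝ᵥ c) * (L ⬝ᵥ L) * (y ⬝ᵥ y)
      + 2 * (c ⬝ᵥ L) * (y ⬝ᵥ L) * (c ⬝ᵥ y) - (c ⬝ᵥ c) * (y ⬝ᵥ L) ^ 2
      - (L ⬝ᵥ L) * (c ⬝ᵥ y) ^ 2 - (y ⬝ᵥ y) * (c ⬝ᵥ L) ^ 2 := by
    simp [TT, cross_apply, dotProduct, Fin.sum_univ_three]; ring
  rw [h, hy, hL, hyL]; ring

/-- The quartic form of the certificate. -/
def R4 (L : Fin 3 → ℝ) : ℝ :=
  (wv ⬝ᵥ L) ^ 2 + 2 / 3 * ((qv ⬝ᵥ l1 L) ^ 2 + (qv ⬝ᵥ L) * (qv ⬝ᵥ l2 L))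
    - 11 / 72 * (qv ⬝ᵥ L) ^ 2 * (3 - (qv ⬝ᵥ L) ^ 2)

theorem R4_pos {L : Fin 3 → ℝ} (hL : L ⬝ᵥ L = 1) : 0 < R4 L := by
  have hn : L 0 * L 0 + L 1 * L 1 + L 2 * L 2 = 1 := by
    rw [← hL]; simp [dotProduct, Fin.sum_univ_three]
  have key : R4 L = 1 / 144 * (24 * ((L 0 - L 2) ^ 2 - 1 / 2 * (L 0 + L 2) ^ 2
        + L 1 * (L 0 + L 2) - L 1 ^ 2) ^ 2
      + (L 0 - L 2) ^ 2 * (63 * (L 0 + L 2) ^ 2 + 222 * (L 1 * (L 0 + L 2)) + 207 * L 1 ^ 2)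
      + (31 * (L 0 + L 2) ^ 4 + 94 * (L 1 * (L 0 + L 2) ^ 3) + 513 * (L 1 ^ 2 * (L 0 + L 2) ^ 2)
        + 676 * (L 1 ^ 3 * (L 0 + L 2)) + 508 * L 1 ^ 4)) := by
    have e1 : wv ⬝ᵥ L = L 0 + 2 * L 1 + L 2 := by
      simp [wv, dotProduct, Fin.sum_univ_three]
    have e2 : qv ⬝ᵥ L = L 0 + L 1 + L 2 := by
      simp [qv, dotProduct, Fin.sum_univ_three]
    have e3 : qv ⬝ᵥ l1 L = L 1 * L 2 - 2 * (L 0 * L 2) + L 0 * L 1 := by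
      simp [qv, l1, Ph, cross_apply, dotProduct, Fin.sum_univ_three]; ring
    have e4 : qv ⬝ᵥ l2 L = L 0 * (L 1 ^ 2 - 2 * L 2 ^ 2) - 2 * L 1 * (L 0 ^ 2 + L 2 ^ 2)
        + L 2 * (L 1 ^ 2 - 2 * L 0 ^ 2) := by
      simp [qv, l2, l1, Ph, cross_apply, dotProduct, Fin.sum_univ_three]; ring
    have e5 : R4 L = (wv ⬝ᵥ L) ^ 2 * (L 0 * L 0 + L 1 * L 1 + L 2 * L 2)
        + 2 / 3 * ((qv ⬝ᵥ l1 L) ^ 2 + (qv ⬝ᵥ L) * (qv ⬝ᵥ l2 L))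
        - 11 / 72 * (qv ⬝ᵥ L) ^ 2 * (3 * (L 0 * L 0 + L 1 * L 1 + L 2 * L 2)
          - (qv ⬝ᵥ L) ^ 2) := by
      rw [hn, R4]; ring
    rw [e5, e1, e2, e3, e4]; ring
  have q1 : 0 ≤ 63 * (L 0 + L 2) ^ 2 + 222 * (L 1 * (L 0 + L 2)) + 207 * L 1 ^ 2 := by
    nlinarith [sq_nonneg (63 * (L 0 + L 2) + 111 * L 1), sq_nonneg (L 1)]
  have q2 : (L 0 + L 2 ≠ 0 ∨ L 1 ≠ 0) → 0 < 31 * (L 0 + L 2) ^ 4
      + 94 * (L 1 * (L 0 + L 2) ^ 3) + 513 * (L 1 ^ 2 * (L 0 + L 2) ^ 2)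
        + 676 * (L 1 ^ 3 * (L 0 + L 2)) + 508 * L 1 ^ 4 := by
    intro h
    have i1 : 31 * (L 0 + L 2) ^ 4 + 94 * (L 1 * (L 0 + L 2) ^ 3)
        + 513 * (L 1 ^ 2 * (L 0 + L 2) ^ 2) + 676 * (L 1 ^ 3 * (L 0 + L 2)) + 508 * L 1 ^ 4
        = 1 / 30 * (30 * (L 0 + L 2) ^ 2 + 47 * (L 1 * (L 0 + L 2))) ^ 2 + (L 0 + L 2) ^ 4
          + (513 - 2209 / 30) * (L 1 ^ 2 * (L 0 + L 2) ^ 2) + 676 * (L 1 ^ 3 * (L 0 + L 2))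
          + 508 * L 1 ^ 4 := by ring
    have i2 : (513 - 2209 / 30) * (L 1 ^ 2 * (L 0 + L 2) ^ 2) + 676 * (L 1 ^ 3 * (L 0 + L 2))
          + 508 * L 1 ^ 4 = 400 * (L 1 * (L 0 + L 2) + 169 / 200 * L 1 ^ 2) ^ 2
          + (513 - 2209 / 30 - 400) * (L 1 * (L 0 + L 2)) ^ 2
          + (508 - 400 * (169 / 200) ^ 2) * (L 1 ^ 2) ^ 2 := by ring
    have i3 : 0 < (L 0 + L 2) ^ 4 + (508 - 400 * (169 / 200) ^ 2) * (L 1 ^ 2) ^ 2 := by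
      rcases h with h | h
      · have : 0 < (L 0 + L 2) ^ 4 := by positivity
        have : 0 ≤ (508 - 400 * (169 / 200) ^ 2) * (L 1 ^ 2) ^ 2 :=
          mul_nonneg (by norm_num) (by positivity)
        linarith
      · have : 0 ≤ (L 0 + L 2) ^ 4 := by positivity
        have : 0 < (508 - 400 * (169 / 200) ^ 2) * (L 1 ^ 2) ^ 2 :=
          mul_pos (by norm_num) (by positivity)
        linarith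
    have i4 : 0 ≤ 1 / 30 * (30 * (L 0 + L 2) ^ 2 + 47 * (L 1 * (L 0 + L 2))) ^ 2 := by
      positivity
    have i5 : 0 ≤ 400 * (L 1 * (L 0 + L 2) + 169 / 200 * L 1 ^ 2) ^ 2 := by positivity
    have i6 : 0 ≤ (513 - 2209 / 30 - 400) * (L 1 * (L 0 + L 2)) ^ 2 :=
      mul_nonneg (by norm_num) (by positivity)
    linarith
  rw [key]
  by_cases h : L 0 + L 2 ≠ 0 ∨ L 1 ≠ 0
  · have h1 := q2 h
    have h2 := mul_nonneg (sq_nonneg (L 0 - L 2)) q1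
    have h3 : 0 ≤ 24 * ((L 0 - L 2) ^ 2 - 1 / 2 * (L 0 + L 2) ^ 2
        + L 1 * (L 0 + L 2) - L 1 ^ 2) ^ 2 := by positivity
    linarith
  · push Not at h
    obtain ⟨h0, h1⟩ := h
    have h2 : L 2 = -L 0 := by linarith
    have h3 : L 0 ≠ 0 := by
      intro h4
      rw [h2, h1, h4] at hn
      norm_num at hn
    rw [h2, h1]
    have h5 : 0 < (L 0) ^ 4 := by positivity
    nlinarith [h5]

end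

end Pool.Agent.HS

end

section

/-!
# Link block (project HS): coordinate formulas and derivatives of `Dl`, `hB`, `cA`
-/

open Matrix

namespace Pool.Agent.HS

theorem k_dot (a b : Fin 3 → ℝ) : a ⬝ᵥ b = a 0 * b 0 + a 1 * b 1 + a 2 * b 2 := by
  simp [dotProduct, Fin.sum_univ_three]

theorem k_cr0 (a b : Fin 3 → ℝ) : (a ⨯₃ b) 0 = a 1 * b 2 - a 2 * b 1 := by
  simp [cross_apply]

theorem k_cr1 (a b : Fin 3 → ℝ) : (a ⨯₃ b) 1 = a 2 * b 0 - a 0 * b 2 := by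
  simp [cross_apply]

theorem k_cr2 (a b : Fin 3 → ℝ) : (a ⨯₃ b) 2 = a 0 * b 1 - a 1 * b 0 := by
  simp [cross_apply]

theorem k_Bv0 (d : ℝ) (x : Fin 3 → ℝ) : Bv d x 0 = (1 + d) * x 0 := rfl
theorem k_Bv1 (d : ℝ) (x : Fin 3 → ℝ) : Bv d x 1 = x 1 := rfl
theorem k_Bv2 (d : ℝ) (x : Fin 3 → ℝ) : Bv d x 2 = (1 - d) * x 2 := rfl
theorem k_bv0 (d : ℝ) (x : Fin 3 → ℝ) : bv d x 0 = (1 - d) * x 0 := rfl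
theorem k_bv1 (d : ℝ) (x : Fin 3 → ℝ) : bv d x 1 = (1 - d ^ 2) * x 1 := rfl
theorem k_bv2 (d : ℝ) (x : Fin 3 → ℝ) : bv d x 2 = (1 + d) * x 2 := rfl
theorem k_wv0 : wv 0 = 1 := rfl
theorem k_wv1 : wv 1 = 2 := rfl
theorem k_wv2 : wv 2 = 1 := rfl

/-- `B` as a continuous linear map. -/
noncomputable def BvF (d : ℝ) : (Fin 3 → ℝ) →L[ℝ] (Fin 3 → ℝ) :=
  LinearMap.toContinuousLinearMap
    { toFun := Bv d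
      map_add' := fun x y => by ext i; fin_cases i <;> simp [Bv] <;> ring
      map_smul' := fun c x => by ext i; fin_cases i <;> simp [Bv] <;> ring }

theorem BvF_apply (d : ℝ) (x : Fin 3 → ℝ) : BvF d x = Bv d x := rfl

/-- the linear form `x ↦ w · x` -/
noncomputable def dotF (w : Fin 3 → ℝ) : (Fin 3 → ℝ) →L[ℝ] ℝ :=
  LinearMap.toContinuousLinearMap
    { toFun := fun x => w ⬝ᵥ x
      map_add' := fun x y => dotProduct_add _ _ _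
      map_smul' := fun c x => by simp }

theorem dotF_apply (w x : Fin 3 → ℝ) : dotF w x = w ⬝ᵥ x := rfl

theorem k_Dl (d : ℝ) (y : Fin 3 → ℝ) :
    Dl d y = (1 - d) * y 0 ^ 2 + (1 - d ^ 2) * y 1 ^ 2 + (1 + d) * y 2 ^ 2 := by
  rw [Dl, k_dot, k_bv0, k_bv1, k_bv2]; ring

theorem Dl_hasFDerivAt (d : ℝ) (y : Fin 3 → ℝ) :
    HasFDerivAt (fun q => Dl d q) ((2 : ℝ) • dotF (bv d y)) y := by
  have hp : ∀ i : Fin 3, HasFDerivAt (fun q : Fin 3 → ℝ => q i)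
      (ContinuousLinearMap.proj i : (Fin 3 → ℝ) →L[ℝ] ℝ) y := fun i =>
    (ContinuousLinearMap.proj i : (Fin 3 → ℝ) →L[ℝ] ℝ).hasFDerivAt
  have h := ((((hp 0).pow 2).const_mul (1 - d)).add (((hp 1).pow 2).const_mul (1 - d ^ 2))).add
    (((hp 2).pow 2).const_mul (1 + d))
  have e : (fun q : Fin 3 → ℝ => Dl d q)
      = fun q => (1 - d) * q 0 ^ 2 + (1 - d ^ 2) * q 1 ^ 2 + (1 + d) * q 2 ^ 2 := by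
    funext q; exact k_Dl d q
  rw [e]
  refine h.congr_fderiv ?_
  ext v
  change (1 - d) * ((2 • y 0 ^ (2 - 1)) * v 0) + (1 - d ^ 2) * ((2 • y 1 ^ (2 - 1)) * v 1)
    + (1 + d) * ((2 • y 2 ^ (2 - 1)) * v 2) = 2 * (bv d y ⬝ᵥ v)
  rw [k_dot, k_bv0, k_bv1, k_bv2]
  simp only [nsmul_eq_mul]
  push_cast
  ring

end Pool.Agent.HS

end

section

/-!
# Link block (project HS): the derivative of the connection form `cA` and its curvature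
-/

open Matrix
open scoped Topology

namespace Pool.Agent.HS

/-- `q ↦ q × B z`. -/
noncomputable def XB (d : ℝ) (z : Fin 3 → ℝ) : (Fin 3 → ℝ) →L[ℝ] (Fin 3 → ℝ) :=
  crossL.flip (Bv d z)

theorem XB_apply (d : ℝ) (z q : Fin 3 → ℝ) : XB d z q = q ⨯₃ Bv d z := rfl

theorem cA_eq (d : ℝ) {q : Fin 3 → ℝ} (z : Fin 3 → ℝ) (hD : Dl d q ≠ 0) :
    cA d q z = (1 / 2 : ℝ) • XB d z q - (Dl d q)⁻¹ • BvF d (XB d z q)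
      + (d ^ 2 * ((Dl d q)⁻¹ * dotF wv (XB d z q))) • q := by
  have e1 : (1 / 2 * Dl d q) • Lm d q z = (1 / 2 : ℝ) • (q ⨯₃ Bv d z) := by
    rw [Lm, smul_smul]
    congr 1
    field_simp
  have e2 : Bv d (Lm d q z) = (Dl d q)⁻¹ • Bv d (q ⨯₃ Bv d z) := by
    rw [Lm, ← BvF_apply, map_smul]; rfl
  have e3 : wv ⬝ᵥ Lm d q z = (Dl d q)⁻¹ * (wv ⬝ᵥ (q ⨯₃ Bv d z)) := by
    rw [Lm, dotProduct_smul, smul_eq_mul]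
  rw [cA, e1, e2, e3]
  rfl

/-- The derivative of `q ↦ cA d q z` at `y` in the direction `u`. -/
noncomputable def cAd (d : ℝ) (y z u : Fin 3 → ℝ) : Fin 3 → ℝ :=
  (1 / 2 : ℝ) • (u ⨯₃ Bv d z)
    + (2 * (bv d y ⬝ᵥ u) * (Dl d y)⁻¹ ^ 2) • Bv d (y ⨯₃ Bv d z)
    - (Dl d y)⁻¹ • Bv d (u ⨯₃ Bv d z)
    + (d ^ 2 * ((Dl d y)⁻¹ * (wv ⬝ᵥ (u ⨯₃ Bv d z))
        - 2 * (bv d y ⬝ᵥ u) * (Dl d y)⁻¹ ^ 2 * (wv ⬝ᵥ (y ⨯₃ Bv d z)))) • y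
    + (d ^ 2 * ((Dl d y)⁻¹ * (wv ⬝ᵥ (y ⨯₃ Bv d z)))) • u

theorem Dl_inv_hasFDerivAt (d : ℝ) {y : Fin 3 → ℝ} (hD : Dl d y ≠ 0) :
    HasFDerivAt (fun q => (Dl d q)⁻¹) (-((Dl d y) ^ 2)⁻¹ • ((2 : ℝ) • dotF (bv d y))) y :=
  (hasDerivAt_inv hD).comp_hasFDerivAt y (Dl_hasFDerivAt d y)

theorem k_Dl_continuous (d : ℝ) : Continuous (fun q => Dl d q) := by
  have : (fun q : Fin 3 → ℝ => Dl d q)
      = fun q => (1 - d) * q 0 ^ 2 + (1 - d ^ 2) * q 1 ^ 2 + (1 + d) * q 2 ^ 2 := by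
    funext q; exact k_Dl d q
  rw [this]
  fun_prop

theorem cA_fderiv (d : ℝ) {y : Fin 3 → ℝ} (z : Fin 3 → ℝ) (hD : Dl d y ≠ 0) :
    DifferentiableAt ℝ (fun q => cA d q z) y ∧
      ∀ u, fderiv ℝ (fun q => cA d q z) y u = cAd d y z u := by
  have hev : (fun q => cA d q z) =ᶠ[𝓝 y] fun q => (1 / 2 : ℝ) • XB d z q
      - (Dl d q)⁻¹ • BvF d (XB d z q) + (d ^ 2 * ((Dl d q)⁻¹ * dotF wv (XB d z q))) • q := by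
    have h1 : ∀ᶠ q in 𝓝 y, Dl d q ≠ 0 := (k_Dl_continuous d).continuousAt.eventually_ne hD
    filter_upwards [h1] with q hq
    exact cA_eq d z hq
  have hi := Dl_inv_hasFDerivAt d hD
  have hX : HasFDerivAt (fun q => XB d z q) (XB d z) y := (XB d z).hasFDerivAt
  have hBX : HasFDerivAt (fun q => BvF d (XB d z q)) ((BvF d).comp (XB d z)) y :=
    (BvF d).hasFDerivAt.comp y hX
  have hwX : HasFDerivAt (fun q => dotF wv (XB d z q)) ((dotF wv).comp (XB d z)) y :=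
    (dotF wv).hasFDerivAt.comp y hX
  have hid : HasFDerivAt (fun q : Fin 3 → ℝ => q) (ContinuousLinearMap.id ℝ (Fin 3 → ℝ)) y :=
    hasFDerivAt_id y
  have h := ((hX.const_smul (1 / 2 : ℝ)).sub (hi.smul hBX)).add
    (((hi.mul hwX).const_mul (d ^ 2)).smul hid)
  have h' := h.congr_of_eventuallyEq hev
  refine ⟨h'.differentiableAt, fun u => ?_⟩
  rw [h'.fderiv]
  change (1 / 2 : ℝ) • (u ⨯₃ Bv d z)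
      - ((Dl d y)⁻¹ • Bv d (u ⨯₃ Bv d z)
        + (-((Dl d y) ^ 2)⁻¹ * (2 * (bv d y ⬝ᵥ u))) • Bv d (y ⨯₃ Bv d z))
      + ((d ^ 2 * ((Dl d y)⁻¹ * (wv ⬝ᵥ (y ⨯₃ Bv d z)))) • u
        + (d ^ 2 * ((Dl d y)⁻¹ * (wv ⬝ᵥ (u ⨯₃ Bv d z))
          + (wv ⬝ᵥ (y ⨯₃ Bv d z)) * (-((Dl d y) ^ 2)⁻¹ * (2 * (bv d y ⬝ᵥ u))))) • y) = _
  unfold cAd
  rw [inv_pow]
  module

end Pool.Agent.HS

end

section

/-!
# Link block (project HS): the curvature of the connection form `cA`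

`cA_curv`: for tangent vectors `v, z` at `y`, `|y| = 1`,
`D_v(A z) - D_z(A v) + A v × A z = ⟨y, v × z⟩ F0(y)`.
-/

set_option maxRecDepth 10000

open Matrix

namespace Pool.Agent.HS

theorem k_ext {a b : Fin 3 → ℝ} (h0 : a 0 = b 0) (h1 : a 1 = b 1) (h2 : a 2 = b 2) : a = b := by
  ext i
  fin_cases i
  · exact h0
  · exact h1
  · exact h2

theorem k_av (a b : Fin 3 → ℝ) (i : Fin 3) : (a + b) i = a i + b i := rfl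
theorem k_sv (a b : Fin 3 → ℝ) (i : Fin 3) : (a - b) i = a i - b i := rfl
theorem k_mv (c : ℝ) (a : Fin 3 → ℝ) (i : Fin 3) : (c • a) i = c * a i := rfl

section ids
variable (d : ℝ) (y α γ : Fin 3 → ℝ)

theorem k_id1 : (y ⨯₃ Bv d (y ⨯₃ α)) ⨯₃ (y ⨯₃ Bv d (y ⨯₃ γ))
    = ((y ⬝ᵥ (α ⨯₃ γ)) * Dl d y) • y := by
  refine k_ext ?_ ?_ ?_ <;>
    simp only [k_mv, k_Dl, k_dot, k_cr0, k_cr1, k_cr2, k_Bv0, k_Bv1, k_Bv2] <;> ring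

theorem k_id2 (p q : Fin 3 → ℝ) : Bv d p ⨯₃ Bv d q = bv d (p ⨯₃ q) := by
  refine k_ext ?_ ?_ ?_ <;>
    simp only [k_cr0, k_cr1, k_cr2, k_Bv0, k_Bv1, k_Bv2, k_bv0, k_bv1, k_bv2] <;> ring

theorem k_id3 (p q : Fin 3 → ℝ) : p ⨯₃ Bv d q + Bv d p ⨯₃ q
    = (3 : ℝ) • (p ⨯₃ q) - Bv d (p ⨯₃ q) := by
  refine k_ext ?_ ?_ ?_ <;>
    simp only [k_av, k_sv, k_mv, k_cr0, k_cr1, k_cr2, k_Bv0, k_Bv1, k_Bv2] <;> ring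

theorem k_id5 : (y ⨯₃ α) ⨯₃ (y ⨯₃ γ) = (y ⬝ᵥ (α ⨯₃ γ)) • y := by
  refine k_ext ?_ ?_ ?_ <;> simp only [k_mv, k_dot, k_cr0, k_cr1, k_cr2] <;> ring

theorem k_id6 : Bv d (y ⨯₃ Bv d (y ⨯₃ α)) ⨯₃ y = Dl d y • (y ⨯₃ α) := by
  refine k_ext ?_ ?_ ?_ <;>
    simp only [k_mv, k_Dl, k_cr0, k_cr1, k_cr2, k_Bv0, k_Bv1, k_Bv2] <;> ring

theorem k_id7 : (bv d y ⬝ᵥ (y ⨯₃ α)) • (y ⨯₃ Bv d (y ⨯₃ γ))
      - (bv d y ⬝ᵥ (y ⨯₃ γ)) • (y ⨯₃ Bv d (y ⨯₃ α))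
    = (y ⬝ᵥ (α ⨯₃ γ)) • (y ⨯₃ Bv d (y ⨯₃ bv d y)) := by
  refine k_ext ?_ ?_ ?_ <;>
    simp only [k_sv, k_mv, k_dot, k_cr0, k_cr1, k_cr2, k_Bv0, k_Bv1, k_Bv2, k_bv0, k_bv1, k_bv2] <;> ring

theorem k_id8 : Bv d (y ⨯₃ Bv d (y ⨯₃ bv d y)) = tau d y • y - Dl d y • bv d y := by
  refine k_ext ?_ ?_ ?_ <;>
    simp only [tau, k_sv, k_mv, k_Dl, k_dot, k_cr0, k_cr1, k_cr2, k_Bv0, k_Bv1, k_Bv2, k_bv0, k_bv1, k_bv2] <;> ring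

theorem k_id9 : Bv d ((3 : ℝ) • y - Bv d y) = (3 - d ^ 2) • y - bv d y := by
  refine k_ext ?_ ?_ ?_ <;>
    simp only [k_sv, k_mv, k_Bv0, k_Bv1, k_Bv2, k_bv0, k_bv1, k_bv2] <;> ring

theorem k_id10 (w p q : Fin 3 → ℝ) : (w ⬝ᵥ q) • (p ⨯₃ y) - (w ⬝ᵥ p) • (q ⨯₃ y)
    = (w ⨯₃ (p ⨯₃ q)) ⨯₃ y := by
  refine k_ext ?_ ?_ ?_ <;> simp only [k_sv, k_mv, k_dot, k_cr0, k_cr1, k_cr2] <;> ring

theorem k_id11 (w : Fin 3 → ℝ) : (w ⨯₃ y) ⨯₃ y = (w ⬝ᵥ y) • y - (y ⬝ᵥ y) • w := by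
  refine k_ext ?_ ?_ ?_ <;> simp only [k_sv, k_mv, k_dot, k_cr0, k_cr1, k_cr2] <;> ring

theorem k_id12 : (1 - d ^ 2) * (wv ⬝ᵥ ((3 : ℝ) • y - Bv d y))
    = (3 - d ^ 2) * (bv d wv ⬝ᵥ y) - bv d (bv d wv) ⬝ᵥ y := by
  simp only [k_dot, k_sv, k_mv, k_Bv0, k_Bv1, k_Bv2, k_bv0, k_bv1, k_bv2, k_wv0, k_wv1, k_wv2]; ring

theorem k_id13 : (1 - d ^ 2) * (wv ⬝ᵥ (y ⨯₃ Bv d (y ⨯₃ bv d y)))
    = tau d y * (bv d wv ⬝ᵥ y) - Dl d y * (bv d (bv d wv) ⬝ᵥ y) := by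
  simp only [tau, k_Dl, k_dot, k_cr0, k_cr1, k_cr2, k_Bv0, k_Bv1, k_Bv2, k_bv0, k_bv1, k_bv2, k_wv0, k_wv1, k_wv2]; ring

end ids

/-- The curvature identity for `v = y × α`, `z = y × γ`. -/
theorem cA_curv_aux (d : ℝ) (y α γ : Fin 3 → ℝ) (hD : Dl d y ≠ 0) (hd : 1 - d ^ 2 ≠ 0) :
    cAd d y (y ⨯₃ γ) (y ⨯₃ α) - cAd d y (y ⨯₃ α) (y ⨯₃ γ)
      + cA d y (y ⨯₃ α) ⨯₃ cA d y (y ⨯₃ γ)
    = (y ⬝ᵥ (α ⨯₃ γ)) • (Fy d y • y - (d ^ 2 / 2) • ((y ⬝ᵥ y) • wv - (wv ⬝ᵥ y) • y)) := by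
  rw [cA_eq d _ hD, cA_eq d _ hD]
  simp only [XB_apply, BvF_apply, dotF_apply]
  unfold cAd
  set u := y ⨯₃ α with hu
  set z := y ⨯₃ γ with hz
  set c := y ⬝ᵥ (α ⨯₃ γ) with hc
  set Pu := y ⨯₃ Bv d u with hPu
  set Pz := y ⨯₃ Bv d z with hPz
  have e1 : Pu ⨯₃ Pz = (c * Dl d y) • y := k_id1 d y α γ
  have e2 : Bv d Pu ⨯₃ Bv d Pz = (c * Dl d y) • bv d y := by
    rw [k_id2, e1]
    refine k_ext ?_ ?_ ?_ <;> simp only [k_mv, k_bv0, k_bv1, k_bv2] <;> ring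
  have hB : ∀ (r : ℝ) (x : Fin 3 → ℝ), Bv d (r • x) = r • Bv d x := fun r x => by
    rw [← BvF_apply, map_smul]; rfl
  have hBs : ∀ (x x' : Fin 3 → ℝ), Bv d (x - x') = Bv d x - Bv d x' := fun x x' => by
    rw [← BvF_apply, map_sub]; rfl
  have e3 : Pu ⨯₃ Bv d Pz + Bv d Pu ⨯₃ Pz = (c * Dl d y) • ((3 : ℝ) • y - Bv d y) := by
    rw [k_id3, e1, hB]; module
  have e5 : u ⨯₃ z = c • y := k_id5 y α γ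
  have e4 : u ⨯₃ Bv d z - z ⨯₃ Bv d u = c • ((3 : ℝ) • y - Bv d y) := by
    have h := k_id3 d u z
    rw [e5, hB, ← cross_anticomm z (Bv d u)] at h
    rw [sub_eq_add_neg, h]; module
  have e6u : Bv d Pu ⨯₃ y = Dl d y • u := k_id6 d y α
  have e6z : Bv d Pz ⨯₃ y = Dl d y • z := k_id6 d y γ
  have e7 : (bv d y ⬝ᵥ u) • Pz - (bv d y ⬝ᵥ z) • Pu = c • (y ⨯₃ Bv d (y ⨯₃ bv d y)) :=
    k_id7 d y α γ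
  have e7B : (bv d y ⬝ᵥ u) • Bv d Pz - (bv d y ⬝ᵥ z) • Bv d Pu
      = c • (tau d y • y - Dl d y • bv d y) := by
    rw [← hB, ← hB, ← hBs, e7, hB, k_id8]
  have e7w : (bv d y ⬝ᵥ u) * (wv ⬝ᵥ Pz) - (bv d y ⬝ᵥ z) * (wv ⬝ᵥ Pu)
      = c * (wv ⬝ᵥ (y ⨯₃ Bv d (y ⨯₃ bv d y))) := by
    have h := congrArg (fun x => wv ⬝ᵥ x) e7
    simpa only [dotProduct_sub, dotProduct_smul, smul_eq_mul] using h
  have e4B : Bv d (u ⨯₃ Bv d z) - Bv d (z ⨯₃ Bv d u) = c • ((3 - d ^ 2) • y - bv d y) := by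
    rw [← hBs, e4, hB, k_id9]
  have e4w : wv ⬝ᵥ (u ⨯₃ Bv d z) - wv ⬝ᵥ (z ⨯₃ Bv d u)
      = c * (wv ⬝ᵥ ((3 : ℝ) • y - Bv d y)) := by
    rw [← dotProduct_sub, e4, dotProduct_smul, smul_eq_mul]
  have e10 : (wv ⬝ᵥ Pz) • (Pu ⨯₃ y) - (wv ⬝ᵥ Pu) • (Pz ⨯₃ y)
      = (c * Dl d y) • ((wv ⬝ᵥ y) • y - (y ⬝ᵥ y) • wv) := by
    rw [k_id10, e1, map_smul, LinearMap.map_smul₂, k_id11]
  have h12 := k_id12 d y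
  have h13 := k_id13 d y
  set W1 := wv ⬝ᵥ ((3 : ℝ) • y - Bv d y) with hW1
  set W2 := wv ⬝ᵥ (y ⨯₃ Bv d (y ⨯₃ bv d y)) with hW2
  set i := (Dl d y)⁻¹ with hi
  have hiD : i * Dl d y = 1 := inv_mul_cancel₀ hD
  have ha1 : i * W1 - 2 * i ^ 2 * W2
      = (((3 - d ^ 2) * Dl d y - 2 * tau d y) * (bv d wv ⬝ᵥ y)
        + Dl d y * (bv d (bv d wv) ⬝ᵥ y)) * i ^ 2 * (1 - d ^ 2)⁻¹ := by
    have h12' : W1 = ((3 - d ^ 2) * (bv d wv ⬝ᵥ y) - bv d (bv d wv) ⬝ᵥ y) * (1 - d ^ 2)⁻¹ := by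
      rw [← h12]; field_simp
    have h13' : W2 = (tau d y * (bv d wv ⬝ᵥ y) - Dl d y * (bv d (bv d wv) ⬝ᵥ y))
        * (1 - d ^ 2)⁻¹ := by
      rw [← h13]; field_simp
    rw [h12', h13', hi]
    field_simp
    ring
  have hFy : Fy d y = 2 * tau d y * i ^ 2 - (3 - d ^ 2) * i + 1 / 4 * Dl d y
      + d ^ 2 * (i * W1 - 2 * i ^ 2 * W2) := by
    rw [ha1, Fy, ← hi]; ring
  rw [hFy]
  have hyz : y ⨯₃ Pz = -(Pz ⨯₃ y) := by rw [← cross_anticomm]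
  have hyz' : y ⨯₃ Bv d Pz = -(Bv d Pz ⨯₃ y) := by rw [← cross_anticomm]
  have hexp : ((1 / 2 : ℝ) • Pu - i • Bv d Pu + (d ^ 2 * (i * (wv ⬝ᵥ Pu))) • y) ⨯₃
      ((1 / 2 : ℝ) • Pz - i • Bv d Pz + (d ^ 2 * (i * (wv ⬝ᵥ Pz))) • y)
      = (1 / 4 : ℝ) • (Pu ⨯₃ Pz) - (1 / 2 * i) • (Pu ⨯₃ Bv d Pz + Bv d Pu ⨯₃ Pz)
        + (i ^ 2) • (Bv d Pu ⨯₃ Bv d Pz)
        + (d ^ 2 * (i * (wv ⬝ᵥ Pz))) • ((1 / 2 : ℝ) • (Pu ⨯₃ y) - i • (Bv d Pu ⨯₃ y))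
        - (d ^ 2 * (i * (wv ⬝ᵥ Pu))) • ((1 / 2 : ℝ) • (Pz ⨯₃ y) - i • (Bv d Pz ⨯₃ y)) := by
    simp only [map_add, map_sub, map_smul, LinearMap.add_apply, LinearMap.sub_apply,
      LinearMap.smul_apply, cross_self, hyz, hyz']
    module
  rw [hexp]
  linear_combination (norm := module) (1 / 4 : ℝ) • e1 - (1 / 2 * i) • e3 + (i ^ 2) • e2
    + (1 / 2 : ℝ) • e4 + (2 * i ^ 2) • e7B - i • e4B
    + (d ^ 2 * i * e4w) • y - (2 * d ^ 2 * i ^ 2 * e7w) • y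
    + (d ^ 2 * i / 2) • e10 - (d ^ 2 * i ^ 2 * (wv ⬝ᵥ Pz)) • e6u
    + (d ^ 2 * i ^ 2 * (wv ⬝ᵥ Pu)) • e6z
    + hiD • (-(d ^ 2 * i * (wv ⬝ᵥ Pz)) • u + (d ^ 2 * i * (wv ⬝ᵥ Pu)) • z
      + (i * c) • bv d y - (1 / 2 * c) • ((3 : ℝ) • y - Bv d y) - (2 * i * c) • bv d y
      + (d ^ 2 * c / 2) • ((wv ⬝ᵥ y) • y - (y ⬝ᵥ y) • wv))

theorem tangent_eq {y v : Fin 3 → ℝ} (hy : y ⬝ᵥ y = 1) (hv : y ⬝ᵥ v = 0) :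
    y ⨯₃ (v ⨯₃ y) = v := by
  have h : y ⨯₃ (v ⨯₃ y) = (y ⬝ᵥ y) • v - (y ⬝ᵥ v) • y := by
    refine k_ext ?_ ?_ ?_ <;> simp only [k_sv, k_mv, k_dot, k_cr0, k_cr1, k_cr2] <;> ring
  rw [h, hy, hv, one_smul, zero_smul, sub_zero]

/-- The curvature of the connection form `cA`. -/
theorem cA_curv (d : ℝ) {y v z : Fin 3 → ℝ} (hy : y ⬝ᵥ y = 1) (hv : y ⬝ᵥ v = 0)
    (hz : y ⬝ᵥ z = 0) (hD : Dl d y ≠ 0) (hd : 1 - d ^ 2 ≠ 0) :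
    cAd d y z v - cAd d y v z + cA d y v ⨯₃ cA d y z = (y ⬝ᵥ (v ⨯₃ z)) • F0 d y := by
  have h := cA_curv_aux d y (v ⨯₃ y) (z ⨯₃ y) hD hd
  rw [tangent_eq hy hv, tangent_eq hy hz, hy, one_smul] at h
  rw [h, F0]
  have hc : y ⬝ᵥ ((v ⨯₃ y) ⨯₃ (z ⨯₃ y)) = y ⬝ᵥ (v ⨯₃ z) := by
    have h1 : y ⬝ᵥ ((v ⨯₃ y) ⨯₃ (z ⨯₃ y)) = (y ⬝ᵥ y) * (y ⬝ᵥ (v ⨯₃ z)) := by
      simp only [k_dot, k_cr0, k_cr1, k_cr2]; ring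
    rw [h1, hy, one_mul]
  rw [hc]

/-- The curvature of the connection form `cA`, in terms of `fderiv`. -/
theorem cA_curv_fderiv (d : ℝ) {y v z : Fin 3 → ℝ} (hy : y ⬝ᵥ y = 1) (hv : y ⬝ᵥ v = 0)
    (hz : y ⬝ᵥ z = 0) (hD : Dl d y ≠ 0) (hd : 1 - d ^ 2 ≠ 0) :
    fderiv ℝ (fun q => cA d q z) y v - fderiv ℝ (fun q => cA d q v) y z
      + cA d y v ⨯₃ cA d y z = (y ⬝ᵥ (v ⨯₃ z)) • F0 d y := by
  rw [(cA_fderiv d z hD).2, (cA_fderiv d v hD).2]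
  exact cA_curv d hy hv hz hD hd

end Pool.Agent.HS

end
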