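import Pool.Agent.H94.PT.M05
import Pool.Agent.H94.PT.M06
import Pool.Agent.H94.PT.M07
import Pool.Agent.H94.PT.M08
import Pool.Agent.H94.PT.M12
import Pool.Agent.H94.PT.M14

/-! The parts of this file: HS.GCont_1, HS.LkAT, HS.LkGauge_1. -/

section

/-!
# Block G: continuity of the scaled form at `d = 0`
-/

open Matrix Topology

namespace Pool.Agent.HS

noncomputable section

variable {X : Type*} [TopologicalSpace X] {a : X} {d x z t : X → ℝ}
  {y L f g : X → Fin 3 → ℝ}

variable (hd : ContinuousAt d a) (hy : ContinuousAt y a) (hL : ContinuousAt L a)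
  (hx : ContinuousAt x a) (hz : ContinuousAt z a) (ht : ContinuousAt t a)

include hd hy hz in
theorem ca_sx1 : ContinuousAt (fun p => sx1 (d p) (y p) (z p)) a := by
  have k1 := ca_Dl hd hy
  unfold sx1; (repeat' (first
    | with_reducible_and_instances assumption | with_reducible_and_instances exact continuousAt_const | with_reducible_and_instances apply ContinuousAt.add | with_reducible_and_instances apply ContinuousAt.sub
    | with_reducible_and_instances apply ContinuousAt.mul | with_reducible_and_instances apply ContinuousAt.neg | with_reducible_and_instances apply ContinuousAt.pow))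

include hd hy hL hx ht in
theorem ca_sz1 : ContinuousAt (fun p => sz1 (d p) (y p) (L p) (x p) (t p)) a := by
  have k1 := ca_Dl hd hy
  have k2 := ca_dotc wv hL
  unfold sz1; (repeat' (first
    | with_reducible_and_instances assumption | with_reducible_and_instances exact continuousAt_const | with_reducible_and_instances apply ContinuousAt.add | with_reducible_and_instances apply ContinuousAt.sub
    | with_reducible_and_instances apply ContinuousAt.mul | with_reducible_and_instances apply ContinuousAt.neg | with_reducible_and_instances apply ContinuousAt.pow))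

include hd hy hL hx hz ht in
theorem ca_sx2 : ContinuousAt (fun p => sx2 (d p) (y p) (L p) (x p) (z p) (t p)) a := by
  have k1 := ca_Dl hd hy
  have k2 := ca_Dl1 hd hy hL
  have k3 := ca_sz1 hd hy hL hx ht
  unfold sx2; (repeat' (first
    | with_reducible_and_instances assumption | with_reducible_and_instances exact continuousAt_const | with_reducible_and_instances apply ContinuousAt.add | with_reducible_and_instances apply ContinuousAt.sub
    | with_reducible_and_instances apply ContinuousAt.mul | with_reducible_and_instances apply ContinuousAt.neg | with_reducible_and_instances apply ContinuousAt.pow))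

include hd hy hL hx hz ht in
theorem ca_sz2 : ContinuousAt (fun p => sz2 (d p) (y p) (L p) (x p) (z p) (t p)) a := by
  have k1 := ca_Dl hd hy
  have k2 := ca_Dl1 hd hy hL
  have k3 := ca_sx1 hd hy hz
  have k4 := ca_dotc wv (ca_l1 hL)
  have k5 := ca_dotc wv hL
  unfold sz2; (repeat' (first
    | with_reducible_and_instances assumption | with_reducible_and_instances exact continuousAt_const | with_reducible_and_instances apply ContinuousAt.add | with_reducible_and_instances apply ContinuousAt.sub
    | with_reducible_and_instances apply ContinuousAt.mul | with_reducible_and_instances apply ContinuousAt.neg | with_reducible_and_instances apply ContinuousAt.pow))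

include hd hy hL hx hz ht in
theorem ca_c0 (c : Fin 3 → ℝ) :
    ContinuousAt (fun p => c0 (d p) (y p) (L p) c (x p) (z p) (t p)) a := by
  have k1 := ca_dotc c hy
  have k2 := ca_dotc c hL
  have k3 := ca_dotc c (ca_TT hy hL)
  unfold c0; (repeat' (first
    | with_reducible_and_instances assumption | with_reducible_and_instances exact continuousAt_const | with_reducible_and_instances apply ContinuousAt.add | with_reducible_and_instances apply ContinuousAt.sub
    | with_reducible_and_instances apply ContinuousAt.mul | with_reducible_and_instances apply ContinuousAt.neg | with_reducible_and_instances apply ContinuousAt.pow))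

include hd hy hL hx hz ht in
theorem ca_c1 (c : Fin 3 → ℝ) :
    ContinuousAt (fun p => c1 (d p) (y p) (L p) c (x p) (z p) (t p)) a := by
  have k1 := ca_dotc c hy
  have k2 := ca_dotc c hL
  have k3 := ca_dotc c (ca_TT hy hL)
  have k4 := ca_dotc c (ca_y1 hd hy hL)
  have k5 := ca_dotc c (ca_T1 hd hy hL)
  have k6 := ca_dotc c (ca_l1 hL)
  have k7 := ca_dotc wv hL
  have k8 := ca_sx1 hd hy hz
  have k9 := ca_sz1 hd hy hL hx ht
  unfold c1; (repeat' (first
    | with_reducible_and_instances assumption | with_reducible_and_instances exact continuousAt_const | with_reducible_and_instances apply ContinuousAt.add | with_reducible_and_instances apply ContinuousAt.sub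
    | with_reducible_and_instances apply ContinuousAt.mul | with_reducible_and_instances apply ContinuousAt.neg | with_reducible_and_instances apply ContinuousAt.pow))

include hd hy hL hx hz ht in
theorem ca_c2 (c : Fin 3 → ℝ) :
    ContinuousAt (fun p => c2 (d p) (y p) (L p) c (x p) (z p) (t p)) a := by
  have k1 := ca_dotc c hy
  have k2 := ca_dotc c hL
  have k3 := ca_dotc c (ca_TT hy hL)
  have k4 := ca_dotc c (ca_y1 hd hy hL)
  have k5 := ca_dotc c (ca_T1 hd hy hL)
  have k6 := ca_dotc c (ca_l1 hL)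
  have k7 := ca_dotc wv hL
  have k8 := ca_sx1 hd hy hz
  have k9 := ca_sz1 hd hy hL hx ht
  have k10 := ca_sx2 hd hy hL hx hz ht
  have k11 := ca_sz2 hd hy hL hx hz ht
  have k12 := ca_dotc c (ca_y2 hd hy hL)
  have k13 := ca_dotc c (ca_T2 hd hy hL)
  have k14 := ca_dotc wv (ca_l1 hL)
  have k15 := ca_dotc c (ca_l2 hL)
  unfold c2; (repeat' (first
    | with_reducible_and_instances assumption | with_reducible_and_instances exact continuousAt_const | with_reducible_and_instances apply ContinuousAt.add | with_reducible_and_instances apply ContinuousAt.sub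
    | with_reducible_and_instances apply ContinuousAt.mul | with_reducible_and_instances apply ContinuousAt.neg | with_reducible_and_instances apply ContinuousAt.pow))

include hd hy hL hx hz ht in
theorem ca_fh (h1 : Dl (d a) (y a) ≠ 0) (h2 : 1 - d a ^ 2 ≠ 0) :
    ContinuousAt (fun p => fh (d p) (y p) (L p) (x p) (z p) (t p)) a := by
  have k1 := ca_Fy hd hy h1 h2
  have k2 := ca_c0 hd hy hL hx hz ht wv
  have k3 := ca_dotc wv hy
  unfold fh; (repeat' (first
    | with_reducible_and_instances assumption | with_reducible_and_instances exact continuousAt_const | with_reducible_and_instances apply ContinuousAt.add | with_reducible_and_instances apply ContinuousAt.sub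
    | with_reducible_and_instances apply ContinuousAt.mul | with_reducible_and_instances apply ContinuousAt.neg | with_reducible_and_instances apply ContinuousAt.pow))

include hd hy hL hx hz ht in
theorem ca_f1h (h1 : Dl (d a) (y a) ≠ 0) (h2 : 1 - d a ^ 2 ≠ 0) :
    ContinuousAt (fun p => f1h (d p) (y p) (L p) (x p) (z p) (t p)) a := by
  have k1 := ca_Fy hd hy h1 h2
  have k2 := ca_Fy1 hd hy hL h1 h2
  have k3 := ca_dotc wv hy
  have k4 := ca_dotc wv (ca_y1 hd hy hL)
  have k5 := ca_c1 hd hy hL hx hz ht wv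
  have k6 := ca_sx1 hd hy hz
  unfold f1h; (repeat' (first
    | with_reducible_and_instances assumption | with_reducible_and_instances exact continuousAt_const | with_reducible_and_instances apply ContinuousAt.add | with_reducible_and_instances apply ContinuousAt.sub
    | with_reducible_and_instances apply ContinuousAt.mul | with_reducible_and_instances apply ContinuousAt.neg | with_reducible_and_instances apply ContinuousAt.pow))

end

end Pool.Agent.HS

end

section

set_option maxSynthPendingDepth 3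

/-!
# LINK: the connection form in the adapted gauge: `AT 0 = 0`, `∂_x AT (x) = 0` at `0`
-/

namespace Pool.Agent.HS

open Matrix Filter
open scoped Topology ContDiff

noncomputable section

variable {d : ℝ} {y : V3} {l : V2 →L[ℝ] V3}

theorem Bv_add (d : ℝ) (a b : V3) : Bv d (a + b) = Bv d a + Bv d b := (BvL d).map_add a b
theorem Bv_sub (d : ℝ) (a b : V3) : Bv d (a - b) = Bv d a - Bv d b := (BvL d).map_sub a b
theorem Bv_smul (d : ℝ) (c : ℝ) (a : V3) : Bv d (c • a) = c • Bv d a := (BvL d).map_smul c a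

/-! ### smoothness of the data -/

theorem lk_Dl_contDiff {n : WithTop ℕ∞} : ContDiff ℝ n (Dl d) := by
  have h : Dl d = fun q : V3 => dotL (bvL d q) q := rfl
  rw [h]
  exact (dotL.contDiff.comp (bvL d).contDiff).clm_apply contDiff_id

theorem lk_Dl_inv_contDiffAt {n : WithTop ℕ∞} (hD : Dl d y ≠ 0) :
    ContDiffAt ℝ n (fun q => (Dl d q)⁻¹) y := lk_Dl_contDiff.contDiffAt.inv hD

theorem lk_hBL_contDiffAt {n : WithTop ℕ∞} (hD : Dl d y ≠ 0) : ContDiffAt ℝ n (hBL d) y :=
  (lk_Dl_inv_contDiffAt hD).smul contDiffAt_const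

theorem lk_LmL_contDiffAt {n : WithTop ℕ∞} (hD : Dl d y ≠ 0) : ContDiffAt ℝ n (LmL d) y :=
  (lk_Dl_inv_contDiffAt hD).smul (crossL_contDiff.contDiffAt.clm_comp contDiffAt_const)

theorem lk_cAL_contDiffAt {n : WithTop ℕ∞} (hD : Dl d y ≠ 0) : ContDiffAt ℝ n (cAL d) y := by
  have h1 := lk_LmL_contDiffAt (d := d) (n := n) hD
  have h2 : ContDiffAt ℝ n (fun q : V3 => (BvL d).comp (LmL d q)) y :=
    contDiffAt_const.clm_comp h1
  have h3 : ContDiffAt ℝ n (fun q : V3 => (d ^ 2) • (dotL wv).comp (LmL d q)) y :=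
    (contDiffAt_const.clm_comp h1).const_smul _
  have h4 : ContDiffAt ℝ n (fun q : V3 => ((d ^ 2) • (dotL wv).comp (LmL d q)).smulRight q) y :=
    h3.smulRight contDiffAt_id
  have h5 : ContDiffAt ℝ n (fun q : V3 => (1 / 2 * Dl d q) • LmL d q) y :=
    (contDiffAt_const.mul lk_Dl_contDiff.contDiffAt).smul h1
  exact (h5.sub h2).add h4

theorem kap_contDiff {E : Type*} [NormedAddCommGroup E] [NormedSpace ℝ E] {n : WithTop ℕ∞}
    {Y N M : E → V3} {u : E} (hY : ContDiffAt ℝ n Y u) (hN : ContDiffAt ℝ n N u)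
    (hM : ContDiffAt ℝ n M u) : ContDiffAt ℝ n (fun v => kap d (Y v) (N v) (M v)) u := by
  have hdot : ∀ {P R : E → V3}, ContDiffAt ℝ n P u → ContDiffAt ℝ n R u →
      ContDiffAt ℝ n (fun v => P v ⬝ᵥ R v) u := by
    intro P R hP hR
    exact (dotL.contDiff.contDiffAt.comp u hP).clm_apply hR
  unfold kap
  exact ((contDiffAt_const.mul ((hdot hY hN).mul (hdot hY hM))).add
    (contDiffAt_const.mul (((hdot hY hN).mul (hdot contDiffAt_const hM)).add
      ((hdot hY hM).mul (hdot contDiffAt_const hN))))).add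
    (contDiffAt_const.mul ((hdot contDiffAt_const hN).mul (hdot contDiffAt_const hM)))

/-! ### the first jet of `AT` -/

theorem lk_fderiv_cAL (hD : Dl d y ≠ 0) (u z : V3) : fderiv ℝ (cAL d) y u z = cAd d y z u := by
  have h1 : HasFDerivAt (cAL d) (fderiv ℝ (cAL d) y) y :=
    ((lk_cAL_contDiffAt (n := 1) hD).differentiableAt (by norm_num)).hasFDerivAt
  have h2 : HasFDerivAt (fun q => cA d q z)
      ((ContinuousLinearMap.apply ℝ V3 z).comp (fderiv ℝ (cAL d) y)) y :=
    (ContinuousLinearMap.apply ℝ V3 z).hasFDerivAt.comp y h1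
  rw [← (cA_fderiv d z hD).2 u, h2.fderiv]
  rfl

/-- The derivative of `aa` along the flow is `aa1`. -/
theorem cAd_flow {L : V3} (hD : Dl d y ≠ 0) (hL : L ⬝ᵥ y = 0) :
    cAd d y (y1 d y L) (y1 d y L) + cA d y (y2 d y L) = aa1 d y L := by
  have hS : y ⨯₃ Bv d (y2 d y L)
      = Dl1 d y L • L + Dl d y • L1 d L - y1 d y L ⨯₃ Bv d (y1 d y L) := by
    have h := cross_Bv_y2 d y L
    rw [hL, zero_smul, sub_zero] at h
    rw [← h]
    abel
  have hX : y ⨯₃ Bv d (y1 d y L) = Dl d y • L := by
    rw [cross_Bv_y1, hL, zero_smul, sub_zero]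
  have hD1 : 2 * (bv d y ⬝ᵥ y1 d y L) = Dl1 d y L := rfl
  unfold cAd cA Lm aa1
  rw [hD1, hX, hS]
  generalize y1 d y L ⨯₃ Bv d (y1 d y L) = P
  simp only [Bv_add, Bv_sub, Bv_smul, dotProduct_add, dotProduct_sub, dotProduct_smul,
    smul_eq_mul]
  match_scalars <;> field_simp <;> ring

end

end Pool.Agent.HS

end

section

set_option maxSynthPendingDepth 3

/-!
# LINK: the gauge identity

`FA (gA A Y b) u x z = cayR (-b u) (FA A (Y u) (dY x) (dY z))`.
-/

namespace Pool.Agent.HS

open Matrix Filter
open scoped Topology ContDiff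

noncomputable section

/-- The derivative of a connection form in a gauge. -/
theorem fderiv_gA {B B' : Type*} [NormedAddCommGroup B] [NormedSpace ℝ B]
    [NormedAddCommGroup B'] [NormedSpace ℝ B'] {A : B → B →L[ℝ] V3} {Y : B' → B} {b : B' → V3}
    {u : B'} (hA : DifferentiableAt ℝ A (Y u)) (hY : ContDiffAt ℝ 2 Y u)
    (hb : ContDiffAt ℝ 2 b u) (x z : B') :
    fderiv ℝ (gA A Y b) u x z
      = -(cayE (-(b u)) (fderiv ℝ b u x)) ⨯₃ cayR (-(b u)) (A (Y u) (fderiv ℝ Y u z)
          + cayE (b u) (fderiv ℝ b u z))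
        + cayR (-(b u)) (fderiv ℝ A (Y u) (fderiv ℝ Y u x) (fderiv ℝ Y u z)
          + A (Y u) (fderiv ℝ (fderiv ℝ Y) u x z)
          + fderiv ℝ cayE (b u) (fderiv ℝ b u x) (fderiv ℝ b u z)
          + cayE (b u) (fderiv ℝ (fderiv ℝ b) u x z)) := by
  have hb1 : HasFDerivAt b (fderiv ℝ b u) u := (diff1 hb).hasFDerivAt
  have hbn : HasFDerivAt (fun v => -(b v)) (-(fderiv ℝ b u)) u := hb1.neg
  have hb2 : HasFDerivAt (fderiv ℝ b) (fderiv ℝ (fderiv ℝ b) u) u :=
    (ContDiffAt.diff_fderiv hb).hasFDerivAt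
  have hY1 : HasFDerivAt Y (fderiv ℝ Y u) u := (diff1 hY).hasFDerivAt
  have hY2 : HasFDerivAt (fderiv ℝ Y) (fderiv ℝ (fderiv ℝ Y) u) u :=
    (ContDiffAt.diff_fderiv hY).hasFDerivAt
  have hR : HasFDerivAt (fun v => cayR (-(b v)))
      ((fderiv ℝ cayR (-(b u))).comp (-(fderiv ℝ b u))) u :=
    HasFDerivAt.comp (f := fun v => -(b v)) u (cayR_clm_hasFDerivAt (-(b u))) hbn
  have hE : HasFDerivAt (fun v => cayE (b v)) ((fderiv ℝ cayE (b u)).comp (fderiv ℝ b u)) u :=
    (cayE_clm_hasFDerivAt (b u)).comp u hb1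
  have hAY : HasFDerivAt (fun v => A (Y v)) ((fderiv ℝ A (Y u)).comp (fderiv ℝ Y u)) u :=
    hA.hasFDerivAt.comp u hY1
  have h1 := hAY.clm_comp hY2
  have h2 := hE.clm_comp hb2
  have h3 := hR.clm_comp (h1.add h2)
  have h4 : fderiv ℝ (gA A Y b) u = _ := h3.fderiv
  rw [h4]
  simp only [_root_.add_apply, _root_.neg_apply, ContinuousLinearMap.comp_apply,
    ContinuousLinearMap.flip_apply, ContinuousLinearMap.compL_apply, fderiv_cayR, map_neg,
    LinearMap.neg_apply, map_add, Pi.add_apply]
  abel

theorem gA_apply {B B' : Type*} [NormedAddCommGroup B] [NormedSpace ℝ B]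
    [NormedAddCommGroup B'] [NormedSpace ℝ B'] (A : B → B →L[ℝ] V3) (Y : B' → B) (b : B' → V3)
    (u x : B') :
    gA A Y b u x = cayR (-(b u)) (A (Y u) (fderiv ℝ Y u x) + cayE (b u) (fderiv ℝ b u x)) := rfl

theorem gA_apply' {B B' : Type*} [NormedAddCommGroup B] [NormedSpace ℝ B]
    [NormedAddCommGroup B'] [NormedSpace ℝ B'] (A : B → B →L[ℝ] V3) (Y : B' → B) (b : B' → V3)
    (u x : B') :
    gA A Y b u x = cayR (-(b u)) (A (Y u) (fderiv ℝ Y u x)) + cayE (-(b u)) (fderiv ℝ b u x) := by
  rw [← cayR_neg_cayE, ← map_add]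
  rfl

/-- The covariance of the curvature under gauge transformations and pull-backs. -/
theorem FA_gA {B B' : Type*} [NormedAddCommGroup B] [NormedSpace ℝ B] [NormedAddCommGroup B']
    [NormedSpace ℝ B'] {A : B → B →L[ℝ] V3} {Y : B' → B} {b : B' → V3} {u : B'}
    (hA : DifferentiableAt ℝ A (Y u)) (hY : ContDiffAt ℝ 2 Y u) (hb : ContDiffAt ℝ 2 b u)
    (x z : B') :
    FA (gA A Y b) u x z
      = cayR (-(b u)) (FA A (Y u) (fderiv ℝ Y u x) (fderiv ℝ Y u z)) := by
  have hs : fderiv ℝ (fderiv ℝ b) u x z = fderiv ℝ (fderiv ℝ b) u z x :=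
    (hb.isSymmSndFDerivAt (by simp)).eq x z
  have hsY : fderiv ℝ (fderiv ℝ Y) u x z = fderiv ℝ (fderiv ℝ Y) u z x :=
    (hY.isSymmSndFDerivAt (by simp)).eq x z
  have hst := cayE_structure (b u) (fderiv ℝ b u x) (fderiv ℝ b u z)
  have hst' : fderiv ℝ (fun a => cayE a (fderiv ℝ b u z)) (b u) (fderiv ℝ b u x)
      = fderiv ℝ (fun a => cayE a (fderiv ℝ b u x)) (b u) (fderiv ℝ b u z)
        + cayE (b u) (fderiv ℝ b u x) ⨯₃ cayE (b u) (fderiv ℝ b u z) := by
    rw [← hst]; abel
  have e1 : cayR (-(b u)) (cayE (b u) (fderiv ℝ b u x)) = cayE (-(b u)) (fderiv ℝ b u x) :=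
    cayR_neg_cayE _ _
  have e2 : cayR (-(b u)) (cayE (b u) (fderiv ℝ b u z)) = cayE (-(b u)) (fderiv ℝ b u z) :=
    cayR_neg_cayE _ _
  unfold FA
  rw [fderiv_gA hA hY hb, fderiv_gA hA hY hb, gA_apply', gA_apply', hs, hsY, fderiv_cayE,
    fderiv_cayE, hst']
  simp only [map_add, map_sub, cayR_cross, e1, e2, LinearMap.add_apply, map_neg,
    LinearMap.neg_apply]
  rw [← cross_anticomm (cayR (-(b u)) (A (Y u) (fderiv ℝ Y u x)))
    (cayE (-(b u)) (fderiv ℝ b u z)),
    ← cross_anticomm (cayE (-(b u)) (fderiv ℝ b u x)) (cayE (-(b u)) (fderiv ℝ b u z))]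
  abel

end

end Pool.Agent.HS

end
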