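import Pool.Agent.H94.PT.HS.Gauss
import Pool.Agent.H94.PT.HS.LkJets
import Pool.Agent.H94.PT.HS.Pull_4
import Pool.Agent.H94.PT.M13
import Pool.Agent.H94.PT.M15

/-! The parts of this file: HS.LkAT_1, HS.LkKap, HS.PolCore_1. -/

section

set_option maxSynthPendingDepth 3

/-!
# LINK: the connection form in the adapted gauge: `AT 0 = 0`, `∂_x AT (x) = 0` at `0`
-/

namespace Pool.Agent.HS

open Matrix Filter
open scoped Topology ContDiff

noncomputable section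

variable {d : ℝ} {y : V3} {l : V2 →L[ℝ] V3}

/-! ### smoothness of the data -/

/-! ### the first jet of `AT` -/

theorem lk_Dl_Yc_ne (hd : |d| < 1) (hy : y ⬝ᵥ y = 1) (u : V2) : Dl d (Yc d y l u) ≠ 0 :=
  (Dl_pos hd (Yc_unit hy u)).ne'

theorem AT_zero (hd : |d| < 1) (h : Fr d y l) : AT d y l 0 = 0 := by
  have hD : Dl d y ≠ 0 := (Dl_pos hd h.unit).ne'
  ext x : 1
  unfold AT
  rw [gA_apply, Yc_zero, nb_zero, neg_zero, cayR_zero, cayE_zero, Yc_fderiv_zero, nb_fderiv_zero,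
    cAL_apply, cA_y1 hD (h.perp x), add_neg_cancel]
  rfl

theorem AT_fderiv_self (hd : |d| < 1) (h : Fr d y l) (x : V2) :
    fderiv ℝ (AT d y l) 0 x x = 0 := by
  have hD : Dl d y ≠ 0 := (Dl_pos hd h.unit).ne'
  have hA : DifferentiableAt ℝ (cAL d) (Yc d y l 0) :=
    (lk_cAL_contDiffAt (n := 1) (lk_Dl_Yc_ne hd h.unit 0)).differentiableAt (by norm_num)
  unfold AT
  rw [fderiv_gA hA Yc_contDiff.contDiffAt nb_contDiff.contDiffAt,
    ← dd_eq Yc_contDiff.contDiffAt, ← dd_eq nb_contDiff.contDiffAt, Yc_dd_self, nb_dd_self,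
    Yc_zero, nb_zero, neg_zero]
  simp only [cayR_zero, cayE_zero]
  rw [Yc_fderiv_zero, nb_fderiv_zero, lk_fderiv_cAL hD, cAL_apply, cAL_apply,
    cA_y1 hD (h.perp x), add_neg_cancel, map_zero, zero_add, fderiv_cayE, cayE_fderiv_zero,
    cAd_flow hD (h.perp x), map_neg, map_neg, LinearMap.neg_apply, cross_self]
  simp

end

end Pool.Agent.HS

end

section

set_option maxSynthPendingDepth 3

/-!
# LINK: the form `κ` in the adapted chart and gauge

`kT_dd`: the second derivative of `κ(n,n)` in the direction `v` is `kapJ` of `GDefs` with the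
jets `y1, y2, n1, n2`; `qk_kT`: the operator `r² (1 - (r²/3) κ)` in the gauge.
-/

namespace Pool.Agent.HS

open Matrix Filter
open scoped Topology ContDiff

noncomputable section

variable {d : ℝ} {y : V3} {l : V2 →L[ℝ] V3}

/-! ### products of scalar functions -/

section prod

variable {E : Type*} [NormedAddCommGroup E] [NormedSpace ℝ E] {f g : E → ℝ} {p : E}

theorem dd_mulR (hf : ContDiffAt ℝ 2 f p) (hg : ContDiffAt ℝ 2 g p) (x z : E) :
    dd (fun q => f q * g q) p x z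
      = dd f p x z * g p + fderiv ℝ f p x * fderiv ℝ g p z + fderiv ℝ f p z * fderiv ℝ g p x
        + f p * dd g p x z :=
  dd_bilin (ContinuousLinearMap.mul ℝ ℝ) hf hg x z

theorem dd_dot {P R : E → V3} (hP : ContDiffAt ℝ 2 P p) (hR : ContDiffAt ℝ 2 R p) (x z : E) :
    dd (fun q => P q ⬝ᵥ R q) p x z
      = dd P p x z ⬝ᵥ R p + fderiv ℝ P p x ⬝ᵥ fderiv ℝ R p z
        + fderiv ℝ P p z ⬝ᵥ fderiv ℝ R p x + P p ⬝ᵥ dd R p x z :=
  dd_bilin dotL hP hR x z

theorem fderiv_dot {P R : E → V3} (hP : DifferentiableAt ℝ P p) (hR : DifferentiableAt ℝ R p)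
    (x : E) :
    fderiv ℝ (fun q => P q ⬝ᵥ R q) p x = fderiv ℝ P p x ⬝ᵥ R p + P p ⬝ᵥ fderiv ℝ R p x := by
  have h := dotL.hasFDerivAt_of_bilinear hP.hasFDerivAt hR.hasFDerivAt
  have h2 : HasFDerivAt (fun q => P q ⬝ᵥ R q) _ p := h
  rw [h2.fderiv]
  simp only [_root_.add_apply, ContinuousLinearMap.precompR_apply,
    ContinuousLinearMap.precompL_apply, dotL_apply, ContinuousLinearMap.compL_apply,
    ContinuousLinearMap.comp_apply]
  rw [add_comm]

theorem contDiffAt_dot {n : WithTop ℕ∞} {P R : E → V3} (hP : ContDiffAt ℝ n P p)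
    (hR : ContDiffAt ℝ n R p) : ContDiffAt ℝ n (fun v => P v ⬝ᵥ R v) p :=
  (dotL.contDiff.contDiffAt.comp p hP).clm_apply hR

end prod

/-! ### jets of `κ(n, n)` -/

theorem kap_self (d : ℝ) (y n : V3) : kap d y n n
    = 15 / 16 * ((y ⬝ᵥ n) * (y ⬝ᵥ n)) + 33 / 4 * d ^ 2 * ((y ⬝ᵥ n) * (wv ⬝ᵥ n))
      + d ^ 2 / 2 * ((qv ⬝ᵥ n) * (qv ⬝ᵥ n)) := by
  unfold kap; ring

section jets

variable {E : Type*} [NormedAddCommGroup E] [NormedSpace ℝ E] {Y N : E → V3} {p : E}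

theorem kap_self_dd (hY : ContDiffAt ℝ 2 Y p) (hN : ContDiffAt ℝ 2 N p) (x : E) :
    dd (fun q => kap d (Y q) (N q) (N q)) p x x
      = kapJ d (Y p) (fderiv ℝ Y p x) (dd Y p x x) (N p) (fderiv ℝ N p x) (dd N p x x) := by
  have hdY := diff1 hY
  have hdN := diff1 hN
  have hYN : ContDiffAt ℝ 2 (fun q => Y q ⬝ᵥ N q) p := contDiffAt_dot hY hN
  have hwN : ContDiffAt ℝ 2 (fun q => wv ⬝ᵥ N q) p := contDiffAt_dot contDiffAt_const hN
  have hqN : ContDiffAt ℝ 2 (fun q => qv ⬝ᵥ N q) p := contDiffAt_dot contDiffAt_const hN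
  have e1 : fderiv ℝ (fun q => Y q ⬝ᵥ N q) p x
      = fderiv ℝ Y p x ⬝ᵥ N p + Y p ⬝ᵥ fderiv ℝ N p x := fderiv_dot hdY hdN x
  have e2 : fderiv ℝ (fun q => wv ⬝ᵥ N q) p x = wv ⬝ᵥ fderiv ℝ N p x := by
    rw [fderiv_dot (differentiableAt_const _) hdN]; simp
  have e3 : fderiv ℝ (fun q => qv ⬝ᵥ N q) p x = qv ⬝ᵥ fderiv ℝ N p x := by
    rw [fderiv_dot (differentiableAt_const _) hdN]; simp
  have f1 : dd (fun q => Y q ⬝ᵥ N q) p x x
      = dd Y p x x ⬝ᵥ N p + 2 * (fderiv ℝ Y p x ⬝ᵥ fderiv ℝ N p x) + Y p ⬝ᵥ dd N p x x := by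
    rw [dd_dot hY hN]; ring
  have f2 : dd (fun q => wv ⬝ᵥ N q) p x x = wv ⬝ᵥ dd N p x x := by
    rw [dd_dot contDiffAt_const hN]
    simp [dd_const]
  have f3 : dd (fun q => qv ⬝ᵥ N q) p x x = qv ⬝ᵥ dd N p x x := by
    rw [dd_dot contDiffAt_const hN]
    simp [dd_const]
  have h : (fun q => kap d (Y q) (N q) (N q)) = fun q =>
      ((15 / 16 : ℝ) • ((Y q ⬝ᵥ N q) * (Y q ⬝ᵥ N q))
        + (33 / 4 * d ^ 2) • ((Y q ⬝ᵥ N q) * (wv ⬝ᵥ N q)))
      + (d ^ 2 / 2) • ((qv ⬝ᵥ N q) * (qv ⬝ᵥ N q)) := by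
    funext q; exact kap_self d (Y q) (N q)
  rw [h, dd_add (((hYN.mul hYN).const_smul (15 / 16 : ℝ)).add
      ((hYN.mul hwN).const_smul (33 / 4 * d ^ 2))) ((hqN.mul hqN).const_smul (d ^ 2 / 2)),
    dd_add ((hYN.mul hYN).const_smul (15 / 16 : ℝ)) ((hYN.mul hwN).const_smul (33 / 4 * d ^ 2)),
    dd_const_smul (hYN.mul hYN), dd_const_smul (hYN.mul hwN), dd_const_smul (hqN.mul hqN),
    dd_mulR hYN hYN, dd_mulR hYN hwN, dd_mulR hqN hqN, e1, e2, e3, f1, f2, f3]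
  unfold kapJ
  simp only [smul_eq_mul]
  ring

end jets

/-- The function `κ(n, n)` in the chart and gauge. -/
def kN (d : ℝ) (y : V3) (l : V2 →L[ℝ] V3) (n : V3) (u : V2) : ℝ :=
  kap d (Yc d y l u) (nT d y l n u) (nT d y l n u)

theorem kN_dd (n : V3) (x : V2) :
    dd (kN d y l n) 0 x x
      = kapJ d y (y1 d y (l x)) (y2 d y (l x)) n (n1 d y (l x) n) (n2 d y (l x) n) := by
  have h := kap_self_dd (d := d) (Y := Yc d y l) (N := nT d y l n) (p := 0)
    Yc_contDiff.contDiffAt (nT_contDiff n).contDiffAt x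
  rw [Yc_zero, nT_zero, Yc_fderiv_zero, nT_fderiv_zero, Yc_dd_self, nT_dd_self] at h
  exact h

/-! ### the matrix `kT` -/

theorem kT_contDiff {n : WithTop ℕ∞} (i j : Fin 3) :
    ContDiff ℝ n (fun u => kT d y l u i j) := by
  rw [contDiff_iff_contDiffAt]
  intro u
  exact kap_contDiff Yc_contDiff.contDiffAt (nT_contDiff _).contDiffAt (nT_contDiff _).contDiffAt

theorem kap_comm (d : ℝ) (y n m : V3) : kap d y n m = kap d y m n := by
  unfold kap; ring

theorem kT_symm (u : V2) : (kT d y l u).IsSymm := by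
  ext i j
  rw [Matrix.transpose_apply, kT_apply, kT_apply, kap_comm]

theorem kap_sum (d : ℝ) (y : V3) (L : V3 →L[ℝ] V3) (n m : V3) :
    kap d y (L n) (L m)
      = ∑ i, ∑ j, n i * m j * kap d y (L (Pi.single i 1)) (L (Pi.single j 1)) := by
  have h : ∀ v : V3, L v = ∑ i, v i • L (Pi.single i 1) := by
    intro v
    conv_lhs => rw [pi_eq_sum_univ' v]
    rw [map_sum]
    refine Finset.sum_congr rfl fun i _ => ?_
    rw [map_smul]
  rw [← kapL_apply, h n, map_sum, ContinuousLinearMap.sum_apply]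
  refine Finset.sum_congr rfl fun i _ => ?_
  rw [map_smul, _root_.smul_apply, h m, map_sum, Finset.smul_sum]
  refine Finset.sum_congr rfl fun j _ => ?_
  rw [map_smul, kapL_apply, smul_eq_mul, smul_eq_mul]
  ring

/-- The quadratic form of the matrix `kT`. -/
theorem bf_kT (u : V2) (n m : V3) :
    bf (kT d y l u) n m = kap d (Yc d y l u) (cayR (nb d y l u) n) (cayR (nb d y l u) m) := by
  rw [kap_sum]
  unfold bf
  rw [dotProduct]
  refine Finset.sum_congr rfl fun i _ => ?_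
  rw [Matrix.mulVec, dotProduct, Finset.mul_sum]
  refine Finset.sum_congr rfl fun j _ => ?_
  rw [kT_apply]
  ring

end

end Pool.Agent.HS

end

section

/-!
# Block POLAR of project HS: the curvature of the sphere bundles
-/

set_option maxSynthPendingDepth 3

namespace Pool.Agent.HS

open Matrix Topology Filter
open scoped ContDiff

theorem posAt_PsiS_core {G : V2 × V3 → V2 × V3 →L[ℝ] V2 × V3 →L[ℝ] ℝ} {ζ : V2 → V3} {x : V2 × V2}
    {t : ℝ} (ht : 0 < t) (hζ : ContDiffAt ℝ (⊤ : ℕ∞) ζ x.2) (h1 : ∀ᶠ v in 𝓝 x.2, ζ v ⬝ᵥ ζ v = 1)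
    (hi : Function.Injective (fderiv ℝ ζ x.2)) (hG : ContDiffAt ℝ (⊤ : ℕ∞) G (x.1, t • ζ x.2))
    (hsymm : ∀ᶠ q in 𝓝 (x.1, t • ζ x.2), ∀ a b, G q a b = G q b a)
    (hin : IsInner (G (x.1, t • ζ x.2)))
    (hsplit : ∀ᶠ p in 𝓝 (x, t), ∀ (a b : V2 × V2) (s s' : ℝ),
      pull G (PiS ζ) p (a, s) (b, s') = pull G (PsiS ζ p.2) p.1 a b + s * s')
    (hmono : ∀ a, ∀ᶠ t' in 𝓝[>] t, pull G (PsiS ζ t) x a a ≤ pull G (PsiS ζ t') x a a)
    (hpos : ∀ X Y, (∀ a b c : ℝ, a • X + b • Y = c • ((0 : V2), t • ζ x.2) → a = 0 ∧ b = 0) →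
      0 < Rm G (x.1, t • ζ x.2) X Y) :
    PosAt (pull G (PsiS ζ t)) x := by
  have hζd : DifferentiableAt ℝ ζ x.2 := hζ.differentiableAt (by simp)
  have hinv := isInvertible_fderiv_PiS (p := (x, t)) hζd h1 hi ht.ne'
  have hinj := injective_fderiv_PiS (p := (x, t)) hζd h1 hi ht.ne'
  have hζn : ∀ n : ℕ, ContDiffAt ℝ n ζ x.2 := fun n => hζ.of_le (by exact_mod_cast le_top)
  have hGn : ∀ n : ℕ, ContDiffAt ℝ n G (PiS ζ (x, t)) := fun n => hG.of_le (by exact_mod_cast le_top)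
  have hPi3 : ContDiffAt ℝ 3 (PiS ζ) (x, t) := contDiffAt_PiS (p := (x, t)) (by exact_mod_cast hζn 3)
  have hG2 : ContDiffAt ℝ 2 (pull G (PiS ζ)) (x, t) :=
    contDiffAt_pull (by exact_mod_cast hGn 2) hPi3 (by norm_num)
  have hsy : ∀ᶠ q in 𝓝 (x, t), ∀ a b, pull G (PiS ζ) q a b = pull G (PiS ζ) q b a := by
    have hc : Tendsto (PiS ζ) (𝓝 (x, t)) (𝓝 (x.1, t • ζ x.2)) := hPi3.continuousAt
    filter_upwards [hc.eventually hsymm] with q hq a b
    exact hq _ _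
  have hsy2 : ∀ᶠ q in 𝓝 (x, t), ∀ a b, pull G (PsiS ζ q.2) q.1 a b = pull G (PsiS ζ q.2) q.1 b a := by
    filter_upwards [hsy, hsplit] with q hq hq2 a b
    have e1 := hq2 a b 0 0
    have e2 := hq2 b a 0 0
    rw [hq (a, 0) (b, 0)] at e1
    linarith
  have hin' : IsInner (pull G (PsiS ζ t) x) := by
    constructor
    · exact hsy2.self_of_nhds
    · intro a ha
      have e1 := hsplit.self_of_nhds a a 0 0
      simp only [mul_zero, add_zero] at e1
      rw [← e1]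
      refine hin.pos _ ?_
      intro h0
      exact ha (Prod.mk.inj (hinj (h0.trans (map_zero _).symm))).1
  have hdg : DifferentiableAt ℝ (fun p : (V2 × V2) × ℝ => pull G (PsiS ζ p.2) p.1) (x, t) :=
    (contDiffAt_gam hG2 hsplit).differentiableAt (by norm_num)
  refine posAt_slice (gam := fun p => pull G (PsiS ζ p.2) p.1) hG2 hin' hsplit hsy2
    (fun a => dtg_nonneg hdg a (hmono a)) ?_
  intro a b hab
  rw [Rm_pull (by exact_mod_cast hGn 2) hPi3 hsymm hin.isInvertible hinv]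
  apply hpos
  intro α β c h
  have h3 : fderiv ℝ (PiS ζ) (x, t) (α • a + β • b, -(c * t)) = 0 := by
    have h4 : ((α • a + β • b, -(c * t)) : (V2 × V2) × ℝ) =
        α • (a, 0) + β • (b, 0) - (c * t) • ((0 : V2 × V2), (1 : ℝ)) := by
      ext <;> simp
    rw [h4, map_sub, map_add, map_smul, map_smul, map_smul, h, fderiv_PiS hζd]
    simp [smul_smul]
  have h5 := hinj (h3.trans (map_zero _).symm)
  have h6 : α • a + β • b = 0 := (Prod.mk.inj h5).1
  exact LinearIndependent.pair_iff.1 hab α β h6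

end Pool.Agent.HS

end
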