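import Pool.Agent.H94.PT.HS.Amb
import Pool.Agent.H94.PT.M09
import Pool.Agent.H94.PT.M17

/-! The parts of this file: HS.LkFields, HS.AmbGE. -/

section

set_option maxSynthPendingDepth 3

/-!
# LINK: the fields of `Adapted` and `LinkAt` which do not involve the curvature
-/

namespace Pool.Agent.HS

open Matrix Filter
open scoped Topology ContDiff

noncomputable section

variable {d : ℝ} {y : V3} {l : V2 →L[ℝ] V3}

theorem fderiv_Yc_contDiff {n : ℕ∞} : ContDiff ℝ n (fderiv ℝ (Yc d y l)) :=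
  (Yc_contDiff (n := ((n + 1 : ℕ∞) : WithTop ℕ∞))).fderiv_right (by simp)

theorem fderiv_nb_contDiff {n : ℕ∞} : ContDiff ℝ n (fderiv ℝ (nb d y l)) :=
  (nb_contDiff (n := ((n + 1 : ℕ∞) : WithTop ℕ∞))).fderiv_right (by simp)

theorem hT_smooth (hd : |d| < 1) (hy : y ⬝ᵥ y = 1) (u : V2) {n : ℕ∞} :
    ContDiffAt ℝ n (hT d y l) u := by
  have h1 : ContDiffAt ℝ n (fun v => hBL d (Yc d y l v)) u :=
    (lk_hBL_contDiffAt (lk_Dl_Yc_ne hd hy u)).comp u Yc_contDiff.contDiffAt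
  exact contDiffAt_bilinearComp h1 fderiv_Yc_contDiff.contDiffAt fderiv_Yc_contDiff.contDiffAt

theorem AT_smooth (hd : |d| < 1) (hy : y ⬝ᵥ y = 1) (u : V2) {n : ℕ∞} :
    ContDiffAt ℝ n (AT d y l) u := by
  have h1 : ContDiffAt ℝ n (fun v => cAL d (Yc d y l v)) u :=
    (lk_cAL_contDiffAt (lk_Dl_Yc_ne hd hy u)).comp u Yc_contDiff.contDiffAt
  have h2 : ContDiffAt ℝ n (fun v => (cAL d (Yc d y l v)).comp (fderiv ℝ (Yc d y l) v)) u :=
    h1.clm_comp fderiv_Yc_contDiff.contDiffAt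
  have h3 : ContDiffAt ℝ n (fun v => cayE (nb d y l v)) u :=
    cayE_contDiff.contDiffAt.comp u nb_contDiff.contDiffAt
  have h4 : ContDiffAt ℝ n (fun v => (cayE (nb d y l v)).comp (fderiv ℝ (nb d y l) v)) u :=
    h3.clm_comp fderiv_nb_contDiff.contDiffAt
  have h5 : ContDiffAt ℝ n (fun v => cayR (-(nb d y l v))) u :=
    cayR_contDiff.contDiffAt.comp u nb_contDiff.neg.contDiffAt
  exact h5.clm_comp (h2.add h4)

theorem lkf_hT_zero_apply (hd : |d| < 1) (h : Fr d y l) (x z : V2) :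
    hT d y l 0 x z = x ⬝ᵥ z := by
  have hD : Dl d y ≠ 0 := (Dl_pos hd h.unit).ne'
  rw [hT_apply, Yc_zero, Yc_fderiv_zero, Yc_fderiv_zero, hB_y1 hD (l z) (h.perp x), h.orth]

theorem hBL_symm (d : ℝ) (y u v : V3) : hBL d y u v = hBL d y v u := by
  rw [hBL_apply, hBL_apply]
  unfold hB
  congr 1
  simp [Bv, dotProduct, Fin.sum_univ_three]
  ring

theorem hT_symm (u x z : V2) : hT d y l u x z = hT d y l u z x := hBL_symm _ _ _ _

theorem sq_norm_le_dot (x : V2) : ‖x‖ ^ 2 ≤ x ⬝ᵥ x := by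
  have h0 : x ⬝ᵥ x = x 0 * x 0 + x 1 * x 1 := by
    rw [dotProduct, Fin.sum_univ_two]
  have h1 : ‖x‖ ≤ Real.sqrt (x ⬝ᵥ x) := by
    refine (pi_norm_le_iff_of_nonneg (Real.sqrt_nonneg _)).2 fun i => ?_
    rw [Real.norm_eq_abs]
    refine Real.abs_le_sqrt ?_
    rw [h0]
    fin_cases i
    · have := mul_self_nonneg (x 1)
      simp only [Fin.zero_eta]
      nlinarith
    · have := mul_self_nonneg (x 0)
      simp only [Fin.mk_one]
      nlinarith
  have h2 : 0 ≤ x ⬝ᵥ x := by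
    rw [h0]
    nlinarith [mul_self_nonneg (x 0), mul_self_nonneg (x 1)]
  calc ‖x‖ ^ 2 ≤ Real.sqrt (x ⬝ᵥ x) ^ 2 := by
        exact pow_le_pow_left₀ (norm_nonneg _) h1 2
    _ = x ⬝ᵥ x := Real.sq_sqrt h2

theorem hT_inner (hd : |d| < 1) (h : Fr d y l) : ∀ᶠ u in 𝓝 (0 : V2), IsInner (hT d y l u) := by
  have hc : ContinuousAt (hT d y l) 0 :=
    (hT_smooth (n := 0) hd h.unit 0).continuousAt
  have h1 : ∀ᶠ u in 𝓝 (0 : V2), ‖hT d y l u - hT d y l 0‖ < 1 := by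
    have h2 := (hc.sub continuousAt_const).norm (f := fun u => hT d y l u - hT d y l 0)
    have h3 : ‖hT d y l 0 - hT d y l 0‖ < 1 := by simp
    exact h2.eventually_lt continuousAt_const h3
  filter_upwards [h1] with u hu
  refine ⟨hT_symm u, fun x hx => ?_⟩
  have hn : 0 < ‖x‖ := norm_pos_iff.2 hx
  have h2 : |(hT d y l u - hT d y l 0) x x| ≤ ‖hT d y l u - hT d y l 0‖ * ‖x‖ * ‖x‖ := by
    rw [← Real.norm_eq_abs]
    exact ContinuousLinearMap.le_opNorm₂ _ _ _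
  have h3 : (hT d y l u - hT d y l 0) x x = hT d y l u x x - x ⬝ᵥ x := by
    rw [_root_.sub_apply, _root_.sub_apply, lkf_hT_zero_apply hd h]
  have h4 := sq_norm_le_dot x
  have h5 : ‖hT d y l u - hT d y l 0‖ * ‖x‖ * ‖x‖ < ‖x‖ ^ 2 := by
    have : 0 < ‖x‖ * ‖x‖ := mul_pos hn hn
    nlinarith
  rw [h3] at h2
  have h6 := (abs_le.1 h2).1
  linarith

theorem Yc_inj (hd : |d| < 1) (h : Fr d y l) : Function.Injective (fderiv ℝ (Yc d y l) 0) := by
  intro x z hxz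
  have h1 : hT d y l 0 (x - z) (x - z) = 0 := by
    rw [hT_apply, map_sub, hxz, sub_self]
    simp [hB]
  rw [lkf_hT_zero_apply hd h] at h1
  have h2 := sq_norm_le_dot (x - z)
  rw [h1] at h2
  have h3 : ‖x - z‖ = 0 := by nlinarith [norm_nonneg (x - z), sq_nonneg ‖x - z‖]
  exact sub_eq_zero.1 (norm_eq_zero.1 h3)

theorem dot_cayR_neg (a u v : V3) : cayR (-a) u ⬝ᵥ v = u ⬝ᵥ cayR a v := by
  rw [← cayR_dot a, cayR_neg']

theorem qk_kT (r : ℝ) (u : V2) :
    qk r (kT d y l) u = gq (qk r (kapM d)) (Yc d y l) (nb d y l) u := by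
  have hq : ∀ (M : M33) (c : ℝ) (v : V3),
      LinearMap.toContinuousLinearMap (Matrix.toLin' ((r ^ 2) • ((1 : M33) - c • M))) v
        = (r ^ 2) • (v - c • (M *ᵥ v)) := by
    intro M c v
    rw [LinearMap.coe_toContinuousLinearMap', Matrix.toLin'_apply, Matrix.smul_mulVec,
      Matrix.sub_mulVec, Matrix.one_mulVec, Matrix.smul_mulVec]
  have hdot : ∀ v w : V3, (∀ z : V3, z ⬝ᵥ v = z ⬝ᵥ w) → v = w := by
    intro v w hvw
    ext i
    have := hvw (Pi.single i 1)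
    simpa using this
  ext v : 1
  refine hdot _ _ fun z => ?_
  have hL : z ⬝ᵥ (qk r (kT d y l) u v)
      = r ^ 2 * (z ⬝ᵥ v - r ^ 2 / 3 * bf (kT d y l u) z v) := by
    unfold qk
    rw [hq, dotProduct_smul, dotProduct_sub, dotProduct_smul, smul_eq_mul, smul_eq_mul]
    rfl
  have hR : z ⬝ᵥ (gq (qk r (kapM d)) (Yc d y l) (nb d y l) u v)
      = r ^ 2 * (z ⬝ᵥ v - r ^ 2 / 3 *
        bf (kapM d (Yc d y l u)) (cayR (nb d y l u) z) (cayR (nb d y l u) v)) := by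
    unfold gq qk
    rw [ContinuousLinearMap.comp_apply, ContinuousLinearMap.comp_apply, dotProduct_comm,
      dot_cayR_neg, hq, dotProduct_comm, dotProduct_smul, dotProduct_sub, dotProduct_smul,
      cayR_dot, smul_eq_mul, smul_eq_mul]
    rfl
  rw [hL, hR, bf_kT]
  congr 3
  have h := kap_sum d (Yc d y l u) (ContinuousLinearMap.id ℝ V3) (cayR (nb d y l u) z)
    (cayR (nb d y l u) v)
  simp only [ContinuousLinearMap.id_apply] at h
  rw [h]
  unfold bf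
  rw [dotProduct]
  refine Finset.sum_congr rfl fun i _ => ?_
  rw [Matrix.mulVec, dotProduct, Finset.mul_sum]
  refine Finset.sum_congr rfl fun j _ => ?_
  unfold kapM
  ring

end

end Pool.Agent.HS

end

section

set_option autoImplicit false
set_option maxSynthPendingDepth 3

/-!
# `GE h A q` as ambient metric (project HS, block AMB)
-/

open Matrix Topology Filter Set
open scoped ContDiff

namespace Pool.Agent.HS

noncomputable section

/-- The metric `GE h A q` on `V3 × V3` has the properties used for the global part. -/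
theorem isAmb_GE {h : V3 → V3 →L[ℝ] V3 →L[ℝ] ℝ} {A : V3 → V3 →L[ℝ] V3} {q : V3 → V3 →L[ℝ] V3}
    (hh : ∀ y, y ⬝ᵥ y = 1 → ContDiffAt ℝ ∞ h y) (hA : ∀ y, y ⬝ᵥ y = 1 → ContDiffAt ℝ ∞ A y)
    (hq : ∀ y, y ⬝ᵥ y = 1 → ContDiffAt ℝ ∞ q y) (hi : ∀ y, y ⬝ᵥ y = 1 → IsInner (h y))
    (hp : ∀ y, y ⬝ᵥ y = 1 → IsPosOp (q y)) : IsAmb (GE h A q) := by
  have hs : ∀ y, y ⬝ᵥ y = 1 → ∀ u v, u ⬝ᵥ q y v = q y u ⬝ᵥ v := by
    intro y hy u v
    rw [(hp y hy).symm, dotProduct_comm]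
  have hp' : ∀ y, y ⬝ᵥ y = 1 → ∀ u : V3, u ≠ 0 → 0 < u ⬝ᵥ q y u := fun y hy => (hp y hy).pos
  have hself : ∀ w U : V3, w ⬝ᵥ (U ⨯₃ w) = 0 := fun w U => dot_cross_self U w
  refine ⟨fun y w hy => ?_, fun y w hy => ?_, fun y w a b hy => ?_, fun y w a b c hy hc => ?_,
    fun y a b hy => ?_, fun y w a hy => ?_, fun y w b hy => ?_⟩
  · exact contDiffAt_GE (p := (y, w)) (hh y hy) (hA y hy) (hq y hy) (hs y hy) (hp' y hy)
  · exact isInner_GE (p := (y, w)) (hi y hy) (hs y hy) (hp' y hy)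
  · rw [GE_apply]
    simp only [map_zero, LinearMap.zero_apply, zero_add]
    rw [Sw_self (hs y hy) (hp' y hy), add_dotProduct, dotProduct_comm _ w, hself, zero_add]
  · rw [GE_apply, GE_apply]
    have h1 : A y a ⨯₃ (c • w) + c • b = c • (A y a ⨯₃ w + b) := by
      rw [smul_add, map_smul]
    simp only
    rw [h1]
    have h2 := Sw_mono (hs y hy) (hp' y hy) w (A y a ⨯₃ w + b) hc
    linarith
  · rw [GE_apply]
    simp
  · rw [GE_apply, GE_apply]
    simp only [map_zero, add_zero, zero_dotProduct]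
    have h2 := Sw_nonneg (hs y hy) (hp' y hy) w (A y a ⨯₃ w)
    linarith
  · rw [GE_apply]
    simp only [map_zero, LinearMap.zero_apply, zero_add]
    exact Sw_le (hs y hy) (hp' y hy) w b

/-- The ambient metric of the Euler-top data. -/
theorem isAmb_data {d r : ℝ} (hd : |d| < 1)
    (hp : ∀ y : V3, y ⬝ᵥ y = 1 → IsPosOp (qk r (kapM d) y)) :
    IsAmb (GE (hBL d) (cAL d) (qk r (kapM d))) :=
  isAmb_GE (fun _ hy => contDiffAt_hBL (Dl_pos hd hy).ne')
    (fun _ hy => contDiffAt_cAL (Dl_pos hd hy).ne')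
    (fun _ _ => reg_contDiffAt_qk fun a b => (contDiff_kapM a b).contDiffAt)
    (fun _ hy => isInner_hBL hd hy) hp

theorem amb_isPosOp_qk {d r : ℝ} (hr : 0 < r) (hr1 : r ≤ 1 / 20) (hd : 0 < d) (hd1 : d < 1)
    {y : V3} (hy : y ⬝ᵥ y = 1) : IsPosOp (qk r (kapM d) y) where
  symm u v := by
    rw [qk_kapM_symm, dotProduct_comm]
  pos u hu := qk_kapM_pos hr hr1 hd hd1 hy u hu

/-- The ambient metric of the Euler-top data, for `0 < d < 1` and `0 < r ≤ 1/20`. -/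
theorem isAmb_data_small {d r : ℝ} (hd : 0 < d) (hd1 : d < 1) (hr : 0 < r) (hr1 : r ≤ 1 / 20) :
    IsAmb (GE (hBL d) (cAL d) (qk r (kapM d))) :=
  isAmb_data (abs_lt.2 ⟨by linarith, hd1⟩) fun _ hy => amb_isPosOp_qk hr hr1 hd hd1 hy

end

end Pool.Agent.HS

end
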