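import Pool.Agent.H94.PT.M05
import Pool.Agent.H94.PT.M12
import Pool.Agent.H94.PT.M14

/-! The parts of this file: HS.GMain, HS.GZero_1. -/

section

/-!
# Block G: the infinitesimal form is positive definite for small `d > 0`
-/

open Matrix Topology Filter

namespace Pool.Agent.HS

noncomputable section

/-- the compact set of frames and unit coefficients. -/
def KK : Set ((Fin 3 → ℝ) × (Fin 3 → ℝ) × ℝ × ℝ × ℝ) :=
  {q | q.1 ⬝ᵥ q.1 = 1 ∧ q.2.1 ⬝ᵥ q.2.1 = 1 ∧ q.1 ⬝ᵥ q.2.1 = 0 ∧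
    q.2.2.1 ^ 2 + q.2.2.2.1 ^ 2 + q.2.2.2.2 ^ 2 = 1}

theorem dot_cont {X : Type*} [TopologicalSpace X] {f g : X → Fin 3 → ℝ} (hf : Continuous f)
    (hg : Continuous g) : Continuous fun p => f p ⬝ᵥ g p :=
  continuous_iff_continuousAt.2 fun _ => ca_dot hf.continuousAt hg.continuousAt

theorem norm_le_of_dot {v : Fin 3 → ℝ} (h : v ⬝ᵥ v = 1) : ‖v‖ ≤ 1 := by
  rw [pi_norm_le_iff_of_nonneg (by norm_num)]
  intro i
  have h1 : v 0 ^ 2 + v 1 ^ 2 + v 2 ^ 2 = 1 := by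
    rw [← h]; simp [dotProduct, Fin.sum_univ_three]; ring
  rw [Real.norm_eq_abs, abs_le_one_iff_mul_self_le_one]
  fin_cases i
  · show v 0 * v 0 ≤ 1
    nlinarith [sq_nonneg (v 1), sq_nonneg (v 2)]
  · show v 1 * v 1 ≤ 1
    nlinarith [sq_nonneg (v 0), sq_nonneg (v 2)]
  · show v 2 * v 2 ≤ 1
    nlinarith [sq_nonneg (v 1), sq_nonneg (v 0)]

theorem KK_compact : IsCompact KK := by
  have hc : IsClosed KK := by
    have c1 : Continuous fun q : (Fin 3 → ℝ) × (Fin 3 → ℝ) × ℝ × ℝ × ℝ => q.1 ⬝ᵥ q.1 :=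
      dot_cont continuous_fst continuous_fst
    have c2 : Continuous fun q : (Fin 3 → ℝ) × (Fin 3 → ℝ) × ℝ × ℝ × ℝ => q.2.1 ⬝ᵥ q.2.1 :=
      dot_cont (continuous_fst.comp continuous_snd) (continuous_fst.comp continuous_snd)
    have c3 : Continuous fun q : (Fin 3 → ℝ) × (Fin 3 → ℝ) × ℝ × ℝ × ℝ => q.1 ⬝ᵥ q.2.1 :=
      dot_cont continuous_fst (continuous_fst.comp continuous_snd)
    have c4 : Continuous fun q : (Fin 3 → ℝ) × (Fin 3 → ℝ) × ℝ × ℝ × ℝ =>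
        q.2.2.1 ^ 2 + q.2.2.2.1 ^ 2 + q.2.2.2.2 ^ 2 := by fun_prop
    exact (isClosed_eq c1 continuous_const).inter ((isClosed_eq c2 continuous_const).inter
      ((isClosed_eq c3 continuous_const).inter (isClosed_eq c4 continuous_const)))
  refine IsCompact.of_isClosed_subset
    (isCompact_closedBall (0 : (Fin 3 → ℝ) × (Fin 3 → ℝ) × ℝ × ℝ × ℝ) 1) hc ?_
  rintro ⟨y, L, x, z, t⟩ ⟨h1, h2, _, h4⟩
  rw [mem_closedBall_zero_iff]
  simp only at h1 h2 h4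
  have hx : ‖x‖ ≤ 1 := by
    rw [Real.norm_eq_abs, abs_le_one_iff_mul_self_le_one]
    nlinarith [sq_nonneg z, sq_nonneg t]
  have hz : ‖z‖ ≤ 1 := by
    rw [Real.norm_eq_abs, abs_le_one_iff_mul_self_le_one]
    nlinarith [sq_nonneg x, sq_nonneg t]
  have ht : ‖t‖ ≤ 1 := by
    rw [Real.norm_eq_abs, abs_le_one_iff_mul_self_le_one]
    nlinarith [sq_nonneg x, sq_nonneg z]
  exact norm_prod_le_iff.2 ⟨norm_le_of_dot h1, norm_prod_le_iff.2 ⟨norm_le_of_dot h2,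
    norm_prod_le_iff.2 ⟨hx, norm_prod_le_iff.2 ⟨hz, ht⟩⟩⟩⟩

/-- decomposition in the frame. -/
theorem frame_decomp {y L : Fin 3 → ℝ} (hy : y ⬝ᵥ y = 1) (hL : L ⬝ᵥ L = 1)
    (hyL : y ⬝ᵥ L = 0) (n : Fin 3 → ℝ) :
    n = (y ⬝ᵥ n) • y + (TT y L ⬝ᵥ n) • TT y L + (L ⬝ᵥ n) • L := by
  have hTT : TT y L ⬝ᵥ TT y L = 1 := by
    have h := frame_sq hy hL hyL (TT y L)
    rw [dotProduct_comm (TT y L) y, y_dot_T] at h
    have h2 : TT y L ⬝ᵥ L = 0 := by rw [TT, dotProduct_comm]; exact dot_self_cross _ _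
    rw [h2] at h
    have h3 : (TT y L ⬝ᵥ TT y L) ^ 2 = TT y L ⬝ᵥ TT y L := by linarith
    have h4 : TT y L ⬝ᵥ TT y L ≠ 0 := by
      intro h5
      have h6 : TT y L = 0 := dotProduct_self_eq_zero.1 h5
      have h7 := T_cross_L hL hyL
      rw [h6] at h7
      have h8 : y = 0 := by rw [← h7]; simp
      rw [h8] at hy
      simp at hy
    have h9 : (TT y L ⬝ᵥ TT y L) * (TT y L ⬝ᵥ TT y L - 1) = 0 := by linarith
    rcases mul_eq_zero.1 h9 with h10 | h10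
    · exact absurd h10 h4
    · linarith
  have hTL : L ⬝ᵥ TT y L = 0 := by rw [TT]; exact dot_self_cross _ _
  have hyT := y_dot_T y L
  have hLy : L ⬝ᵥ y = 0 := by rw [dotProduct_comm]; exact hyL
  have hTy : TT y L ⬝ᵥ y = 0 := by rw [dotProduct_comm]; exact hyT
  have hTL' : TT y L ⬝ᵥ L = 0 := by rw [dotProduct_comm]; exact hTL
  set r := n - ((y ⬝ᵥ n) • y + (TT y L ⬝ᵥ n) • TT y L + (L ⬝ᵥ n) • L) with hr
  have a1 : r ⬝ᵥ y = 0 := by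
    rw [dotProduct_comm, hr]
    simp only [dotProduct_sub, dotProduct_add, dotProduct_smul, smul_eq_mul, hy, hyT, hyL]
    ring
  have a2 : r ⬝ᵥ TT y L = 0 := by
    rw [dotProduct_comm, hr]
    simp only [dotProduct_sub, dotProduct_add, dotProduct_smul, smul_eq_mul, hTy, hTT, hTL']
    ring
  have a3 : r ⬝ᵥ L = 0 := by
    rw [dotProduct_comm, hr]
    simp only [dotProduct_sub, dotProduct_add, dotProduct_smul, smul_eq_mul, hLy, hTL, hL]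
    ring
  have h := frame_sq hy hL hyL r
  rw [a1, a2, a3] at h
  have h0 : r = 0 := dotProduct_self_eq_zero.1 (by linarith)
  have := sub_eq_zero.1 (hr ▸ h0)
  exact this

end

end Pool.Agent.HS

end

section

/-!
# Block G: the limit form at `d = 0` is positive definite
-/

open Matrix

namespace Pool.Agent.HS

noncomputable section

theorem Dl1_zero (y L : Fin 3 → ℝ) : Dl1 0 y L = 0 := by
  rw [Dl1, bv_zero, y1_zero, y_dot_T]; ring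

theorem tau1_zero (y L : Fin 3 → ℝ) : tau1 0 y L = 0 := by
  rw [tau1, bv_zero, bv_zero, y1_zero, y_dot_T]; ring

theorem Fy1_zero {y : Fin 3 → ℝ} (hy : y ⬝ᵥ y = 1) (L : Fin 3 → ℝ) : Fy1 0 y L = 0 := by
  rw [Fy1, Dl_zero hy, tau_zero hy, Dl1_zero, tau1_zero]; norm_num

/-- The scaled form at `d = 0`. -/
theorem HH_zero {y L : Fin 3 → ℝ} (hy : y ⬝ᵥ y = 1) (hL : L ⬝ᵥ L = 1) (hyL : y ⬝ᵥ L = 0)
    (x z t : ℝ) :
    HH 0 y L x z t = 1 / 4 * x ^ 2 + 11 / 64 * z ^ 2 + 3 * (wv ⬝ᵥ L) ^ 2 * t ^ 2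
      + 2 / 3 * (t ^ 2 * ((qv ⬝ᵥ l1 L) ^ 2 + (qv ⬝ᵥ L) * (qv ⬝ᵥ l2 L))
        - 1 / 4 * t * (qv ⬝ᵥ L) * (x * (qv ⬝ᵥ y) + z * (qv ⬝ᵥ TT y L))
        - 3 / 2 * (wv ⬝ᵥ L) * t ^ 2 * (qv ⬝ᵥ y) * (qv ⬝ᵥ L)) := by
  simp only [HH, fh, f1h, c0, c1, c2, sx1, sz1, sx2, sz2, Dl_zero hy, KG_zero hy, Fy_zero hy,
    Fy1_zero hy, Dl1_zero, y1_zero, T1_zero hL hyL, y2_zero hL hyL, T2_zero hL hyL, Bv_zero, hL,
    dotProduct_neg]
  ring

/-- The limit form is positive definite. -/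
theorem HH_zero_pos {y L : Fin 3 → ℝ} (hy : y ⬝ᵥ y = 1) (hL : L ⬝ᵥ L = 1)
    (hyL : y ⬝ᵥ L = 0) {x z t : ℝ} (h : x ^ 2 + z ^ 2 + t ^ 2 ≠ 0) :
    0 < HH 0 y L x z t := by
  have hs := frame_sq hy hL hyL qv
  have hq : qv ⬝ᵥ qv = 3 := by simp [qv, dotProduct, Fin.sum_univ_three]; norm_num
  rw [hq] at hs
  have key : HH 0 y L x z t
      = (x / 2 - t * (qv ⬝ᵥ L) * (qv ⬝ᵥ y) / 6) ^ 2
        + 11 / 64 * (z - 16 / 33 * (t * (qv ⬝ᵥ L) * (qv ⬝ᵥ TT y L))) ^ 2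
        + t ^ 2 * (2 * ((wv ⬝ᵥ L) - (qv ⬝ᵥ y) * (qv ⬝ᵥ L) / 4) ^ 2
          + 89 / 792 * ((qv ⬝ᵥ L) * (qv ⬝ᵥ TT y L)) ^ 2 + R4 L) := by
    rw [HH_zero hy hL hyL, R4]
    linear_combination (-(11 / 72) * t ^ 2 * (qv ⬝ᵥ L) ^ 2) * hs
  rw [key]
  have hR := R4_pos hL
  by_cases ht : t = 0
  · subst ht
    have h1 : x ≠ 0 ∨ z ≠ 0 := by
      by_contra h2
      push Not at h2
      apply h
      rw [h2.1, h2.2]; norm_num
    rcases h1 with h1 | h1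
    · have : 0 < x ^ 2 := by positivity
      nlinarith [sq_nonneg z]
    · have : 0 < z ^ 2 := by positivity
      nlinarith [sq_nonneg x]
  · have h1 : 0 < t ^ 2 := by positivity
    have h2 : 0 < t ^ 2 * (2 * ((wv ⬝ᵥ L) - (qv ⬝ᵥ y) * (qv ⬝ᵥ L) / 4) ^ 2
          + 89 / 792 * ((qv ⬝ᵥ L) * (qv ⬝ᵥ TT y L)) ^ 2 + R4 L) := by positivity
    have h3 : 0 ≤ (x / 2 - t * (qv ⬝ᵥ L) * (qv ⬝ᵥ y) / 6) ^ 2 := by positivity
    have h4 : 0 ≤ 11 / 64 * (z - 16 / 33 * (t * (qv ⬝ᵥ L) * (qv ⬝ᵥ TT y L))) ^ 2 := by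
      positivity
    linarith

end

end Pool.Agent.HS

end
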