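import Pool.Agent.H94.PT.HS.Pull_4
import Pool.Agent.H94.PT.HS.Sph
import Pool.Agent.H94.PT.M11

/-! The parts of this file: HS.Mfd_1, HS.MfdF, HS.Sph_1. -/

section

set_option autoImplicit false
set_option maxSynthPendingDepth 3

/-!
# Sectional curvature of a Riemannian metric on a manifold (project HS)
-/

namespace Pool.Agent.HS

open Bundle Manifold Set Filter
open scoped ContDiff Manifold Topology

noncomputable section

section Analysis

variable {E : Type*} [NormedAddCommGroup E] [NormedSpace ℝ E] [CompleteSpace E]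

end Analysis

section Congr

variable {E : Type*} [NormedAddCommGroup E] [NormedSpace ℝ E]

end Congr

section Manifold

variable {E : Type*} [NormedAddCommGroup E] [NormedSpace ℝ E]
  {H : Type*} [TopologicalSpace H] {I : ModelWithCorners ℝ E H}
  {M : Type*} [TopologicalSpace M] [ChartedSpace H M]

section Field

variable (g : (x : M) → TangentSpace I x →L[ℝ] TangentSpace I x →L[ℝ] ℝ)

end Field

variable [IsManifold I ∞ M]

/-- Tensoriality: the curvature form in two local parametrisations. -/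
theorem Rm_coordF [FiniteDimensional ℝ E]
    (g : (x : M) → TangentSpace I x →L[ℝ] TangentSpace I x →L[ℝ] ℝ)
    (hs : ∀ (x : M) (u v : TangentSpace I x), g x u v = g x v u)
    (hp : ∀ (x : M) (v : TangentSpace I x), v ≠ 0 → 0 < g x v v) {φ ψ : E → M} {x y : E}
    (hφ : IsParam I φ x) (hψ : IsParam I ψ y) (h : φ x = ψ y)
    (hG : ContDiffAt ℝ 2 (coordF g φ) x) :
    ∃ L : E →L[ℝ] E, Function.Injective L ∧
      (∀ u : E, (mfderiv 𝓘(ℝ, E) I ψ y : E →L[ℝ] E) u =
        (mfderiv 𝓘(ℝ, E) I φ x : E →L[ℝ] E) (L u)) ∧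
      ∀ u v, Rm (coordF g ψ) y u v = Rm (coordF g φ) x (L u) (L v) := by
  have : CompleteSpace E := FiniteDimensional.complete ℝ E
  obtain ⟨τ, t1, t2, t3, t4⟩ := exists_reparam hφ hψ h
  have e1 : coordF g ψ =ᶠ[𝓝 y] pull (coordF g φ) τ := by
    have a1 : ∀ᶠ z in 𝓝 y, ψ =ᶠ[𝓝 z] φ ∘ τ := t3.eventually_nhds
    have a2 : ∀ᶠ z in 𝓝 y, MDifferentiableAt 𝓘(ℝ, E) I φ (τ z) := by
      have : IsManifold I 1 M := IsManifold.of_le (n := ∞) (by simp)
      have b1 : ∀ᶠ w in 𝓝 x, ContMDiffAt 𝓘(ℝ, E) I 1 φ w :=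
        (contMDiffAt_iff_contMDiffAt_nhds (by simp)).1 (hφ.1.of_le (by simp))
      have b2 : Tendsto τ (𝓝 y) (𝓝 x) := by
        have := t1.continuousAt
        unfold ContinuousAt at this
        rwa [t2] at this
      filter_upwards [b2.eventually b1] with z hz
      exact hz.mdifferentiableAt (by simp)
    have a3 : ∀ᶠ z in 𝓝 y, DifferentiableAt ℝ τ z := by
      filter_upwards [(t1.of_le (m := 1) (by simp)).eventually (by simp)] with z hz
      exact hz.differentiableAt (by simp)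
    filter_upwards [a1, a2, a3] with z h1 h2 h3
    rw [coordF_congr g h1, coordF_comp g h2 h3]
  refine ⟨fderiv ℝ τ y, t4.injective, fun u => ?_, fun u v => ?_⟩
  · have h1 : (mfderiv 𝓘(ℝ, E) I ψ y : E →L[ℝ] E) =
        (mfderiv 𝓘(ℝ, E) I (φ ∘ τ) y : E →L[ℝ] E) := t3.mfderiv_eq
    have h2 : (mfderiv 𝓘(ℝ, E) I (φ ∘ τ) y : E →L[ℝ] E) =
        (mfderiv 𝓘(ℝ, E) I φ (τ y) : E →L[ℝ] E).comp (fderiv ℝ τ y) := by
      have h3 := mfderiv_comp y (by rw [t2]; exact hφ.1.mdifferentiableAt (by simp))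
        (t1.differentiableAt (by simp)).mdifferentiableAt
      rw [mfderiv_eq_fderiv] at h3
      exact h3
    have h4 : (mfderiv 𝓘(ℝ, E) I φ (τ y) : E →L[ℝ] E) =
        (mfderiv 𝓘(ℝ, E) I φ x : E →L[ℝ] E) := by rw [t2]
    rw [h1, h2, h4]
    rfl
  · rw [Rm_congr_nhds e1]
    have hG' : ContDiffAt ℝ 2 (coordF g φ) (τ y) := by rwa [t2]
    rw [Rm_pull hG' (t1.of_le three_le_infty)
      (Eventually.of_forall fun q a b => coordF_symm g hs φ q a b)
      (by rw [t2]; exact (coordF_isInner g hs hp hφ.2).isInvertible) t4, t2]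

variable (g : ContMDiffRiemannianMetric I ∞ E (fun x : M => TangentSpace I x))

end Manifold

end

end Pool.Agent.HS

end

section

set_option autoImplicit false
set_option maxSynthPendingDepth 3

/-!
# Curvature of a metric on a manifold from one parametrisation per point (project HS)
-/

namespace Pool.Agent.HS

open Bundle Manifold Set Filter
open scoped ContDiff Manifold Topology

noncomputable section

variable {E : Type*} [NormedAddCommGroup E] [NormedSpace ℝ E]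
  {H : Type*} [TopologicalSpace H] {I : ModelWithCorners ℝ E H}
  {M : Type*} [TopologicalSpace M] [ChartedSpace H M]
  {V : Type*} [NormedAddCommGroup V] [NormedSpace ℝ V]

/-- The preferred chart gives a local parametrisation. -/
lemma isParam_extChartAt_symm [IsManifold I ∞ M] [I.Boundaryless] (p : M) :
    IsParam I (extChartAt I p).symm (extChartAt I p p) := by
  refine ⟨(contMDiffOn_extChartAt_symm p).contMDiffAt (extChartAt_target_mem_nhds p), ?_⟩
  have : IsManifold I 1 M := IsManifold.of_le (n := ∞) (by simp)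
  have h := isInvertible_mfderivWithin_extChartAt_symm (I := I) (mem_extChartAt_target p)
  rwa [I.range_eq_univ, mfderivWithin_univ] at h

/-- The curvature form can be computed in any local parametrisation. -/
theorem curv_of_param [FiniteDimensional ℝ E] [IsManifold I ∞ M] [I.Boundaryless]
    {g : (x : M) → TangentSpace I x →L[ℝ] TangentSpace I x →L[ℝ] ℝ}
    (hs : ∀ (x : M) (u v : TangentSpace I x), g x u v = g x v u)
    (hp : ∀ (x : M) (v : TangentSpace I x), v ≠ 0 → 0 < g x v v) {φ : E → M} {x : E} {p : M}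
    (hφ : IsParam I φ x) (hx : φ x = p) (hG : ContDiffAt ℝ 2 (coordF g φ) x) :
    ∃ L : E →L[ℝ] E, Function.Injective L ∧
      ∀ u v : TangentSpace I p, curv g p u v = Rm (coordF g φ) x (L u) (L v) := by
  obtain ⟨L, h1, -, h3⟩ := Rm_coordF g hs hp hφ (isParam_extChartAt_symm (I := I) p)
    (by rw [hx, extChartAt_to_inv]) hG
  exact ⟨L, h1, h3⟩

theorem NonnegCurved_of_param [FiniteDimensional ℝ E] [IsManifold I ∞ M] [I.Boundaryless]
    {g : (x : M) → TangentSpace I x →L[ℝ] TangentSpace I x →L[ℝ] ℝ}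
    (hs : ∀ (x : M) (u v : TangentSpace I x), g x u v = g x v u)
    (hp : ∀ (x : M) (v : TangentSpace I x), v ≠ 0 → 0 < g x v v)
    (h : ∀ p : M, ∃ (φ : E → M) (x : E), IsParam I φ x ∧ φ x = p ∧
      ContDiffAt ℝ 2 (coordF g φ) x ∧ NonnegAt (coordF g φ) x) : NonnegCurved g := by
  intro p u v
  obtain ⟨φ, x, h1, h2, h3, h4⟩ := h p
  obtain ⟨L, -, hR⟩ := curv_of_param hs hp h1 h2 h3
  rw [hR]
  exact h4 _ _

theorem PosCurved_of_param [FiniteDimensional ℝ E] [IsManifold I ∞ M] [I.Boundaryless]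
    {g : (x : M) → TangentSpace I x →L[ℝ] TangentSpace I x →L[ℝ] ℝ}
    (hs : ∀ (x : M) (u v : TangentSpace I x), g x u v = g x v u)
    (hp : ∀ (x : M) (v : TangentSpace I x), v ≠ 0 → 0 < g x v v)
    (h : ∀ p : M, ∃ (φ : E → M) (x : E), IsParam I φ x ∧ φ x = p ∧
      ContDiffAt ℝ 2 (coordF g φ) x ∧ PosAt (coordF g φ) x) : PosCurved g := by
  intro p u v huv
  obtain ⟨φ, x, h1, h2, h3, h4⟩ := h p
  obtain ⟨L, hL, hR⟩ := curv_of_param hs hp h1 h2 h3
  rw [hR]
  exact h4 _ _ (linearIndependent_pair_map (E := E) (F := E) hL huv)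

/-! ### Metrics given by a metric `G` on an ambient space -/

section Ambient

variable {ι : M → V} {G : V → V →L[ℝ] V →L[ℝ] ℝ}
  {g : (x : M) → TangentSpace I x →L[ℝ] TangentSpace I x →L[ℝ] ℝ}

/-- `g` is the metric induced by `ι : M → V` and the metric `G` on `V`. -/
def IsInducedBy (ι : M → V) (G : V → V →L[ℝ] V →L[ℝ] ℝ)
    (g : (x : M) → TangentSpace I x →L[ℝ] TangentSpace I x →L[ℝ] ℝ) : Prop :=
  ∀ (x : M) (u v : TangentSpace I x),
    g x u v = G (ι x) (mfderiv I 𝓘(ℝ, V) ι x u : V) (mfderiv I 𝓘(ℝ, V) ι x v : V)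

lemma mfderiv_comp_fderiv {F : Type*} [NormedAddCommGroup F] [NormedSpace ℝ F] {φ : F → M} {x : F}
    (hι : MDifferentiableAt I 𝓘(ℝ, V) ι (φ x)) (hφ : MDifferentiableAt 𝓘(ℝ, F) I φ x) :
    (fderiv ℝ (ι ∘ φ) x : F →L[ℝ] V) =
      (mfderiv I 𝓘(ℝ, V) ι (φ x) : E →L[ℝ] V).comp (mfderiv 𝓘(ℝ, F) I φ x : F →L[ℝ] E) := by
  have h2 := mfderiv_comp x hι hφ
  rw [mfderiv_eq_fderiv] at h2
  exact h2

lemma IsInducedBy.coordF_eq (hg : IsInducedBy ι G g) {φ : E → M} {x : E}
    (hι : MDifferentiableAt I 𝓘(ℝ, V) ι (φ x)) (hφ : MDifferentiableAt 𝓘(ℝ, E) I φ x) :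
    coordF g φ x = pull G (ι ∘ φ) x := by
  ext u v
  rw [coordF_apply, hg, pull_apply, mfderiv_comp_fderiv hι hφ]
  rfl

/-- The induced metric of a composition. -/
lemma IsInducedBy.induced {E' : Type*} [NormedAddCommGroup E'] [NormedSpace ℝ E']
    {H' : Type*} [TopologicalSpace H'] {J : ModelWithCorners ℝ E' H'}
    {N : Type*} [TopologicalSpace N] [ChartedSpace H' N] (hg : IsInducedBy ι G g) {f : N → M}
    (hι : MDifferentiable I 𝓘(ℝ, V) ι) (hf : MDifferentiable J I f) :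
    IsInducedBy (ι ∘ f) G (Pool.Agent.HS.induced J g f) := by
  intro x u v
  rw [induced_apply, hg]
  have h := mfderiv_comp x (hι (f x)) (hf x)
  have h2 : ∀ w : TangentSpace J x, (mfderiv J 𝓘(ℝ, V) (ι ∘ f) x w : V) =
      (mfderiv I 𝓘(ℝ, V) ι (f x) (mfderiv J I f x w) : V) := by
    intro w
    rw [h]
    rfl
  rw [h2, h2]
  rfl

lemma eventually_mdifferentiableAt' [IsManifold I ∞ M] {F : Type*} [NormedAddCommGroup F]
    [NormedSpace ℝ F] {φ : F → M} {x : F} (hφ : ContMDiffAt 𝓘(ℝ, F) I ∞ φ x) :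
    ∀ᶠ z in 𝓝 x, MDifferentiableAt 𝓘(ℝ, F) I φ z := by
  have : IsManifold I 1 M := IsManifold.of_le (n := ∞) (by simp)
  have b1 : ∀ᶠ w in 𝓝 x, ContMDiffAt 𝓘(ℝ, F) I 1 φ w :=
    (contMDiffAt_iff_contMDiffAt_nhds (by simp)).1 (hφ.of_le (by simp))
  filter_upwards [b1] with z hz
  exact hz.mdifferentiableAt (by simp)

/-- The facts about one parametrisation `φ : F → M`, transported to the model space `E`. -/
lemma exists_param_of [FiniteDimensional ℝ E] [IsManifold I ∞ M]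
    (hι : ContMDiff I 𝓘(ℝ, V) ∞ ι) (hG : ∀ x : M, ContDiffAt ℝ ∞ G (ι x))
    (hg : IsInducedBy ι G g)
    (hs : ∀ (x : M) (u v : TangentSpace I x), g x u v = g x v u)
    (hp : ∀ (x : M) (v : TangentSpace I x), v ≠ 0 → 0 < g x v v)
    {F : Type*} [NormedAddCommGroup F] [NormedSpace ℝ F] (e : E ≃L[ℝ] F)
    {φ : F → M} {x : F} (hφ : ContMDiffAt 𝓘(ℝ, F) I ∞ φ x)
    (hinj : Function.Injective (fderiv ℝ (ι ∘ φ) x)) :
    IsParam I (φ ∘ e) (e.symm x) ∧ ContDiffAt ℝ 2 (coordF g (φ ∘ e)) (e.symm x) ∧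
      ∀ u v, Rm (coordF g (φ ∘ e)) (e.symm x) u v = Rm (pull G (ι ∘ φ)) x (e u) (e v) := by
  have hFF : FiniteDimensional ℝ F := LinearEquiv.finiteDimensional e.toLinearEquiv
  have hex : e (e.symm x) = x := e.apply_symm_apply x
  have hφe : ContMDiffAt 𝓘(ℝ, E) I ∞ (φ ∘ e) (e.symm x) :=
    ContMDiffAt.comp (I' := 𝓘(ℝ, F)) (e.symm x) (by rw [hex]; exact hφ)
      e.contDiff.contMDiff.contMDiffAt
  have hc : ContDiffAt ℝ ∞ (ι ∘ φ) x := ((hι (φ x)).comp x hφ).contDiffAt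
  have hce : fderiv ℝ (ι ∘ (φ ∘ e)) (e.symm x) = (fderiv ℝ (ι ∘ φ) x).comp (e : E →L[ℝ] F) := by
    have h1 : HasFDerivAt (ι ∘ φ) (fderiv ℝ (ι ∘ φ) x) (e (e.symm x)) := by
      rw [hex]
      exact (hc.differentiableAt (by simp)).hasFDerivAt
    have h2 := h1.comp (e.symm x) e.hasFDerivAt
    exact h2.fderiv
  have hpar : IsParam I (φ ∘ e) (e.symm x) := by
    refine isParam_of_injective ι hι hφe ?_
    rw [hce]
    exact hinj.comp e.injective
  have hP : ContDiffAt ℝ 2 (pull G (ι ∘ φ)) x :=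
    contDiffAt_pull (n := ∞) ((hG (φ x)).of_le two_le_infty) hc three_le_infty
  have hPsymm : ∀ᶠ z in 𝓝 x, ∀ a b, pull G (ι ∘ φ) z a b = pull G (ι ∘ φ) z b a := by
    filter_upwards [eventually_mdifferentiableAt' hφ] with z hz a b
    have h1 := mfderiv_comp_fderiv ((hι (φ z)).mdifferentiableAt (by simp)) hz
    rw [pull_apply, pull_apply, h1]
    have h2 := hs (φ z) (mfderiv 𝓘(ℝ, F) I φ z a) (mfderiv 𝓘(ℝ, F) I φ z b)
    rw [hg, hg] at h2
    exact h2
  have hPinner : IsInner (pull G (ι ∘ φ) x) := by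
    refine ⟨hPsymm.self_of_nhds, fun a ha => ?_⟩
    have h1 := mfderiv_comp_fderiv ((hι (φ x)).mdifferentiableAt (by simp))
      (hφ.mdifferentiableAt (by simp))
    have h3 : (mfderiv 𝓘(ℝ, F) I φ x a : TangentSpace I (φ x)) ≠ 0 := by
      intro h0
      apply ha
      apply hinj
      rw [map_zero, h1]
      change (mfderiv I 𝓘(ℝ, V) ι (φ x) : E →L[ℝ] V) (mfderiv 𝓘(ℝ, F) I φ x a : E) = 0
      have h4 : (mfderiv 𝓘(ℝ, F) I φ x a : E) = 0 := h0
      rw [h4, map_zero]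
    have h2 := hp (φ x) _ h3
    rw [hg] at h2
    rw [pull_apply, h1]
    exact h2
  have hev : coordF g (φ ∘ e) =ᶠ[𝓝 (e.symm x)] pull (pull G (ι ∘ φ)) e := by
    have h1 : ∀ᶠ z in 𝓝 (e.symm x), MDifferentiableAt 𝓘(ℝ, F) I φ (e z) := by
      have h2 : Tendsto e (𝓝 (e.symm x)) (𝓝 x) := by
        have := e.continuous.continuousAt (x := e.symm x)
        unfold ContinuousAt at this
        rwa [hex] at this
      exact h2.eventually (eventually_mdifferentiableAt' hφ)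
    filter_upwards [h1] with z hz
    have h3 : MDifferentiableAt 𝓘(ℝ, E) I (φ ∘ e) z :=
      MDifferentiableAt.comp z hz e.differentiableAt.mdifferentiableAt
    rw [hg.coordF_eq ((hι _).mdifferentiableAt (by simp)) h3]
    have h4 : fderiv ℝ (ι ∘ (φ ∘ e)) z = (fderiv ℝ (ι ∘ φ) (e z)).comp (e : E →L[ℝ] F) := by
      have h5 : DifferentiableAt ℝ (ι ∘ φ) (e z) := by
        have := ((hι (φ (e z))).mdifferentiableAt (by simp)).comp (e z) hz
        exact this.differentiableAt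
      exact (h5.hasFDerivAt.comp z e.hasFDerivAt).fderiv
    ext a b
    rw [pull_apply, pull_apply, pull_apply, h4, e.fderiv]
    rfl
  have he' : fderiv ℝ e (e.symm x) = (e : E →L[ℝ] F) := e.fderiv
  refine ⟨hpar, ?_, fun u v => ?_⟩
  · have h5 : ContDiffAt ℝ 2 (pull (pull G (ι ∘ φ)) e) (e.symm x) :=
      contDiffAt_pull (n := ∞) (by rw [hex]; exact hP) e.contDiff.contDiffAt three_le_infty
    exact h5.congr_of_eventuallyEq hev
  · rw [Rm_congr_nhds hev, Rm_pull (by rw [hex]; exact hP) e.contDiff.contDiffAt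
      (by rw [hex]; exact hPsymm) (by rw [hex]; exact hPinner.isInvertible)
      (by rw [he']; exact ⟨e, rfl⟩), he', hex]
    rfl

/-- Nonnegative curvature of an induced metric from one parametrisation per point. -/
theorem NonnegCurved_amb [FiniteDimensional ℝ E] [IsManifold I ∞ M] [I.Boundaryless]
    (hι : ContMDiff I 𝓘(ℝ, V) ∞ ι) (hG : ∀ x : M, ContDiffAt ℝ ∞ G (ι x))
    (hg : IsInducedBy ι G g)
    (hs : ∀ (x : M) (u v : TangentSpace I x), g x u v = g x v u)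
    (hp : ∀ (x : M) (v : TangentSpace I x), v ≠ 0 → 0 < g x v v)
    {F : Type*} [NormedAddCommGroup F] [NormedSpace ℝ F] (e : E ≃L[ℝ] F)
    (h : ∀ p : M, ∃ (φ : F → M) (x : F), ContMDiffAt 𝓘(ℝ, F) I ∞ φ x ∧ φ x = p ∧
      Function.Injective (fderiv ℝ (ι ∘ φ) x) ∧ NonnegAt (pull G (ι ∘ φ)) x) :
    NonnegCurved g := by
  refine NonnegCurved_of_param hs hp fun p => ?_
  obtain ⟨φ, x, h1, h2, h3, h4⟩ := h p
  obtain ⟨k1, k2, k3⟩ := exists_param_of hι hG hg hs hp e h1 h3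
  refine ⟨φ ∘ e, e.symm x, k1, by simp [h2], k2, fun u v => ?_⟩
  rw [k3]
  exact h4 _ _

/-- Positive curvature of an induced metric from one parametrisation per point. -/
theorem PosCurved_amb [FiniteDimensional ℝ E] [IsManifold I ∞ M] [I.Boundaryless]
    (hι : ContMDiff I 𝓘(ℝ, V) ∞ ι) (hG : ∀ x : M, ContDiffAt ℝ ∞ G (ι x))
    (hg : IsInducedBy ι G g)
    (hs : ∀ (x : M) (u v : TangentSpace I x), g x u v = g x v u)
    (hp : ∀ (x : M) (v : TangentSpace I x), v ≠ 0 → 0 < g x v v)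
    {F : Type*} [NormedAddCommGroup F] [NormedSpace ℝ F] (e : E ≃L[ℝ] F)
    (h : ∀ p : M, ∃ (φ : F → M) (x : F), ContMDiffAt 𝓘(ℝ, F) I ∞ φ x ∧ φ x = p ∧
      Function.Injective (fderiv ℝ (ι ∘ φ) x) ∧ PosAt (pull G (ι ∘ φ)) x) :
    PosCurved g := by
  refine PosCurved_of_param hs hp fun p => ?_
  obtain ⟨φ, x, h1, h2, h3, h4⟩ := h p
  obtain ⟨k1, k2, k3⟩ := exists_param_of hι hG hg hs hp e h1 h3
  refine ⟨φ ∘ e, e.symm x, k1, by simp [h2], k2, fun u v huv => ?_⟩
  rw [k3]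
  exact h4 _ _ (linearIndependent_pair_map (L := (e : E →L[ℝ] F)) e.injective huv)

end Ambient

end

end Pool.Agent.HS

end

section

set_option autoImplicit false
set_option maxSynthPendingDepth 3

/-!
# The manifolds `S² × ℝ³` and `S² × S²` in `ℝ³ × ℝ³` (project HS)

* `contMDiffAt_sphere`, `exists_liftE`, `exists_liftS`: smooth maps into the sphere and into
  `S² × ℝ³`, `S² × S²`;
* `injImmersion_zeroSec`, `injImmersion_tube`;
* `nonnegCurved_of_coord`, `posCurved_of_coord`: from coordinate computations to the curvature of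
  a metric on `S² × ℝ³` and of the metrics induced on the tubes.
-/

namespace Pool.Agent.HS

open Bundle Manifold Set Filter Metric Module Matrix
open scoped ContDiff Manifold Topology RealInnerProductSpace

noncomputable section

section Lift

variable {E : Type*} [NormedAddCommGroup E] [InnerProductSpace ℝ E] {n : ℕ}
  [Fact (finrank ℝ E = n + 1)]
  {F : Type*} [NormedAddCommGroup F] [NormedSpace ℝ F]
  {H : Type*} [TopologicalSpace H] {I : ModelWithCorners ℝ F H}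
  {M : Type*} [TopologicalSpace M] [ChartedSpace H M]

end Lift

/-! ### Lifts -/

section Lifts

variable {F : Type*} [NormedAddCommGroup F] [NormedSpace ℝ F]

end Lifts

/-! ### The zero section and the tubes -/

/-! ### Curvature from the coordinate computations -/

section Main

variable {G : V3 × V3 → V3 × V3 →L[ℝ] V3 × V3 →L[ℝ] ℝ}
  {g : (x : S2 × R3) → TangentSpace IE x →L[ℝ] TangentSpace IE x →L[ℝ] ℝ}

theorem nonnegCurved_of_coord (hG : ∀ x : S2 × R3, ContDiffAt ℝ ∞ G (iE x))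
    (hg : IsInducedBy iE G g)
    (hs : ∀ (x : S2 × R3) (u v : TangentSpace IE x), g x u v = g x v u)
    (hp : ∀ (x : S2 × R3) (v : TangentSpace IE x), v ≠ 0 → 0 < g x v v)
    (h : ∀ y0 w0 : V3, y0 ⬝ᵥ y0 = 1 → ∃ φ : V2 × V3 → V3 × V3,
      ContDiffAt ℝ ∞ φ (0, w0) ∧ φ (0, w0) = (y0, w0) ∧
      (∀ᶠ p in 𝓝 ((0 : V2), w0), (φ p).1 ⬝ᵥ (φ p).1 = 1) ∧
      Function.Injective (fderiv ℝ φ (0, w0)) ∧ NonnegAt (pull G φ) (0, w0)) :
    NonnegCurved g := by
  refine NonnegCurved_amb contMDiff_iE hG hg hs hp eqE fun p => ?_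
  obtain ⟨φ, h1, h2, h3, h4, h5⟩ := h (eR (p.1 : R3)) (eR p.2) (eR_sphere p.1)
  obtain ⟨f, f1, f2, f3⟩ := exists_liftE (p := p) h1 h2 h3
  refine ⟨f, (0, eR p.2), f1, f2, fderiv_congr_injective f3 h4, fun u v => ?_⟩
  rw [Rm_congr_nhds (pull_congr_nhds f3)]
  exact h5 u v

theorem posCurved_of_coord (hG : ∀ x : S2 × R3, ContDiffAt ℝ ∞ G (iE x))
    (hg : IsInducedBy iE G g)
    (hs : ∀ (x : S2 × R3) (u v : TangentSpace IE x), g x u v = g x v u)
    (hp : ∀ (x : S2 × R3) (v : TangentSpace IE x), v ≠ 0 → 0 < g x v v) {t : ℝ} (ht : 0 < t)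
    (h : ∀ y0 z0 : V3, y0 ⬝ᵥ y0 = 1 → z0 ⬝ᵥ z0 = 1 → ∃ ψ : V2 × V2 → V3 × V3,
      ContDiffAt ℝ ∞ ψ (0, 0) ∧ ψ (0, 0) = (y0, z0) ∧
      (∀ᶠ p in 𝓝 ((0 : V2), (0 : V2)), (ψ p).1 ⬝ᵥ (ψ p).1 = 1 ∧ (ψ p).2 ⬝ᵥ (ψ p).2 = 1) ∧
      Function.Injective (fderiv ℝ ψ (0, 0)) ∧
      PosAt (pull G (fun p => ((ψ p).1, t • (ψ p).2))) (0, 0)) :
    PosCurved (induced IS g (tube t)) := by
  have hι : ContMDiff IS 𝓘(ℝ, V3 × V3) ∞ (iE ∘ tube t) := contMDiff_iE.comp (contMDiff_tube t)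
  have hgi : IsInducedBy (iE ∘ tube t) G (induced IS g (tube t)) :=
    hg.induced (contMDiff_iE.mdifferentiable (by simp)) ((contMDiff_tube t).mdifferentiable (by simp))
  refine PosCurved_amb hι (fun x => hG (tube t x)) hgi ?_ ?_ eqS fun q => ?_
  · intro x u v
    rw [induced_apply, induced_apply]
    exact hs _ _ _
  · intro x v hv
    rw [induced_apply]
    refine hp _ _ fun h0 => hv ?_
    apply mfderiv_tube_injective ht x
    rw [map_zero]
    exact h0
  · obtain ⟨ψ, h1, h2, h3, h4, h5⟩ := h (eR (q.1 : R3)) (eR (q.2 : R3)) (eR_sphere q.1)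
      (eR_sphere q.2)
    obtain ⟨f, f1, f2, f3⟩ := exists_liftS (q := q) h1 h2 (h3.mono fun _ h => h.1)
      (h3.mono fun _ h => h.2)
    have f4 : (iE ∘ tube t) ∘ f =ᶠ[𝓝 ((0 : V2), (0 : V2))]
        fun p => ((ψ p).1, t • (ψ p).2) := by
      filter_upwards [f3] with z hz
      rw [← hz]
      change (eR ((f z).1 : R3), eR (t • ((f z).2 : R3))) = _
      rw [map_smul]
    refine ⟨f, (0, 0), f1, f2, fderiv_congr_injective f4
      (fderiv_scale_injective ht (h1.differentiableAt (by simp)) h4), fun u v huv => ?_⟩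
    rw [Rm_congr_nhds (pull_congr_nhds f4)]
    exact h5 u v huv

end Main

end

end Pool.Agent.HS

end
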