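import Pool.Agent.H94.PT.HS.LkJets
import Pool.Agent.H94.PT.M08

/-! The parts of this file: HS.LkSm, HS.LkCont. -/

section

/-!
# LINK: joint smoothness of the data in the parameters `(d, y, l)` and the coordinate `u`

`FP` is the space of parameters `(d, y, l)`.  All the functions `Yc, nb, hT, AT, kT` are jointly
smooth at `((d, y, l), u)` if `Δ_d (Yc u) ≠ 0` (in particular at `u = 0` if `Δ_d y ≠ 0`).
-/

set_option maxSynthPendingDepth 3

namespace Pool.Agent.HS.LkSm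

open Matrix Filter
open scoped Topology ContDiff

noncomputable section

/-- Joint smoothness of a partial derivative. -/
theorem ContDiffAt.joint_fderiv {X E F : Type*} [NormedAddCommGroup X] [NormedSpace ℝ X]
    [NormedAddCommGroup E] [NormedSpace ℝ E] [NormedAddCommGroup F] [NormedSpace ℝ F]
    {f : X → E → F} {q₀ : X × E} (hf : ContDiffAt ℝ ∞ (fun q : X × E => f q.1 q.2) q₀) :
    ContDiffAt ℝ ∞ (fun q : X × E => fderiv ℝ (f q.1) q.2) q₀ := by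
  have h1 : ContDiffAt ℝ ∞ (Function.uncurry (fun (q : X × E) (v : E) => f q.1 v)) (q₀, q₀.2) := by
    have h2 : ContDiffAt ℝ ∞ (fun z : (X × E) × E => ((z.1.1, z.2) : X × E)) (q₀, q₀.2) :=
      (contDiff_fst.fst.prodMk contDiff_snd).contDiffAt
    exact ContDiffAt.comp (q₀, q₀.2) (g := fun q : X × E => f q.1 q.2)
      (f := fun z : (X × E) × E => ((z.1.1, z.2) : X × E)) hf h2
  have h3 : ContDiffAt ℝ ∞ (fun q : X × E => q.2) q₀ := contDiff_snd.contDiffAt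
  exact ContDiffAt.fderiv (f := fun (q : X × E) (v : E) => f q.1 v) (g := fun q : X × E => q.2)
    (x₀ := q₀) h1 h3 (by norm_num)

variable {X : Type*} [NormedAddCommGroup X] [NormedSpace ℝ X] {n : WithTop ℕ∞} {a : X}
  {d : X → ℝ} {f g y : X → V3}

/-- `Ph` as a continuous linear map. -/
def PhL : V3 →L[ℝ] V3 :=
  LinearMap.toContinuousLinearMap
    { toFun := Ph
      map_add' := by
        intro x y
        ext i
        fin_cases i <;> (simp [Ph]; try ring)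
      map_smul' := by
        intro c x
        exact Ph_smul c x }

theorem BvL_eq (d : ℝ) : BvL d = ContinuousLinearMap.id ℝ V3 + d • PhL := by
  ext1 x
  rw [BvL_apply, Bv_eq]
  rfl

theorem cd_BvL (hd : ContDiffAt ℝ n d a) : ContDiffAt ℝ n (fun p => BvL (d p)) a := by
  have h : (fun p => BvL (d p)) = fun p => ContinuousLinearMap.id ℝ V3 + d p • PhL := by
    funext p; exact BvL_eq (d p)
  rw [h]
  exact contDiffAt_const.add (hd.smul contDiffAt_const)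

theorem cd_Bv (hd : ContDiffAt ℝ n d a) (hf : ContDiffAt ℝ n f a) :
    ContDiffAt ℝ n (fun p => Bv (d p) (f p)) a :=
  (cd_BvL hd).clm_apply hf

theorem cd_cross (hf : ContDiffAt ℝ n f a) (hg : ContDiffAt ℝ n g a) :
    ContDiffAt ℝ n (fun p => f p ⨯₃ g p) a :=
  (crossL.contDiff.contDiffAt.comp a hf).clm_apply hg

theorem cd_dotL (hf : ContDiffAt ℝ n f a) : ContDiffAt ℝ n (fun p => dotL (f p)) a :=
  dotL.contDiff.contDiffAt.comp a hf

theorem cd_dot (hf : ContDiffAt ℝ n f a) (hg : ContDiffAt ℝ n g a) :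
    ContDiffAt ℝ n (fun p => f p ⬝ᵥ g p) a :=
  (cd_dotL hf).clm_apply hg

theorem cd_coord (hf : ContDiffAt ℝ n f a) (i : Fin 3) : ContDiffAt ℝ n (fun p => f p i) a :=
  contDiffAt_pi.1 hf i

theorem cd_bv (hd : ContDiffAt ℝ n d a) (hf : ContDiffAt ℝ n f a) :
    ContDiffAt ℝ n (fun p => bv (d p) (f p)) a := by
  rw [contDiffAt_pi]
  intro i
  fin_cases i
  · exact (contDiffAt_const.sub hd).mul (cd_coord hf 0)
  · exact (contDiffAt_const.sub (hd.pow 2)).mul (cd_coord hf 1)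
  · exact (contDiffAt_const.add hd).mul (cd_coord hf 2)

theorem cd_Dl (hd : ContDiffAt ℝ n d a) (hy : ContDiffAt ℝ n y a) :
    ContDiffAt ℝ n (fun p => Dl (d p) (y p)) a := cd_dot (cd_bv hd hy) hy

theorem cd_L1 (hd : ContDiffAt ℝ n d a) (hf : ContDiffAt ℝ n f a) :
    ContDiffAt ℝ n (fun p => L1 (d p) (f p)) a := cd_cross (cd_Bv hd hf) hf

theorem cd_y1 (hd : ContDiffAt ℝ n d a) (hy : ContDiffAt ℝ n y a) (hf : ContDiffAt ℝ n f a) :
    ContDiffAt ℝ n (fun p => y1 (d p) (y p) (f p)) a := cd_cross (cd_Bv hd hf) hy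

theorem cd_Dl1 (hd : ContDiffAt ℝ n d a) (hy : ContDiffAt ℝ n y a) (hf : ContDiffAt ℝ n f a) :
    ContDiffAt ℝ n (fun p => Dl1 (d p) (y p) (f p)) a :=
  contDiffAt_const.mul (cd_dot (cd_bv hd hy) (cd_y1 hd hy hf))

theorem cd_aa (hd : ContDiffAt ℝ n d a) (hy : ContDiffAt ℝ n y a) (hf : ContDiffAt ℝ n f a) :
    ContDiffAt ℝ n (fun p => aa (d p) (y p) (f p)) a :=
  (((contDiffAt_const.mul (cd_Dl hd hy)).smul hf).sub (cd_Bv hd hf)).add
    (((hd.pow 2).mul (cd_dot contDiffAt_const hf)).smul hy)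

theorem cd_aa1 (hd : ContDiffAt ℝ n d a) (hy : ContDiffAt ℝ n y a) (hf : ContDiffAt ℝ n f a) :
    ContDiffAt ℝ n (fun p => aa1 (d p) (y p) (f p)) a :=
  (((((contDiffAt_const.mul (cd_Dl1 hd hy hf)).smul hf).add
    ((contDiffAt_const.mul (cd_Dl hd hy)).smul (cd_L1 hd hf))).sub
    (cd_Bv hd (cd_L1 hd hf))).add
    (((hd.pow 2).mul (cd_dot contDiffAt_const (cd_L1 hd hf))).smul hy)).add
    (((hd.pow 2).mul (cd_dot contDiffAt_const hf)).smul (cd_y1 hd hy hf))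

theorem cd_hBL (hd : ContDiffAt ℝ n d a) (hy : ContDiffAt ℝ n y a) (h0 : Dl (d a) (y a) ≠ 0) :
    ContDiffAt ℝ n (fun p => hBL (d p) (y p)) a :=
  ((cd_Dl hd hy).inv h0).smul (contDiffAt_const.clm_comp (cd_BvL hd))

theorem cd_LmL (hd : ContDiffAt ℝ n d a) (hy : ContDiffAt ℝ n y a) (h0 : Dl (d a) (y a) ≠ 0) :
    ContDiffAt ℝ n (fun p => LmL (d p) (y p)) a :=
  ((cd_Dl hd hy).inv h0).smul
    ((crossL.contDiff.contDiffAt.comp a hy).clm_comp (cd_BvL hd))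

theorem cd_cAL (hd : ContDiffAt ℝ n d a) (hy : ContDiffAt ℝ n y a) (h0 : Dl (d a) (y a) ≠ 0) :
    ContDiffAt ℝ n (fun p => cAL (d p) (y p)) a := by
  have h1 := cd_LmL hd hy h0
  have h2 : ContDiffAt ℝ n (fun p => (d p ^ 2) • (dotL wv).comp (LmL (d p) (y p))) a :=
    (hd.pow 2).smul (contDiffAt_const.clm_comp h1)
  exact (((contDiffAt_const.mul (cd_Dl hd hy)).smul h1).sub ((cd_BvL hd).clm_comp h1)).add
    (h2.smulRight hy)

theorem cd_kap (hd : ContDiffAt ℝ n d a) (hy : ContDiffAt ℝ n y a) (hf : ContDiffAt ℝ n f a)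
    (hg : ContDiffAt ℝ n g a) :
    ContDiffAt ℝ n (fun p => kap (d p) (y p) (f p) (g p)) a :=
  ((contDiffAt_const.mul ((cd_dot hy hf).mul (cd_dot hy hg))).add
    ((contDiffAt_const.mul (hd.pow 2)).mul
      (((cd_dot hy hf).mul (cd_dot contDiffAt_const hg)).add
        ((cd_dot hy hg).mul (cd_dot contDiffAt_const hf))))).add
    (((hd.pow 2).div_const 2).mul ((cd_dot contDiffAt_const hf).mul (cd_dot contDiffAt_const hg)))

/-! ### the parameters -/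

/-- The parameters `(d, y, l)`. -/
abbrev _root_.Pool.Agent.HS.FP := ℝ × V3 × (V2 →L[ℝ] V3)

variable {q₀ : FP × V2}

theorem sm_d : ContDiffAt ℝ n (fun q : FP × V2 => q.1.1) q₀ := contDiff_fst.fst.contDiffAt

theorem sm_y : ContDiffAt ℝ n (fun q : FP × V2 => q.1.2.1) q₀ := contDiff_fst.snd.fst.contDiffAt

theorem sm_l : ContDiffAt ℝ n (fun q : FP × V2 => q.1.2.2) q₀ := contDiff_fst.snd.snd.contDiffAt

theorem sm_lu : ContDiffAt ℝ n (fun q : FP × V2 => q.1.2.2 q.2) q₀ :=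
  sm_l.clm_apply contDiff_snd.contDiffAt

theorem sm_om : ContDiffAt ℝ n (fun q : FP × V2 => om q.1.1 q.1.2.2 q.2) q₀ :=
  (cd_Bv sm_d sm_lu).add ((cd_Bv sm_d (cd_L1 sm_d sm_lu)).const_smul (1 / 2 : ℝ))

theorem sm_Yc : ContDiffAt ℝ n (fun q : FP × V2 => Yc q.1.1 q.1.2.1 q.1.2.2 q.2) q₀ :=
  (cayR_contDiff.contDiffAt.comp q₀ sm_om).clm_apply sm_y

theorem sm_be : ContDiffAt ℝ n (fun q : FP × V2 => be q.1.1 q.1.2.1 q.1.2.2 q.2) q₀ :=
  (cd_aa sm_d sm_y sm_lu).add ((cd_aa1 sm_d sm_y sm_lu).const_smul (1 / 2 : ℝ))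

theorem sm_nb : ContDiffAt ℝ n (fun q : FP × V2 => nb q.1.1 q.1.2.1 q.1.2.2 q.2) q₀ := sm_be.neg

theorem sm_dYc : ContDiffAt ℝ ∞
    (fun q : FP × V2 => fderiv ℝ (Yc q.1.1 q.1.2.1 q.1.2.2) q.2) q₀ :=
  ContDiffAt.joint_fderiv (f := fun (P : FP) (u : V2) => Yc P.1 P.2.1 P.2.2 u) sm_Yc

theorem sm_dnb : ContDiffAt ℝ ∞
    (fun q : FP × V2 => fderiv ℝ (nb q.1.1 q.1.2.1 q.1.2.2) q.2) q₀ :=
  ContDiffAt.joint_fderiv (f := fun (P : FP) (u : V2) => nb P.1 P.2.1 P.2.2 u) sm_nb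

/-- the condition under which everything is smooth -/
def Reg (q : FP × V2) : Prop := Dl q.1.1 (Yc q.1.1 q.1.2.1 q.1.2.2 q.2) ≠ 0

theorem sm_hT (h0 : Reg q₀) : ContDiffAt ℝ ∞
    (fun q : FP × V2 => hT q.1.1 q.1.2.1 q.1.2.2 q.2) q₀ := by
  have h1 : ContDiffAt ℝ ∞ (fun q : FP × V2 => hBL q.1.1 (Yc q.1.1 q.1.2.1 q.1.2.2 q.2)) q₀ :=
    cd_hBL sm_d sm_Yc h0
  have h2 := sm_dYc (q₀ := q₀)
  have h3 : ContDiffAt ℝ ∞ (fun q : FP × V2 =>
      (hBL q.1.1 (Yc q.1.1 q.1.2.1 q.1.2.2 q.2)).comp (fderiv ℝ (Yc q.1.1 q.1.2.1 q.1.2.2) q.2)) q₀ :=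
    h1.clm_comp h2
  have h4 : ContDiffAt ℝ ∞ (fun q : FP × V2 =>
      ((hBL q.1.1 (Yc q.1.1 q.1.2.1 q.1.2.2 q.2)).comp
        (fderiv ℝ (Yc q.1.1 q.1.2.1 q.1.2.2) q.2)).flip) q₀ :=
    (ContinuousLinearMap.flipₗᵢ ℝ V2 V3 ℝ).contDiff.contDiffAt.comp q₀ h3
  have h5 := h4.clm_comp h2
  exact (ContinuousLinearMap.flipₗᵢ ℝ V2 V2 ℝ).contDiff.contDiffAt.comp q₀ h5

theorem sm_AT (h0 : Reg q₀) : ContDiffAt ℝ ∞
    (fun q : FP × V2 => AT q.1.1 q.1.2.1 q.1.2.2 q.2) q₀ := by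
  have h1 : ContDiffAt ℝ ∞ (fun q : FP × V2 => cAL q.1.1 (Yc q.1.1 q.1.2.1 q.1.2.2 q.2)) q₀ :=
    cd_cAL sm_d sm_Yc h0
  have h2 := sm_dYc (q₀ := q₀)
  have h3 : ContDiffAt ℝ ∞ (fun q : FP × V2 => cayE (nb q.1.1 q.1.2.1 q.1.2.2 q.2)) q₀ :=
    cayE_contDiff.contDiffAt.comp q₀ sm_nb
  have h4 : ContDiffAt ℝ ∞ (fun q : FP × V2 => cayR (-(nb q.1.1 q.1.2.1 q.1.2.2 q.2))) q₀ :=
    cayR_contDiff.contDiffAt.comp q₀ sm_nb.neg
  exact h4.clm_comp ((h1.clm_comp h2).add (h3.clm_comp sm_dnb))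

theorem sm_kT (i j : Fin 3) : ContDiffAt ℝ ∞
    (fun q : FP × V2 => kT q.1.1 q.1.2.1 q.1.2.2 q.2 i j) q₀ := by
  have h : ∀ v : V3, ContDiffAt ℝ ∞
      (fun q : FP × V2 => cayR (nb q.1.1 q.1.2.1 q.1.2.2 q.2) v) q₀ := fun v =>
    (cayR_contDiff.contDiffAt.comp q₀ sm_nb).clm_apply contDiffAt_const
  exact cd_kap sm_d sm_Yc (h _) (h _)

theorem sm_FA (h0 : Reg q₀) (x z : V2) : ContDiffAt ℝ ∞
    (fun q : FP × V2 => FA (AT q.1.1 q.1.2.1 q.1.2.2) q.2 x z) q₀ := by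
  have h1 := sm_AT h0
  have h2 : ContDiffAt ℝ ∞ (fun q : FP × V2 => fderiv ℝ (AT q.1.1 q.1.2.1 q.1.2.2) q.2) q₀ :=
    ContDiffAt.joint_fderiv (f := fun (P : FP) (u : V2) => AT P.1 P.2.1 P.2.2 u) h1
  have h3 : ∀ v w : V2, ContDiffAt ℝ ∞
      (fun q : FP × V2 => fderiv ℝ (AT q.1.1 q.1.2.1 q.1.2.2) q.2 v w) q₀ := fun v w =>
    (h2.clm_apply contDiffAt_const).clm_apply contDiffAt_const
  have h4 : ∀ v : V2, ContDiffAt ℝ ∞
      (fun q : FP × V2 => AT q.1.1 q.1.2.1 q.1.2.2 q.2 v) q₀ := fun v =>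
    h1.clm_apply contDiffAt_const
  exact ((h3 x z).sub (h3 z x)).add (cd_cross (h4 x) (h4 z))

end

end Pool.Agent.HS.LkSm

end

section

/-!
# LINK: continuity of the pointwise data in `(d, y, l)`, compactness and existence of frames

* `jetD P`, `P = (d, y, l)`: the pointwise data `(K, ρ, Dρ, κ, Dκ, D²κ)` of `hT, AT, kT` at `0`;
* `KF = {(d, y, l) | |d| ≤ 1/2, Fr d y l}` is compact (`isCompact_KF`), `jetD` is continuous on it;
* `exists_Fr`: for `|d| < 1` there is a frame at every unit vector `y`.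
-/

set_option maxSynthPendingDepth 3

namespace Pool.Agent.HS

open Matrix Filter LkSm
open scoped Topology ContDiff

noncomputable section

/-! ### continuity of the jets -/

namespace LkCont

theorem ContDiffAt.cont_slice {X F : Type*} [NormedAddCommGroup X] [NormedSpace ℝ X]
    [NormedAddCommGroup F] [NormedSpace ℝ F] {f : X × V2 → F} {P₀ : X}
    (hf : ContDiffAt ℝ ∞ f (P₀, 0)) : ContinuousAt (fun P : X => f (P, 0)) P₀ := by
  have h1 : ContinuousAt (fun P : X => (P, (0 : V2))) P₀ :=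
    (continuous_id.prodMk continuous_const).continuousAt
  exact ContinuousAt.comp (f := fun P : X => (P, (0 : V2))) (g := f) hf.continuousAt h1

variable {P₀ : FP}

/-- the condition at the origin of the chart -/
theorem reg_zero (h : Dl P₀.1 P₀.2.1 ≠ 0) : Reg (P₀, 0) := by
  unfold Reg
  change Dl P₀.1 (Yc P₀.1 P₀.2.1 P₀.2.2 0) ≠ 0
  rw [Yc_zero]
  exact h

theorem jc_rho (h : Dl P₀.1 P₀.2.1 ≠ 0) :
    ContinuousAt (fun P : FP => FA (AT P.1 P.2.1 P.2.2) 0 e0 e1) P₀ :=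
  ContDiffAt.cont_slice (sm_FA (reg_zero h) e0 e1)

theorem jc_drho (h : Dl P₀.1 P₀.2.1 ≠ 0) (x : V2) :
    ContinuousAt (fun P : FP => fderiv ℝ (fun u => FA (AT P.1 P.2.1 P.2.2) u e0 e1) 0 x) P₀ := by
  have h1 : ContDiffAt ℝ ∞ (fun q : FP × V2 =>
      fderiv ℝ (fun u => FA (AT q.1.1 q.1.2.1 q.1.2.2) u e0 e1) q.2) (P₀, 0) :=
    ContDiffAt.joint_fderiv (f := fun (P : FP) (u : V2) => FA (AT P.1 P.2.1 P.2.2) u e0 e1)
      (sm_FA (reg_zero h) e0 e1)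
  exact ContDiffAt.cont_slice (h1.clm_apply contDiffAt_const)

theorem jc_k0 (i j : Fin 3) : ContinuousAt (fun P : FP => kT P.1 P.2.1 P.2.2 0 i j) P₀ :=
  ContDiffAt.cont_slice (sm_kT i j)

theorem sm_k1 (i j : Fin 3) (x : V2) (q₀ : FP × V2) : ContDiffAt ℝ ∞ (fun q : FP × V2 =>
    fderiv ℝ (fun u => kT q.1.1 q.1.2.1 q.1.2.2 u i j) q.2 x) q₀ := by
  have h1 : ContDiffAt ℝ ∞ (fun q : FP × V2 =>
      fderiv ℝ (fun u => kT q.1.1 q.1.2.1 q.1.2.2 u i j) q.2) q₀ :=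
    ContDiffAt.joint_fderiv (f := fun (P : FP) (u : V2) => kT P.1 P.2.1 P.2.2 u i j) (sm_kT i j)
  exact h1.clm_apply contDiffAt_const

theorem jc_k1 (i j : Fin 3) (x : V2) :
    ContinuousAt (fun P : FP => fderiv ℝ (fun u => kT P.1 P.2.1 P.2.2 u i j) 0 x) P₀ :=
  ContDiffAt.cont_slice (sm_k1 i j x (P₀, 0))

theorem jc_k2 (i j : Fin 3) (x z : V2) :
    ContinuousAt (fun P : FP =>
      fderiv ℝ (fun u => fderiv ℝ (fun v => kT P.1 P.2.1 P.2.2 v i j) u z) 0 x) P₀ := by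
  have h1 : ContDiffAt ℝ ∞ (fun q : FP × V2 =>
      fderiv ℝ (fun u => fderiv ℝ (fun v => kT q.1.1 q.1.2.1 q.1.2.2 v i j) u z) q.2) (P₀, 0) :=
    ContDiffAt.joint_fderiv
      (f := fun (P : FP) (u : V2) => fderiv ℝ (fun v => kT P.1 P.2.1 P.2.2 v i j) u z)
      (sm_k1 i j z (P₀, 0))
  exact ContDiffAt.cont_slice (h1.clm_apply contDiffAt_const)

theorem sm_hTc (h : Dl P₀.1 P₀.2.1 ≠ 0) (u v : V2) : ContDiffAt ℝ ∞ (fun q : FP × V2 =>
    hT q.1.1 q.1.2.1 q.1.2.2 q.2 u v) (P₀, 0) :=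
  ((sm_hT (reg_zero h)).clm_apply contDiffAt_const).clm_apply contDiffAt_const

theorem jc_D2 (h : Dl P₀.1 P₀.2.1 ≠ 0) (x z u v : V2) :
    ContinuousAt (fun P : FP => D2 (hT P.1 P.2.1 P.2.2) 0 x z u v) P₀ := by
  have h1 : ContDiffAt ℝ ∞ (fun q : FP × V2 =>
      fderiv ℝ (fun r => hT q.1.1 q.1.2.1 q.1.2.2 r u v) q.2) (P₀, 0) :=
    ContDiffAt.joint_fderiv (f := fun (P : FP) (r : V2) => hT P.1 P.2.1 P.2.2 r u v)
      (sm_hTc h u v)
  have h2 : ContDiffAt ℝ ∞ (fun q : FP × V2 =>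
      fderiv ℝ (fun r => hT q.1.1 q.1.2.1 q.1.2.2 r u v) q.2 z) (P₀, 0) :=
    h1.clm_apply contDiffAt_const
  have h3 : ContDiffAt ℝ ∞ (fun q : FP × V2 =>
      fderiv ℝ (fun s => fderiv ℝ (fun r => hT q.1.1 q.1.2.1 q.1.2.2 r u v) s z) q.2) (P₀, 0) :=
    ContDiffAt.joint_fderiv
      (f := fun (P : FP) (s : V2) => fderiv ℝ (fun r => hT P.1 P.2.1 P.2.2 r u v) s z) h2
  exact ContDiffAt.cont_slice (h3.clm_apply contDiffAt_const)

theorem jc_Gam (h : Dl P₀.1 P₀.2.1 ≠ 0) (x z : V2) :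
    ContinuousAt (fun P : FP => Gam (hT P.1 P.2.1 P.2.2) 0 x z) P₀ := by
  have h1 : ∀ w : V2, ContDiffAt ℝ ∞ (fun q : FP × V2 =>
      fderiv ℝ (fun r => hT q.1.1 q.1.2.1 q.1.2.2 r w) q.2) (P₀, 0) := fun w =>
    ContDiffAt.joint_fderiv (f := fun (P : FP) (r : V2) => hT P.1 P.2.1 P.2.2 r w)
      ((sm_hT (reg_zero h)).clm_apply contDiffAt_const)
  have h2 : ContDiffAt ℝ ∞ (fun q : FP × V2 =>
      fderiv ℝ (fun r => hT q.1.1 q.1.2.1 q.1.2.2 r x z) q.2) (P₀, 0) :=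
    ContDiffAt.joint_fderiv (f := fun (P : FP) (r : V2) => hT P.1 P.2.1 P.2.2 r x z)
      (sm_hTc h x z)
  have h3 : ContDiffAt ℝ ∞ (fun q : FP × V2 =>
      (1 / 2 : ℝ) • (fderiv ℝ (fun r => hT q.1.1 q.1.2.1 q.1.2.2 r z) q.2 x
        + fderiv ℝ (fun r => hT q.1.1 q.1.2.1 q.1.2.2 r x) q.2 z
        - fderiv ℝ (fun r => hT q.1.1 q.1.2.1 q.1.2.2 r x z) q.2)) (P₀, 0) :=
    ((((h1 z).clm_apply contDiffAt_const).add ((h1 x).clm_apply contDiffAt_const)).sub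
      h2).const_smul _
  exact ContDiffAt.cont_slice h3

theorem jc_cov {α β : FP → V2 →L[ℝ] ℝ} (h : Dl P₀.1 P₀.2.1 ≠ 0)
    (hi : (hT P₀.1 P₀.2.1 P₀.2.2 0).IsInvertible) (hα : ContinuousAt α P₀)
    (hβ : ContinuousAt β P₀) :
    ContinuousAt (fun P : FP => cov (hT P.1 P.2.1 P.2.2 0) (α P) (β P)) P₀ := by
  have h1 : ContinuousAt (fun P : FP => hT P.1 P.2.1 P.2.2 0) P₀ :=
    ContDiffAt.cont_slice (sm_hT (reg_zero h))
  have h2 : ContinuousAt (ContinuousLinearMap.inverse : (V2 →L[ℝ] V2 →L[ℝ] ℝ) → _)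
      (hT P₀.1 P₀.2.1 P₀.2.2 0) := (hi.contDiffAt_map_inverse (n := 0)).continuousAt
  have h3 : ContinuousAt (fun P : FP => ContinuousLinearMap.inverse (hT P.1 P.2.1 P.2.2 0)) P₀ :=
    ContinuousAt.comp (f := fun P : FP => hT P.1 P.2.1 P.2.2 0)
      (g := ContinuousLinearMap.inverse) h2 h1
  exact hα.clm_apply (h3.clm_apply hβ)

theorem jc_Rm (h : Dl P₀.1 P₀.2.1 ≠ 0) (hi : (hT P₀.1 P₀.2.1 P₀.2.2 0).IsInvertible)
    (x z : V2) : ContinuousAt (fun P : FP => Rm (hT P.1 P.2.1 P.2.2) 0 x z) P₀ :=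
  ((continuousAt_const.mul (((jc_D2 h x x z z).add (jc_D2 h z z x x)).sub
    (continuousAt_const.mul (jc_D2 h x z x z)))).add
    (jc_cov h hi (jc_Gam h x z) (jc_Gam h x z))).sub
    (jc_cov h hi (jc_Gam h x x) (jc_Gam h z z))

end LkCont

open LkCont

variable {P₀ : FP}

/-! ### the data -/

/-- The pointwise data of `hT, AT, kT` at `0`. -/
def jetD (P : FP) : PD :=
  (Rm (hT P.1 P.2.1 P.2.2) 0 e0 e1,
    FA (AT P.1 P.2.1 P.2.2) 0 e0 e1,
    fun i => fderiv ℝ (fun u => FA (AT P.1 P.2.1 P.2.2) u e0 e1) 0 (ev i),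
    kT P.1 P.2.1 P.2.2 0,
    fun i a b => fderiv ℝ (fun u => kT P.1 P.2.1 P.2.2 u a b) 0 (ev i),
    fun i j a b => fderiv ℝ (fun u => fderiv ℝ (fun v => kT P.1 P.2.1 P.2.2 v a b) u (ev j)) 0
      (ev i))

theorem jetD_K (P : FP) : (jetD P).K = Rm (hT P.1 P.2.1 P.2.2) 0 e0 e1 := rfl
theorem jetD_ρ (P : FP) : (jetD P).ρ = FA (AT P.1 P.2.1 P.2.2) 0 e0 e1 := rfl
theorem jetD_Dρ (P : FP) (i : Fin 2) : (jetD P).Dρ i
    = fderiv ℝ (fun u => FA (AT P.1 P.2.1 P.2.2) u e0 e1) 0 (ev i) := rfl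
theorem jetD_κ (P : FP) : (jetD P).κ = kT P.1 P.2.1 P.2.2 0 := rfl
theorem jetD_κ1 (P : FP) (i : Fin 2) (a b : Fin 3) : (jetD P).κ1 i a b
    = fderiv ℝ (fun u => kT P.1 P.2.1 P.2.2 u a b) 0 (ev i) := rfl
theorem jetD_κ2 (P : FP) (i j : Fin 2) (a b : Fin 3) : (jetD P).κ2 i j a b
    = fderiv ℝ (fun u => fderiv ℝ (fun v => kT P.1 P.2.1 P.2.2 v a b) u (ev j)) 0 (ev i) := rfl

theorem jetD_continuousAt (h : Dl P₀.1 P₀.2.1 ≠ 0)
    (hi : (hT P₀.1 P₀.2.1 P₀.2.2 0).IsInvertible) : ContinuousAt jetD P₀ := by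
  refine (jc_Rm h hi e0 e1).prodMk ((jc_rho h).prodMk (ContinuousAt.prodMk ?_
    (ContinuousAt.prodMk ?_ (ContinuousAt.prodMk ?_ ?_))))
  · exact continuousAt_pi.2 fun i => jc_drho h (ev i)
  · exact continuousAt_pi.2 fun a => continuousAt_pi.2 fun b => jc_k0 a b
  · exact continuousAt_pi.2 fun i => continuousAt_pi.2 fun a => continuousAt_pi.2 fun b =>
      jc_k1 a b (ev i)
  · exact continuousAt_pi.2 fun i => continuousAt_pi.2 fun j => continuousAt_pi.2 fun a =>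
      continuousAt_pi.2 fun b => jc_k2 a b (ev i) (ev j)

/-! ### frames -/

theorem LkCont.V2_dot_self (x : V2) : x ⬝ᵥ x = x 0 ^ 2 + x 1 ^ 2 := by
  rw [dotProduct, Fin.sum_univ_two]; ring

theorem LkCont.V3_dot_self (x : V3) : x ⬝ᵥ x = x 0 ^ 2 + x 1 ^ 2 + x 2 ^ 2 := by
  rw [dotProduct, Fin.sum_univ_three]; ring

/-- The base metric at the origin of the chart, for a frame. -/
theorem hT_zero_of_Fr {d : ℝ} {y : V3} {l : V2 →L[ℝ] V3} (hd : |d| < 1) (hF : Fr d y l)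
    (x z : V2) : hT d y l 0 x z = x ⬝ᵥ z := by
  rw [hT_apply, Yc_zero, Yc_fderiv_zero, Yc_fderiv_zero,
    hB_y1 (Dl_pos hd hF.unit).ne' _ (hF.perp x), hF.orth]

theorem hT_zero_isInner {d : ℝ} {y : V3} {l : V2 →L[ℝ] V3} (hd : |d| < 1) (hF : Fr d y l) :
    IsInner (hT d y l 0) where
  symm x z := by rw [hT_zero_of_Fr hd hF, hT_zero_of_Fr hd hF, dotProduct_comm]
  pos x hx := by
    rw [hT_zero_of_Fr hd hF, V2_dot_self]
    by_contra hneg
    apply hx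
    have h0 : x 0 = 0 := by nlinarith [sq_nonneg (x 0), sq_nonneg (x 1)]
    have h1 : x 1 = 0 := by nlinarith [sq_nonneg (x 0), sq_nonneg (x 1)]
    ext i
    fin_cases i
    · exact h0
    · exact h1

/-- The frames with `|d| ≤ 1/2` (this includes `d = 0`). -/
def KF : Set FP := {P | |P.1| ≤ 1 / 2 ∧ Fr P.1 P.2.1 P.2.2}

theorem LkCont.KF_lt {P : FP} (hP : P ∈ KF) : |P.1| < 1 := lt_of_le_of_lt hP.1 (by norm_num)

theorem jetD_continuousOn : ContinuousOn jetD KF := by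
  intro P hP
  exact (jetD_continuousAt (Dl_pos (KF_lt hP) hP.2.unit).ne'
    (hT_zero_isInner (KF_lt hP) hP.2).invertible).continuousWithinAt

theorem LkCont.Bv_dot_ge {d : ℝ} (hd : |d| ≤ 1 / 2) (v : V3) : v ⬝ᵥ v ≤ 2 * (Bv d v ⬝ᵥ v) := by
  have h1 := abs_le.1 hd
  have h2 : Bv d v ⬝ᵥ v = (1 + d) * v 0 ^ 2 + v 1 ^ 2 + (1 - d) * v 2 ^ 2 := by
    simp [Bv, dotProduct, Fin.sum_univ_three]; ring
  rw [h2, V3_dot_self]
  nlinarith [mul_nonneg (by linarith [h1.1] : (0:ℝ) ≤ 1 / 2 + d) (sq_nonneg (v 0)),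
    mul_nonneg (by linarith [h1.2] : (0:ℝ) ≤ 1 / 2 - d) (sq_nonneg (v 2)), sq_nonneg (v 1)]

theorem LkCont.isClosed_KF : IsClosed KF := by
  have hd : Continuous fun P : FP => P.1 := continuous_fst
  have hy : Continuous fun P : FP => P.2.1 := continuous_fst.comp continuous_snd
  have hl : ∀ x : V2, Continuous fun P : FP => P.2.2 x := fun x =>
    (continuous_snd.comp continuous_snd).clm_apply continuous_const
  have hdot : ∀ {f g : FP → V3}, Continuous f → Continuous g →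
      Continuous fun P => f P ⬝ᵥ g P := fun hf hg =>
    (dotL.continuous.comp hf).clm_apply hg
  have hB : ∀ x : V2, Continuous fun P : FP => Bv P.1 (P.2.2 x) := by
    intro x
    have h : (fun P : FP => Bv P.1 (P.2.2 x)) = fun P => P.2.2 x + P.1 • PhL (P.2.2 x) := by
      funext P; rw [Bv_eq]; rfl
    rw [h]
    exact (hl x).add (hd.smul (PhL.continuous.comp (hl x)))
  have e : KF = {P : FP | |P.1| ≤ 1 / 2} ∩ ({P | P.2.1 ⬝ᵥ P.2.1 = 1} ∩
      ((⋂ x : V2, {P | P.2.2 x ⬝ᵥ P.2.1 = 0}) ∩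
        (⋂ x : V2, ⋂ z : V2, {P | Bv P.1 (P.2.2 x) ⬝ᵥ P.2.2 z = x ⬝ᵥ z}))) := by
    ext P
    simp only [Set.mem_inter_iff, Set.mem_iInter]
    exact ⟨fun h => ⟨h.1, h.2.unit, h.2.perp, h.2.orth⟩, fun h => ⟨h.1, h.2.1, h.2.2.1, h.2.2.2⟩⟩
  rw [e]
  refine (isClosed_le hd.abs continuous_const).inter ((isClosed_eq (hdot hy hy)
    continuous_const).inter ((isClosed_iInter fun x => isClosed_eq (hdot (hl x) hy)
    continuous_const).inter (isClosed_iInter fun x => isClosed_iInter fun z =>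
    isClosed_eq (hdot (hB x) (hl z)) continuous_const)))

theorem LkCont.V3_norm_le {v : V3} {c : ℝ} (hc : 0 ≤ c) (h : v ⬝ᵥ v ≤ c ^ 2) : ‖v‖ ≤ c := by
  rw [V3_dot_self] at h
  refine (pi_norm_le_iff_of_nonneg hc).2 fun i => ?_
  rw [Real.norm_eq_abs]
  apply abs_le_of_sq_le_sq _ hc
  fin_cases i
  · change v 0 ^ 2 ≤ c ^ 2
    nlinarith [sq_nonneg (v 1), sq_nonneg (v 2)]
  · change v 1 ^ 2 ≤ c ^ 2
    nlinarith [sq_nonneg (v 0), sq_nonneg (v 2)]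
  · change v 2 ^ 2 ≤ c ^ 2
    nlinarith [sq_nonneg (v 0), sq_nonneg (v 1)]

theorem isCompact_KF : IsCompact KF := by
  have : ProperSpace (V2 →L[ℝ] V3) := FiniteDimensional.proper ℝ _
  refine IsCompact.of_isClosed_subset
    ((isCompact_closedBall (0 : ℝ) 1).prod ((isCompact_closedBall (0 : V3) 1).prod
      (isCompact_closedBall (0 : V2 →L[ℝ] V3) 2))) isClosed_KF ?_
  intro P hP
  refine ⟨?_, ?_, ?_⟩
  · rw [mem_closedBall_zero_iff, Real.norm_eq_abs]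
    exact (KF_lt hP).le
  · rw [mem_closedBall_zero_iff]
    exact V3_norm_le zero_le_one (by rw [hP.2.unit]; norm_num)
  · rw [mem_closedBall_zero_iff]
    refine ContinuousLinearMap.opNorm_le_bound _ (by norm_num) fun x => ?_
    apply V3_norm_le (by positivity)
    have h1 := Bv_dot_ge hP.1 (P.2.2 x)
    rw [hP.2.orth, V2_dot_self] at h1
    have h2 : ∀ i, x i ^ 2 ≤ ‖x‖ ^ 2 := fun i => by
      have h3 : |x i| ≤ ‖x‖ := by
        rw [← Real.norm_eq_abs]; exact norm_le_pi_norm x i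
      have h4 := abs_nonneg (x i)
      rw [← sq_abs (x i)]
      nlinarith
    have h5 := h2 0
    have h6 := h2 1
    nlinarith

/-- The frames at fixed `d`. -/
def KFd (d : ℝ) : Set FP := {P | P.1 = d ∧ Fr P.1 P.2.1 P.2.2}

theorem KFd_subset {d : ℝ} (hd : |d| ≤ 1 / 2) : KFd d ⊆ KF := by
  rintro P ⟨h1, h2⟩
  exact ⟨by rw [h1]; exact hd, h2⟩

theorem isCompact_KFd {d : ℝ} (hd : |d| ≤ 1 / 2) : IsCompact (KFd d) := by
  have h : KFd d = KF ∩ {P : FP | P.1 = d} := by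
    ext P
    constructor
    · intro h
      exact ⟨KFd_subset hd h, h.1⟩
    · intro h
      exact ⟨h.2, h.1.2⟩
  rw [h]
  exact isCompact_KF.inter_right (isClosed_eq continuous_fst continuous_const)

/-- For fixed `d` the data of all frames form a compact set. -/
theorem isCompact_jetD {d : ℝ} (hd : |d| ≤ 1 / 2) : IsCompact (jetD '' KFd d) :=
  (isCompact_KFd hd).image_of_continuousOn (jetD_continuousOn.mono (KFd_subset hd))

/-- Uniformity in `d`: a condition on the data which is open and holds for all frames with `d = 0`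
holds for all frames with small `d`. -/
theorem eventually_frames {U : Set FP} (hU : IsOpen U)
    (h0 : ∀ P ∈ KFd 0, P ∈ U) :
    ∃ δ : ℝ, 0 < δ ∧ δ ≤ 1 / 2 ∧ ∀ d : ℝ, |d| < δ → ∀ P ∈ KFd d, P ∈ U := by
  by_contra hcon
  push Not at hcon
  have h1 : ∀ n : ℕ, ∃ P : FP, P ∈ KF ∧ |P.1| < 1 / ((n : ℝ) + 2) ∧ P ∉ U := by
    intro n
    have hn : (0 : ℝ) < (n : ℝ) + 2 := by positivity
    have hn2 : 1 / ((n : ℝ) + 2) ≤ 1 / 2 :=
      one_div_le_one_div_of_le (by norm_num) (by linarith [Nat.cast_nonneg (α := ℝ) n])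
    obtain ⟨d, hd, P, hP, hPU⟩ := hcon (1 / ((n : ℝ) + 2)) (by positivity) hn2
    refine ⟨P, KFd_subset (hd.le.trans hn2) hP, ?_, hPU⟩
    rw [hP.1]; exact hd
  choose P hP hPd hPU using h1
  obtain ⟨Q, hQ, φ, hφ, hlim⟩ := isCompact_KF.tendsto_subseq hP
  have hd0 : Q.1 = 0 := by
    have h2 : Tendsto (fun n => (P (φ n)).1) atTop (𝓝 Q.1) :=
      (continuous_fst.tendsto Q).comp hlim
    have h3 : Tendsto (fun n => (P (φ n)).1) atTop (𝓝 0) := by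
      rw [tendsto_zero_iff_abs_tendsto_zero]
      have h4 : Tendsto (fun n : ℕ => 1 / ((n : ℝ) + 2)) atTop (𝓝 0) := by
        have h5 : Tendsto (fun n : ℕ => (n : ℝ) + 2) atTop atTop :=
          tendsto_atTop_add_const_right _ _ tendsto_natCast_atTop_atTop
        have h6 : Tendsto (fun n : ℕ => ((n : ℝ) + 2)⁻¹) atTop (𝓝 0) := h5.inv_tendsto_atTop
        simpa using h6
      exact squeeze_zero (fun n => abs_nonneg _) (fun n => (hPd (φ n)).le)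
        (h4.comp hφ.tendsto_atTop)
    exact tendsto_nhds_unique h2 h3
  have hQU : Q ∈ U := h0 Q ⟨hd0, hQ.2⟩
  have h6 : ∀ᶠ n in atTop, P (φ n) ∈ U := hlim.eventually (hU.mem_nhds hQU)
  obtain ⟨n, hn⟩ := h6.exists
  exact hPU (φ n) hn

/-- The data of all frames with small `d` are close to those with `d = 0`: a continuous function of
the data which has the value `c` for `d = 0` is close to `c` for small `d`. -/
theorem eventually_jetD_close {f : FP → ℝ} (hf : ContinuousOn f KF) {c : ℝ}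
    (h0 : ∀ P ∈ KFd 0, f P = c) {ε : ℝ} (hε : 0 < ε) :
    ∃ δ : ℝ, 0 < δ ∧ δ ≤ 1 / 2 ∧ ∀ d : ℝ, |d| < δ → ∀ P ∈ KFd d, |f P - c| < ε := by
  obtain ⟨V, hV, hVeq⟩ := (continuousOn_iff'.1 hf) (Metric.ball c ε) Metric.isOpen_ball
  have h1 : ∀ P ∈ KFd 0, P ∈ V := by
    intro P hP
    have h2 : P ∈ f ⁻¹' Metric.ball c ε ∩ KF := by
      refine ⟨?_, KFd_subset (by norm_num) hP⟩
      change f P ∈ Metric.ball c ε
      rw [h0 P hP]
      exact Metric.mem_ball_self hε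
    rw [hVeq] at h2
    exact h2.1
  obtain ⟨δ, hδ, hδ2, H⟩ := eventually_frames hV h1
  refine ⟨δ, hδ, hδ2, fun d hd P hP => ?_⟩
  have h3 : P ∈ V ∩ KF := ⟨H d hd P hP, KFd_subset (hd.le.trans hδ2) hP⟩
  rw [← hVeq] at h3
  have h4 := h3.1
  rw [Set.mem_preimage, Metric.mem_ball, Real.dist_eq] at h4
  exact h4

theorem KF_jetK : ContinuousOn (fun P : FP => Rm (hT P.1 P.2.1 P.2.2) 0 e0 e1) KF := by
  intro P hP
  exact (jc_Rm (Dl_pos (KF_lt hP) hP.2.unit).ne'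
    (hT_zero_isInner (KF_lt hP) hP.2).invertible e0 e1).continuousWithinAt

/-! ### existence of frames -/

theorem LkCont.Bv_pos {d : ℝ} (hd : |d| < 1) {v : V3} (hv : v ≠ 0) : 0 < Bv d v ⬝ᵥ v := by
  have h1 := abs_lt.1 hd
  have h2 : Bv d v ⬝ᵥ v = (1 + d) * v 0 ^ 2 + v 1 ^ 2 + (1 - d) * v 2 ^ 2 := by
    simp [Bv, dotProduct, Fin.sum_univ_three]; ring
  have ha : 0 < 1 + d := by linarith [h1.1]
  have hb : 0 < 1 - d := by linarith [h1.2]
  have p0 := mul_nonneg ha.le (sq_nonneg (v 0))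
  have p2 := mul_nonneg hb.le (sq_nonneg (v 2))
  rw [h2]
  by_contra hneg
  have q0 : (1 + d) * v 0 ^ 2 = 0 := by nlinarith [sq_nonneg (v 1)]
  have q1 : v 1 ^ 2 = 0 := by nlinarith [sq_nonneg (v 1)]
  have q2 : (1 - d) * v 2 ^ 2 = 0 := by nlinarith [sq_nonneg (v 1)]
  apply hv
  ext i
  fin_cases i
  · simpa [ha.ne'] using q0
  · simpa using q1
  · simpa [hb.ne'] using q2

theorem LkCont.Bv_dot_comm (d : ℝ) (u v : V3) : Bv d u ⬝ᵥ v = Bv d v ⬝ᵥ u := by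
  simp [Bv, dotProduct, Fin.sum_univ_three]; ring

theorem LkCont.exists_perp (y : V3) : ∃ p : V3, p ≠ 0 ∧ p ⬝ᵥ y = 0 := by
  by_cases h : y 0 = 0 ∧ y 1 = 0
  · refine ⟨![1, 0, 0], fun h0 => ?_, ?_⟩
    · have := congrFun h0 0
      simp at this
    · simp [dotProduct, Fin.sum_univ_three, h.1]
  · refine ⟨![y 1, -y 0, 0], fun h0 => h ?_, ?_⟩
    · have h1 := congrFun h0 0
      have h2 := congrFun h0 1
      simp at h1 h2
      exact ⟨h2, h1⟩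
    · simp [dotProduct, Fin.sum_univ_three]; ring

/-- There is a frame at every unit vector. -/
theorem exists_Fr {d : ℝ} (hd : |d| < 1) {y : V3} (hy : y ⬝ᵥ y = 1) :
    ∃ l : V2 →L[ℝ] V3, Fr d y l := by
  obtain ⟨p, hp, hpy⟩ := exists_perp y
  set q : V3 := y ⨯₃ Bv d p with hq
  have hqy : q ⬝ᵥ y = 0 := by rw [hq]; simp [cross_apply, dotProduct, Fin.sum_univ_three]; ring
  have hpq : Bv d p ⬝ᵥ q = 0 := by
    rw [hq]; simp [cross_apply, dotProduct, Fin.sum_univ_three]; ring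
  have hpp := Bv_pos hd hp
  have hq0 : q ≠ 0 := by
    intro h0
    -- `y × B p = 0` gives `B p = (y · B p) y`, hence `B p · p = 0`
    have h1 : (Bv d p ⬝ᵥ p) * (y ⬝ᵥ y) = (y ⬝ᵥ Bv d p) * (p ⬝ᵥ y) + (q ⬝ᵥ (y ⨯₃ p)) := by
      rw [hq]; simp [cross_apply, dotProduct, Fin.sum_univ_three]; ring
    rw [hy, hpy, h0] at h1
    simp at h1
    exact hpp.ne' h1
  have hqq := Bv_pos hd hq0
  set a := (Real.sqrt (Bv d p ⬝ᵥ p))⁻¹ with ha
  set b := (Real.sqrt (Bv d q ⬝ᵥ q))⁻¹ with hb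
  have ha2 : a ^ 2 * (Bv d p ⬝ᵥ p) = 1 := by
    rw [ha, inv_pow, Real.sq_sqrt hpp.le, inv_mul_cancel₀ hpp.ne']
  have hb2 : b ^ 2 * (Bv d q ⬝ᵥ q) = 1 := by
    rw [hb, inv_pow, Real.sq_sqrt hqq.le, inv_mul_cancel₀ hqq.ne']
  let l : V2 →L[ℝ] V3 :=
    (ContinuousLinearMap.proj (R := ℝ) (φ := fun _ : Fin 2 => ℝ) 0).smulRight (a • p)
      + (ContinuousLinearMap.proj (R := ℝ) (φ := fun _ : Fin 2 => ℝ) 1).smulRight (b • q)
  have hl : ∀ x : V2, l x = x 0 • (a • p) + x 1 • (b • q) := fun x => rfl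
  have hBl : ∀ x : V2, Bv d (l x) = (x 0 * a) • Bv d p + (x 1 * b) • Bv d q := by
    intro x
    rw [hl, ← BvL_apply, map_add, map_smul, map_smul, map_smul, map_smul, BvL_apply, BvL_apply,
      smul_smul, smul_smul]
  refine ⟨l, hy, fun x => ?_, fun x z => ?_⟩
  · rw [hl]
    simp only [add_dotProduct, smul_dotProduct, hpy, hqy, smul_eq_mul, mul_zero, add_zero]
  · rw [hBl, hl]
    have hqp : Bv d q ⬝ᵥ p = 0 := by rw [Bv_dot_comm, hpq]
    simp only [add_dotProduct, dotProduct_add, smul_dotProduct, dotProduct_smul, hpq, hqp,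
      smul_eq_mul, mul_zero, add_zero, zero_add]
    have hxz : x ⬝ᵥ z = x 0 * z 0 + x 1 * z 1 := by rw [dotProduct, Fin.sum_univ_two]
    rw [hxz]
    linear_combination (x 0 * z 0) * ha2 + (x 1 * z 1) * hb2

end

end Pool.Agent.HS

end
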