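import Pool.Agent.H94.PT.HS.LkT
import Pool.Agent.H94.PT.M17

/-! The parts of this file: HS.LkK2, HS.LkDh. -/

section

set_option maxSynthPendingDepth 3

/-!
# LINK: the second derivatives of the matrix `kT` as the form `kapJ`
-/

namespace Pool.Agent.HS

open Matrix Filter
open scoped Topology ContDiff

noncomputable section

variable {d : ℝ} {y : V3} {l : V2 →L[ℝ] V3}

theorem V2_sum (v : V2) : v = v 0 • ev 0 + v 1 • ev 1 := by
  ext i
  fin_cases i <;> simp [ev]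

theorem dd_ev {F : Type*} [NormedAddCommGroup F] [NormedSpace ℝ F] {f : V2 → F}
    (hf : ContDiffAt ℝ 2 f 0) (v : V2) :
    dd f 0 v v = ∑ e, ∑ g, (v e * v g) • dd f 0 (ev e) (ev g) := by
  rw [dd_eq hf]
  simp only [dd_eq hf]
  conv_lhs => rw [V2_sum v]
  rw [Fin.sum_univ_two, Fin.sum_univ_two, Fin.sum_univ_two]
  simp only [map_add, map_smul, _root_.add_apply, _root_.smul_apply]
  module

theorem dd_sum_smul {ι : Type*} {F : Type*} [NormedAddCommGroup F] [NormedSpace ℝ F]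
    (s : Finset ι) (c : ι → ℝ) (f : ι → V2 → F) (hf : ∀ i, ContDiffAt ℝ 2 (f i) 0) (x z : V2) :
    dd (fun u => ∑ i ∈ s, c i • f i u) 0 x z = ∑ i ∈ s, c i • dd (f i) 0 x z := by
  classical
  induction s using Finset.induction_on with
  | empty => simp [dd_const]
  | insert a s ha ih =>
    have h1 : (fun u => ∑ i ∈ insert a s, c i • f i u)
        = fun u => c a • f a u + ∑ i ∈ s, c i • f i u := by
      funext u
      rw [Finset.sum_insert ha]
    have h2 : ContDiffAt ℝ 2 (fun u => ∑ i ∈ s, c i • f i u) 0 :=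
      ContDiffAt.sum fun i _ => (hf i).const_smul (c i)
    rw [h1, dd_add ((hf a).const_smul (c a)) h2, dd_const_smul (hf a), ih,
      Finset.sum_insert ha]

theorem kN_eq (n : V3) : kN d y l n = fun u => ∑ i, (n i) • ∑ j, (n j) • kT d y l u i j := by
  funext u
  have h : kN d y l n u = bf (kT d y l u) n n := (bf_kT u n n).symm
  rw [h]
  unfold bf
  rw [dotProduct]
  refine Finset.sum_congr rfl fun i _ => ?_
  rw [Matrix.mulVec, dotProduct, smul_eq_mul]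
  congr 1
  refine Finset.sum_congr rfl fun j _ => ?_
  rw [smul_eq_mul, mul_comm]

/-- The field `κ2` of `Adapted` gives the form `kapJ` of `GDefs`. -/
theorem kap2_of_dd {k2 : Fin 2 → Fin 2 → M33}
    (hk : ∀ i j a b, fderiv ℝ (fun u => fderiv ℝ (fun v => kT d y l v a b) u (ev j)) 0 (ev i)
      = k2 i j a b) (v : V2) (n : V3) :
    ∑ e, ∑ f, v e * v f * bf (k2 e f) n n
      = kapJ d y (y1 d y (l v)) (y2 d y (l v)) n (n1 d y (l v) n) (n2 d y (l v) n) := by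
  have hc : ∀ i j : Fin 3, ContDiffAt ℝ 2 (fun u => kT d y l u i j) (0 : V2) := fun i j =>
    (kT_contDiff i j).contDiffAt
  have hcN : ContDiffAt ℝ 2 (kN d y l n) (0 : V2) := by
    rw [kN_eq]
    exact ContDiffAt.sum fun i _ => (ContDiffAt.sum fun j _ => (hc i j).const_smul _).const_smul _
  have h1 : ∀ x z : V2, dd (kN d y l n) 0 x z
      = ∑ i, (n i) • ∑ j, (n j) • dd (fun u => kT d y l u i j) 0 x z := by
    intro x z
    rw [kN_eq, dd_sum_smul _ _ _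
      (fun i => ContDiffAt.sum fun j _ => (hc i j).const_smul _)]
    refine Finset.sum_congr rfl fun i _ => ?_
    rw [dd_sum_smul _ _ _ (fun j => hc i j)]
  have h2 : ∀ e f : Fin 2, dd (kN d y l n) 0 (ev e) (ev f) = bf (k2 e f) n n := by
    intro e f
    rw [h1]
    unfold bf
    rw [dotProduct]
    refine Finset.sum_congr rfl fun i _ => ?_
    rw [Matrix.mulVec, dotProduct, smul_eq_mul]
    congr 1
    refine Finset.sum_congr rfl fun j _ => ?_
    rw [smul_eq_mul, mul_comm, ← hk e f i j]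
    rfl
  rw [← kN_dd, dd_ev hcN]
  refine Finset.sum_congr rfl fun e _ => Finset.sum_congr rfl fun f _ => ?_
  rw [h2, smul_eq_mul]

end

end Pool.Agent.HS

end

section

set_option maxSynthPendingDepth 3

/-!
# LINK: the base metric in the adapted chart, value and first derivative at `0`

`hT d y l 0 x z = x · z` and `fderiv ℝ (hT d y l) 0 = 0` for a frame `l` at `y`.
-/

namespace Pool.Agent.HS

open Matrix Filter
open scoped Topology ContDiff

noncomputable section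

variable {d : ℝ} {y : V3} {l : V2 →L[ℝ] V3}

theorem dh_bv_comm (d : ℝ) (a c : V3) : bv d a ⬝ᵥ c = bv d c ⬝ᵥ a := by
  simp only [dotProduct, Fin.sum_univ_three, bv, Matrix.cons_val_zero, Matrix.cons_val_one,
    Matrix.cons_val]
  ring

theorem dh_Dl_hasFDerivAt (d : ℝ) (p : V3) : HasFDerivAt (Dl d) ((2 : ℝ) • dotL (bv d p)) p := by
  have h := dotL.hasFDerivAt_of_bilinear (bvL d).hasFDerivAt (hasFDerivAt_id p)
  have h2 : HasFDerivAt (Dl d) _ p := h
  refine h2.congr_fderiv ?_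
  ext1 c
  have e : bv d c ⬝ᵥ p = bv d p ⬝ᵥ c := dh_bv_comm d c p
  change bv d p ⬝ᵥ c + bv d c ⬝ᵥ p = 2 * (bv d p ⬝ᵥ c)
  rw [e]
  ring

theorem dh_iDl_hasFDerivAt (d : ℝ) {p : V3} (hp : Dl d p ≠ 0) :
    HasFDerivAt (fun q => (Dl d q)⁻¹) ((-(2 * ((Dl d p)⁻¹) ^ 2)) • dotL (bv d p)) p := by
  have h := (hasDerivAt_inv hp).comp_hasFDerivAt p (dh_Dl_hasFDerivAt d p)
  have h2 : HasFDerivAt (fun q => (Dl d q)⁻¹) _ p := h
  refine h2.congr_fderiv ?_
  ext1 c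
  change -(Dl d p ^ 2)⁻¹ * (2 * (bv d p ⬝ᵥ c)) = -(2 * ((Dl d p)⁻¹) ^ 2) * (bv d p ⬝ᵥ c)
  rw [inv_pow]
  ring

theorem dh_hBL_contDiffAt (d : ℝ) {p : V3} (hp : Dl d p ≠ 0) {n : WithTop ℕ∞} :
    ContDiffAt ℝ n (hBL d) p := by
  have h1 : ContDiff ℝ n (Dl d) := by
    have h : Dl d = fun q => dotL (bvL d q) q := rfl
    rw [h]
    exact (dotL.contDiff.comp (bvL d).contDiff).clm_apply contDiff_id
  exact (h1.contDiffAt.inv hp).smul contDiffAt_const

theorem dh_hBL_hasFDerivAt (d : ℝ) {p : V3} (hp : Dl d p ≠ 0) :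
    HasFDerivAt (hBL d)
      (((-(2 * ((Dl d p)⁻¹) ^ 2)) • dotL (bv d p)).smulRight (dotL.comp (BvL d))) p := by
  have h := (dh_iDl_hasFDerivAt d hp).smul_const (dotL.comp (BvL d))
  exact h

theorem dh_hBL_fderiv (d : ℝ) {p : V3} (hp : Dl d p ≠ 0) (c a b : V3) :
    fderiv ℝ (hBL d) p c a b
      = -(2 * ((Dl d p)⁻¹) ^ 2) * (bv d p ⬝ᵥ c) * (Bv d a ⬝ᵥ b) := by
  rw [(dh_hBL_hasFDerivAt d hp).fderiv]
  rfl

theorem Yc_fderiv2 (x z : V2) :
    fderiv ℝ (fderiv ℝ (Yc d y l)) 0 x z = q2 d y (l x) (l z) := by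
  rw [← dd_eq (Yc_contDiff.contDiffAt) x z, Yc_dd]
  rfl

/-- The first derivative of the base metric vanishes in the chart. -/
theorem hT_fderiv_zero (h : Fr d y l) (hD : Dl d y ≠ 0) : fderiv ℝ (hT d y l) 0 = 0 := by
  refine ContinuousLinearMap.ext fun c => ContinuousLinearMap.ext fun a =>
    ContinuousLinearMap.ext fun b => ?_
  have hne' : Dl d (Yc d y l 0) ≠ 0 := by rw [Yc_zero]; exact hD
  have hG1 : ContDiffAt ℝ 1 (hBL d) (Yc d y l 0) := dh_hBL_contDiffAt d hne'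
  have hY2 : ContDiffAt ℝ 2 (Yc d y l) 0 := Yc_contDiff.contDiffAt
  have h1 : fderiv ℝ (hT d y l) 0 c a b = _ := fderiv_pull hG1 hY2 c a b
  rw [h1, Yc_fderiv2, Yc_fderiv2, dh_hBL_fderiv d hne', Yc_zero, Yc_fderiv_zero, Yc_fderiv_zero,
    Yc_fderiv_zero, hBL_apply, hBL_apply, hB, hB, Bv_y1_dot d y _ _ (h.perp a)]
  have h2 : Bv d (q2 d y (l c) (l a)) ⬝ᵥ y1 d y (l b) + Bv d (y1 d y (l a)) ⬝ᵥ q2 d y (l c) (l b)
      = 2 * (bv d y ⬝ᵥ y1 d y (l c)) * (Bv d (l a) ⬝ᵥ l b) :=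
    lkT1 d y (l c) (l a) (l b) h.unit (h.perp c) (h.perp a) (h.perp b)
  have h3 : -(2 * ((Dl d y)⁻¹) ^ 2) * (bv d y ⬝ᵥ y1 d y (l c)) * (Dl d y * (Bv d (l a) ⬝ᵥ l b))
      + Bv d (q2 d y (l c) (l a)) ⬝ᵥ y1 d y (l b) / Dl d y
      + Bv d (y1 d y (l a)) ⬝ᵥ q2 d y (l c) (l b) / Dl d y
      = (Bv d (q2 d y (l c) (l a)) ⬝ᵥ y1 d y (l b) + Bv d (y1 d y (l a)) ⬝ᵥ q2 d y (l c) (l b)
        - 2 * (bv d y ⬝ᵥ y1 d y (l c)) * (Bv d (l a) ⬝ᵥ l b)) / Dl d y := by
    field_simp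
    ring
  rw [h3, h2, sub_self, zero_div]
  rfl

end

end Pool.Agent.HS

end
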