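import Pool.Agent.H94.PT.HS.Reg
import Pool.Agent.H94.PT.M06
import Pool.Agent.H94.PT.M13

/-! The parts of this file: HS.PullE, HS.PolB. -/

section

/-!
# The metric of the vector bundle in a gauge (project HS)

`pull (GE h A q) (fun p => (Y p.1, cayR (b p.1) p.2)) = GE (pull h Y) (gA A Y b) (gq q Y b)`.
-/

set_option maxSynthPendingDepth 3

namespace Pool.Agent.HS

open Matrix Topology Filter

variable {B B' : Type*} [NormedAddCommGroup B] [NormedSpace ℝ B] [NormedAddCommGroup B'] [NormedSpace ℝ B']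

/-- `cayR a` as a continuous linear equivalence. -/
noncomputable def cayEquiv (a : V3) : V3 ≃L[ℝ] V3 :=
  ContinuousLinearEquiv.equivOfInverse (cayR a) (cayR (-a)) (cayR_neg a) (cayR_neg' a)

theorem Cw_cayR (a w : V3) : Cw (cayR a w) = (cayR a).comp ((Cw w).comp (cayR (-a))) := by
  ext1 v
  simp only [Cw_apply, ContinuousLinearMap.comp_apply]
  rw [cayR_cross, cayR_neg']

theorem crossL_cayR (a w : V3) : crossL (cayR a w) = (cayR a).comp ((crossL w).comp (cayR (-a))) := by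
  ext1 v
  simp only [crossL_apply, ContinuousLinearMap.comp_apply]
  rw [cayR_cross, cayR_neg']

/-- conjugation of `q` by a rotation -/
noncomputable def cjq (a : V3) (q : V3 →L[ℝ] V3) : V3 →L[ℝ] V3 := (cayR (-a)).comp (q.comp (cayR a))

theorem inverse_cjq (a : V3) (q : V3 →L[ℝ] V3) :
    ContinuousLinearMap.inverse (cjq a q) = cjq a (ContinuousLinearMap.inverse q) := by
  have h1 : cjq a q = ((cayEquiv a).symm : V3 →L[ℝ] V3) ∘L (q ∘L (cayEquiv a : V3 →L[ℝ] V3)) := rfl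
  rw [h1, ContinuousLinearMap.inverse_equiv_comp, ContinuousLinearMap.inverse_comp_equiv]
  rfl

theorem Sw_cayR (a w : V3) (q : V3 →L[ℝ] V3) : Sw (cjq a q) w = cjq a (Sw q (cayR a w)) := by
  unfold Sw
  rw [inverse_cjq, ← inverse_cjq a (ContinuousLinearMap.id ℝ V3 +
    (Cw (cayR a w)).comp ((ContinuousLinearMap.inverse q).comp (crossL (cayR a w))))]
  congr 1
  ext1 v
  simp only [cjq, _root_.add_apply, ContinuousLinearMap.comp_apply, ContinuousLinearMap.id_apply,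
    Cw_cayR, crossL_cayR, map_add, cayR_neg]

theorem Sw_cayR_apply (a w v : V3) (q : V3 →L[ℝ] V3) :
    Sw q (cayR a w) (cayR a v) = cayR a (Sw (cjq a q) w v) := by
  rw [Sw_cayR]
  simp only [cjq, ContinuousLinearMap.comp_apply, cayR_neg']

/-- the change of coordinates `(u, w) ↦ (Y u, R_{b(u)} w)` of the vector bundle -/
noncomputable def phiE (Y : B' → B) (b : B' → V3) (p : B' × V3) : B × V3 := (Y p.1, cayR (b p.1) p.2)

theorem phiE_hasFDerivAt {Y : B' → B} {b : B' → V3} {p : B' × V3} (hY : DifferentiableAt ℝ Y p.1)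
    (hb : DifferentiableAt ℝ b p.1) :
    HasFDerivAt (phiE Y b)
      (((fderiv ℝ Y p.1).comp (ContinuousLinearMap.fst ℝ B' V3)).prod
        ((Cw (cayR (b p.1) p.2)).comp (((cayE (b p.1)).comp (fderiv ℝ b p.1)).comp
          (ContinuousLinearMap.fst ℝ B' V3)) + (cayR (b p.1)).comp (ContinuousLinearMap.snd ℝ B' V3))) p := by
  have hf : HasFDerivAt (fun p : B' × V3 => p.1) (ContinuousLinearMap.fst ℝ B' V3) p := hasFDerivAt_fst
  have hs : HasFDerivAt (fun p : B' × V3 => p.2) (ContinuousLinearMap.snd ℝ B' V3) p := hasFDerivAt_snd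
  have h1 : HasFDerivAt (fun p : B' × V3 => Y p.1)
      ((fderiv ℝ Y p.1).comp (ContinuousLinearMap.fst ℝ B' V3)) p := hY.hasFDerivAt.comp p hf
  have h2 : HasFDerivAt (fun p : B' × V3 => b p.1)
      ((fderiv ℝ b p.1).comp (ContinuousLinearMap.fst ℝ B' V3)) p := hb.hasFDerivAt.comp p hf
  have h3 : HasFDerivAt cayR (fderiv ℝ cayR (b p.1)) (b p.1) :=
    ((cayR_contDiff (n := 1)).differentiable (by norm_num) _).hasFDerivAt
  have h4 : HasFDerivAt (fun p : B' × V3 => cayR (b p.1))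
      ((fderiv ℝ cayR (b p.1)).comp ((fderiv ℝ b p.1).comp (ContinuousLinearMap.fst ℝ B' V3))) p := by
    have h := HasFDerivAt.comp p h3 h2
    exact h
  have h5 := h4.clm_apply hs
  refine (h1.prodMk h5).congr_fderiv (ContinuousLinearMap.ext fun v => ?_)
  refine Prod.ext rfl ?_
  simp only [ContinuousLinearMap.prod_apply, _root_.add_apply, ContinuousLinearMap.comp_apply,
    ContinuousLinearMap.flip_apply, Cw_apply, ContinuousLinearMap.coe_fst', ContinuousLinearMap.coe_snd']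
  rw [fderiv_cayR_apply]
  abel

theorem phiE_fderiv_apply {Y : B' → B} {b : B' → V3} {p : B' × V3} (hY : DifferentiableAt ℝ Y p.1)
    (hb : DifferentiableAt ℝ b p.1) (x : B' × V3) :
    fderiv ℝ (phiE Y b) p x = (fderiv ℝ Y p.1 x.1,
      cayE (b p.1) (fderiv ℝ b p.1 x.1) ⨯₃ cayR (b p.1) p.2 + cayR (b p.1) x.2) := by
  rw [(phiE_hasFDerivAt hY hb).fderiv]
  rfl

/-- the covariant derivative in the gauge `R_b` -/
theorem DW_phiE (A : B → B →L[ℝ] V3) {Y : B' → B} {b : B' → V3} {p : B' × V3}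
    (hY : DifferentiableAt ℝ Y p.1) (hb : DifferentiableAt ℝ b p.1) (x : B' × V3) :
    DW A (phiE Y b p) (fderiv ℝ (phiE Y b) p x) = cayR (b p.1) (DW (gA A Y b) p x) := by
  rw [phiE_fderiv_apply hY hb]
  simp only [DW, phiE, gA, _root_.add_apply, ContinuousLinearMap.comp_apply, Cw_apply,
    ContinuousLinearMap.coe_fst', ContinuousLinearMap.coe_snd', map_add, cayR_cross, cayR_neg']
  abel

/-- **The metric of the vector bundle in a gauge.** -/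
theorem pull_phiE (h : B → B →L[ℝ] B →L[ℝ] ℝ) (A : B → B →L[ℝ] V3) (q : B → V3 →L[ℝ] V3)
    {Y : B' → B} {b : B' → V3} {p : B' × V3} (hY : DifferentiableAt ℝ Y p.1)
    (hb : DifferentiableAt ℝ b p.1) :
    pull (GE h A q) (phiE Y b) p = GE (pull h Y) (gA A Y b) (gq q Y b) p := by
  refine ContinuousLinearMap.ext fun x => ContinuousLinearMap.ext fun y => ?_
  rw [pull_apply]
  have hq : gq q Y b p.1 = cjq (b p.1) (q (Y p.1)) := rfl
  have h1 : ∀ (h : B → B →L[ℝ] B →L[ℝ] ℝ) (A : B → B →L[ℝ] V3) (q : B → V3 →L[ℝ] V3)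
      (p x y : B × V3), GE h A q p x y = h p.1 x.1 y.1 + DW A p x ⬝ᵥ Sw (q p.1) p.2 (DW A p y) :=
    fun _ _ _ _ _ _ => rfl
  have h2 : GE (pull h Y) (gA A Y b) (gq q Y b) p x y = pull h Y p.1 x.1 y.1 +
      DW (gA A Y b) p x ⬝ᵥ Sw (gq q Y b p.1) p.2 (DW (gA A Y b) p y) := rfl
  rw [h1, h2, DW_phiE A hY hb, DW_phiE A hY hb, hq, phiE_fderiv_apply hY hb, phiE_fderiv_apply hY hb,
    pull_apply]
  simp only [phiE]
  rw [Sw_cayR_apply, cayR_dot]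

/-- the same with the map written out -/
theorem pullE (h : B → B →L[ℝ] B →L[ℝ] ℝ) (A : B → B →L[ℝ] V3) (q : B → V3 →L[ℝ] V3)
    {Y : B' → B} {b : B' → V3} {p : B' × V3} (hY : DifferentiableAt ℝ Y p.1)
    (hb : DifferentiableAt ℝ b p.1) :
    pull (GE h A q) (fun p => (Y p.1, cayR (b p.1) p.2)) p = GE (pull h Y) (gA A Y b) (gq q Y b) p :=
  pull_phiE h A q hY hb

end Pool.Agent.HS

end

section

/-!
# Block POLAR of project HS: the metric of the vector bundle in polar coordinates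
-/

set_option maxSynthPendingDepth 3

namespace Pool.Agent.HS

open Matrix Topology Filter

section

variable {q : V3 →L[ℝ] V3} (hs : ∀ x y : V3, x ⬝ᵥ q y = q x ⬝ᵥ y) (hp : ∀ x : V3, x ≠ 0 → 0 < x ⬝ᵥ q x)

include hs hp

theorem pol_Sw_apply (w x : V3) : Sw q w (regM q w x) = x := by
  rw [reg_Sw_eq]
  exact reg_inverse_apply (reg_Mw_isInvertible hs hp w) x

theorem pol_regM_Sw (w x : V3) : regM q w (Sw q w x) = x := by
  rw [reg_Sw_eq]
  exact reg_apply_inverse (reg_Mw_isInvertible hs hp w) x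

theorem pol_Sw_smul (t : ℝ) (z : V3) : Sw q (t • z) z = z := by
  have h1 : regM q (t • z) z = z := by
    rw [reg_Mw_apply]
    have h2 : (t • z) ⨯₃ z = 0 := by
      rw [LinearMap.map_smul, LinearMap.smul_apply, cross_self, smul_zero]
    rw [h2]
    simp
  have h3 := pol_Sw_apply hs hp (t • z) z
  rw [h1] at h3
  exact h3

theorem pol_Sw_mono {l : ℝ} (hl : 1 ≤ l) (w c : V3) :
    c ⬝ᵥ Sw q w c ≤ (l • c) ⬝ᵥ Sw q (l • w) (l • c) := by
  have hl0 : l ≠ 0 := by linarith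
  obtain ⟨y, hy⟩ : ∃ y, y = Sw q w c := ⟨_, rfl⟩
  obtain ⟨z, hz⟩ : ∃ z, z = Sw q (l • w) c := ⟨_, rfl⟩
  have hy' : regM q w y = c := by rw [hy, pol_regM_Sw hs hp]
  have hz' : regM q (l • w) z = c := by rw [hz, pol_regM_Sw hs hp]
  have hN : ∀ x y : V3, y ⬝ᵥ regM q (l • w) x = y ⬝ᵥ x + l ^ 2 * ((w ⨯₃ y) ⬝ᵥ ContinuousLinearMap.inverse q (w ⨯₃ x)) := by
    intro x y
    rw [reg_dot_Mw]
    simp only [LinearMap.smul_apply, map_smul, smul_dotProduct, dotProduct_smul, smul_eq_mul]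
    ring
  have hM0 : ∀ x : V3, 0 ≤ x ⬝ᵥ regM q (l • w) x := by
    intro x
    rcases eq_or_ne x 0 with rfl | hx
    · simp
    · exact (reg_Mw_pos hs hp (l • w) x hx).le
  obtain ⟨n, hn⟩ : ∃ n, n = (w ⨯₃ y) ⬝ᵥ ContinuousLinearMap.inverse q (w ⨯₃ y) := ⟨_, rfl⟩
  have e1 : c ⬝ᵥ y = y ⬝ᵥ y + n := by
    rw [dotProduct_comm, ← hy', reg_dot_Mw, hn]
  have e2 : y ⬝ᵥ regM q (l • w) y = y ⬝ᵥ y + l ^ 2 * n := by rw [hN, hn]
  have e3 : z ⬝ᵥ regM q (l • w) y = c ⬝ᵥ y := by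
    rw [reg_Mw_symm hs (reg_isInvertible_of_pos hp), hz']
  have e4 := hM0 (z - (l ^ 2)⁻¹ • y)
  have e5 : (z - (l ^ 2)⁻¹ • y) ⬝ᵥ regM q (l • w) (z - (l ^ 2)⁻¹ • y) =
      c ⬝ᵥ z - 2 * (l ^ 2)⁻¹ * (c ⬝ᵥ y) + ((l ^ 2)⁻¹) ^ 2 * (y ⬝ᵥ y + l ^ 2 * n) := by
    rw [map_sub, map_smul, hz', sub_dotProduct, dotProduct_sub, dotProduct_sub, smul_dotProduct, smul_dotProduct,
      dotProduct_smul, dotProduct_smul, e2, e3, dotProduct_comm z c, dotProduct_comm y c]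
    simp only [smul_eq_mul]
    ring
  have hyy : 0 ≤ y ⬝ᵥ y := by
    rw [dotProduct]
    exact Finset.sum_nonneg fun i _ => mul_self_nonneg _
  rw [e5] at e4
  have hl2 : 1 ≤ l ^ 2 := by nlinarith
  have e6 : 0 ≤ l ^ 2 * (c ⬝ᵥ z) - 2 * (c ⬝ᵥ y) + (l ^ 2)⁻¹ * (y ⬝ᵥ y) + n := by
    have h1 := mul_nonneg (by positivity : (0 : ℝ) ≤ l ^ 2) e4
    have h2 : l ^ 2 * (c ⬝ᵥ z - 2 * (l ^ 2)⁻¹ * (c ⬝ᵥ y) + ((l ^ 2)⁻¹) ^ 2 * (y ⬝ᵥ y + l ^ 2 * n)) =
        l ^ 2 * (c ⬝ᵥ z) - 2 * (c ⬝ᵥ y) + (l ^ 2)⁻¹ * (y ⬝ᵥ y) + n := by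
      field_simp
      ring
    rw [h2] at h1
    exact h1
  have e7 : (l ^ 2)⁻¹ * (y ⬝ᵥ y) ≤ y ⬝ᵥ y := by
    have h1 : (l ^ 2)⁻¹ ≤ 1 := inv_le_one_of_one_le₀ hl2
    nlinarith
  have e8 : (l • c) ⬝ᵥ Sw q (l • w) (l • c) = l ^ 2 * (c ⬝ᵥ z) := by
    rw [map_smul, ← hz, smul_dotProduct, dotProduct_smul]
    simp only [smul_eq_mul]
    ring
  rw [e8, ← hy]
  linarith

end

section

variable {h : V2 → V2 →L[ℝ] V2 →L[ℝ] ℝ} {A : V2 → V2 →L[ℝ] V3} {q : V2 → V3 →L[ℝ] V3} {ζ : V2 → V3} {x : V2 × V2}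

theorem pol_cross_smul (a b : V3) (t : ℝ) : a ⨯₃ (t • b) = t • (a ⨯₃ b) := by
  rw [map_smul]

/-- the metric of the vector bundle in polar coordinates -/
theorem pull_PiS (hζ : DifferentiableAt ℝ ζ x.2) (h1 : ∀ᶠ v in 𝓝 x.2, ζ v ⬝ᵥ ζ v = 1) (hq : IsPosOp (q x.1))
    (t : ℝ) (a b : V2 × V2) (s s' : ℝ) :
    pull (GE h A q) (PiS ζ) (x, t) (a, s) (b, s') = pull (GE h A q) (PsiS ζ t) x a b + s * s' := by
  have hs : ∀ u v : V3, u ⬝ᵥ q x.1 v = q x.1 u ⬝ᵥ v := by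
    intro u v
    rw [hq.symm, dotProduct_comm]
  have hp := hq.pos
  rw [pull_apply, pull_apply, fderiv_PiS (p := (x, t)) hζ, fderiv_PiS (p := (x, t)) hζ, fderiv_PsiS hζ, fderiv_PsiS hζ]
  have hPi : PiS ζ (x, t) = (x.1, t • ζ x.2) := rfl
  have hPs : PsiS ζ t x = (x.1, t • ζ x.2) := rfl
  rw [hPi, hPs, GE_apply, GE_apply]
  simp only
  have key : ∀ b : V2 × V2, ζ x.2 ⬝ᵥ (A x.1 b.1 ⨯₃ (t • ζ x.2) + t • fderiv ℝ ζ x.2 b.2) = 0 := by
    intro b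
    rw [dotProduct_add, pol_cross_smul, dotProduct_smul, dotProduct_smul, dot_fderiv_unit hζ h1, dot_cross_self]
    simp
  obtain ⟨Da, hDa⟩ : ∃ Da, Da = A x.1 a.1 ⨯₃ (t • ζ x.2) + t • fderiv ℝ ζ x.2 a.2 := ⟨_, rfl⟩
  obtain ⟨Db, hDb⟩ : ∃ Db, Db = A x.1 b.1 ⨯₃ (t • ζ x.2) + t • fderiv ℝ ζ x.2 b.2 := ⟨_, rfl⟩
  have ka : ζ x.2 ⬝ᵥ Da = 0 := by rw [hDa, key]
  have kb : ζ x.2 ⬝ᵥ Db = 0 := by rw [hDb, key]
  rw [← add_assoc, ← add_assoc, ← hDa, ← hDb]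
  have hS := pol_Sw_smul hs hp t (ζ x.2)
  rw [map_add, map_smul, hS, add_dotProduct, dotProduct_add, dotProduct_add, smul_dotProduct, smul_dotProduct,
    dotProduct_smul, dotProduct_smul, reg_Sw_symm hs hp _ (ζ x.2) Db, hS, kb, dotProduct_comm Da (ζ x.2), ka, h1.self_of_nhds]
  simp only [smul_eq_mul]
  ring

/-- the slices are nondecreasing -/
theorem mono_PsiS (hζ : DifferentiableAt ℝ ζ x.2) (hq : IsPosOp (q x.1)) {t t' : ℝ} (ht : 0 < t) (htt : t ≤ t')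
    (a : V2 × V2) : pull (GE h A q) (PsiS ζ t) x a a ≤ pull (GE h A q) (PsiS ζ t') x a a := by
  have hs : ∀ u v : V3, u ⬝ᵥ q x.1 v = q x.1 u ⬝ᵥ v := by
    intro u v
    rw [hq.symm, dotProduct_comm]
  have hp := hq.pos
  have hPs : ∀ t, PsiS ζ t x = (x.1, t • ζ x.2) := fun _ => rfl
  rw [pull_apply, pull_apply, fderiv_PsiS hζ, fderiv_PsiS hζ, hPs, hPs, GE_apply, GE_apply]
  simp only
  obtain ⟨c, hc⟩ : ∃ c, c = A x.1 a.1 ⨯₃ ζ x.2 + fderiv ℝ ζ x.2 a.2 := ⟨_, rfl⟩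
  have e1 : ∀ t : ℝ, A x.1 a.1 ⨯₃ (t • ζ x.2) + t • fderiv ℝ ζ x.2 a.2 = t • c := by
    intro t
    rw [hc, pol_cross_smul, smul_add]
  rw [e1, e1]
  have e2 : t' = (t' / t) * t := by field_simp
  have e3 : 1 ≤ t' / t := by rwa [le_div_iff₀ ht, one_mul]
  have e4 := pol_Sw_mono hs hp e3 (t • ζ x.2) (t • c)
  rw [smul_smul, smul_smul, ← e2] at e4
  linarith

end

end Pool.Agent.HS

end
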