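import Pool.Agent.H94.PT.HS.Basic_1
import Pool.Agent.H94.PT.HS.Reg
import Pool.Agent.H94.PT.M06
import Pool.Agent.H94.PT.M13

/-! The parts of this file: HS.Prod_1, HS.LocE. -/

section

/-!
# Curvature of products and of constant metrics (project HS)

* `Rm_prodG`: the curvature form of a product metric is the sum of the curvature forms;
* `Rm_const`: constant metrics are flat (`Rm_of_eventually_const`: also if constant near the point).
-/

set_option maxSynthPendingDepth 3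

namespace Pool.Agent.HS

open Filter
open scoped Topology

variable {B B' : Type*} [NormedAddCommGroup B] [NormedSpace ℝ B] [NormedAddCommGroup B'] [NormedSpace ℝ B']
variable {G : B → B →L[ℝ] B →L[ℝ] ℝ} {G' : B' → B' →L[ℝ] B' →L[ℝ] ℝ}

theorem hasFDerivAt_prodG_coeff {p : B × B'} (hG : DifferentiableAt ℝ G p.1)
    (hG' : DifferentiableAt ℝ G' p.2) (u v : B × B') :
    HasFDerivAt (fun q => prodG G G' q u v)
      ((fderiv ℝ (fun q => G q u.1 v.1) p.1).comp (ContinuousLinearMap.fst ℝ B B') +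
        (fderiv ℝ (fun q => G' q u.2 v.2) p.2).comp (ContinuousLinearMap.snd ℝ B B')) p := by
  have h1 : HasFDerivAt (fun q => G q u.1 v.1) (fderiv ℝ (fun q => G q u.1 v.1) p.1) p.1 := by
    have h := hasFDerivAt_coeff hG u.1 v.1
    rw [h.fderiv]
    exact h
  have h2 : HasFDerivAt (fun q => G' q u.2 v.2) (fderiv ℝ (fun q => G' q u.2 v.2) p.2) p.2 := by
    have h := hasFDerivAt_coeff hG' u.2 v.2
    rw [h.fderiv]
    exact h
  have h3 := h1.comp p (ContinuousLinearMap.fst ℝ B B').hasFDerivAt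
  have h4 := h2.comp p (ContinuousLinearMap.snd ℝ B B').hasFDerivAt
  exact h3.add h4

theorem D1_prodG {p : B × B'} (hG : DifferentiableAt ℝ G p.1)
    (hG' : DifferentiableAt ℝ G' p.2) (x u v : B × B') :
    D1 (prodG G G') p x u v = D1 G p.1 x.1 u.1 v.1 + D1 G' p.2 x.2 u.2 v.2 := by
  unfold D1
  rw [(hasFDerivAt_prodG_coeff hG hG' u v).fderiv]
  rfl

theorem D2_prodG {p : B × B'} (hG : ContDiffAt ℝ 2 G p.1)
    (hG' : ContDiffAt ℝ 2 G' p.2) (x y u v : B × B') :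
    D2 (prodG G G') p x y u v = D2 G p.1 x.1 y.1 u.1 v.1 + D2 G' p.2 x.2 y.2 u.2 v.2 := by
  have g1 : ContDiffAt ℝ 2 (fun q : B => G q u.1 v.1) p.1 := contDiffAt_coeff hG u.1 v.1
  have g2 : ContDiffAt ℝ 2 (fun q : B' => G' q u.2 v.2) p.2 := contDiffAt_coeff hG' u.2 v.2
  have f1 : ContDiffAt ℝ 2 (fun q : B × B' => q.1) p := contDiff_fst.contDiffAt
  have f2 : ContDiffAt ℝ 2 (fun q : B × B' => q.2) p := contDiff_snd.contDiffAt
  have k1 : dd (fun q : B × B' => q.1) p x y = 0 :=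
    dd_clm_self (ContinuousLinearMap.fst ℝ B B') p x y
  have k2 : dd (fun q : B × B' => q.2) p x y = 0 :=
    dd_clm_self (ContinuousLinearMap.snd ℝ B B') p x y
  have d1 : ∀ z : B × B', fderiv ℝ (fun q : B × B' => q.1) p z = z.1 := fun z => by
    rw [fderiv_fst]; rfl
  have d2 : ∀ z : B × B', fderiv ℝ (fun q : B × B' => q.2) p z = z.2 := fun z => by
    rw [fderiv_snd]; rfl
  have h1 := dd_comp g1 f1 x y
  have h2 := dd_comp g2 f2 x y
  rw [k1, map_zero, add_zero, d1, d1] at h1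
  rw [k2, map_zero, add_zero, d2, d2] at h2
  have h3 : dd (fun q : B × B' => G q.1 u.1 v.1 + G' q.2 u.2 v.2) p x y
      = dd (fun q : B × B' => G q.1 u.1 v.1) p x y + dd (fun q : B × B' => G' q.2 u.2 v.2) p x y :=
    dd_add (g1.comp p f1) (g2.comp p f2) x y
  rw [D2_coeff, D2_coeff, D2_coeff, ← h1, ← h2, ← h3]
  rfl

theorem Gam_prodG {p : B × B'} (hG : ContDiffAt ℝ 1 G p.1)
    (hG' : ContDiffAt ℝ 1 G' p.2) (x y : B × B') :
    Gam (prodG G G') p x y = (Gam G p.1 x.1 y.1).comp (ContinuousLinearMap.fst ℝ B B') +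
      (Gam G' p.2 x.2 y.2).comp (ContinuousLinearMap.snd ℝ B B') := by
  have d1 : DifferentiableAt ℝ G p.1 := hG.differentiableAt (by norm_num)
  have d2 : DifferentiableAt ℝ G' p.2 := hG'.differentiableAt (by norm_num)
  have d3 : DifferentiableAt ℝ (prodG G G') p :=
    (contDiffAt_prodG hG hG').differentiableAt (by norm_num)
  apply Gam_ext d3
  intro z
  change _ = Gam G p.1 x.1 y.1 z.1 + Gam G' p.2 x.2 y.2 z.2
  rw [Gam_apply d1, Gam_apply d2, D1_prodG d1 d2, D1_prodG d1 d2, D1_prodG d1 d2]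
  ring

/-- The curvature form of a product is the sum of the curvature forms. -/
theorem Rm_prodG [FiniteDimensional ℝ B] [FiniteDimensional ℝ B'] {p : B × B'}
    (hG : ContDiffAt ℝ 2 G p.1) (hG' : ContDiffAt ℝ 2 G' p.2)
    (h : IsInner (G p.1)) (h' : IsInner (G' p.2)) (x y : B × B') :
    Rm (prodG G G') p x y = Rm G p.1 x.1 y.1 + Rm G' p.2 x.2 y.2 := by
  have hG1 : ContDiffAt ℝ 1 G p.1 := hG.of_le (by norm_num)
  have hG1' : ContDiffAt ℝ 1 G' p.2 := hG'.of_le (by norm_num)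
  unfold Rm
  rw [D2_prodG hG hG', D2_prodG hG hG', D2_prodG hG hG', Gam_prodG hG1 hG1', Gam_prodG hG1 hG1',
    Gam_prodG hG1 hG1', cov_prodG h h', cov_prodG h h']
  ring

/-- The curvature form vanishes if the metric is constant near the point. -/
theorem Rm_of_eventually_const {p : B} {g : B →L[ℝ] B →L[ℝ] ℝ} (h : ∀ᶠ q in 𝓝 p, G q = g) (x y : B) :
    Rm G p x y = 0 := by
  have h0 : G =ᶠ[𝓝 p] fun _ => g := h
  have h1 : ∀ a b c d : B, D2 G p a b c d = 0 := by
    intro a b c d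
    rw [D2_congr h0, D2_coeff]
    exact dd_const (g c d) p a b
  have h2 : ∀ a b : B, Gam G p a b = 0 := by
    intro a b
    rw [Gam_congr h0]
    unfold Gam
    simp
  unfold Rm
  rw [h1, h1, h1, h2, h2, h2]
  simp

/-- A constant metric is flat. -/
theorem Rm_const (g : B →L[ℝ] B →L[ℝ] ℝ) (p x y : B) :
    Rm (fun _ : B => g) p x y = 0 :=
  Rm_of_eventually_const (Filter.Eventually.of_forall fun _ => rfl) x y

/-- Product with flat space: the curvature form is the one of the first factor. -/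
theorem Rm_prodG_flat [FiniteDimensional ℝ B] {p : B × V3} (hG : ContDiffAt ℝ 2 G p.1)
    (h : IsInner (G p.1)) (x y : B × V3) :
    Rm (prodG G (fun _ : V3 => dotL)) p x y = Rm G p.1 x.1 y.1 := by
  rw [Rm_prodG hG contDiffAt_const h isInner_dotL, Rm_const, add_zero]

end Pool.Agent.HS

end

section

/-!
# Block LOCE: curvature of the vector bundle metric from the principal bundle metric

`piE ((u, a), z) = (u, cayR a z)` is a Riemannian submersion from `prodG (GP h A q) (flat)` to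
`GE h A q`.  If the sectional curvatures of `GP h A q` at `(u₀, 0)` are positive, then
`GE h A q` is nonnegatively curved at `(u₀, w)` for every `w`, and `0 < Rm` on all pairs which
are independent modulo the radial vector `(0, w)` (`w ≠ 0`).
-/

set_option maxSynthPendingDepth 3

namespace Pool.Agent.HS

open Matrix Topology Filter

variable {B : Type*} [NormedAddCommGroup B] [NormedSpace ℝ B]

/-- The defining equation of `Sw q w D`. -/
theorem Sw_spec {q : V3 →L[ℝ] V3} (hs : ∀ x y : V3, x ⬝ᵥ q y = q x ⬝ᵥ y)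
    (hp : ∀ x : V3, x ≠ 0 → 0 < x ⬝ᵥ q x) (w D : V3) :
    Sw q w D + ContinuousLinearMap.inverse q (w ⨯₃ Sw q w D) ⨯₃ w = D :=
  reg_apply_inverse (reg_Mw_isInvertible hs hp w) D

/-- The submersion. -/
noncomputable def piE (p : (B × V3) × V3) : B × V3 := (p.1.1, cayR p.1.2 p.2)

theorem piE_contDiff {n : WithTop ℕ∞} : ContDiff ℝ n (piE : (B × V3) × V3 → B × V3) := by
  unfold piE
  exact (contDiff_fst.fst).prodMk ((cayR_contDiff.comp contDiff_fst.snd).clm_apply contDiff_snd)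

theorem piE_fderiv (p e : (B × V3) × V3) :
    fderiv ℝ piE p e
      = (e.1.1, cayE p.1.2 e.1.2 ⨯₃ cayR p.1.2 p.2 + cayR p.1.2 e.2) := by
  have h1 : HasFDerivAt (fun p : (B × V3) × V3 => cayR p.1.2)
      ((fderiv ℝ cayR p.1.2).comp ((ContinuousLinearMap.snd ℝ B V3).comp
        (ContinuousLinearMap.fst ℝ (B × V3) V3))) p := by
    have h2 : HasFDerivAt (fun p : (B × V3) × V3 => p.1.2) ((ContinuousLinearMap.snd ℝ B V3).comp
        (ContinuousLinearMap.fst ℝ (B × V3) V3)) p :=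
      ((ContinuousLinearMap.snd ℝ B V3).comp (ContinuousLinearMap.fst ℝ (B × V3) V3)).hasFDerivAt
    exact HasFDerivAt.comp (g := cayR) p
      (((cayR_contDiff (n := 1)).differentiable (by norm_num)) p.1.2).hasFDerivAt h2
  have h3 : HasFDerivAt (fun p : (B × V3) × V3 => p.2) (ContinuousLinearMap.snd ℝ (B × V3) V3) p :=
    (ContinuousLinearMap.snd ℝ (B × V3) V3).hasFDerivAt
  have h4 : HasFDerivAt (fun p : (B × V3) × V3 => p.1.1) ((ContinuousLinearMap.fst ℝ B V3).comp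
        (ContinuousLinearMap.fst ℝ (B × V3) V3)) p :=
      ((ContinuousLinearMap.fst ℝ B V3).comp (ContinuousLinearMap.fst ℝ (B × V3) V3)).hasFDerivAt
  have h5 := h4.prodMk (h1.clm_apply h3)
  have h6 : HasFDerivAt (piE : (B × V3) × V3 → B × V3) _ p := h5
  rw [h6.fderiv]
  refine Prod.ext rfl ?_
  change cayR p.1.2 e.2 + (fderiv ℝ cayR p.1.2) e.1.2 p.2 = _
  rw [fderiv_cayR_apply, add_comm]

/-- The horizontal lift of `v` at `p`. -/
noncomputable def liftE (A : B → B →L[ℝ] V3) (q : B → V3 →L[ℝ] V3) (p : (B × V3) × V3)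
    (v : B × V3) : (B × V3) × V3 :=
  ((v.1, cayF p.1.2 (ContinuousLinearMap.inverse (q p.1.1) (cayR p.1.2 p.2 ⨯₃
      Sw (q p.1.1) (cayR p.1.2 p.2) (DW A (piE p) v)) - A p.1.1 v.1)),
    cayR (-p.1.2) (Sw (q p.1.1) (cayR p.1.2 p.2) (DW A (piE p) v)))

theorem liftE_proj {A : B → B →L[ℝ] V3} {q : B → V3 →L[ℝ] V3} {p : (B × V3) × V3}
    (hs : ∀ x y : V3, x ⬝ᵥ q p.1.1 y = q p.1.1 x ⬝ᵥ y)
    (hp : ∀ x : V3, x ≠ 0 → 0 < x ⬝ᵥ q p.1.1 x) (v : B × V3) :
    fderiv ℝ piE p (liftE A q p v) = v := by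
  rw [piE_fderiv]
  refine Prod.ext rfl ?_
  simp only [liftE, cayE_cayF, cayR_neg']
  set w := cayR p.1.2 p.2 with hw
  have h := Sw_spec hs hp w (DW A (piE p) v)
  set S := Sw (q p.1.1) w (DW A (piE p) v) with hS
  have h1 : (ContinuousLinearMap.inverse (q p.1.1) (w ⨯₃ S) - A p.1.1 v.1) ⨯₃ w
      = ContinuousLinearMap.inverse (q p.1.1) (w ⨯₃ S) ⨯₃ w - A p.1.1 v.1 ⨯₃ w := by
    rw [map_sub, LinearMap.sub_apply]
  have h2 : DW A (piE p) v = A p.1.1 v.1 ⨯₃ w + v.2 := rfl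
  rw [h1]
  rw [h2] at h
  have h3 : v.2 = S + ContinuousLinearMap.inverse (q p.1.1) (w ⨯₃ S) ⨯₃ w - A p.1.1 v.1 ⨯₃ w := by
    rw [h]; abel
  conv_rhs => rw [h3]
  abel

theorem liftE_horiz {h : B → B →L[ℝ] B →L[ℝ] ℝ} {A : B → B →L[ℝ] V3} {q : B → V3 →L[ℝ] V3}
    {p : (B × V3) × V3} (hs : ∀ x y : V3, x ⬝ᵥ q p.1.1 y = q p.1.1 x ⬝ᵥ y)
    (hp : ∀ x : V3, x ≠ 0 → 0 < x ⬝ᵥ q p.1.1 x) (v : B × V3) (e : (B × V3) × V3) :
    prodG (GP h A q) (fun _ => dotL) p (liftE A q p v) e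
      = GE h A q (piE p) v (fderiv ℝ piE p e) := by
  rw [prodG_apply, GP_apply, GE_apply, piE_fderiv]
  simp only [liftE, cayE_cayF, piE, dotL_apply]
  set w := cayR p.1.2 p.2 with hw
  have hDW : DW A (p.1.1, w) v = A p.1.1 v.1 ⨯₃ w + v.2 := rfl
  rw [hDW]
  set D := A p.1.1 v.1 ⨯₃ w + v.2 with hD
  set S := Sw (q p.1.1) w D with hS
  set U := ContinuousLinearMap.inverse (q p.1.1) (w ⨯₃ S) with hU
  have hqU : q p.1.1 U = w ⨯₃ S := reg_apply_inverse (reg_isInvertible_of_pos hp) _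
  have e1 : A p.1.1 v.1 + (U - A p.1.1 v.1) = U := by abel
  rw [e1, hs, hqU, reg_Sw_symm hs hp, ← hS]
  have e2 : A p.1.1 e.1.1 ⨯₃ w + (cayE p.1.2 e.1.2 ⨯₃ w + cayR p.1.2 e.2)
      = (A p.1.1 e.1.1 + cayE p.1.2 e.1.2) ⨯₃ w + cayR p.1.2 e.2 := by
    rw [map_add, LinearMap.add_apply]; abel
  rw [e2]
  have e3 : cayR (-p.1.2) S ⬝ᵥ e.2 = S ⬝ᵥ cayR p.1.2 e.2 := by
    rw [← cayR_dot p.1.2, cayR_neg']
  have e4 : S ⬝ᵥ ((A p.1.1 e.1.1 + cayE p.1.2 e.1.2) ⨯₃ w)
      = (w ⨯₃ S) ⬝ᵥ (A p.1.1 e.1.1 + cayE p.1.2 e.1.2) := by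
    rw [triple_product_permutation, dotProduct_comm]
  rw [e3, dotProduct_add S, e4]
  ring

/-- A positively curved metric has nonnegative curvature form on all pairs. -/
theorem PosAt.nonnegAt [FiniteDimensional ℝ B] {G : B → B →L[ℝ] B →L[ℝ] ℝ} {p : B}
    (hG : ContDiffAt ℝ 2 G p) (hi : ∀ᶠ q in 𝓝 p, IsInner (G q)) (hP : PosAt G p) :
    NonnegAt G p := by
  intro x y
  by_cases hxy : LinearIndependent ℝ ![x, y]
  · exact (hP x y hxy).le
  · rw [LinearIndependent.pair_iff] at hxy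
    push Not at hxy
    obtain ⟨s, t, hst, hne⟩ := hxy
    have hsy : SymmNear G p := hi.mono fun q hq => hq.symm
    have hz : ∀ z : B, Rm G p 0 z = 0 := by
      intro z
      have h := Rm_plane hG hsy hi.self_of_nhds z z 0 0 0 1
      simpa using h
    have hz' : ∀ z : B, Rm G p z 0 = 0 := by
      intro z
      have h := Rm_plane hG hsy hi.self_of_nhds z z 0 1 0 0
      simpa using h
    -- `(s x + t y) ∧ y = s (x ∧ y)` and `x ∧ (s x + t y) = t (x ∧ y)`
    have e1 := Rm_plane hG hsy hi.self_of_nhds x y s t 0 1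
    have e2 := Rm_plane hG hsy hi.self_of_nhds x y 1 0 s t
    rw [hst] at e1 e2
    have e1' : (s * 1 - t * 0) ^ 2 * Rm G p x y = 0 := by
      rw [← e1]
      exact hz _
    have e2' : (1 * t - 0 * s) ^ 2 * Rm G p x y = 0 := by
      rw [← e2]
      exact hz' _
    by_cases h0 : s = 0
    · have ht := hne h0
      have : Rm G p x y = 0 := by
        have h3 : (t : ℝ) ^ 2 ≠ 0 := pow_ne_zero 2 ht
        have h4 : t ^ 2 * Rm G p x y = 0 := by
          have : (1 * t - 0 * s) ^ 2 = t ^ 2 := by ring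
          rw [← this]; exact e2'
        exact (mul_eq_zero.1 h4).resolve_left h3
      rw [this]
    · have h3 : (s : ℝ) ^ 2 ≠ 0 := pow_ne_zero 2 h0
      have h4 : s ^ 2 * Rm G p x y = 0 := by
        have : (s * 1 - t * 0) ^ 2 = s ^ 2 := by ring
        rw [← this]; exact e1'
      rw [(mul_eq_zero.1 h4).resolve_left h3]

end Pool.Agent.HS

end
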