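import Pool.Agent.H94.PT.HS.Comet
import Pool.Agent.H94.PT.M17
import Pool.Agent.H94.PT.M28
import Pool.Agent.H94.PT.M29
import Pool.Agent.H94.PT.M30

/-! The parts of this file: HS.LocE_1, HS.Polar, HS.CoordFin. -/

section

/-!
# Block LOCE: curvature of the vector bundle metric from the principal bundle metric

`piE ((u, a), z) = (u, cayR a z)` is a Riemannian submersion from `prodG (GP h A q) (flat)` to
`GE h A q`.  If the sectional curvatures of `GP h A q` at `(u₀, 0)` are positive, then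
`GE h A q` is nonnegatively curved at `(u₀, w)` for every `w`, and `0 < Rm` on all pairs which
are independent modulo the radial vector `(0, w)` (`w ≠ 0`).
-/

set_option maxSynthPendingDepth 3

namespace Pool.Agent.HS

open Matrix Topology Filter

variable {B : Type*} [NormedAddCommGroup B] [NormedSpace ℝ B]

theorem isSubm_piE {h : B → B →L[ℝ] B →L[ℝ] ℝ} {A : B → B →L[ℝ] V3} {q : B → V3 →L[ℝ] V3}
    {p : (B × V3) × V3} (hs : ∀ x y : V3, x ⬝ᵥ q p.1.1 y = q p.1.1 x ⬝ᵥ y)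
    (hp : ∀ x : V3, x ≠ 0 → 0 < x ⬝ᵥ q p.1.1 x) :
    IsSubm (prodG (GP h A q) (fun _ => dotL)) (GE h A q) piE p := fun v =>
  ⟨liftE A q p v, liftE_proj hs hp v, liftE_horiz hs hp v⟩

/-- **O'Neill for the vector bundle.** The curvature form of `GE h A q` at `(u₀, w)` is at least
the curvature form of `GP h A q` at `(u₀, 0)` on the principal bundle components of the lifts. -/
theorem Rm_GP_le_Rm_GE [FiniteDimensional ℝ B] {h : B → B →L[ℝ] B →L[ℝ] ℝ}
    {A : B → B →L[ℝ] V3} {q : B → V3 →L[ℝ] V3} {u0 : B} (hh : ContDiffAt ℝ 2 h u0)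
    (hA : ContDiffAt ℝ 2 A u0) (hq : ContDiffAt ℝ 2 q u0) (hi : ∀ᶠ u in 𝓝 u0, IsInner (h u))
    (hs : ∀ᶠ u in 𝓝 u0, ∀ x y : V3, x ⬝ᵥ q u y = q u x ⬝ᵥ y)
    (hp : ∀ᶠ u in 𝓝 u0, ∀ x : V3, x ≠ 0 → 0 < x ⬝ᵥ q u x) (w : V3) (X Y : B × V3) :
    Rm (GP h A q) (u0, 0)
        (liftP (ContinuousLinearMap.inverse (q u0)) (Sw (q u0) w) (A u0) w X)
        (liftP (ContinuousLinearMap.inverse (q u0)) (Sw (q u0) w) (A u0) w Y)
      ≤ Rm (GE h A q) (u0, w) X Y := by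
  set p : (B × V3) × V3 := ((u0, 0), w) with hpdef
  have hpi : piE p = (u0, w) := Prod.ext rfl (cayR_zero w)
  have hs0 := hs.self_of_nhds
  have hp0 := hp.self_of_nhds
  have hi0 := hi.self_of_nhds
  have c1 : Tendsto (fun q : (B × V3) × V3 => q.1.1) (𝓝 p) (𝓝 u0) :=
    (continuous_fst.comp continuous_fst).continuousAt
  have c2 : Tendsto (fun q : B × V3 => q.1) (𝓝 (piE p)) (𝓝 u0) := by
    rw [hpi]; exact continuous_fst.continuousAt
  have cGP : ContDiffAt ℝ 2 (GP h A q) p.1 := contDiffAt_GP hh hA hq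
  have iGP : ∀ᶠ u in 𝓝 u0, ∀ a : V3, IsInner (GP h A q (u, a)) := by
    filter_upwards [hi, hs, hp] with u h1 h2 h3 a using isInner_GP h1 h2 h3
  have key := Rm_le_of_submersion (G := prodG (GP h A q) (fun _ : V3 => dotL))
    (g := GE h A q) (π := piE) (p := p) (x := X) (y := Y) (x' := liftE A q p X)
    (y' := liftE A q p Y)
    (contDiffAt_prodG cGP contDiffAt_const)
    (by rw [hpi]; exact contDiffAt_GE hh hA hq hs0 hp0)
    piE_contDiff.contDiffAt
    (by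
      filter_upwards [c1.eventually iGP] with z hz
      exact IsInner.prodG (hz z.1.2) isInner_dotL)
    (by
      filter_upwards [c2.eventually hi, c2.eventually hs, c2.eventually hp] with z h1 h2 h3
      exact isInner_GE h1 h2 h3)
    (by
      filter_upwards [c1.eventually hs, c1.eventually hp] with z h2 h3
      exact isSubm_piE h2 h3)
    (fun e => liftE_horiz hs0 hp0 X e) (fun e => liftE_horiz hs0 hp0 Y e)
  rw [Rm_prodG_flat cGP (iGP.self_of_nhds 0), hpi] at key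
  have lift_eq : ∀ v : B × V3, (liftE A q p v).1
      = liftP (ContinuousLinearMap.inverse (q u0)) (Sw (q u0) w) (A u0) w v := by
    intro v
    refine Prod.ext rfl ?_
    have e1 : cayR (0 : V3) w = w := cayR_zero w
    have e2 : DW A (piE p) v = liftD (A u0) w v := by
      rw [hpi]
      exact add_comm _ _
    have e3 : ∀ b : V3, cayF (0 : V3) b = b := by
      intro b
      simp [cayF]
    change cayF (0 : V3) (ContinuousLinearMap.inverse (q u0) (cayR (0 : V3) w ⨯₃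
      Sw (q u0) (cayR (0 : V3) w) (DW A (piE p) v)) - A u0 v.1) = _
    rw [e1, e2, e3]
    rfl
  rw [lift_eq, lift_eq] at key
  exact key

/-- **LOCE, nonnegativity.** -/
theorem GE_nonneg [FiniteDimensional ℝ B] {h : B → B →L[ℝ] B →L[ℝ] ℝ}
    {A : B → B →L[ℝ] V3} {q : B → V3 →L[ℝ] V3} {u0 : B} (hh : ContDiffAt ℝ 2 h u0)
    (hA : ContDiffAt ℝ 2 A u0) (hq : ContDiffAt ℝ 2 q u0) (hi : ∀ᶠ u in 𝓝 u0, IsInner (h u))
    (hs : ∀ᶠ u in 𝓝 u0, ∀ x y : V3, x ⬝ᵥ q u y = q u x ⬝ᵥ y)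
    (hp : ∀ᶠ u in 𝓝 u0, ∀ x : V3, x ≠ 0 → 0 < x ⬝ᵥ q u x)
    (hP : PosAt (GP h A q) (u0, 0)) (w : V3) : NonnegAt (GE h A q) (u0, w) := by
  intro X Y
  refine le_trans ?_ (Rm_GP_le_Rm_GE hh hA hq hi hs hp w X Y)
  refine PosAt.nonnegAt (contDiffAt_GP hh hA hq) ?_ hP _ _
  have c2 : Tendsto (fun q : B × V3 => q.1) (𝓝 ((u0, 0) : B × V3)) (𝓝 u0) :=
    continuous_fst.continuousAt
  filter_upwards [c2.eventually hi, c2.eventually hs, c2.eventually hp] with z h1 h2 h3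
  exact isInner_GP h1 h2 h3

/-- **LOCE, positivity** on pairs which are independent modulo the radial vector. -/
theorem GE_pos [FiniteDimensional ℝ B] {h : B → B →L[ℝ] B →L[ℝ] ℝ}
    {A : B → B →L[ℝ] V3} {q : B → V3 →L[ℝ] V3} {u0 : B} (hh : ContDiffAt ℝ 2 h u0)
    (hA : ContDiffAt ℝ 2 A u0) (hq : ContDiffAt ℝ 2 q u0) (hi : ∀ᶠ u in 𝓝 u0, IsInner (h u))
    (hs : ∀ᶠ u in 𝓝 u0, ∀ x y : V3, x ⬝ᵥ q u y = q u x ⬝ᵥ y)
    (hp : ∀ᶠ u in 𝓝 u0, ∀ x : V3, x ≠ 0 → 0 < x ⬝ᵥ q u x)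
    (hP : PosAt (GP h A q) (u0, 0)) {w : V3} (hw : w ≠ 0) {X Y : B × V3}
    (hXY : ∀ a b c : ℝ, a • X + b • Y = c • ((0 : B), w) → a = 0 ∧ b = 0) :
    0 < Rm (GE h A q) (u0, w) X Y := by
  refine lt_of_lt_of_le ?_ (Rm_GP_le_Rm_GE hh hA hq hi hs hp w X Y)
  apply hP
  have hs0 := hs.self_of_nhds
  have hp0 := hp.self_of_nhds
  have hinv := reg_isInvertible_of_pos hp0
  refine liftP_indep hw ?_ (fun D => Sw_spec hs0 hp0 w D) hXY
  intro x y hxy
  rw [← reg_apply_inverse hinv x, ← reg_apply_inverse hinv y, hxy]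

end Pool.Agent.HS

end

section

/-!
# Block POLAR of project HS: the sphere bundles have positive curvature
-/

set_option maxSynthPendingDepth 3

namespace Pool.Agent.HS

open Matrix Topology Filter

theorem pol_two {E F : Type*} [NormedAddCommGroup E] [NormedSpace ℝ E] [NormedAddCommGroup F] [NormedSpace ℝ F]
    {f : E → F} {p : E} (h : ContDiffAt ℝ (⊤ : ℕ∞) f p) : ContDiffAt ℝ 2 f p := by
  have h2 : ∀ n : ℕ, ContDiffAt ℝ n f p := fun n => h.of_le (by exact_mod_cast le_top)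
  exact_mod_cast h2 2

/-- Block POLAR, with the conclusion of block LOCE as hypothesis. -/
theorem polar_of_locE {h : V2 → V2 →L[ℝ] V2 →L[ℝ] ℝ} {A : V2 → V2 →L[ℝ] V3} {q : V2 → V3 →L[ℝ] V3}
    (hd : GoodData h A q)
    (hE : ∀ w : V3, w ≠ 0 → ∀ X Y : V2 × V3,
      (∀ a b c : ℝ, a • X + b • Y = c • ((0 : V2), w) → a = 0 ∧ b = 0) → 0 < Rm (GE h A q) (0, w) X Y)
    {ζ : V2 → V3} (hζ : ∀ᶠ v in 𝓝 (0 : V2), ContDiffAt ℝ (⊤ : ℕ∞) ζ v)
    (h1 : ∀ᶠ v in 𝓝 (0 : V2), ζ v ⬝ᵥ ζ v = 1) (hi : Function.Injective (fderiv ℝ ζ 0)) {t : ℝ} (ht : 0 < t) :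
    PosAt (pull (GE h A q) (fun p : V2 × V2 => (p.1, t • ζ p.2))) (0, 0) := by
  have hsq : ∀ u, IsPosOp (q u) → ∀ x y : V3, x ⬝ᵥ q u y = q u x ⬝ᵥ y := by
    intro u hu x y
    rw [hu.symm, dotProduct_comm]
  have hq0 := hd.q_pos.self_of_nhds
  have hc1 : Tendsto (fun p : V2 × V3 => p.1) (𝓝 ((0 : V2), t • ζ 0)) (𝓝 0) := continuous_fst.continuousAt
  have hc2 : Tendsto (fun p : (V2 × V2) × ℝ => p.1.1) (𝓝 (((0 : V2), (0 : V2)), t)) (𝓝 0) :=
    (continuous_fst.comp continuous_fst).continuousAt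
  have hc3 : Tendsto (fun p : (V2 × V2) × ℝ => p.1.2) (𝓝 (((0 : V2), (0 : V2)), t)) (𝓝 0) :=
    (continuous_snd.comp continuous_fst).continuousAt
  have hζd : ∀ v, ContDiffAt ℝ (⊤ : ℕ∞) ζ v → DifferentiableAt ℝ ζ v := fun v hv => hv.differentiableAt (by simp)
  have hw : t • ζ 0 ≠ 0 := by
    intro h0
    rcases smul_eq_zero.1 h0 with h2 | h2
    · exact ht.ne' h2
    · have h3 := h1.self_of_nhds
      rw [h2, dotProduct_zero] at h3
      exact zero_ne_one h3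
  refine posAt_PsiS_core (G := GE h A q) (x := ((0 : V2), (0 : V2))) ht hζ.self_of_nhds h1 hi ?_ ?_ ?_ ?_ ?_ ?_
  · exact contDiffAt_GE (p := ((0 : V2), t • ζ 0)) hd.h_smooth.self_of_nhds hd.A_smooth.self_of_nhds
      hd.q_smooth.self_of_nhds (hsq 0 hq0) hq0.pos
  · filter_upwards [hc1.eventually hd.h_inner, hc1.eventually hd.q_pos] with p hp1 hp2
    exact (isInner_GE hp1 (hsq _ hp2) hp2.pos).symm
  · exact isInner_GE (p := ((0 : V2), t • ζ 0)) hd.h_inner.self_of_nhds (hsq 0 hq0) hq0.pos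
  · filter_upwards [hc2.eventually hd.q_pos, hc3.eventually hζ, hc3.eventually h1.eventually_nhds] with p hp1 hp2 hp3 a b s s'
    exact pull_PiS (x := p.1) (hζd _ hp2) hp3 hp1 p.2 a b s s'
  · intro a
    filter_upwards [self_mem_nhdsWithin] with t' ht'
    exact mono_PsiS (x := ((0 : V2), (0 : V2))) (hζd _ hζ.self_of_nhds) hq0 ht (le_of_lt ht') a
  · exact hE (t • ζ 0) hw

/-- Block POLAR. -/
theorem polar : PolarStmt := by
  intro h A q hd hP ζ hζ h1 hi t ht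
  refine polar_of_locE hd ?_ hζ h1 hi ht
  intro w hw X Y hXY
  refine GE_pos (pol_two hd.h_smooth.self_of_nhds)
    (pol_two hd.A_smooth.self_of_nhds)
    (pol_two hd.q_smooth.self_of_nhds) hd.h_inner ?_ ?_ hP hw hXY
  · filter_upwards [hd.q_pos] with u hu x y
    rw [hu.symm, dotProduct_comm]
  · filter_upwards [hd.q_pos] with u hu
    exact hu.pos

/-- Block LOCE in the form of `CoordSk`. -/
theorem loce : LoceStmt := by
  intro h A q hd hP w
  refine GE_nonneg (pol_two hd.h_smooth.self_of_nhds)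
    (pol_two hd.A_smooth.self_of_nhds)
    (pol_two hd.q_smooth.self_of_nhds) hd.h_inner ?_ ?_ hP w
  · filter_upwards [hd.q_pos] with u hu x y
    rw [hu.symm, dotProduct_comm]
  · filter_upwards [hd.q_pos] with u hu
    exact hu.pos

end Pool.Agent.HS

end

section

/-!
# Block COORD, instantiation of the block statements
-/

set_option maxSynthPendingDepth 3

namespace Pool.Agent.HS

open Matrix Topology Filter Set

theorem pulleStmt : PulleStmt := by
  intro h A q Y b p hY hb _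
  exact pullE h A q hY hb

namespace CoordFin

theorem two_le_top : (2 : WithTop ℕ∞) ≤ ((⊤ : ℕ∞) : WithTop ℕ∞) := by
  have h : ((2 : ℕ∞) : WithTop ℕ∞) ≤ ((⊤ : ℕ∞) : WithTop ℕ∞) := WithTop.coe_le_coe.2 le_top
  exact h

theorem symm' {q : V3 →L[ℝ] V3} (hq : IsPosOp q) (x y : V3) :
    x ⬝ᵥ q y = q x ⬝ᵥ y := by
  rw [hq.symm x y, dotProduct_comm]

end CoordFin

theorem regGPStmt : RegGPStmt := by
  intro h A q hg
  have t1 : Tendsto (fun p : V2 × V3 => p.1) (𝓝 ((0 : V2), (0 : V3))) (𝓝 0) :=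
    continuous_fst.tendsto _
  refine ⟨?_, ?_, ?_⟩
  · exact contDiffAt_GP (p := ((0 : V2), (0 : V3)))
      (hg.h_smooth.self_of_nhds.of_le CoordFin.two_le_top)
      (hg.A_smooth.self_of_nhds.of_le CoordFin.two_le_top)
      (hg.q_smooth.self_of_nhds.of_le CoordFin.two_le_top)
  · filter_upwards [t1.eventually hg.h_inner, t1.eventually hg.q_pos] with p h1 h2
    exact (isInner_GP h1 (CoordFin.symm' h2) h2.pos).symm
  · exact isInner_GP (p := ((0 : V2), (0 : V3))) hg.h_inner.self_of_nhds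
      (CoordFin.symm' hg.q_pos.self_of_nhds) hg.q_pos.self_of_nhds.pos

/-- **COORD**, everything but M2 and LINK, both conclusions. -/
theorem coordMain_of_M2_link (hM2 : M2Stmt) {d : ℝ} (hL : LinkStmt (hBL d) (cAL d) (kapM d)) :
    ∃ r1 : ℝ, 0 < r1 ∧ ∀ r : ℝ, 0 < r → r ≤ r1 →
      (∀ y : V3, y ⬝ᵥ y = 1 → IsPosOp (qk r (kapM d) y)) ∧
        CoordMain (GE (hBL d) (cAL d) (qk r (kapM d))) :=
  coord_of_blocks hM2 regGPStmt loce polar pulleStmt hL

/-- **COORD**, everything but M2 and LINK. -/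
theorem coord_of_M2_LINK (hM2 : M2Stmt) {d : ℝ} (hL : LinkStmt (hBL d) (cAL d) (kapM d)) :
    ∃ r1 : ℝ, 0 < r1 ∧ ∀ r : ℝ, 0 < r → r ≤ r1 →
      CoordMain (GE (hBL d) (cAL d) (qk r (kapM d))) := by
  obtain ⟨r1, hr1, h⟩ := coordMain_of_M2_link hM2 hL
  exact ⟨r1, hr1, fun r hr hrr => (h r hr hrr).2⟩

/-- One value of `r`, at most `1 / 20`. -/
theorem exists_coordMain (hM2 : M2Stmt) {d : ℝ} (hL : LinkStmt (hBL d) (cAL d) (kapM d)) :
    ∃ r : ℝ, 0 < r ∧ r ≤ 1 / 20 ∧ CoordMain (GE (hBL d) (cAL d) (qk r (kapM d))) := by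
  obtain ⟨r1, hr1, h⟩ := coord_of_M2_LINK hM2 hL
  exact ⟨min r1 (1 / 20), lt_min hr1 (by norm_num), min_le_right _ _,
    h _ (lt_min hr1 (by norm_num)) (min_le_left _ _)⟩

end Pool.Agent.HS

end
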