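import Pool.Agent.H94.PT.HS.M2X
import Pool.Agent.H94.PT.M18
import Pool.Agent.H94.PT.M19
import Pool.Agent.H94.PT.M21
import Pool.Agent.H94.PT.M24
import Pool.Agent.H94.PT.M25
import Pool.Agent.H94.PT.M26
import Pool.Agent.H94.PT.M31

/-! The parts of this file: HS.LkMain, HS.CoordEnd, HS.Main. -/

section

set_option maxSynthPendingDepth 3

/-!
# LINK: the data `hBL d`, `cAL d`, `kapM d` satisfy `LinkStmt` for all small `d > 0`
-/

namespace Pool.Agent.HS

open Matrix Filter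
open scoped Topology ContDiff

noncomputable section

namespace LkMain

variable {d : ℝ} {y : V3} {l : V2 →L[ℝ] V3}

theorem adapted_jetD (hd : |d| < 1) (h : Fr d y l) :
    Adapted (pull (hBL d) (Yc d y l)) (gA (cAL d) (Yc d y l) (nb d y l)) (kT d y l)
      (jetD (d, y, l)) where
  h_smooth := Eventually.of_forall fun u => hT_smooth hd h.unit u
  A_smooth := Eventually.of_forall fun u => AT_smooth hd h.unit u
  κ_smooth a b := Eventually.of_forall fun u => (kT_contDiff a b).contDiffAt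
  h_inner := hT_inner hd h
  κ_symm := Eventually.of_forall fun u => kT_symm u
  h0 := hT_zero_of_Fr hd h
  dh := hT_fderiv_zero h (Dl_pos hd h.unit).ne'
  A0 := AT_zero hd h
  dA x := AT_fderiv_self hd h x
  K := (jetD_K (d, y, l)).symm
  ρ := (jetD_ρ (d, y, l)).symm
  Dρ i := (jetD_Dρ (d, y, l) i).symm
  κ0 := (jetD_κ (d, y, l)).symm
  κ1 i a b := (jetD_κ1 (d, y, l) i a b).symm
  κ2 i j a b := (jetD_κ2 (d, y, l) i j a b).symm

theorem linkAt_jetD (hd : |d| < 1) (h : Fr d y l) {𝒦 : Set PD} (hm : jetD (d, y, l) ∈ 𝒦) :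
    LinkAt (hBL d) (cAL d) (kapM d) 𝒦 y (Yc d y l) (nb d y l) (kT d y l) (jetD (d, y, l)) where
  Y_smooth := Eventually.of_forall fun _ => Yc_contDiff.contDiffAt
  b_smooth := Eventually.of_forall fun _ => nb_contDiff.contDiffAt
  Y_zero := Yc_zero
  Y_unit := Eventually.of_forall fun u => Yc_unit h.unit u
  Y_inj := Yc_inj hd h
  b_zero := nb_zero
  mem := hm
  adapted := adapted_jetD hd h
  kappa r := Eventually.of_forall fun u => qk_kT r u

end LkMain

open LkMain

/-- Block LINK: for all small `d > 0` the explicit data satisfy `LinkStmt`. -/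
theorem link_main : ∃ d1 : ℝ, 0 < d1 ∧ d1 < 1 ∧
    ∀ d : ℝ, 0 < d → d < d1 → LinkStmt (hBL d) (cAL d) (kapM d) := by
  obtain ⟨d0, δ, hd0, hd0', hδ, -, H⟩ := GPos_uniform
  obtain ⟨δ2, hδ2, hδ2', H2⟩ := eventually_jetD_close (f := fun P : FP =>
    Rm (hT P.1 P.2.1 P.2.2) 0 e0 e1) KF_jetK (c := 1) (fun P hP => by
      obtain ⟨hP1, hP2⟩ := hP
      rw [hP1] at hP2
      rw [hP1]
      exact Rm_hT_zero hP2) hδ
  refine ⟨min d0 δ2, lt_min hd0 hδ2, (min_le_left _ _).trans_lt hd0', fun d hd hdm => ?_⟩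
  have hdd0 : d < d0 := hdm.trans_le (min_le_left _ _)
  have hdδ2 : d < δ2 := hdm.trans_le (min_le_right _ _)
  have hd1 : |d| < 1 := by rw [abs_of_pos hd]; linarith
  have hd12 : |d| ≤ 1 / 2 := by rw [abs_of_pos hd]; linarith
  have hd2 : 1 - d ^ 2 ≠ 0 := by
    have h1 : d < 1 := by linarith
    have h2 : 0 < (1 - d) * (1 + d) := mul_pos (by linarith) (by linarith)
    have h3 : 1 - d ^ 2 = (1 - d) * (1 + d) := by ring
    rw [h3]
    exact h2.ne'
  refine ⟨jetD '' KFd d, isCompact_jetD hd12, ?_, ?_⟩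
  · rintro D ⟨P, hP, rfl⟩
    obtain ⟨d', y, l⟩ := P
    obtain ⟨hP1, hP2⟩ := hP
    change d' = d at hP1
    subst hP1
    change Fr d' y l at hP2
    have hD : Dl d' y ≠ 0 := (Dl_pos hd1 hP2.unit).ne'
    have hK := H2 d' (by rw [abs_of_pos hd]; exact hdδ2) (d', y, l) ⟨rfl, hP2⟩
    exact H d' hd hdd0 (jetD (d', y, l)).K hK.le y l hP2 (jetD (d', y, l)) rfl
      (fun n => by rw [jetD_ρ]; exact FA_AT_zero_sq hP2 hD hd2 n)
      (fun v n => sum_fderiv_FA_AT_sq hP2 hD hd2 n v)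
      (fun v n => kap2_of_dd (fun i j a b => rfl) v n)
  · intro y0 hy0
    obtain ⟨l, hl⟩ := exists_Fr hd1 hy0
    exact ⟨Yc d y0 l, nb d y0 l, kT d y0 l, jetD (d, y0, l),
      linkAt_jetD hd1 hl ⟨(d, y0, l), ⟨rfl, hl⟩, rfl⟩⟩

end

end Pool.Agent.HS

end

section

/-!
# Block COORD, end: the coordinate statement without hypotheses
-/

namespace Pool.Agent.HS

/-- For some `0 < d < 1` and `0 < r ≤ 1 / 20` the ambient metric `GE (hBL d) (cAL d) (qk r (kapM d))`
has the curvature properties `CoordMain`. -/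
theorem hs_coord : ∃ d r : ℝ, 0 < d ∧ d < 1 ∧ 0 < r ∧ r ≤ 1 / 20 ∧
    CoordMain (GE (hBL d) (cAL d) (qk r (kapM d))) := by
  obtain ⟨d1, h0, h1, h⟩ := link_main
  obtain ⟨r, hr, hr1, hC⟩ := exists_coordMain m2Stmt (h (d1 / 2) (by linarith) (by linarith))
  exact ⟨d1 / 2, r, by linarith, by linarith, hr, hr1, hC⟩

end Pool.Agent.HS

end

section

set_option autoImplicit false
set_option maxSynthPendingDepth 3

/-!
# The metric on `S² × ℝ³` with positively curved distance spheres (project HS, MP_55c470_gt)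
-/

noncomputable section

namespace Pool.Agent.HS

/-- There is a metric on `S² × ℝ³` with all the properties of the main theorem. -/
theorem exists_hasPositiveTubes : ∃ g : MetricE, HasPositiveTubes g := by
  obtain ⟨d, r, hd, hd1, hr, hr1, hC⟩ := hs_coord
  exact ⟨_, hasPositiveTubes_gAmb (isAmb_data_small hd hd1 hr hr1) hC⟩

end Pool.Agent.HS

end
end
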